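import Pool.Agent.H44.TW.Defs
import Pool.Agent.H44.PC.Defs

/-!
# Representations attached to a system of Hecke eigenvalues, quadratic extensions: definitions
-/

set_option autoImplicit false

open NumberField Matrix Polynomial
open Pool.Agent.H44.PC

namespace Pool.Agent.H44.TW

variable {K : Type} [NontriviallyNormedField K] {L : Type} [NontriviallyNormedField L] [NormedAlgebra K L]
  {E : Subfield ℂ}

/-- `ρ` is a continuous representation of `G_F` over `K ⊂ L` with Frobenius polynomials `X² - t(v) X + N v` along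
`ι : E → L`, at the primes `v` not dividing `p` for which `good v` -/
structure Att (ι : E →+* L) (p : ℕ) {F : IntermediateField ℚ (AlgebraicClosure ℚ)} [NumberField F]
    (good : Ideal (𝓞 F) → Prop) (t : Ideal (𝓞 F) → ℂ)
    (ρ : F.fixingSubgroup →* Matrix (Fin 2) (Fin 2) K) : Prop where
  cont : Continuous ρ
  frob : ∀ v : Ideal (𝓞 F), v.IsPrime → v ≠ ⊥ → good v → (p : 𝓞 F) ∉ v → ∀ g : F.fixingSubgroup, IsFrob v g →
    ∃ x : E, (x : ℂ) = t v ∧
      (ρ g).charpoly.map (algebraMap K L) = X ^ 2 - C (ι x) * X + C ((Ideal.absNorm v : ℕ) : L)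

section two

variable {F₀ F : IntermediateField ℚ (AlgebraicClosure ℚ)} [NumberField F₀] [NumberField F]

/-- the inclusion of the rings of integers -/
noncomputable def incl (h : F₀ ≤ F) : 𝓞 F₀ →+* 𝓞 F :=
  RingOfIntegers.mapRingHom (IntermediateField.inclusion h).toRingHom

/-- the inclusion of the Galois groups -/
noncomputable def sub (h : F₀ ≤ F) : F.fixingSubgroup →* F₀.fixingSubgroup :=
  Subgroup.inclusion (IntermediateField.fixingSubgroup_le h)

/-- `v` is unramified in `F` -/
def Unr (h : F₀ ≤ F) (v : Ideal (𝓞 F₀)) : Prop :=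
  ∀ w : Ideal (𝓞 F), w.IsPrime → w.comap (incl h) = v → ¬ v.map (incl h) ≤ w ^ 2

end two

end Pool.Agent.H44.TW
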