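import Pool.Agent.H44.PC.Frob
import Pool.Agent.H44.PC.Defs
import Pool.Agent.H44.PC.Dens

/-!
# Existence of Frobenius elements over a number field
-/

set_option autoImplicit false
set_option linter.style.haveILetI false

open NumberField
open scoped Pointwise
open Pool.Agent.H44.PC

namespace Pool.Agent.H44.TW

noncomputable section

variable {F : IntermediateField ℚ (AlgebraicClosure ℚ)} [NumberField F]

instance compact_fix : CompactSpace F.fixingSubgroup := by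
  have h : IsClosed (F.fixingSubgroup : Set ((AlgebraicClosure ℚ) ≃ₐ[ℚ] (AlgebraicClosure ℚ))) :=
    InfiniteGalois.fixingSubgroup_isClosed F
  exact isCompact_iff_compactSpace.1 h.isCompact

instance invariant_fix : Algebra.IsInvariant (𝓞 F) (𝓞 (AlgebraicClosure ℚ)) F.fixingSubgroup where
  isInvariant b hb := by
    have h1 : ∀ g ∈ F.fixingSubgroup, g (b : (AlgebraicClosure ℚ)) = b := by
      intro g hg
      have := congrArg (fun z : 𝓞 (AlgebraicClosure ℚ) => (z : (AlgebraicClosure ℚ))) (hb ⟨g, hg⟩)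
      exact this
    have h2 : (b : (AlgebraicClosure ℚ)) ∈ F := by
      have h3 : (b : (AlgebraicClosure ℚ)) ∈ IntermediateField.fixedField F.fixingSubgroup := fun g => h1 g.1 g.2
      rwa [InfiniteGalois.fixedField_fixingSubgroup] at h3
    have h3 : IsIntegral ℤ (⟨(b : (AlgebraicClosure ℚ)), h2⟩ : F) := by
      have h4 : IsIntegral ℤ (algebraMap F (AlgebraicClosure ℚ) ⟨(b : (AlgebraicClosure ℚ)), h2⟩) := b.isIntegral_coe
      exact (isIntegral_algebraMap_iff (algebraMap F (AlgebraicClosure ℚ)).injective).1 h4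
    exact ⟨⟨_, h3⟩, RingOfIntegers.coe_injective rfl⟩

instance comm_fix : SMulCommClass F.fixingSubgroup (𝓞 F) (𝓞 (AlgebraicClosure ℚ)) where
  smul_comm g a x := by
    apply RingOfIntegers.coe_injective
    show (g : (AlgebraicClosure ℚ) ≃ₐ[ℚ] (AlgebraicClosure ℚ)) ((a : F) * (x : (AlgebraicClosure ℚ))) =
      (a : F) * (g : (AlgebraicClosure ℚ) ≃ₐ[ℚ] (AlgebraicClosure ℚ)) (x : (AlgebraicClosure ℚ))
    rw [map_mul]
    congr 1
    exact (IntermediateField.mem_fixingSubgroup_iff _ _).1 g.2 _ (a : F).2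

theorem exists_isFrob {v : Ideal (𝓞 F)} (hv : v.IsPrime) (h0 : v ≠ ⊥) : ∃ g : F.fixingSubgroup, IsFrob v g := by
  letI : TopologicalSpace (𝓞 (AlgebraicClosure ℚ)) := ⊥
  haveI : DiscreteTopology (𝓞 (AlgebraicClosure ℚ)) := ⟨rfl⟩
  haveI : ContinuousSMul ((AlgebraicClosure ℚ) ≃ₐ[ℚ] (AlgebraicClosure ℚ)) (𝓞 (AlgebraicClosure ℚ)) := contSMul
  haveI : ContinuousSMul F.fixingSubgroup (𝓞 (AlgebraicClosure ℚ)) := by
    constructor
    have h : Continuous fun q : ((AlgebraicClosure ℚ) ≃ₐ[ℚ] (AlgebraicClosure ℚ)) × 𝓞 (AlgebraicClosure ℚ) => q.1 • q.2 :=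
      continuous_smul
    exact h.comp (Continuous.prodMk (continuous_subtype_val.comp continuous_fst) continuous_snd)
  obtain ⟨P, hP, hPv⟩ := Ideal.exists_ideal_over_prime_of_isIntegral v (⊥ : Ideal (𝓞 (AlgebraicClosure ℚ))) (by
    intro x hx
    rw [Ideal.mem_comap, Ideal.mem_bot] at hx
    have : x = 0 := by
      have h5 : Function.Injective (algebraMap (𝓞 F) (𝓞 (AlgebraicClosure ℚ))) :=
        FaithfulSMul.algebraMap_injective _ _
      exact (map_eq_zero_iff _ h5).1 hx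
    rw [this]
    exact v.zero_mem)
  have hPv' : P.comap (algebraMap (𝓞 F) (𝓞 (AlgebraicClosure ℚ))) = v := hPv.2
  have hmax : v.IsMaximal := hv.isMaximal h0
  obtain ⟨ℓ, f, _, hℓv, hℓ, hf⟩ := Ideal.exists_prime_and_absNorm_eq_pow v
  haveI : Fact ℓ.Prime := ⟨hℓ⟩
  have hℓP : (ℓ : 𝓞 (AlgebraicClosure ℚ)) ∈ P := by
    have h5 : (ℓ : 𝓞 F) ∈ P.comap (algebraMap (𝓞 F) (𝓞 (AlgebraicClosure ℚ))) := by
      rw [hPv']
      exact hℓv
    rwa [Ideal.mem_comap, map_natCast] at h5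
  haveI : P.IsPrime := hPv.1
  haveI : CharP (𝓞 (AlgebraicClosure ℚ) ⧸ P) ℓ := by
    have h1 : ((ℓ : ℕ) : 𝓞 (AlgebraicClosure ℚ) ⧸ P) = 0 := by
      rw [← map_natCast (Ideal.Quotient.mk P), Ideal.Quotient.eq_zero_iff_mem]
      exact hℓP
    exact (CharP.charP_iff_prime_eq_zero hℓ).2 h1
  haveI : PerfectRing (𝓞 (AlgebraicClosure ℚ) ⧸ P) ℓ := by
    refine PerfectRing.ofSurjective (𝓞 (AlgebraicClosure ℚ) ⧸ P) ℓ fun x => ?_
    obtain ⟨x, rfl⟩ := Ideal.Quotient.mk_surjective x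
    obtain ⟨y, hy⟩ := IsAlgClosed.exists_pow_nat_eq (x : (AlgebraicClosure ℚ)) hℓ.pos
    have hy2 : IsIntegral ℤ y := by
      refine IsIntegral.of_pow hℓ.pos ?_
      rw [hy]
      exact x.isIntegral_coe
    refine ⟨Ideal.Quotient.mk P ⟨y, hy2⟩, ?_⟩
    rw [frobenius_def, ← map_pow]
    congr 1
    apply RingOfIntegers.coe_injective
    exact hy
  have hcard : ∀ x : 𝓞 F, x ^ ℓ ^ f - x ∈ v := by
    intro x
    rw [← Ideal.Quotient.eq, map_pow]
    letI : Field (𝓞 F ⧸ v) := Ideal.Quotient.field v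
    haveI : Finite (𝓞 F ⧸ v) := Ideal.finiteQuotientOfFreeOfNeBot v h0
    letI : Fintype (𝓞 F ⧸ v) := Fintype.ofFinite _
    have h6 : Fintype.card (𝓞 F ⧸ v) = ℓ ^ f := by
      rw [← hf, Ideal.absNorm_apply, Submodule.cardQuot_apply, Nat.card_eq_fintype_card]
    rw [← h6]
    exact FiniteField.pow_card _
  let l : (𝓞 (AlgebraicClosure ℚ) ⧸ P) ≃ₐ[𝓞 F ⧸ P.under (𝓞 F)] 𝓞 (AlgebraicClosure ℚ) ⧸ P :=
    { __ := iterateFrobeniusEquiv (𝓞 (AlgebraicClosure ℚ) ⧸ P) ℓ f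
      commutes' := by
        intro r
        obtain ⟨n, rfl⟩ := Ideal.Quotient.mk_surjective r
        show iterateFrobeniusEquiv (𝓞 (AlgebraicClosure ℚ) ⧸ P) ℓ f
          ((Ideal.Quotient.mk P) (algebraMap (𝓞 F) (𝓞 (AlgebraicClosure ℚ)) n)) =
          (Ideal.Quotient.mk P) (algebraMap (𝓞 F) (𝓞 (AlgebraicClosure ℚ)) n)
        rw [coe_iterateFrobeniusEquiv, iterateFrobenius_def, ← map_pow, ← map_pow, Ideal.Quotient.eq, ← map_sub]
        have h7 : n ^ ℓ ^ f - n ∈ P.comap (algebraMap (𝓞 F) (𝓞 (AlgebraicClosure ℚ))) := by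
          rw [hPv']
          exact hcard n
        exact h7 }
  obtain ⟨σ, hσ⟩ := Ideal.Quotient.stabilizerHom_surjective_of_profinite (G := F.fixingSubgroup) (P.under (𝓞 F)) P l
  refine ⟨σ, P, hPv.1, hPv', fun x => ?_⟩
  rw [← Ideal.Quotient.eq, hf]
  have h1 := DFunLike.congr_fun hσ (Ideal.Quotient.mk P x)
  exact h1

end

end Pool.Agent.H44.TW
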