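import Pool.Agent.H44.TW.Defs

/-!
# Totally positive elements, quotients of ideals, trace and norm
-/

set_option autoImplicit false

open NumberField

namespace Pool.Agent.H44.TW

variable {F : Type} [Field F] [NumberField F]

theorem TPos.mul {x y : F} (hx : TPos x) (hy : TPos y) : TPos (x * y) := fun σ => by
  rw [map_mul]
  exact mul_pos (hx σ) (hy σ)

theorem TPos.inv {x : F} (hx : TPos x) : TPos x⁻¹ := fun σ => by
  rw [map_inv₀]
  exact inv_pos.2 (hx σ)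

private theorem mem_quo {b : Ideal (𝓞 F)} {ν x : 𝓞 F} :
    x ∈ quo b ν ↔ ∀ p ∈ b, x * p ∈ Ideal.span {ν} := by
  unfold quo
  rw [Submodule.mem_colon]
  rfl

private theorem quo_eq_aux {b m : Ideal (𝓞 F)} (hb : b ≠ ⊥) {ν : 𝓞 F} (h : m * b = Ideal.span {ν}) :
    quo b ν = m := by
  apply le_antisymm
  · intro x hx
    rw [mem_quo] at hx
    have h1 : Ideal.span {x} * b ≤ m * b := by
      rw [h, Ideal.mul_le]
      intro r hr s hs
      obtain ⟨a, rfl⟩ := Ideal.mem_span_singleton'.1 hr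
      rw [mul_assoc]
      exact Ideal.mul_mem_left _ _ (hx s hs)
    have h2 : m * b ∣ Ideal.span {x} * b := Ideal.dvd_iff_le.2 h1
    have h3 : m ∣ Ideal.span {x} := (mul_dvd_mul_iff_right hb).1 h2
    exact Ideal.dvd_iff_le.1 h3 (Ideal.mem_span_singleton_self x)
  · intro x hx
    rw [mem_quo]
    intro p hp
    rw [← h]
    exact Ideal.mul_mem_mul hx hp

theorem quo_mul {b : Ideal (𝓞 F)} {ν : 𝓞 F} (hν : ν ∈ b) (h0 : ν ≠ 0) : quo b ν * b = Ideal.span {ν} := by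
  have hb : b ≠ ⊥ := by
    rintro rfl
    exact h0 (by simpa using hν)
  have hle : Ideal.span {ν} ≤ b := by
    rw [Ideal.span_singleton_le_iff_mem]
    exact hν
  obtain ⟨c, hc⟩ := Ideal.dvd_iff_le.2 hle
  have h1 : c * b = Ideal.span {ν} := by rw [hc, mul_comm]
  rw [quo_eq_aux hb h1, h1]

theorem quo_eq {b m : Ideal (𝓞 F)} (hb : b ≠ ⊥) {ν : 𝓞 F} (h : m * b = Ideal.span {ν}) : quo b ν = m :=
  quo_eq_aux hb h

section real

variable [IsTotallyReal F]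

/-- real embeddings are the same as complex embeddings -/
private noncomputable def embEquiv : (F →+* ℝ) ≃ (F →+* ℂ) where
  toFun σ := Complex.ofRealHom.comp σ
  invFun φ := (IsTotallyReal.complexEmbedding_isReal φ).embedding
  left_inv σ := by
    ext x
    have := NumberField.ComplexEmbedding.IsReal.coe_embedding_apply
      (IsTotallyReal.complexEmbedding_isReal (Complex.ofRealHom.comp σ)) x
    exact Complex.ofReal_injective (by simpa using this)
  right_inv φ := by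
    ext x
    exact NumberField.ComplexEmbedding.IsReal.coe_embedding_apply
      (IsTotallyReal.complexEmbedding_isReal φ) x

private theorem embEquiv_apply (σ : F →+* ℝ) (x : F) : embEquiv σ x = ((σ x : ℝ) : ℂ) := rfl

theorem card_emb : Fintype.card (F →+* ℝ) = Module.finrank ℚ F := by
  rw [← NumberField.Embeddings.card F ℂ]
  exact Fintype.card_congr embEquiv

instance nonempty_emb : Nonempty (F →+* ℝ) := by
  rw [← Fintype.card_pos_iff, card_emb]
  exact Module.finrank_pos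

theorem TPos.ne_zero {x : F} (hx : TPos x) : x ≠ 0 := by
  rintro rfl
  obtain ⟨σ⟩ := (inferInstance : Nonempty (F →+* ℝ))
  have := hx σ
  rw [map_zero] at this
  exact lt_irrefl _ this

theorem sum_emb (x : F) : ∑ σ : F →+* ℝ, σ x = ((Algebra.trace ℚ F x : ℚ) : ℝ) := by
  have h1 : algebraMap ℚ ℂ (Algebra.trace ℚ F x) = ∑ σ : F →ₐ[ℚ] ℂ, σ x := trace_eq_sum_embeddings ℂ
  have h2 : ∑ σ : F →ₐ[ℚ] ℂ, σ x = ∑ φ : F →+* ℂ, φ x :=
    (Fintype.sum_equiv (RingHom.equivRatAlgHom F ℂ) _ _ (fun _ => rfl)).symm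
  have h3 : ∑ φ : F →+* ℂ, φ x = ∑ σ : F →+* ℝ, ((σ x : ℝ) : ℂ) :=
    (Fintype.sum_equiv embEquiv _ _ (fun _ => rfl)).symm
  apply Complex.ofReal_injective
  rw [Complex.ofReal_sum, ← h3, ← h2, ← h1]
  simp

theorem prod_emb (x : F) : ∏ σ : F →+* ℝ, σ x = ((Algebra.norm ℚ x : ℚ) : ℝ) := by
  have h1 : algebraMap ℚ ℂ (Algebra.norm ℚ x) = ∏ σ : F →ₐ[ℚ] ℂ, σ x := Algebra.norm_eq_prod_embeddings ℚ ℂ x
  have h2 : ∏ σ : F →ₐ[ℚ] ℂ, σ x = ∏ φ : F →+* ℂ, φ x :=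
    (Fintype.prod_equiv (RingHom.equivRatAlgHom F ℂ) _ _ (fun _ => rfl)).symm
  have h3 : ∏ φ : F →+* ℂ, φ x = ∏ σ : F →+* ℝ, ((σ x : ℝ) : ℂ) :=
    (Fintype.prod_equiv embEquiv _ _ (fun _ => rfl)).symm
  apply Complex.ofReal_injective
  rw [Complex.ofReal_prod, ← h3, ← h2, ← h1]
  simp

/-- the trace of a totally positive integer is at least one -/
theorem one_le_sum {ν : 𝓞 F} (h : TPos (ν : F)) : 1 ≤ ∑ σ : F →+* ℝ, σ (ν : F) := by
  have hpos : 0 < ∑ σ : F →+* ℝ, σ (ν : F) := Finset.sum_pos (fun σ _ => h σ) Finset.univ_nonempty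
  rw [sum_emb] at hpos ⊢
  have hint : Algebra.trace ℚ F (ν : F) = ((Algebra.trace ℤ (𝓞 F) ν : ℤ) : ℚ) :=
    (Algebra.coe_trace_int ν).symm
  rw [hint] at hpos ⊢
  have h1 : (0 : ℝ) < ((Algebra.trace ℤ (𝓞 F) ν : ℤ) : ℝ) := by exact_mod_cast hpos
  have h2 : (1 : ℤ) ≤ Algebra.trace ℤ (𝓞 F) ν := by
    have : (0 : ℤ) < Algebra.trace ℤ (𝓞 F) ν := by exact_mod_cast h1
    omega
  have h3 : (1 : ℝ) ≤ ((Algebra.trace ℤ (𝓞 F) ν : ℤ) : ℝ) := by exact_mod_cast h2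
  exact_mod_cast h3

/-- the norm of a totally positive integer -/
theorem prod_eq_absNorm {ν : 𝓞 F} (h : TPos (ν : F)) :
    ∏ σ : F →+* ℝ, σ (ν : F) = (Ideal.absNorm (Ideal.span {ν}) : ℝ) := by
  have hpos : 0 < ∏ σ : F →+* ℝ, σ (ν : F) := Finset.prod_pos (fun σ _ => h σ)
  rw [prod_emb] at hpos ⊢
  have hint : Algebra.norm ℚ (ν : F) = ((Algebra.norm ℤ ν : ℤ) : ℚ) := (Algebra.coe_norm_int ν).symm
  rw [hint] at hpos ⊢
  have h1 : (0 : ℝ) < ((Algebra.norm ℤ ν : ℤ) : ℝ) := by exact_mod_cast hpos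
  have h2 : (0 : ℤ) < Algebra.norm ℤ ν := by exact_mod_cast h1
  rw [Ideal.absNorm_span_singleton]
  have h3 : ((Algebra.norm ℤ ν).natAbs : ℤ) = Algebra.norm ℤ ν := Int.natAbs_of_nonneg h2.le
  have h4 : (((Algebra.norm ℤ ν).natAbs : ℤ) : ℝ) = ((Algebra.norm ℤ ν : ℤ) : ℝ) := by rw [h3]
  rw [Int.cast_natCast] at h4
  rw [h4]
  norm_cast

end real

end Pool.Agent.H44.TW
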