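import Mathlib

/-!
# Hilbert newforms over a totally real field, given by their Hecke eigenvalues: definitions
-/

set_option autoImplicit false

open NumberField

namespace Pool.Agent.H44.TW

variable {F : Type} [Field F] [NumberField F]

/-- `x` is totally positive -/
def TPos (x : F) : Prop := ∀ σ : F →+* ℝ, 0 < σ x

/-- the totally positive elements of the ideal `b` of the ring of integers of `F` -/
abbrev Pos (b : Ideal (𝓞 F)) : Type := {ν : 𝓞 F // ν ∈ b ∧ TPos (ν : F)}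

/-- the ideal `(ν) / b` -/
noncomputable def quo (b : Ideal (𝓞 F)) (ν : 𝓞 F) : Ideal (𝓞 F) :=
  Submodule.colon (Ideal.span {ν}) (b : Set (𝓞 F))

/-- the points of the product of upper half planes -/
def Up (z : (F →+* ℝ) → ℂ) : Prop := ∀ σ, 0 < (z σ).im

/-- the term `C((ν)/b) ∏ σ(ν)^{k_σ/2-1} exp(2πi ∑ σ(ν) z_σ)` -/
noncomputable def term (k : (F →+* ℝ) → ℕ) (C : Ideal (𝓞 F) → ℂ) (b : Ideal (𝓞 F)) (z : (F →+* ℝ) → ℂ)
    (ν : Pos b) : ℂ :=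
  C (quo b ν) * (∏ σ : F →+* ℝ, ((σ (ν.1 : F) : ℝ) : ℂ) ^ (k σ / 2 - 1)) *
    Complex.exp (2 * Real.pi * Complex.I * ∑ σ : F →+* ℝ, ((σ (ν.1 : F) : ℝ) : ℂ) * z σ)

/-- the function `∑_{ν ∈ b, ν ≫ 0} C((ν)/b) ∏ σ(ν)^{k_σ/2-1} exp(2πi ∑ σ(ν) z_σ)` -/
noncomputable def form (k : (F →+* ℝ) → ℕ) (C : Ideal (𝓞 F) → ℂ) (b : Ideal (𝓞 F)) (z : (F →+* ℝ) → ℂ) : ℂ :=
  ∑' ν : Pos b, term k C b z ν

/-- the properties of a Hilbert newform of level `n`, weights `k_σ`, trivial character, Fricke eigenvalue `w` and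
coefficients `C` (normalised as for weight two) which are used. The numbers `C v`, `v` prime, are the Hecke eigenvalues -/
structure HNew (k : (F →+* ℝ) → ℕ) (n : Ideal (𝓞 F)) (w : ℂ) (bad : Ideal (𝓞 F)) (C : Ideal (𝓞 F) → ℂ) : Prop where
  one : C ⊤ = 1
  hecke : ∀ v : Ideal (𝓞 F), v.IsPrime → v ≠ ⊥ → ∃ e : ℂ,
    (¬ bad ≤ v → e = (Ideal.absNorm v : ℂ)) ∧
    (bad ≤ v → 1 - C v / (Ideal.absNorm v : ℂ) + e / (Ideal.absNorm v : ℂ) ^ 2 ≠ 0) ∧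
    (∀ m : Ideal (𝓞 F), m ≠ ⊥ → ¬ m ≤ v → C (v * m) = C v * C m) ∧
    ∀ m : Ideal (𝓞 F), m ≠ ⊥ → C (v * (v * m)) + e * C m = C v * C (v * m)
  conv : ∀ b : Ideal (𝓞 F), b ≠ ⊥ → ∀ z : (F →+* ℝ) → ℂ, Up z → Summable (term k C b z)
  cusp : ∀ b : Ideal (𝓞 F), b ≠ ⊥ → ∃ B : ℝ, ∀ z : (F →+* ℝ) → ℂ, Up z →
    ‖form k C b z‖ * ∏ σ : F →+* ℝ, (z σ).im ^ (k σ / 2) ≤ B
  fricke : ∀ b b' : Ideal (𝓞 F), b ≠ ⊥ → b' ≠ ⊥ → ∀ x : 𝓞 F, TPos (x : F) →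
    b * b' * (differentIdeal ℤ (𝓞 F)) ^ 2 * n = Ideal.span {x} → ∀ z : (F →+* ℝ) → ℂ, Up z →
      (Ideal.absNorm b : ℂ) * form k C b (fun σ => -1 / (((σ (x : F) : ℝ) : ℂ) * z σ)) =
        w * (∏ σ : F →+* ℝ, ((σ (x : F) : ℝ) : ℂ) ^ (k σ / 2) * z σ ^ k σ) *
          ((Ideal.absNorm b' : ℂ) * form k C b' z)

/-- the primes not dividing `bad` -/
abbrev Good (bad : Ideal (𝓞 F)) : Type := {v : Ideal (𝓞 F) // v.IsPrime ∧ v ≠ ⊥ ∧ ¬ bad ≤ v}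

variable {M : Type} [Field M] [NumberField M]

/-- the prime `v` of `F` has a prime of the same norm above it -/
def Splits (i : 𝓞 F →+* 𝓞 M) (v : Ideal (𝓞 F)) : Prop :=
  ∃ w : Ideal (𝓞 M), w.IsPrime ∧ w.comap i = v ∧ Ideal.absNorm w = Ideal.absNorm v

open Classical in
/-- the quadratic character of the extension, at a prime -/
noncomputable def chi (i : 𝓞 F →+* 𝓞 M) (v : Ideal (𝓞 F)) : ℤ := if Splits i v then 1 else -1

open Classical in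
/-- the eigenvalue at `w` of the base change -/
noncomputable def tBC (i : 𝓞 F →+* 𝓞 M) (C : Ideal (𝓞 F) → ℂ) (w : Ideal (𝓞 M)) : ℂ :=
  if Ideal.absNorm w = Ideal.absNorm (w.comap i) then C (w.comap i)
  else C (w.comap i) ^ 2 - 2 * (Ideal.absNorm (w.comap i) : ℂ)

/-- the primes of `M` above the primes not dividing `bad` -/
abbrev GoodM (i : 𝓞 F →+* 𝓞 M) (bad : Ideal (𝓞 F)) : Type :=
  {w : Ideal (𝓞 M) // w.IsPrime ∧ w ≠ ⊥ ∧ ¬ bad ≤ w.comap i}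

end Pool.Agent.H44.TW
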