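import Pool.Agent.H44.TW.Arith

/-!
# Hecke's bound for the coefficients of a cusp form
-/

set_option autoImplicit false

open NumberField

namespace Pool.Agent.H44.TW

variable {F : Type} [Field F] [NumberField F] [IsTotallyReal F] {k : (F →+* ℝ) → ℕ} {C : Ideal (𝓞 F) → ℂ}

omit [IsTotallyReal F] in
/-- a real number which is not a conjugate of an element of the field -/
private theorem exists_delta (τ : F →+* ℝ) : ∃ δ : ℝ, ∀ x : F, τ x ≠ δ := by
  by_contra h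
  push Not at h
  have h1 : Function.Surjective τ := h
  have h3 : Countable F := (Module.finBasis ℚ F).equivFun.injective.countable
  have h2 : Countable ℝ := h1.countable
  exact Cardinal.not_countable_real (Set.countable_univ_iff.2 h2)

/-- means of powers of a number of absolute value one -/
private theorem tendsto_mean {r : ℂ} (hr : ‖r‖ = 1) (h1 : r ≠ 1) :
    Filter.Tendsto (fun N : ℕ => (∑ j ∈ Finset.range N, r ^ j) / (N : ℂ)) Filter.atTop (nhds 0) := by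
  have h2 : ∀ N : ℕ, ‖∑ j ∈ Finset.range N, r ^ j‖ ≤ 2 / ‖r - 1‖ := by
    intro N
    rw [geom_sum_eq h1, norm_div]
    have h3 : ‖r ^ N - 1‖ ≤ 2 := by
      refine (norm_sub_le _ _).trans ?_
      rw [norm_pow, hr, one_pow, norm_one]
      norm_num
    exact div_le_div_of_nonneg_right h3 (norm_nonneg _)
  refine squeeze_zero_norm (a := fun N : ℕ => 2 / ‖r - 1‖ / (N : ℝ)) ?_ (tendsto_const_div_atTop_nhds_zero_nat _)
  intro N
  rw [norm_div, Complex.norm_natCast]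
  exact div_le_div_of_nonneg_right (h2 N) (Nat.cast_nonneg _)

/-- the coefficients of an absolutely convergent sum of characters are bounded by the sup norm -/
private theorem coeff_le {ι : Type} (T : ι → ℂ) (hT : Summable T) (θ : ι → ℂ) (hθ : ∀ i, ‖θ i‖ = 1)
    (i₀ : ι) (hne : ∀ i, i ≠ i₀ → θ i ≠ θ i₀) {M : ℝ}
    (hM : ∀ j : ℕ, ‖∑' i, T i * θ i ^ j‖ ≤ M) : ‖T i₀‖ ≤ M := by
  classical
  have hn : Summable fun i => ‖T i‖ := hT.norm
  have h0 : ∀ i, θ i ≠ 0 := fun i => by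
    intro h
    have := hθ i
    rw [h, norm_zero] at this
    exact zero_ne_one this
  set c : ℕ → ι → ℂ := fun N i => (∑ j ∈ Finset.range N, (θ i / θ i₀) ^ j) / (N : ℂ) with hc
  have hr : ∀ i, ‖θ i / θ i₀‖ = 1 := fun i => by rw [norm_div, hθ, hθ, div_one]
  have hc1 : ∀ N i, ‖c N i‖ ≤ 1 := by
    intro N i
    rw [hc]
    simp only
    rw [norm_div, Complex.norm_natCast]
    refine div_le_one_of_le₀ ?_ (Nat.cast_nonneg _)
    refine (norm_sum_le _ _).trans ?_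
    have : ∀ j ∈ Finset.range N, ‖(θ i / θ i₀) ^ j‖ = (1 : ℝ) := fun j _ => by rw [norm_pow, hr, one_pow]
    rw [Finset.sum_congr rfl this]
    simp
  have hlim : ∀ i, Filter.Tendsto (fun N => T i * c N i) Filter.atTop (nhds (if i = i₀ then T i₀ else 0)) := by
    intro i
    by_cases h : i = i₀
    · subst h
      rw [if_pos rfl]
      refine tendsto_const_nhds.congr' ?_
      filter_upwards [Filter.eventually_gt_atTop 0] with N hN
      have hN' : (N : ℂ) ≠ 0 := by exact_mod_cast hN.ne'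
      rw [hc]
      simp only
      rw [div_self (h0 i)]
      simp [hN']
    · rw [if_neg h]
      have h1 : θ i / θ i₀ ≠ 1 := by
        rw [Ne, div_eq_one_iff_eq (h0 i₀)]
        exact hne i h
      have h2 := (tendsto_mean (hr i) h1).const_mul (T i)
      rw [mul_zero] at h2
      exact h2
  have hD := tendsto_tsum_of_dominated_convergence (𝓕 := Filter.atTop) hn hlim
    (Filter.Eventually.of_forall fun N i => by
      rw [norm_mul]
      exact mul_le_of_le_one_right (norm_nonneg _) (hc1 N i))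
  rw [tsum_ite_eq] at hD
  have hS : ∀ N : ℕ, ‖∑' i, T i * c N i‖ ≤ M := by
    intro N
    have hj : ∀ j : ℕ, Summable fun i => T i * θ i ^ j := by
      intro j
      refine Summable.of_norm_bounded hn ?_
      intro i
      rw [norm_mul, norm_pow, hθ, one_pow, mul_one]
    have e1 : ∀ i, T i * c N i = ∑ j ∈ Finset.range N, (T i * θ i ^ j) * ((θ i₀ ^ j)⁻¹ / (N : ℂ)) := by
      intro i
      rw [hc]
      simp only
      rw [Finset.sum_div, Finset.mul_sum]
      refine Finset.sum_congr rfl fun j _ => ?_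
      rw [div_pow]
      ring
    rw [tsum_congr e1, Summable.tsum_finsetSum (fun j _ => (hj j).mul_right _)]
    refine (norm_sum_le _ _).trans ?_
    have e2 : ∀ j ∈ Finset.range N, ‖∑' i, (T i * θ i ^ j) * ((θ i₀ ^ j)⁻¹ / (N : ℂ))‖ ≤ M / (N : ℝ) := by
      intro j _
      rw [tsum_mul_right, norm_mul, norm_div, norm_inv, norm_pow, hθ, one_pow, inv_one, Complex.norm_natCast,
        mul_one_div]
      exact div_le_div_of_nonneg_right (hM j) (Nat.cast_nonneg _)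
    refine (Finset.sum_le_sum e2).trans ?_
    rw [Finset.sum_const, Finset.card_range, nsmul_eq_mul]
    rcases Nat.eq_zero_or_pos N with h | h
    · subst h
      simp only [CharP.cast_eq_zero, zero_mul]
      exact (norm_nonneg _).trans (hM 0)
    · have : (N : ℝ) ≠ 0 := by exact_mod_cast h.ne'
      rw [mul_div_cancel₀ _ this]
  exact le_of_tendsto hD.norm (Filter.Eventually.of_forall hS)

/-- one class -/
theorem hecke_bound_class (hk : ∀ σ, Even (k σ) ∧ 0 < k σ) {b : Ideal (𝓞 F)} (hb : b ≠ ⊥)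
    (hc : ∀ z : (F →+* ℝ) → ℂ, Up z → Summable (term k C b z))
    (hB : ∃ B : ℝ, ∀ z : (F →+* ℝ) → ℂ, Up z → ‖form k C b z‖ * ∏ σ : F →+* ℝ, (z σ).im ^ (k σ / 2) ≤ B) :
    ∃ B : ℝ, ∀ ν : Pos b, ‖C (quo b ν.1)‖ ≤ B * (Ideal.absNorm (quo b ν.1) : ℝ) := by
  classical
  obtain ⟨B, hB⟩ := hB
  obtain ⟨τ⟩ := (nonempty_emb : Nonempty (F →+* ℝ))
  obtain ⟨δ, hδ⟩ := exists_delta τ
  refine ⟨B * Real.exp (2 * Real.pi * Fintype.card (F →+* ℝ)) * (Ideal.absNorm b : ℝ), fun ν₀ => ?_⟩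
  have hpos : ∀ σ : F →+* ℝ, 0 < σ (ν₀.1 : F) := ν₀.2.2
  set z : ℕ → (F →+* ℝ) → ℂ := fun j σ =>
    (if σ = τ then ((j * δ : ℝ) : ℂ) else 0) + Complex.I * (((σ (ν₀.1 : F))⁻¹ : ℝ) : ℂ) with hz
  have him : ∀ j σ, (z j σ).im = (σ (ν₀.1 : F))⁻¹ := by
    intro j σ
    rw [hz]
    simp only
    split_ifs
    · simp
    · simp
  have hup : ∀ j, Up (z j) := fun j σ => by
    rw [him]
    exact inv_pos.2 (hpos σ)
  set θ : Pos b → ℂ := fun ν => Complex.exp (((2 * Real.pi * (τ (ν.1 : F) * δ) : ℝ) : ℂ) * Complex.I) with hθd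
  have hθ : ∀ ν, ‖θ ν‖ = 1 := fun ν => Complex.norm_exp_ofReal_mul_I _
  have hsplit : ∀ (j : ℕ) (ν : Pos b), term k C b (z j) ν = term k C b (z 0) ν * θ ν ^ j := by
    intro j ν
    have h1 : ∀ j : ℕ, ∑ σ : F →+* ℝ, ((σ (ν.1 : F) : ℝ) : ℂ) * z j σ =
        ((τ (ν.1 : F) * (j * δ) : ℝ) : ℂ) +
          ∑ σ : F →+* ℝ, ((σ (ν.1 : F) : ℝ) : ℂ) * (Complex.I * (((σ (ν₀.1 : F))⁻¹ : ℝ) : ℂ)) := by
      intro j
      rw [hz]
      simp only [mul_add, Finset.sum_add_distrib]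
      congr 1
      simp only [mul_ite, mul_zero]
      rw [Finset.sum_ite_eq' Finset.univ τ, if_pos (Finset.mem_univ _)]
      push_cast
      ring
    unfold term
    rw [h1 j, h1 0, mul_assoc _ (Complex.exp _) (θ ν ^ j)]
    congr 1
    rw [hθd]
    simp only
    rw [← Complex.exp_nat_mul, ← Complex.exp_add]
    congr 1
    push_cast
    ring
  have hne : ∀ ν : Pos b, ν ≠ ν₀ → θ ν ≠ θ ν₀ := by
    intro ν hν h
    rw [hθd] at h
    simp only at h
    rw [Complex.exp_eq_exp_iff_exists_int] at h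
    obtain ⟨n, hn⟩ := h
    have h1 : (τ (ν.1 : F) - τ (ν₀.1 : F)) * δ = n := by
      have h2 : ((2 * Real.pi * (τ (ν.1 : F) * δ) : ℝ) : ℂ) = ((2 * Real.pi * (τ (ν₀.1 : F) * δ) : ℝ) : ℂ) +
          n * (2 * Real.pi) := by
        have h3 : Complex.I ≠ 0 := Complex.I_ne_zero
        apply mul_right_cancel₀ h3
        rw [hn]
        ring
      have h4 : 2 * Real.pi * (τ (ν.1 : F) * δ) = 2 * Real.pi * (τ (ν₀.1 : F) * δ) + n * (2 * Real.pi) := by
        exact_mod_cast h2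
      have h5 : (2 * Real.pi) ≠ 0 := by positivity
      apply mul_left_cancel₀ h5
      linarith
    have h2 : (ν.1 : F) - (ν₀.1 : F) ≠ 0 := by
      intro h
      apply hν
      have h3 : (ν.1 : F) = (ν₀.1 : F) := sub_eq_zero.1 h
      exact Subtype.ext (NumberField.RingOfIntegers.coe_injective h3)
    have h3 : τ ((ν.1 : F) - (ν₀.1 : F)) ≠ 0 := (map_ne_zero τ).2 h2
    apply hδ ((n : F) / ((ν.1 : F) - (ν₀.1 : F)))
    rw [map_div₀, map_intCast, ← h1, map_sub]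
    rw [map_sub] at h3
    field_simp
  have hM : ∀ j : ℕ, ‖∑' ν, term k C b (z 0) ν * θ ν ^ j‖ ≤ B * ∏ σ : F →+* ℝ, σ (ν₀.1 : F) ^ (k σ / 2) := by
    intro j
    rw [← tsum_congr (hsplit j)]
    have h1 := hB (z j) (hup j)
    have h2 : ∏ σ : F →+* ℝ, (z j σ).im ^ (k σ / 2) = (∏ σ : F →+* ℝ, σ (ν₀.1 : F) ^ (k σ / 2))⁻¹ := by
      rw [← Finset.prod_inv_distrib]
      refine Finset.prod_congr rfl fun σ _ => ?_
      rw [him, inv_pow]
    rw [h2] at h1
    have h3 : 0 < ∏ σ : F →+* ℝ, σ (ν₀.1 : F) ^ (k σ / 2) := Finset.prod_pos fun σ _ => pow_pos (hpos σ) _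
    exact (mul_inv_le_iff₀ h3).1 h1
  have hmain := coeff_le (term k C b (z 0)) (hc _ (hup 0)) θ hθ ν₀ hne hM
  have hnorm : ‖term k C b (z 0) ν₀‖ = ‖C (quo b ν₀.1)‖ * (∏ σ : F →+* ℝ, σ (ν₀.1 : F) ^ (k σ / 2 - 1)) *
      Real.exp (-(2 * Real.pi * Fintype.card (F →+* ℝ))) := by
    unfold term
    rw [norm_mul, norm_mul, norm_prod]
    congr 1
    · congr 1
      refine Finset.prod_congr rfl fun σ _ => ?_
      rw [norm_pow, Complex.norm_real, Real.norm_of_nonneg (hpos σ).le]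
    · rw [Complex.norm_exp]
      congr 1
      have h1 : ∑ σ : F →+* ℝ, ((σ (ν₀.1 : F) : ℝ) : ℂ) * z 0 σ = Complex.I * Fintype.card (F →+* ℝ) := by
        have h2 : ∀ σ : F →+* ℝ, ((σ (ν₀.1 : F) : ℝ) : ℂ) * z 0 σ = Complex.I := by
          intro σ
          have h3 : ((σ (ν₀.1 : F) : ℝ) : ℂ) ≠ 0 := by exact_mod_cast (hpos σ).ne'
          rw [hz]
          simp only [CharP.cast_eq_zero, zero_mul, Complex.ofReal_zero, ite_self, zero_add, Complex.ofReal_inv]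
          field_simp
        rw [Finset.sum_congr rfl fun σ _ => h2 σ, Finset.sum_const, Finset.card_univ, nsmul_eq_mul, mul_comm]
      rw [h1]
      have h2 : 2 * (Real.pi : ℂ) * Complex.I * (Complex.I * (Fintype.card (F →+* ℝ) : ℂ)) =
          ((-(2 * Real.pi * Fintype.card (F →+* ℝ)) : ℝ) : ℂ) := by
        push_cast
        linear_combination (2 * (Real.pi : ℂ) * (Fintype.card (F →+* ℝ) : ℂ)) * Complex.I_mul_I
      rw [h2, Complex.ofReal_re]
  rw [hnorm] at hmain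
  have hP : 0 < ∏ σ : F →+* ℝ, σ (ν₀.1 : F) ^ (k σ / 2 - 1) := Finset.prod_pos fun σ _ => pow_pos (hpos σ) _
  have hPP : ∏ σ : F →+* ℝ, σ (ν₀.1 : F) ^ (k σ / 2) =
      (∏ σ : F →+* ℝ, σ (ν₀.1 : F) ^ (k σ / 2 - 1)) * ∏ σ : F →+* ℝ, σ (ν₀.1 : F) := by
    rw [← Finset.prod_mul_distrib]
    refine Finset.prod_congr rfl fun σ _ => ?_
    rw [← pow_succ]
    congr 1
    obtain ⟨h1, h2⟩ := hk σ
    obtain ⟨r, hr⟩ := h1
    omega
  have hnb : ∏ σ : F →+* ℝ, σ (ν₀.1 : F) = (Ideal.absNorm (quo b ν₀.1) : ℝ) * (Ideal.absNorm b : ℝ) := by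
    rw [prod_eq_absNorm ν₀.2.2]
    have h0 : ν₀.1 ≠ 0 := by
      intro h
      have := hpos τ
      rw [h] at this
      simp at this
    rw [← quo_mul ν₀.2.1 h0, map_mul]
    push_cast
    rfl
  rw [hPP, hnb] at hmain
  have hE : 0 < Real.exp (2 * Real.pi * Fintype.card (F →+* ℝ)) := Real.exp_pos _
  rw [Real.exp_neg] at hmain
  have h5 : ‖C (quo b ν₀.1)‖ * (∏ σ : F →+* ℝ, σ (ν₀.1 : F) ^ (k σ / 2 - 1)) ≤
      B * ((∏ σ : F →+* ℝ, σ (ν₀.1 : F) ^ (k σ / 2 - 1)) *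
        ((Ideal.absNorm (quo b ν₀.1) : ℝ) * (Ideal.absNorm b : ℝ))) * Real.exp (2 * Real.pi * Fintype.card (F →+* ℝ)) :=
    (mul_inv_le_iff₀ hE).1 hmain
  have h6 : ‖C (quo b ν₀.1)‖ * (∏ σ : F →+* ℝ, σ (ν₀.1 : F) ^ (k σ / 2 - 1)) ≤
      (B * Real.exp (2 * Real.pi * Fintype.card (F →+* ℝ)) * (Ideal.absNorm b : ℝ) *
        (Ideal.absNorm (quo b ν₀.1) : ℝ)) * ∏ σ : F →+* ℝ, σ (ν₀.1 : F) ^ (k σ / 2 - 1) := by
    refine h5.trans (le_of_eq ?_)
    ring
  exact le_of_mul_le_mul_right h6 hP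

end Pool.Agent.H44.TW
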