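import Pool.Agent.H44.TW.Unf
import Pool.Agent.H44.TW.Hecke
import Pool.Agent.H24.FD.Zeta

/-!
# The Dirichlet series over the ideals: continuation and functional equation
-/

set_option autoImplicit false

open NumberField MeasureTheory

namespace Pool.Agent.H44.TW

variable {F : Type} [Field F] [NumberField F] [IsTotallyReal F]

/-- the nonzero ideals -/
abbrev NZ (F : Type) [Field F] : Type := {m : Ideal (𝓞 F) // m ≠ ⊥}

private theorem dir_norm_pos {m : Ideal (𝓞 F)} (hm : m ≠ ⊥) : 0 < (Ideal.absNorm m : ℝ) := by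
  have h : Ideal.absNorm m ≠ 0 := by
    rw [Ne, Ideal.absNorm_eq_zero_iff]
    exact hm
  exact_mod_cast Nat.pos_of_ne_zero h

theorem hecke_bound {k : (F →+* ℝ) → ℕ} (hk : ∀ σ, Even (k σ) ∧ 0 < k σ) {n : Ideal (𝓞 F)} {w : ℂ}
    {bad : Ideal (𝓞 F)} {C : Ideal (𝓞 F) → ℂ} (h : HNew k n w bad C) :
    ∃ B : ℝ, ∀ m : Ideal (𝓞 F), m ≠ ⊥ → ‖C m‖ ≤ B * (Ideal.absNorm m : ℝ) := by
  obtain ⟨r, b, hb, hcls⟩ := exists_reps F
  have h1 : ∀ i, ∃ B : ℝ, ∀ ν : Pos (b i), ‖C (quo (b i) ν.1)‖ ≤ B * (Ideal.absNorm (quo (b i) ν.1) : ℝ) :=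
    fun i => hecke_bound_class hk (hb i) (h.conv (b i) (hb i)) (h.cusp (b i) (hb i))
  choose B hB using h1
  refine ⟨∑ i, |B i|, fun m hm => ?_⟩
  obtain ⟨i, hi, -⟩ := hcls m hm
  obtain ⟨-, ν, hν, hmν⟩ := hi
  have hmem : ν ∈ b i := by
    have h2 : ν ∈ m * b i := by
      rw [hmν]
      exact Ideal.mem_span_singleton_self ν
    exact (Ideal.mul_le_right (I := m) (J := b i)) h2
  have h3 := hB i ⟨ν, hmem, hν⟩
  simp only [quo_eq (hb i) hmν] at h3
  refine h3.trans (mul_le_mul_of_nonneg_right ?_ (dir_norm_pos hm).le)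
  exact (le_abs_self _).trans (Finset.single_le_sum (f := fun i => |B i|) (fun j _ => abs_nonneg _) (Finset.mem_univ i))

theorem summable_C {k : (F →+* ℝ) → ℕ} (hk : ∀ σ, Even (k σ) ∧ 0 < k σ) {n : Ideal (𝓞 F)} {w : ℂ}
    {bad : Ideal (𝓞 F)} {C : Ideal (𝓞 F) → ℂ} (h : HNew k n w bad C) {s : ℝ} (hs : 1 < s) :
    Summable fun m : NZ F => ‖C m‖ * (Ideal.absNorm m.1 : ℝ) ^ (-1 - s) := by
  obtain ⟨B, hB⟩ := hecke_bound hk h
  have h1 : Summable fun m : NZ F => B * Pool.Agent.H24.FD.nrm F s m.1 :=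
    ((Pool.Agent.H24.FD.summable_nrm F hs).comp_injective Subtype.val_injective).mul_left B
  refine Summable.of_nonneg_of_le (fun m => ?_) (fun m => ?_) h1
  · exact mul_nonneg (norm_nonneg _) (Real.rpow_nonneg (Nat.cast_nonneg _) _)
  · have hp := dir_norm_pos m.2
    calc ‖C m.1‖ * (Ideal.absNorm m.1 : ℝ) ^ (-1 - s) ≤ B * (Ideal.absNorm m.1 : ℝ) * (Ideal.absNorm m.1 : ℝ) ^ (-1 - s) :=
          mul_le_mul_of_nonneg_right (hB m.1 m.2) (Real.rpow_nonneg (Nat.cast_nonneg _) _)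
      _ = B * Pool.Agent.H24.FD.nrm F s m.1 := by
          rw [Pool.Agent.H24.FD.nrm, mul_assoc]
          congr 1
          rw [show -s = 1 + (-1 - s) by ring, Real.rpow_add hp, Real.rpow_one]

theorem differentiable_Gam_inv (k : (F →+* ℝ) → ℕ) : Differentiable ℂ fun s => (Gam k s)⁻¹ := by
  have h1 : (fun s : ℂ => (Gam k s)⁻¹) = fun s : ℂ => ∏ σ : F →+* ℝ, ((2 * Real.pi : ℂ) ^ (s + (k σ / 2 : ℕ)) * (Complex.Gamma (s + (k σ / 2 : ℕ)))⁻¹) := by
    funext s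
    rw [Gam, ← Finset.prod_inv_distrib]
    refine Finset.prod_congr rfl fun σ _ => ?_
    rw [mul_inv, Complex.cpow_neg, inv_inv]
  rw [h1]
  refine Differentiable.fun_finsetProd fun σ _ => ?_
  refine Differentiable.mul ?_ ?_
  · refine Differentiable.const_cpow (differentiable_id.add_const _) ?_
    left
    exact mul_ne_zero two_ne_zero (Complex.ofReal_ne_zero.2 Real.pi_ne_zero)
  · exact Complex.differentiable_one_div_Gamma.comp (differentiable_id.add_const _)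

theorem Gam_ne_zero {k : (F →+* ℝ) → ℕ} (hk : ∀ σ, Even (k σ) ∧ 0 < k σ) {s : ℂ} (hs : -1 < s.re) : Gam k s ≠ 0 := by
  rw [Gam, Finset.prod_ne_zero_iff]
  intro σ _
  refine mul_ne_zero ?_ ?_
  · rw [Complex.cpow_ne_zero_iff]
    left
    exact mul_ne_zero two_ne_zero (Complex.ofReal_ne_zero.2 Real.pi_ne_zero)
  · apply Complex.Gamma_ne_zero_of_re_pos
    rw [Complex.add_re, Complex.natCast_re]
    have h1 : 1 ≤ k σ / 2 := by
      obtain ⟨⟨a, ha⟩, hpos⟩ := hk σ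
      omega
    have h2 : (1 : ℝ) ≤ ((k σ / 2 : ℕ) : ℝ) := by exact_mod_cast h1
    linarith

/-- the L-function `L` and the completed L-function `Λ` are entire, with a functional equation -/
theorem exists_L {k : (F →+* ℝ) → ℕ} (hk : ∀ σ, Even (k σ) ∧ 0 < k σ) {n : Ideal (𝓞 F)} (hn : n ≠ ⊥) {w : ℂ}
    {bad : Ideal (𝓞 F)} {C : Ideal (𝓞 F) → ℂ} (h : HNew k n w bad C) :
    ∃ L Λ : ℂ → ℂ, Differentiable ℂ Λ ∧ (∀ s, L s = Λ s * (Gam k s)⁻¹) ∧
      (∀ s : ℂ, 1 < s.re → HasSum (fun m : NZ F => C m * (Ideal.absNorm m.1 : ℂ) ^ (-1 - s)) (L s)) ∧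
      ∃ N : ℕ, 0 < N ∧ ∀ s : ℂ, Λ s = w * Complex.I ^ (∑ σ : F →+* ℝ, k σ) * (N : ℂ) ^ (-s) * Λ (-s) := by
  classical
  obtain ⟨D, hDm, hDf, R, -, hR⟩ := exists_dom F
  obtain ⟨r, b, hb, hcls⟩ := exists_reps F
  have hdiff : differentIdeal ℤ (𝓞 F) ≠ ⊥ := differentIdeal_ne_bot
  have hc : (differentIdeal ℤ (𝓞 F)) ^ 2 * n ≠ ⊥ := by
    rw [Ne, ← Ideal.zero_eq_bot, mul_eq_zero, not_or]
    exact ⟨pow_ne_zero 2 (by rwa [Ne, Ideal.zero_eq_bot]), by rwa [Ideal.zero_eq_bot]⟩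
  obtain ⟨e, x, hx⟩ := exists_perm F hb hcls ((differentIdeal ℤ (𝓞 F)) ^ 2 * n) hc
  have he : ∀ i, b i * b (e i) * (differentIdeal ℤ (𝓞 F)) ^ 2 * n = Ideal.span {x i} := by
    intro i
    rw [mul_assoc (b i * b (e i))]
    exact (hx i).2
  have hNb : ∀ i, (Ideal.absNorm (b i) : ℂ) ≠ 0 := by
    intro i
    have := dir_norm_pos (hb i)
    exact_mod_cast this.ne'
  have hMd : ∀ i, Differentiable ℂ (Mel D (GG k C (b i))) := fun i =>
    (rapid_GG hk hn h (hb i) (hb (e i)) (hx i).1 (he i) hDm hR).differentiable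
  have hN0 : 0 < Ideal.absNorm ((differentIdeal ℤ (𝓞 F)) ^ 2 * n) := by
    exact_mod_cast dir_norm_pos hc
  refine ⟨fun s => (∑ i, (Ideal.absNorm (b i) : ℂ) ^ (1 + s) * Mel D (GG k C (b i)) s) * (Gam k s)⁻¹,
    fun s => ∑ i, (Ideal.absNorm (b i) : ℂ) ^ (1 + s) * Mel D (GG k C (b i)) s, ?_, fun s => rfl, ?_,
    Ideal.absNorm ((differentIdeal ℤ (𝓞 F)) ^ 2 * n), hN0, ?_⟩
  · refine Differentiable.fun_sum fun i _ => Differentiable.mul ?_ (hMd i)
    exact Differentiable.const_cpow (differentiable_id.const_add _) (Or.inl (hNb i))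
  · intro s hs
    have hg := Gam_ne_zero hk (s := s) (by linarith)
    have hsum : ∀ i, Summable fun m : Cls (b i) => ‖C m‖ * (Ideal.absNorm m.1 : ℝ) ^ (-1 - s.re) := by
      intro i
      have h1 := summable_C hk h hs
      exact h1.comp_injective (i := fun m : Cls (b i) => (⟨m.1, m.2.1⟩ : NZ F)) (fun a a' haa => Subtype.ext (congrArg (fun z : NZ F => z.1) haa))
    have h2 : ∀ i, HasSum (fun m : Cls (b i) => C m * (Ideal.absNorm m.1 : ℂ) ^ (-1 - s))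
        ((Ideal.absNorm (b i) : ℂ) ^ (1 + s) * Mel D (GG k C (b i)) s * (Gam k s)⁻¹) := by
      intro i
      have h3 := unfold hk (hb i) (h.conv (b i) (hb i)) hDf (s := s) (by linarith) (hsum i)
      have h4 := (h3.mul_left ((Ideal.absNorm (b i) : ℂ) ^ (1 + s))).mul_right (Gam k s)⁻¹
      have h5 : (fun m : Cls (b i) => C m * (Ideal.absNorm m.1 : ℂ) ^ (-1 - s)) = fun m : Cls (b i) =>
          (Ideal.absNorm (b i) : ℂ) ^ (1 + s) * (Gam k s * (C m * (Ideal.absNorm (m.1 * b i) : ℂ) ^ (-1 - s))) * (Gam k s)⁻¹ := by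
        funext m
        have h6 : (Ideal.absNorm (b i) : ℂ) ^ (1 + s) * (Ideal.absNorm (b i) : ℂ) ^ (-1 - s) = 1 := by
          rw [← Complex.cpow_add _ _ (hNb i), show (1 + s) + (-1 - s) = 0 by ring, Complex.cpow_zero]
        have h7 : (Ideal.absNorm (m.1 * b i) : ℂ) ^ (-1 - s) = (Ideal.absNorm m.1 : ℂ) ^ (-1 - s) * (Ideal.absNorm (b i) : ℂ) ^ (-1 - s) := by
          rw [map_mul, Nat.cast_mul, Complex.natCast_mul_natCast_cpow]
        have h8 : Gam k s * (Gam k s)⁻¹ = 1 := mul_inv_cancel₀ hg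
        rw [h7]
        calc C m * (Ideal.absNorm m.1 : ℂ) ^ (-1 - s) = C m * (Ideal.absNorm m.1 : ℂ) ^ (-1 - s) * 1 * 1 := by ring
          _ = C m * (Ideal.absNorm m.1 : ℂ) ^ (-1 - s) * ((Ideal.absNorm (b i) : ℂ) ^ (1 + s) * (Ideal.absNorm (b i) : ℂ) ^ (-1 - s)) * (Gam k s * (Gam k s)⁻¹) := by
            rw [h6, h8]
          _ = _ := by ring
      rw [h5]
      exact h4
    have h6 : ∀ i, HasSum ((Cls (b i)).indicator fun m : Ideal (𝓞 F) => C m * (Ideal.absNorm m : ℂ) ^ (-1 - s))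
        ((Ideal.absNorm (b i) : ℂ) ^ (1 + s) * Mel D (GG k C (b i)) s * (Gam k s)⁻¹) := fun i =>
      hasSum_subtype_iff_indicator.1 (h2 i)
    have h7 := hasSum_sum (s := Finset.univ) fun i _ => h6 i
    have h8 : (fun m : Ideal (𝓞 F) => ∑ i, (Cls (b i)).indicator (fun m : Ideal (𝓞 F) => C m * (Ideal.absNorm m : ℂ) ^ (-1 - s)) m) =
        ({m : Ideal (𝓞 F) | m ≠ ⊥}).indicator fun m : Ideal (𝓞 F) => C m * (Ideal.absNorm m : ℂ) ^ (-1 - s) := by
      funext m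
      by_cases hm : m = ⊥
      · rw [Set.indicator_of_notMem (by simpa using hm)]
        refine Finset.sum_eq_zero fun i _ => Set.indicator_of_notMem (fun h9 => h9.1 hm) _
      · rw [Set.indicator_of_mem (by simpa using hm)]
        obtain ⟨i, hi, hu⟩ := hcls m hm
        rw [Finset.sum_eq_single i, Set.indicator_of_mem hi]
        · intro j _ hj
          exact Set.indicator_of_notMem (fun h9 => hj (hu j h9)) _
        · intro h9
          exact absurd (Finset.mem_univ i) h9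
    rw [h8, ← Finset.sum_mul] at h7
    exact hasSum_subtype_iff_indicator.2 h7
  · intro s
    have hcomp := Equiv.sum_comp e fun i => (Ideal.absNorm (b i) : ℂ) ^ (1 + -s) * Mel D (GG k C (b i)) (-s)
    beta_reduce
    rw [← hcomp, Finset.mul_sum]
    refine Finset.sum_congr rfl fun i _ => ?_
    have h1 := Mel_fe hk h (hb i) (hb (e i)) (hx i).1 (he i) hDf s
    have h2 : (Ideal.absNorm (Ideal.span {x i}) : ℂ) ^ (-s) = (Ideal.absNorm (b i) : ℂ) ^ (-s) * (Ideal.absNorm (b (e i)) : ℂ) ^ (-s) *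
        (Ideal.absNorm ((differentIdeal ℤ (𝓞 F)) ^ 2 * n) : ℂ) ^ (-s) := by
      rw [← (hx i).2, map_mul Ideal.absNorm (b i * b (e i)), map_mul Ideal.absNorm (b i), Nat.cast_mul,
        Complex.natCast_mul_natCast_cpow, Nat.cast_mul, Complex.natCast_mul_natCast_cpow]
    have h3 : (Ideal.absNorm (b i) : ℂ) ^ (1 + s) = (Ideal.absNorm (b i) : ℂ) * (Ideal.absNorm (b i) : ℂ) ^ s := by
      rw [Complex.cpow_add _ _ (hNb i), Complex.cpow_one]
    have h4 : (Ideal.absNorm (b (e i)) : ℂ) ^ (1 + -s) = (Ideal.absNorm (b (e i)) : ℂ) * (Ideal.absNorm (b (e i)) : ℂ) ^ (-s) := by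
      rw [Complex.cpow_add _ _ (hNb (e i)), Complex.cpow_one]
    have h5 : (Ideal.absNorm (b i) : ℂ) ^ s * (Ideal.absNorm (b i) : ℂ) ^ (-s) = 1 := by
      rw [← Complex.cpow_add _ _ (hNb i), add_neg_cancel, Complex.cpow_zero]
    rw [h2] at h1
    rw [h3, h4]
    calc (Ideal.absNorm (b i) : ℂ) * (Ideal.absNorm (b i) : ℂ) ^ s * Mel D (GG k C (b i)) s
        = (Ideal.absNorm (b i) : ℂ) ^ s * ((Ideal.absNorm (b i) : ℂ) * Mel D (GG k C (b i)) s) := by ring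
      _ = ((Ideal.absNorm (b i) : ℂ) ^ s * (Ideal.absNorm (b i) : ℂ) ^ (-s)) * (w * Complex.I ^ (∑ σ : F →+* ℝ, k σ) *
          (Ideal.absNorm ((differentIdeal ℤ (𝓞 F)) ^ 2 * n) : ℂ) ^ (-s) *
          ((Ideal.absNorm (b (e i)) : ℂ) * (Ideal.absNorm (b (e i)) : ℂ) ^ (-s) * Mel D (GG k C (b (e i))) (-s))) := by
        rw [h1]; ring
      _ = _ := by rw [h5, one_mul]

end Pool.Agent.H44.TW
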