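import Pool.Agent.H44.TW.Defs
import Pool.Agent.H24.FD.Euler

/-!
# Euler product over the primes
-/

set_option autoImplicit false

open NumberField

namespace Pool.Agent.H44.TW

variable {F : Type} [Field F] [NumberField F]

/-- the primes dividing `bad` -/
abbrev Bad (bad : Ideal (𝓞 F)) : Type := {v : Ideal (𝓞 F) // v.IsPrime ∧ v ≠ ⊥ ∧ bad ≤ v}

theorem finite_Bad {bad : Ideal (𝓞 F)} (h : bad ≠ ⊥) : Finite (Bad bad) := by
  have h1 : {v : IsDedekindDomain.HeightOneSpectrum (𝓞 F) | v.asIdeal ∣ bad}.Finite := Ideal.finite_factors h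
  have h2 := h1.to_subtype
  refine Finite.of_injective
    (fun v : Bad bad => (⟨⟨v.1, v.2.1, v.2.2.1⟩, Ideal.dvd_iff_le.2 v.2.2.2⟩ :
      {v : IsDedekindDomain.HeightOneSpectrum (𝓞 F) | v.asIdeal ∣ bad})) ?_
  intro v w hvw
  have h3 := congrArg (fun x => x.1.asIdeal) hvw
  exact Subtype.ext h3

/-- `C` is multiplicative, with Euler factors of degree at most two -/
structure Mult (C : Ideal (𝓞 F) → ℂ) (e : Ideal (𝓞 F) → ℂ) : Prop where
  one : C ⊤ = 1
  cop : ∀ v : Ideal (𝓞 F), v.IsPrime → v ≠ ⊥ → ∀ m : Ideal (𝓞 F), m ≠ ⊥ → ¬ m ≤ v → C (v * m) = C v * C m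
  rel : ∀ v : Ideal (𝓞 F), v.IsPrime → v ≠ ⊥ → ∀ m : Ideal (𝓞 F), m ≠ ⊥ →
    C (v * (v * m)) + e v * C m = C v * C (v * m)

/-- the terms of the Dirichlet series, zero at the zero ideal -/
private noncomputable def trm (C : Ideal (𝓞 F) → ℂ) (s : ℂ) (m : Ideal (𝓞 F)) : ℂ :=
  Set.indicator {m : Ideal (𝓞 F) | m ≠ ⊥} (fun m => C m * (Ideal.absNorm m : ℂ) ^ (-1 - s)) m

/-- the ideals prime to all primes of `S` -/
private def DS (S : Set (Ideal (𝓞 F))) : Set (Ideal (𝓞 F)) := {m | ∀ v ∈ S, ¬ m ≤ v}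

private theorem trm_bot (C : Ideal (𝓞 F) → ℂ) (s : ℂ) : trm C s ⊥ = 0 := by
  unfold trm
  rw [Set.indicator_of_notMem]
  exact fun h => h rfl

private theorem trm_of {C : Ideal (𝓞 F) → ℂ} {s : ℂ} {m : Ideal (𝓞 F)} (hm : m ≠ ⊥) :
    trm C s m = C m * (Ideal.absNorm m : ℂ) ^ (-1 - s) := by
  unfold trm
  rw [Set.indicator_of_mem]
  exact hm

private theorem pow_mul' (v m : Ideal (𝓞 F)) (z : ℂ) :
    (Ideal.absNorm (v * m) : ℂ) ^ z = (Ideal.absNorm v : ℂ) ^ z * (Ideal.absNorm m : ℂ) ^ z := by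
  rw [map_mul, Nat.cast_mul, Complex.natCast_mul_natCast_cpow]

omit [NumberField F] in
private theorem mul_ne {v m : Ideal (𝓞 F)} (hv : v ≠ ⊥) (hm : m ≠ ⊥) : v * m ≠ ⊥ :=
  mul_ne_zero hv hm

private theorem mul_inj {v : Ideal (𝓞 F)} (hv : v ≠ ⊥) : Function.Injective fun m : Ideal (𝓞 F) => v * m :=
  mul_right_injective₀ hv

private theorem DS_mul {S : Set (Ideal (𝓞 F))} (hS : ∀ w ∈ S, w.IsPrime ∧ w ≠ ⊥) {v : Ideal (𝓞 F)} (hv : v.IsPrime)
    (hv0 : v ≠ ⊥) (hvS : v ∉ S) (m : Ideal (𝓞 F)) : v * m ∈ DS S ↔ m ∈ DS S := by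
  constructor
  · intro h w hw hmw
    exact h w hw (Ideal.mul_le_right.trans hmw)
  · intro h w hw hmw
    have hwp := (hS w hw).1
    rcases (hwp.mul_le).1 hmw with h1 | h1
    · have hvm : v.IsMaximal := hv.isMaximal hv0
      have h2 := hvm.eq_of_le hwp.ne_top h1
      exact hvS (h2 ▸ hw)
    · exact h w hw h1

variable {C : Ideal (𝓞 F) → ℂ} {e : Ideal (𝓞 F) → ℂ} {s : ℂ}

/-- removing one Euler factor -/
private theorem remove (h : Mult C e) (hs : Summable (trm C s)) {S : Set (Ideal (𝓞 F))}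
    (hS : ∀ w ∈ S, w.IsPrime ∧ w ≠ ⊥) {v : Ideal (𝓞 F)} (hv : v.IsPrime) (hv0 : v ≠ ⊥) (hvS : v ∉ S) :
    ∑' m, (DS (insert v S)).indicator (trm C s) m =
      (1 - C v * (Ideal.absNorm v : ℂ) ^ (-1 - s) + e v * (Ideal.absNorm v : ℂ) ^ (-2 - 2 * s)) *
        ∑' m, (DS S).indicator (trm C s) m := by
  classical
  set q : ℂ := (Ideal.absNorm v : ℂ) ^ (-1 - s) with hq
  have hN0 : (Ideal.absNorm v : ℂ) ≠ 0 := by
    have : Ideal.absNorm v ≠ 0 := fun h0 => hv0 (Ideal.absNorm_eq_zero_iff.1 h0)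
    exact_mod_cast this
  have hq2 : (Ideal.absNorm v : ℂ) ^ (-2 - 2 * s) = q * q := by
    rw [hq, ← Complex.cpow_add _ _ hN0]
    congr 1
    ring
  rw [hq2]
  have hsum : ∀ D : Set (Ideal (𝓞 F)), Summable (D.indicator (trm C s)) := fun D => hs.indicator D
  -- the multiples of `v`
  have hdvd : ∀ m : Ideal (𝓞 F), m ≤ v → m ∈ Set.range fun m : Ideal (𝓞 F) => v * m := by
    intro m hm
    obtain ⟨c, hc⟩ := Ideal.dvd_iff_le.2 hm
    exact ⟨c, hc.symm⟩
  have hle : ∀ m : Ideal (𝓞 F), v * m ≤ v := fun m => Ideal.mul_le_left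
  -- sum over the multiples
  have hmult : ∀ g : Ideal (𝓞 F) → ℂ, ∑' m, (DS S ∩ {m | m ≤ v}).indicator g m =
      ∑' m, (DS S).indicator (fun m => g (v * m)) m := by
    intro g
    rw [← (mul_inj hv0).tsum_eq (f := (DS S ∩ {m | m ≤ v}).indicator g)]
    · refine tsum_congr fun m => ?_
      by_cases hm : m ∈ DS S
      · rw [Set.indicator_of_mem hm, Set.indicator_of_mem]
        exact ⟨(DS_mul hS hv hv0 hvS m).2 hm, hle m⟩
      · rw [Set.indicator_of_notMem hm, Set.indicator_of_notMem]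
        exact fun h1 => hm ((DS_mul hS hv hv0 hvS m).1 h1.1)
    · intro m hm
      have h1 : m ∈ DS S ∩ {m | m ≤ v} := by
        by_contra h1
        exact hm (Set.indicator_of_notMem h1 _)
      exact hdvd m h1.2
  have hsplit : ∀ g : Ideal (𝓞 F) → ℂ, Summable g → ∑' m, (DS S).indicator g m =
      ∑' m, (DS (insert v S)).indicator g m + ∑' m, (DS S ∩ {m | m ≤ v}).indicator g m := by
    intro g hg
    rw [← (hg.indicator _).tsum_add (hg.indicator _)]
    refine tsum_congr fun m => ?_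
    by_cases hm : m ∈ DS S
    · by_cases hmv : m ≤ v
      · have h1 : m ∉ DS (insert v S) := fun h1 => h1 v (Set.mem_insert v S) hmv
        rw [Set.indicator_of_mem hm, Set.indicator_of_notMem h1,
          Set.indicator_of_mem (show m ∈ DS S ∩ {m | m ≤ v} from ⟨hm, hmv⟩), zero_add]
      · have h1 : m ∈ DS (insert v S) := by
          intro w hw
          rcases Set.mem_insert_iff.1 hw with rfl | hw
          · exact hmv
          · exact hm w hw
        rw [Set.indicator_of_mem hm, Set.indicator_of_mem h1,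
          Set.indicator_of_notMem (show m ∉ DS S ∩ {m | m ≤ v} from fun h2 => hmv h2.2), add_zero]
    · have h1 : m ∉ DS (insert v S) := fun h1 => hm fun w hw => h1 w (Set.mem_insert_of_mem v hw)
      rw [Set.indicator_of_notMem hm, Set.indicator_of_notMem h1,
        Set.indicator_of_notMem (show m ∉ DS S ∩ {m | m ≤ v} from fun h2 => hm h2.1), add_zero]
  have hs1 : Summable fun m => trm C s (v * m) := hs.comp_injective (mul_inj hv0)
  have hs2 : Summable fun m => trm C s (v * (v * m)) := hs1.comp_injective (mul_inj hv0)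
  -- the three relations
  have e1 := hsplit _ hs
  rw [hmult] at e1
  have e2 := hsplit _ hs1
  rw [hmult] at e2
  have e3 : ∑' m, (DS (insert v S)).indicator (fun m => trm C s (v * m)) m =
      C v * q * ∑' m, (DS (insert v S)).indicator (trm C s) m := by
    rw [← tsum_mul_left]
    refine tsum_congr fun m => ?_
    by_cases hm : m ∈ DS (insert v S)
    · rw [Set.indicator_of_mem hm, Set.indicator_of_mem hm]
      by_cases hm0 : m = ⊥
      · subst hm0
        rw [trm_bot, Ideal.mul_bot, trm_bot, mul_zero]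
      · rw [trm_of hm0, trm_of (mul_ne hv0 hm0), h.cop v hv hv0 m hm0 (hm v (Set.mem_insert v S)), pow_mul', ← hq]
        ring
    · rw [Set.indicator_of_notMem hm, Set.indicator_of_notMem hm, mul_zero]
  have e4 : ∑' m, (DS S).indicator (fun m => trm C s (v * (v * m))) m + e v * (q * q) *
      ∑' m, (DS S).indicator (trm C s) m = C v * q * ∑' m, (DS S).indicator (fun m => trm C s (v * m)) m := by
    rw [← tsum_mul_left, ← tsum_mul_left, ← (hs2.indicator _).tsum_add ((hsum _).mul_left _)]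
    refine tsum_congr fun m => ?_
    by_cases hm : m ∈ DS S
    · simp only [Set.indicator_of_mem hm]
      by_cases hm0 : m = ⊥
      · subst hm0
        simp only [trm_bot, Ideal.mul_bot, mul_zero, add_zero]
      · rw [trm_of hm0, trm_of (mul_ne hv0 hm0), trm_of (mul_ne hv0 (mul_ne hv0 hm0)), pow_mul', pow_mul', ← hq]
        have h5 := h.rel v hv hv0 m hm0
        linear_combination (q * q * (Ideal.absNorm m : ℂ) ^ (-1 - s)) * h5
    · simp only [Set.indicator_of_notMem hm, mul_zero, add_zero]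
  rw [e3] at e2
  linear_combination (C v * q - 1) * e1 - e2 - e4

private theorem removeAll (h : Mult C e) (hs : Summable (trm C s)) (S : Finset (Ideal (𝓞 F)))
    (hS : ∀ w ∈ S, w.IsPrime ∧ w ≠ ⊥) :
    ∑' m, (DS (S : Set (Ideal (𝓞 F)))).indicator (trm C s) m =
      (∏ v ∈ S, (1 - C v * (Ideal.absNorm v : ℂ) ^ (-1 - s) + e v * (Ideal.absNorm v : ℂ) ^ (-2 - 2 * s))) *
        ∑' m, trm C s m := by
  classical
  induction S using Finset.induction_on with
  | empty =>
    rw [Finset.prod_empty, one_mul]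
    refine tsum_congr fun m => ?_
    rw [Set.indicator_of_mem]
    intro w hw
    exact absurd hw (by simp)
  | insert v S hvS ih =>
    have h1 := ih fun w hw => hS w (Finset.mem_insert_of_mem hw)
    have h2 := hS v (Finset.mem_insert_self v S)
    have h3 := remove h hs (S := (S : Set (Ideal (𝓞 F)))) (fun w hw => hS w (Finset.mem_insert_of_mem hw)) h2.1 h2.2
      (by exact_mod_cast hvS)
    rw [Finset.prod_insert hvS, Finset.coe_insert, h3, h1, mul_assoc]

private theorem tends (h1 : C ⊤ = 1) (hs : Summable fun m => ‖trm C s m‖) {ι : Type} {l : Filter ι}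
    {S : ι → Finset (Ideal (𝓞 F))} (hS : ∀ i, ∀ w ∈ S i, w.IsPrime)
    (hl : ∀ v : Ideal (𝓞 F), v.IsPrime → v ≠ ⊥ → ∀ᶠ i in l, v ∈ S i) :
    Filter.Tendsto (fun i => ∑' m, (DS (S i : Set (Ideal (𝓞 F)))).indicator (trm C s) m) l (nhds 1) := by
  classical
  have h2 : ∑' m : Ideal (𝓞 F), (if m = ⊤ then (1 : ℂ) else 0) = 1 := by
    rw [tsum_ite_eq]
  rw [← h2]
  refine tendsto_tsum_of_dominated_convergence hs ?_ ?_
  · intro m
    by_cases hm : m = ⊤
    · subst hm
      have htop : (⊤ : Ideal (𝓞 F)) ≠ ⊥ := bot_ne_top.symm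
      have h3 : ∀ i, (DS (S i : Set (Ideal (𝓞 F)))).indicator (trm C s) ⊤ = 1 := by
        intro i
        rw [Set.indicator_of_mem, trm_of htop, h1, Ideal.absNorm_top]
        · simp
        · intro w hw hle
          exact (hS i w hw).ne_top (top_le_iff.1 hle)
      simp only [h3, if_true]
      exact tendsto_const_nhds
    · rw [if_neg hm]
      by_cases hm0 : m = ⊥
      · subst hm0
        have h3 : ∀ i, (DS (S i : Set (Ideal (𝓞 F)))).indicator (trm C s) ⊥ = 0 := by
          intro i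
          by_cases h4 : (⊥ : Ideal (𝓞 F)) ∈ DS (S i : Set (Ideal (𝓞 F)))
          · rw [Set.indicator_of_mem h4, trm_bot]
          · rw [Set.indicator_of_notMem h4]
        simp only [h3]
        exact tendsto_const_nhds
      · obtain ⟨v, hv, hmv⟩ := Ideal.exists_le_maximal m hm
        have hv0 : v ≠ ⊥ := by
          rintro rfl
          exact hm0 (le_bot_iff.1 hmv)
        refine Filter.Tendsto.congr' ?_ (tendsto_const_nhds (x := (0 : ℂ)))
        filter_upwards [hl v hv.isPrime hv0] with i hi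
        rw [Set.indicator_of_notMem]
        exact fun h3 => h3 v (by exact_mod_cast hi) hmv
  · refine Filter.Eventually.of_forall fun i m => ?_
    exact norm_indicator_le_norm_self _ _

/-- the Euler product over the primes not dividing `bad` -/
theorem Mult.hasProd {C : Ideal (𝓞 F) → ℂ} {e : Ideal (𝓞 F) → ℂ} (h : Mult C e) {bad : Ideal (𝓞 F)} (hbad : bad ≠ ⊥)
    {s : ℂ} (hs : Summable fun m : {m : Ideal (𝓞 F) // m ≠ ⊥} => ‖C m * (Ideal.absNorm m.1 : ℂ) ^ (-1 - s)‖) {L : ℂ}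
    (hL : HasSum (fun m : {m : Ideal (𝓞 F) // m ≠ ⊥} => C m * (Ideal.absNorm m.1 : ℂ) ^ (-1 - s)) L) :
    HasProd (fun v : Good bad => (1 - C v.1 * (Ideal.absNorm v.1 : ℂ) ^ (-1 - s) +
        e v.1 * (Ideal.absNorm v.1 : ℂ) ^ (-2 - 2 * s))⁻¹)
      (L * ∏ᶠ v : Bad bad, (1 - C v.1 * (Ideal.absNorm v.1 : ℂ) ^ (-1 - s) +
        e v.1 * (Ideal.absNorm v.1 : ℂ) ^ (-2 - 2 * s))) ∧
    ∀ v : Good bad, 1 - C v.1 * (Ideal.absNorm v.1 : ℂ) ^ (-1 - s) +
        e v.1 * (Ideal.absNorm v.1 : ℂ) ^ (-2 - 2 * s) ≠ 0 := by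
  classical
  have hfin := finite_Bad hbad
  have hft : Fintype (Bad bad) := Fintype.ofFinite _
  set P : Ideal (𝓞 F) → ℂ := fun v => 1 - C v * (Ideal.absNorm v : ℂ) ^ (-1 - s) +
    e v * (Ideal.absNorm v : ℂ) ^ (-2 - 2 * s) with hP
  have hsn : Summable fun m => ‖trm C s m‖ := by
    have h1 : Summable (Set.indicator {m : Ideal (𝓞 F) | m ≠ ⊥}
        (fun m => ‖C m * (Ideal.absNorm m : ℂ) ^ (-1 - s)‖)) := summable_subtype_iff_indicator.1 hs
    refine h1.congr fun m => ?_
    unfold trm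
    rw [norm_indicator_eq_indicator_norm]
  have hsum : Summable (trm C s) := hsn.of_norm
  have hL1 : ∑' m, trm C s m = L := by
    have h1 : HasSum (Set.indicator {m : Ideal (𝓞 F) | m ≠ ⊥}
        (fun m => C m * (Ideal.absNorm m : ℂ) ^ (-1 - s))) L := hasSum_subtype_iff_indicator.1 hL
    exact h1.tsum_eq
  -- all primes
  have key : ∀ S : Finset (Ideal (𝓞 F)), (∀ w ∈ S, w.IsPrime ∧ w ≠ ⊥) →
      ∑' m, (DS (S : Set (Ideal (𝓞 F)))).indicator (trm C s) m = (∏ v ∈ S, P v) * L := by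
    intro S hS
    rw [removeAll h hsum S hS, hL1]
  -- the limit over `T`
  set BF : Finset (Ideal (𝓞 F)) := Finset.univ.image (fun v : Bad bad => v.1) with hBF
  set ST : Finset (Good bad) → Finset (Ideal (𝓞 F)) := fun T => T.image (fun v : Good bad => v.1) ∪ BF with hST
  have hSTp : ∀ T, ∀ w ∈ ST T, w.IsPrime ∧ w ≠ ⊥ := by
    intro T w hw
    rw [hST] at hw
    rcases Finset.mem_union.1 hw with hw | hw
    · obtain ⟨v, _, rfl⟩ := Finset.mem_image.1 hw
      exact ⟨v.2.1, v.2.2.1⟩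
    · obtain ⟨v, _, rfl⟩ := Finset.mem_image.1 hw
      exact ⟨v.2.1, v.2.2.1⟩
  have hlim : Filter.Tendsto (fun T => ∑' m, (DS (ST T : Set (Ideal (𝓞 F)))).indicator (trm C s) m)
      Filter.atTop (nhds 1) := by
    refine tends h.one hsn (fun T w hw => (hSTp T w hw).1) ?_
    intro v hv hv0
    by_cases hb : bad ≤ v
    · refine Filter.Eventually.of_forall fun T => ?_
      exact Finset.mem_union_right _ (Finset.mem_image.2 ⟨⟨v, hv, hv0, hb⟩, Finset.mem_univ _, rfl⟩)
    · filter_upwards [Filter.eventually_ge_atTop ({⟨v, hv, hv0, hb⟩} : Finset (Good bad))] with T hT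
      exact Finset.mem_union_left _ (Finset.mem_image.2 ⟨⟨v, hv, hv0, hb⟩, hT (Finset.mem_singleton_self _), rfl⟩)
  have hval : ∀ T : Finset (Good bad), ∑' m, (DS (ST T : Set (Ideal (𝓞 F)))).indicator (trm C s) m =
      (∏ v ∈ T, P v.1) * (∏ v : Bad bad, P v.1) * L := by
    intro T
    rw [key _ (hSTp T), hST]
    have hdis : Disjoint (T.image (fun v : Good bad => v.1)) BF := by
      rw [Finset.disjoint_left]
      intro w hw hw2
      obtain ⟨v, _, rfl⟩ := Finset.mem_image.1 hw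
      obtain ⟨u, _, hu⟩ := Finset.mem_image.1 hw2
      exact v.2.2.2 (hu ▸ u.2.2.2)
    rw [Finset.prod_union hdis, Finset.prod_image (fun x _ y _ hxy => Subtype.ext hxy), hBF,
      Finset.prod_image (fun x _ y _ hxy => Subtype.ext hxy)]
  have hlim2 : Filter.Tendsto (fun T : Finset (Good bad) => (∏ v ∈ T, P v.1) * ((∏ v : Bad bad, P v.1) * L))
      Filter.atTop (nhds 1) := by
    refine hlim.congr fun T => ?_
    rw [hval T, mul_assoc]
  have hne : ∀ v : Good bad, P v.1 ≠ 0 := by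
    intro v hv
    have h1 : Filter.Tendsto (fun T : Finset (Good bad) => (∏ v ∈ T, P v.1) * ((∏ v : Bad bad, P v.1) * L))
        Filter.atTop (nhds 0) := by
      refine Filter.Tendsto.congr' ?_ (tendsto_const_nhds (x := (0 : ℂ)))
      filter_upwards [Filter.eventually_ge_atTop ({v} : Finset (Good bad))] with T hT
      rw [Finset.prod_eq_zero (hT (Finset.mem_singleton_self v)) hv, zero_mul]
    exact zero_ne_one (tendsto_nhds_unique h1 hlim2)
  have hne2 : (∏ v : Bad bad, P v.1) * L ≠ 0 := by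
    intro h0
    rw [h0] at hlim2
    simp only [mul_zero] at hlim2
    exact zero_ne_one (tendsto_nhds_unique tendsto_const_nhds hlim2)
  refine ⟨?_, hne⟩
  rw [finprod_eq_prod_of_fintype]
  have h3 := hlim2.inv₀ one_ne_zero
  have h4 := h3.mul_const ((∏ v : Bad bad, P v.1) * L)
  rw [inv_one, one_mul] at h4
  have h5 : L * ∏ v : Bad bad, P v.1 = (∏ v : Bad bad, P v.1) * L := mul_comm _ _
  show Filter.Tendsto (fun T : Finset (Good bad) => ∏ v ∈ T, (P v.1)⁻¹) _ (nhds (L * ∏ v : Bad bad, P v.1))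
  rw [h5]
  refine h4.congr fun T => ?_
  rw [Finset.prod_inv_distrib, mul_inv, mul_assoc, inv_mul_cancel₀ hne2, mul_one]

end Pool.Agent.H44.TW
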