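import Mathlib

/-!
# Linear algebra: an involution whose eigenspaces are exchanged by a semilinear map
-/

set_option autoImplicit false

namespace Pool.Agent.H44.TW

private theorem finrank_le_of_semi {K V : Type} [Field K] [AddCommGroup V] [Module K V] [FiniteDimensional K V]
    (σ : K ≃+* K) (T : V →ₛₗ[(σ : K →+* K)] V) (hT : Function.Injective T) (P N : Submodule K V)
    (h : ∀ v ∈ P, T v ∈ N) : Module.finrank K P ≤ Module.finrank K N := by
  let b := Module.finBasis K P
  let j : P →+ N :=
    { toFun := fun v => ⟨T (v : V), h v v.2⟩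
      map_zero' := by
        apply Subtype.ext
        simp
      map_add' := fun x y => by
        apply Subtype.ext
        simp }
  have hl : LinearIndependent K (j ∘ b) := by
    refine LinearIndependent.map_of_injective_injective b.linearIndependent (fun r : K => σ.symm r) j ?_ ?_ ?_
    · intro r hr
      have h1 : σ (σ.symm r) = σ 0 := congrArg σ hr
      simpa using h1
    · intro m hm
      have h1 : T (m : V) = 0 := congrArg Subtype.val hm
      have h2 : T (m : V) = T 0 := by rw [h1, map_zero]
      exact Subtype.ext (hT h2)
    · intro r m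
      apply Subtype.ext
      change T (((σ.symm r • m : P) : V)) = r • T (m : V)
      rw [Submodule.coe_smul, LinearMap.map_smulₛₗ]
      simp
  have := hl.fintype_card_le_finrank
  simpa using this

theorem even_of_swap {K V : Type} [Field K] [AddCommGroup V] [Module K V] (h2 : (2 : K) ≠ 0) (σ : K ≃+* K)
    (S : V →ₗ[K] V) (T : V →ₛₗ[(σ : K →+* K)] V) (hT : Function.Injective T) {a κ : K} (ha : a ≠ 0)
    (hκ : κ * a = -σ a) (hS : ∀ v, S (S v) = (a * a) • v) (hST : ∀ v, T (S v) = κ • S (T v)) :
    Even (Module.finrank K V) := by
  by_cases hfin : FiniteDimensional K V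
  swap
  · rw [Module.finrank_of_not_finite hfin]
    exact Even.zero
  have hσa : σ a ≠ 0 := fun h => ha (by simpa using h)
  have hκ0 : κ ≠ 0 := by
    rintro rfl
    apply hσa
    have : (0 : K) = -σ a := by simpa using hκ
    exact neg_eq_zero.mp this.symm
  let P : Submodule K V := LinearMap.ker (S - a • LinearMap.id)
  let N : Submodule K V := LinearMap.ker (S + a • LinearMap.id)
  have hP : ∀ v, v ∈ P ↔ S v = a • v := by
    intro v
    simp only [P, LinearMap.mem_ker, LinearMap.sub_apply, LinearMap.smul_apply, LinearMap.id_apply, sub_eq_zero]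
  have hN : ∀ v, v ∈ N ↔ S v = -(a • v) := by
    intro v
    simp only [N, LinearMap.mem_ker, LinearMap.add_apply, LinearMap.smul_apply, LinearMap.id_apply,
      add_eq_zero_iff_eq_neg]
  have hPN : ∀ v ∈ P, T v ∈ N := by
    intro v hv
    rw [hP] at hv
    rw [hN]
    have h1 := hST v
    rw [hv, LinearMap.map_smulₛₗ] at h1
    have h3 : κ • S (T v) = κ • (-(a • T v)) := by
      rw [← h1, smul_neg, smul_smul, hκ, neg_smul, neg_neg]
      simp
    exact smul_right_injective V hκ0 h3
  have hNP : ∀ v ∈ N, T v ∈ P := by
    intro v hv
    rw [hN] at hv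
    rw [hP]
    have h1 := hST v
    rw [hv, map_neg, LinearMap.map_smulₛₗ] at h1
    have h3 : κ • S (T v) = κ • (a • T v) := by
      rw [← h1, smul_smul, hκ, neg_smul]
      simp
    exact smul_right_injective V hκ0 h3
  have e1 := finrank_le_of_semi σ T hT P N hPN
  have e2 := finrank_le_of_semi σ T hT N P hNP
  have hc : IsCompl P N := by
    constructor
    · rw [Submodule.disjoint_def]
      intro v hv hv'
      rw [hP] at hv
      rw [hN] at hv'
      have h3 : (2 * a) • v = 0 := by
        rw [two_mul, add_smul]
        nth_rewrite 1 [← hv]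
        rw [hv', neg_add_cancel]
      rcases smul_eq_zero.mp h3 with h4 | h4
      · exact absurd h4 (mul_ne_zero h2 ha)
      · exact h4
    · rw [codisjoint_iff, Submodule.eq_top_iff']
      intro v
      have h2a : (2 * a) ≠ 0 := mul_ne_zero h2 ha
      have hv : v = (2 * a)⁻¹ • (S v + a • v) + (2 * a)⁻¹ • (a • v - S v) := by
        rw [← smul_add]
        have : S v + a • v + (a • v - S v) = (2 * a) • v := by
          rw [two_mul, add_smul]
          abel
        rw [this, smul_smul, inv_mul_cancel₀ h2a, one_smul]
      rw [hv]
      apply Submodule.add_mem_sup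
      · apply Submodule.smul_mem
        rw [hP, map_add, hS, map_smul, smul_add, smul_smul]
        abel
      · apply Submodule.smul_mem
        rw [hN, map_sub, hS, map_smul, smul_sub, smul_smul]
        abel
  have e3 := Submodule.finrank_add_eq_of_isCompl hc
  have e4 : Module.finrank K P = Module.finrank K N := le_antisymm e1 e2
  rw [← e3, e4]
  exact ⟨_, rfl⟩

end Pool.Agent.H44.TW
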