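import Pool.Agent.H44.PC.Core
import Pool.Agent.H44.PC.Inter

/-!
# Semilinear operators on Selmer groups
-/

set_option autoImplicit false

open NumberField
open Pool.Agent.H44.PC

namespace Pool.Agent.H44.TW

noncomputable section

variable {p : ℕ} [Fact p.Prime] {K : Type} [NontriviallyNormedField K] [NormedAlgebra ℚ_[p] K]
  {F : IntermediateField ℚ (AlgebraicClosure ℚ)}

/-- the ring homomorphism of an automorphism -/
abbrev hm (γ : K ≃ₐ[ℚ_[p]] K) : K →+* K := γ.toRingEquiv.toRingHom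

/-- `t` normalises `G_F` and `B` (with inverse `B'`) intertwines `ρ` and its conjugate by `t` and `γ` -/
structure Sw (ρ : F.fixingSubgroup →* Matrix (Fin 2) (Fin 2) K)
    (t : (AlgebraicClosure ℚ) ≃ₐ[ℚ] (AlgebraicClosure ℚ)) (γ : K ≃ₐ[ℚ_[p]] K)
    (B B' : Matrix (Fin 2) (Fin 2) K) : Prop where
  nrm : ∀ g ∈ F.fixingSubgroup, t⁻¹ * g * t ∈ F.fixingSubgroup
  nrm' : ∀ g ∈ F.fixingSubgroup, t * g * t⁻¹ ∈ F.fixingSubgroup
  cont : Continuous γ
  int : ∀ g : F.fixingSubgroup, B * (ρ ⟨t⁻¹ * g * t, nrm g g.2⟩).map γ = ρ g * B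
  inv : B * B' = 1
  inv' : B' * B = 1

variable {ρ : F.fixingSubgroup →* Matrix (Fin 2) (Fin 2) K} {t : (AlgebraicClosure ℚ) ≃ₐ[ℚ] (AlgebraicClosure ℚ)}
  {γ : K ≃ₐ[ℚ_[p]] K} {B B' : Matrix (Fin 2) (Fin 2) K}

namespace Sw

/-- conjugation -/
def cj (h : Sw ρ t γ B B') (g : F.fixingSubgroup) : F.fixingSubgroup := ⟨t⁻¹ * g * t, h.nrm g g.2⟩

/-- the operator on functions -/
def op (h : Sw ρ t γ B B') : (F.fixingSubgroup → Fin 2 → K) →ₛₗ[hm γ] (F.fixingSubgroup → Fin 2 → K) where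
  toFun c := fun g => B.mulVec fun i => γ (c (h.cj g) i)
  map_add' a b := by
    funext g
    refine Eq.trans ?_ (Matrix.mulVec_add B (fun i => γ (a (h.cj g) i)) (fun i => γ (b (h.cj g) i)))
    congr 1
    funext i
    exact map_add γ _ _
  map_smul' x a := by
    funext g
    refine Eq.trans ?_ (Matrix.mulVec_smul B (γ x) (fun i => γ (a (h.cj g) i)))
    congr 1
    funext i
    exact map_mul γ _ _

private theorem cj_mul (h : Sw ρ t γ B B') (a b : F.fixingSubgroup) : h.cj (a * b) = h.cj a * h.cj b := by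
  apply Subtype.ext
  simp only [cj, Subgroup.coe_mul]
  group

private theorem continuous_cj (h : Sw ρ t γ B B') : Continuous h.cj := by
  refine Continuous.subtype_mk ?_ _
  exact (continuous_const.mul continuous_subtype_val).mul continuous_const

private theorem op_apply (h : Sw ρ t γ B B') (c : F.fixingSubgroup → Fin 2 → K) (g : F.fixingSubgroup) :
    h.op c g = B.mulVec fun i => γ (c (h.cj g) i) := rfl

private theorem gmul (γ : K ≃ₐ[ℚ_[p]] K) (M : Matrix (Fin 2) (Fin 2) K) (v : Fin 2 → K) :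
    (fun i => γ (M.mulVec v i)) = (M.map γ).mulVec fun i => γ (v i) := by
  funext i
  simp only [Matrix.mulVec, dotProduct, Matrix.map_apply, map_sum, map_mul]

private theorem op_cobd (h : Sw ρ t γ B B') (m : Fin 2 → K) :
    h.op (cobd (vec ρ) m) = cobd (vec ρ) (B.mulVec fun i => γ (m i)) := by
  funext g
  rw [op_apply]
  show (B.mulVec fun i => γ (((ρ (h.cj g)).mulVec m - m) i)) =
    (ρ g).mulVec (B.mulVec fun i => γ (m i)) - B.mulVec fun i => γ (m i)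
  have h1 : (fun i => γ (((ρ (h.cj g)).mulVec m - m) i)) =
      ((ρ (h.cj g)).map γ).mulVec (fun i => γ (m i)) - fun i => γ (m i) := by
    rw [← gmul]
    funext i
    simp only [Pi.sub_apply, map_sub]
  rw [h1, Matrix.mulVec_sub, Matrix.mulVec_mulVec, Matrix.mulVec_mulVec, ← h.int g]
  rfl

private theorem op_cont (h : Sw ρ t γ B B') {c : F.fixingSubgroup → Fin 2 → K} (hc : Continuous c) :
    Continuous (h.op c) := by
  have h1 : Continuous fun g => fun i => γ (c (h.cj g) i) :=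
    continuous_pi fun i => h.cont.comp ((continuous_apply i).comp (hc.comp h.continuous_cj))
  exact Continuous.matrix_mulVec continuous_const h1

private theorem op_coc (h : Sw ρ t γ B B') {c : F.fixingSubgroup → Fin 2 → K}
    (hc : ∀ g g', c (g * g') = c g + vec ρ g (c g')) (g g' : F.fixingSubgroup) :
    h.op c (g * g') = h.op c g + vec ρ g (h.op c g') := by
  rw [op_apply, op_apply, op_apply, h.cj_mul, hc]
  show (B.mulVec fun i => γ ((c (h.cj g) + (ρ (h.cj g)).mulVec (c (h.cj g'))) i)) =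
    (B.mulVec fun i => γ (c (h.cj g) i)) + (ρ g).mulVec (B.mulVec fun i => γ (c (h.cj g') i))
  have h1 : (fun i => γ ((c (h.cj g) + (ρ (h.cj g)).mulVec (c (h.cj g'))) i)) =
      (fun i => γ (c (h.cj g) i)) + ((ρ (h.cj g)).map γ).mulVec fun i => γ (c (h.cj g') i) := by
    rw [← gmul]
    funext i
    simp only [Pi.add_apply, map_add]
  rw [h1, Matrix.mulVec_add, Matrix.mulVec_mulVec, Matrix.mulVec_mulVec, ← h.int g]
  rfl

private theorem op_unr (h : Sw ρ t γ B B') {c : F.fixingSubgroup → Fin 2 → K} {P : Ideal (𝓞 (AlgebraicClosure ℚ))}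
    (hc : UnrAt (vec ρ) (P.comap (Tw.ooMap t)) c) : UnrAt (vec ρ) P (h.op c) := by
  obtain ⟨m, hm⟩ := hc
  refine ⟨B.mulVec fun i => γ (m i), fun g hg => ?_⟩
  rw [op_apply, hm (h.cj g) ?_]
  · exact congrFun (h.op_cobd m) g
  · intro x
    rw [Ideal.mem_comap, map_sub, Tw.ooMap_apply, Tw.ooMap_apply]
    show t • ((h.cj g : F.fixingSubgroup) : ((AlgebraicClosure ℚ) ≃ₐ[ℚ] (AlgebraicClosure ℚ))) • x - t • x ∈ P
    have h1 : t • ((h.cj g : F.fixingSubgroup) : ((AlgebraicClosure ℚ) ≃ₐ[ℚ] (AlgebraicClosure ℚ))) • x =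
        (g : ((AlgebraicClosure ℚ) ≃ₐ[ℚ] (AlgebraicClosure ℚ))) • t • x := by
      rw [smul_smul, smul_smul]
      congr 1
      simp only [cj]
      group
    rw [h1]
    exact hg (t • x)

private theorem dec_key (h : Sw ρ t γ B B') (j : (AlgebraicClosure ℚ) →+* ℂ_[p]) (i : Dec F.fixingSubgroup j)
    (x : (AlgebraicClosure ℚ)) :
    i.1.2.toEquiv ((j.comp (t : (AlgebraicClosure ℚ) →+* (AlgebraicClosure ℚ))) x) =
      (j.comp (t : (AlgebraicClosure ℚ) →+* (AlgebraicClosure ℚ))) (h.cj i.1.1 • x) := by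
  have h2 := i.2 (t x)
  show i.1.2.toEquiv (j (t x)) =
    j (t ((h.cj i.1.1 : ((AlgebraicClosure ℚ) ≃ₐ[ℚ] (AlgebraicClosure ℚ))) x))
  rw [h2]
  congr 1
  show (i.1.1 : ((AlgebraicClosure ℚ) ≃ₐ[ℚ] (AlgebraicClosure ℚ))) (t x) = t ((t⁻¹ * i.1.1 * t) x)
  simp only [AlgEquiv.mul_apply]
  rw [show t (t⁻¹ ((i.1.1 : ((AlgebraicClosure ℚ) ≃ₐ[ℚ] (AlgebraicClosure ℚ))) (t x))) =
    (t * t⁻¹) ((i.1.1 : ((AlgebraicClosure ℚ) ≃ₐ[ℚ] (AlgebraicClosure ℚ))) (t x)) from rfl, mul_inv_cancel]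
  rfl

/-- conjugation on the decomposition groups -/
private def dec (h : Sw ρ t γ B B') (j : (AlgebraicClosure ℚ) →+* ℂ_[p]) (i : Dec F.fixingSubgroup j) :
    Dec F.fixingSubgroup (j.comp (t : (AlgebraicClosure ℚ) →+* (AlgebraicClosure ℚ))) :=
  ⟨(h.cj i.1.1, i.1.2), h.dec_key j i⟩

/-- the operator on the vectors -/
private def tv (γ : K ≃ₐ[ℚ_[p]] K) (B : Matrix (Fin 2) (Fin 2) K) : (Fin 2 → K) →ₗ[ℚ_[p]] (Fin 2 → K) :=
  (Matrix.mulVecLin B).restrictScalars ℚ_[p] ∘ₗ (γ.toLinearMap.compLeft (Fin 2))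

private theorem tv_apply (γ : K ≃ₐ[ℚ_[p]] K) (B : Matrix (Fin 2) (Fin 2) K) (v : Fin 2 → K) :
    tv γ B v = B.mulVec fun i => γ (v i) := rfl

private theorem op_cris (h : Sw ρ t γ B B') {c : F.fixingSubgroup → Fin 2 → K} {j : (AlgebraicClosure ℚ) →+* ℂ_[p]}
    (hc : CrisAt (vec ρ) (j.comp (t : (AlgebraicClosure ℚ) →+* (AlgebraicClosure ℚ))) c) :
    CrisAt (vec ρ) j (h.op c) := by
  have hf : ∀ i : Dec F.fixingSubgroup j,
      (vec ρ i.1.1).restrictScalars ℚ_[p] ∘ₗ tv γ B =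
        tv γ B ∘ₗ (vec ρ (h.dec j i).1.1).restrictScalars ℚ_[p] := by
    intro i
    refine LinearMap.ext fun v => ?_
    show (ρ i.1.1).mulVec (B.mulVec fun i => γ (v i)) =
      B.mulVec fun k => γ ((ρ (h.cj i.1.1)).mulVec v k)
    rw [gmul, Matrix.mulVec_mulVec, Matrix.mulVec_mulVec, ← h.int i.1.1]
    rfl
  have hh : ∀ i : Dec F.fixingSubgroup j, BC.act p i.1.2 = BC.act p (h.dec j i).1.2 := fun i => rfl
  exact Dies.map hc (tv γ B) (h.dec j) hf hh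

theorem op_Z1f (h : Sw ρ t γ B B') {c : F.fixingSubgroup → Fin 2 → K}
    (hc : c ∈ Z1f (AlgebraicClosure ℚ) p (vec ρ)) : h.op c ∈ Z1f (AlgebraicClosure ℚ) p (vec ρ) := by
  obtain ⟨h1, h1', h2, h3⟩ := hc
  refine ⟨h.op_cont h1, h.op_coc h1', fun P hP h0 hp => ?_, fun j => ?_⟩
  · refine h.op_unr (h2 _ ?_ ?_ ?_)
    · exact Ideal.comap_isPrime _ _
    · intro hbot
      apply h0
      rw [eq_bot_iff]
      intro x hx
      have h4 : t⁻¹ • x ∈ P.comap (Tw.ooMap t) := by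
        rw [Ideal.mem_comap, Tw.ooMap_apply, smul_inv_smul]
        exact hx
      rw [hbot, Ideal.mem_bot] at h4
      rw [Ideal.mem_bot]
      rw [← smul_inv_smul t x, h4, smul_zero]
    · rw [Ideal.mem_comap, map_natCast]
      exact hp
  · exact h.op_cris (h3 _)

private theorem op_inj (h : Sw ρ t γ B B') {c d : F.fixingSubgroup → Fin 2 → K} (hcd : h.op c = h.op d) : c = d := by
  funext k
  have hk : h.cj ⟨t * k * t⁻¹, h.nrm' k k.2⟩ = k := by
    apply Subtype.ext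
    simp only [cj]
    group
  have h1 := congrArg (fun v => B'.mulVec v) (congrFun hcd ⟨t * k * t⁻¹, h.nrm' k k.2⟩)
  simp only [op_apply, hk, Matrix.mulVec_mulVec, h.inv', Matrix.one_mulVec] at h1
  funext i
  exact γ.injective (congrFun h1 i)

theorem op_B1 (h : Sw ρ t γ B B') (c : F.fixingSubgroup → Fin 2 → K) :
    h.op c ∈ B1 (vec ρ) ↔ c ∈ B1 (vec ρ) := by
  constructor
  · rintro ⟨m, hm⟩
    refine ⟨fun i => γ.symm (B'.mulVec m i), ?_⟩
    apply h.op_inj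
    rw [h.op_cobd]
    have h1 : (fun i => γ (γ.symm (B'.mulVec m i))) = B'.mulVec m := by
      funext i
      exact γ.apply_symm_apply _
    rw [h1, Matrix.mulVec_mulVec, h.inv, Matrix.one_mulVec]
    exact hm
  · rintro ⟨m, hm⟩
    refine ⟨B.mulVec fun i => γ (m i), ?_⟩
    rw [← h.op_cobd, hm]

/-- the operator on the cocycles -/
def opZ (h : Sw ρ t γ B B') :
    Z1f (AlgebraicClosure ℚ) p (vec ρ) →ₛₗ[hm γ] Z1f (AlgebraicClosure ℚ) p (vec ρ) where
  toFun c := ⟨h.op c, h.op_Z1f c.2⟩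
  map_add' a b := Subtype.ext (map_add h.op _ _)
  map_smul' x a := Subtype.ext (h.op.map_smulₛₗ x a.1)

/-- the operator on `H^1_f` -/
def opH (h : Sw ρ t γ B B') :
    Quo (Z1f (AlgebraicClosure ℚ) p (vec ρ)) (B1 (vec ρ)) →ₛₗ[hm γ]
      Quo (Z1f (AlgebraicClosure ℚ) p (vec ρ)) (B1 (vec ρ)) :=
  Submodule.mapQ ((B1 (vec ρ)).comap (Z1f (AlgebraicClosure ℚ) p (vec ρ)).subtype)
    ((B1 (vec ρ)).comap (Z1f (AlgebraicClosure ℚ) p (vec ρ)).subtype) h.opZ (by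
    intro c hc
    exact (h.op_B1 c.1).2 hc)

theorem opH_cls (h : Sw ρ t γ B B') (c : Z1f (AlgebraicClosure ℚ) p (vec ρ)) :
    h.opH (Tw.cls ρ c) = Tw.cls ρ (h.opZ c) := rfl

private theorem cls_zero_iff (c : Z1f (AlgebraicClosure ℚ) p (vec ρ)) :
    Tw.cls (p := p) ρ c = 0 ↔ (c : F.fixingSubgroup → Fin 2 → K) ∈ B1 (vec ρ) :=
  Submodule.Quotient.mk_eq_zero ((B1 (vec ρ)).comap (Z1f (AlgebraicClosure ℚ) p (vec ρ)).subtype)

theorem opH_injective (h : Sw ρ t γ B B') : Function.Injective h.opH := by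
  rw [injective_iff_map_eq_zero]
  intro x hx
  obtain ⟨c, rfl⟩ := Tw.cls_surj x
  rw [opH_cls, cls_zero_iff] at hx
  rw [cls_zero_iff]
  exact (h.op_B1 c.1).1 hx

private theorem comm_op (h : Sw ρ t γ B B') {s : (AlgebraicClosure ℚ) ≃ₐ[ℚ] (AlgebraicClosure ℚ)}
    {T : Matrix (Fin 2) (Fin 2) K} {c₀ : K} (hs : Tw ρ s T c₀ 2) (u : F.fixingSubgroup)
    (hu : t * s = s * t * u) (κ : K) (hκ : B * T.map γ = κ • (T * B * (ρ u).map γ))
    {c : F.fixingSubgroup → Fin 2 → K} (hc : ∀ g g', c (g * g') = c g + (ρ g).mulVec (c g')) :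
    h.op (hs.op c) = κ • hs.op (h.op c) + cobd (vec ρ) (κ • T.mulVec (B.mulVec fun i => γ (c u i))) := by
  have h1 : c 1 = 0 := by
    have h3 := hc 1 1
    rw [mul_one, map_one, Matrix.one_mulVec] at h3
    exact left_eq_add.1 h3
  have h5 : c u⁻¹ = -(ρ u⁻¹).mulVec (c u) := by
    have h6 := hc u⁻¹ u
    rw [inv_mul_cancel, h1] at h6
    exact eq_neg_of_add_eq_zero_left h6.symm
  have h7 : ρ u * ρ u⁻¹ = 1 := by rw [← map_mul, mul_inv_cancel, map_one]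
  have h8 : (ρ u).map γ * (ρ u⁻¹).map γ = 1 := by
    have := congrArg (fun M : Matrix (Fin 2) (Fin 2) K => M.map γ) h7
    simp only [Matrix.map_mul] at this
    rw [this]
    exact Matrix.map_one _ (map_zero γ) (map_one γ)
  have hcob : cobd (vec ρ) (κ • T.mulVec (B.mulVec fun i => γ (c u i))) =
      κ • hs.op (h.op (cobd (vec ρ) (c u))) := by
    rw [h.op_cobd, hs.op_cobd, cobd_smul]
  rw [hcob, ← smul_add, ← map_add, ← map_add]
  funext g
  have hg : hs.cj (h.cj g) = u⁻¹ * (h.cj (hs.cj g) * u) := by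
    apply Subtype.ext
    show s⁻¹ * (t⁻¹ * g * t) * s = (u : (AlgebraicClosure ℚ) ≃ₐ[ℚ] (AlgebraicClosure ℚ))⁻¹ *
      ((t⁻¹ * (s⁻¹ * g * s) * t) * u)
    have e1 : s⁻¹ * (t⁻¹ * g * t) * s = (t * s)⁻¹ * g * (t * s) := by group
    rw [e1, hu]
    group
  have h9 : c (hs.cj (h.cj g)) = (ρ u⁻¹).mulVec ((c + cobd (vec ρ) (c u)) (h.cj (hs.cj g))) := by
    rw [hg, hc, hc, h5]
    show _ = (ρ u⁻¹).mulVec (c (h.cj (hs.cj g)) + ((ρ (h.cj (hs.cj g))).mulVec (c u) - c u))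
    rw [Matrix.mulVec_add, Matrix.mulVec_add, Matrix.mulVec_sub]
    abel
  show (B.mulVec fun i => γ (T.mulVec (c (hs.cj (h.cj g))) i)) =
    κ • T.mulVec (B.mulVec fun i => γ ((c + cobd (vec ρ) (c u)) (h.cj (hs.cj g)) i))
  rw [h9, gmul, gmul, Matrix.mulVec_mulVec, Matrix.mulVec_mulVec, Matrix.mulVec_mulVec, hκ, Matrix.smul_mul,
    Matrix.mul_assoc (T * B), h8, Matrix.mul_one, Matrix.smul_mulVec]

/-- the commutation relation -/
theorem opH_comm (h : Sw ρ t γ B B') {s : (AlgebraicClosure ℚ) ≃ₐ[ℚ] (AlgebraicClosure ℚ)}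
    {T : Matrix (Fin 2) (Fin 2) K} {c₀ : K} (hs : Tw ρ s T c₀ 2) (u : F.fixingSubgroup)
    (hu : t * s = s * t * u) (κ : K) (hκ : B * T.map γ = κ • (T * B * (ρ u).map γ))
    (x : Quo (Z1f (AlgebraicClosure ℚ) p (vec ρ)) (B1 (vec ρ))) :
    h.opH (hs.opH x) = κ • hs.opH (h.opH x) := by
  obtain ⟨c, rfl⟩ := Tw.cls_surj x
  rw [Tw.opH_cls, opH_cls, opH_cls, Tw.opH_cls, ← map_smul, ← sub_eq_zero, ← map_sub, cls_zero_iff]
  refine ⟨κ • T.mulVec (B.mulVec fun i => γ ((c : F.fixingSubgroup → Fin 2 → K) u i)), ?_⟩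
  show cobd (vec ρ) _ = h.op (hs.op (c : F.fixingSubgroup → Fin 2 → K)) -
    κ • hs.op (h.op (c : F.fixingSubgroup → Fin 2 → K))
  rw [h.comm_op hs u hu κ hκ c.2.2]
  abel

end Sw

end

end Pool.Agent.H44.TW
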