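import Pool.Agent.H44.TW.GMa
import Pool.Agent.H44.TW.GSemi
import Pool.Agent.H44.TW.GAlg

/-!
# The Selmer group of a representation of `G_F` with an outer symmetry
-/

set_option autoImplicit false

open NumberField Matrix
open Pool.Agent.H44.PC

namespace Pool.Agent.H44.TW

/-- the span of the image under an automorphism of the field -/
private theorem span_map_top {K : Type} [Field K] (γ : K ≃+* K) {ι κ : Type} (f : ι → Matrix (Fin 2) (Fin 2) K)
    (g : κ → Matrix (Fin 2) (Fin 2) K) (hf : Submodule.span K (Set.range f) = ⊤)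
    (hfg : ∀ i, ∃ k, g k = (f i).map γ) : Submodule.span K (Set.range g) = ⊤ := by
  have key : ∀ A : Matrix (Fin 2) (Fin 2) K, A.map γ ∈ Submodule.span K (Set.range g) := by
    intro A
    have hA : A ∈ Submodule.span K (Set.range f) := by rw [hf]; trivial
    induction hA using Submodule.span_induction with
    | mem x hx =>
      obtain ⟨i, rfl⟩ := hx
      obtain ⟨k, hk⟩ := hfg i
      rw [← hk]
      exact Submodule.subset_span ⟨k, rfl⟩
    | zero =>
      rw [Matrix.map_zero _ (map_zero _)]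
      exact zero_mem _
    | add x y _ _ hx hy =>
      rw [Matrix.map_add _ (map_add _)]
      exact add_mem hx hy
    | smul c x _ hx =>
      have : (c • x).map γ = γ c • x.map γ := by
        ext i j
        simp
      rw [this]
      exact Submodule.smul_mem _ _ hx
  rw [eq_top_iff]
  intro A _
  have : A = (A.map γ.symm).map γ := by
    ext i j
    simp
  rw [this]
  exact key _

variable {p : ℕ} [Fact p.Prime] {K : Type} [NontriviallyNormedField K] [NormedAlgebra ℚ_[p] K]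
  {L : Type} [NontriviallyNormedField L] [NormedAlgebra K L]
  {F₀ F : IntermediateField ℚ (AlgebraicClosure ℚ)} [NumberField F₀] [NumberField F]
  {ρ : F.fixingSubgroup →* Matrix (Fin 2) (Fin 2) K} {r : F₀.fixingSubgroup →* Matrix (Fin 2) (Fin 2) L}

/-- conjugation by an element which stabilises the field -/
private noncomputable def cjT (M : IntermediateField ℚ (AlgebraicClosure ℚ)) [NumberField M]
    (t : (AlgebraicClosure ℚ) ≃ₐ[ℚ] (AlgebraicClosure ℚ)) (ht : ∀ x ∈ M, t x ∈ M) :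
    M.fixingSubgroup →* M.fixingSubgroup where
  toFun g := ⟨t⁻¹ * g * t, (conj_stable ht g.2).1⟩
  map_one' := Subtype.ext (by simp)
  map_mul' a b := Subtype.ext (by simp only [Subgroup.coe_mul]; group)

omit [NumberField F₀] [NumberField F] in
private theorem exists_s (h2 : F₀.relfinrank F = 2) (h : F₀ ≤ F) :
    ∃ s : F₀.fixingSubgroup, (s : (AlgebraicClosure ℚ) ≃ₐ[ℚ] (AlgebraicClosure ℚ)) ∉ F.fixingSubgroup := by
  by_contra hc
  push Not at hc
  have h3 : F₀.fixingSubgroup ≤ F.fixingSubgroup := fun x hx => hc ⟨x, hx⟩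
  have h4 : F.fixingSubgroup ≤ F₀.fixingSubgroup := IntermediateField.fixingSubgroup_le h
  have h5 : F₀.fixingSubgroup = F.fixingSubgroup := le_antisymm h3 h4
  have h6 : F₀ = F := by
    rw [← InfiniteGalois.fixedField_fixingSubgroup F₀, ← InfiniteGalois.fixedField_fixingSubgroup F, h5]
  rw [h6, IntermediateField.relfinrank_self] at h2
  omega

open Classical in
/-- the quadratic character -/
private noncomputable def chiQ (h : F₀ ≤ F) (h2 : F₀.relfinrank F = 2) : F₀.fixingSubgroup →* L where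
  toFun x := if (x : (AlgebraicClosure ℚ) ≃ₐ[ℚ] (AlgebraicClosure ℚ)) ∈ F.fixingSubgroup then 1 else -1
  map_one' := by
    rw [if_pos]
    exact one_mem _
  map_mul' a b := by
    by_cases ha : (a : (AlgebraicClosure ℚ) ≃ₐ[ℚ] (AlgebraicClosure ℚ)) ∈ F.fixingSubgroup
    · by_cases hb : (b : (AlgebraicClosure ℚ) ≃ₐ[ℚ] (AlgebraicClosure ℚ)) ∈ F.fixingSubgroup
      · rw [Subgroup.coe_mul, if_pos ha, if_pos hb, if_pos (mul_mem ha hb), mul_one]
      · rw [Subgroup.coe_mul, if_pos ha, if_neg hb, if_neg, one_mul]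
        intro hab
        exact hb ((Subgroup.mul_mem_cancel_left _ ha).1 hab)
    · by_cases hb : (b : (AlgebraicClosure ℚ) ≃ₐ[ℚ] (AlgebraicClosure ℚ)) ∈ F.fixingSubgroup
      · rw [Subgroup.coe_mul, if_neg ha, if_pos hb, if_neg, mul_one]
        intro hab
        exact ha ((Subgroup.mul_mem_cancel_right _ hb).1 hab)
      · have h3 : ((a⁻¹ : F₀.fixingSubgroup) : (AlgebraicClosure ℚ) ≃ₐ[ℚ] (AlgebraicClosure ℚ)) ∉
            F.fixingSubgroup := fun h4 => ha ((Subgroup.inv_mem_iff _).1 h4)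
        have h4 := index_two h h2 a⁻¹ b h3 hb
        have h5 : ((a⁻¹ : F₀.fixingSubgroup) : (AlgebraicClosure ℚ) ≃ₐ[ℚ] (AlgebraicClosure ℚ))⁻¹ * b =
            ((a * b : F₀.fixingSubgroup) : (AlgebraicClosure ℚ) ≃ₐ[ℚ] (AlgebraicClosure ℚ)) := by
          simp
        rw [h5] at h4
        rw [if_neg ha, if_neg hb, if_pos h4]
        ring

open Classical in
/-- the intertwining matrix over `K` intertwines the twisted representations over `L` -/
private theorem inter_L (h : F₀ ≤ F) (h2 : F₀.relfinrank F = 2) (hirr : Submodule.span K (Set.range ρ) = ⊤)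
    (t : (AlgebraicClosure ℚ) ≃ₐ[ℚ] (AlgebraicClosure ℚ)) (ht0 : ∀ x ∈ F₀, t x ∈ F₀) (htF : ∀ x ∈ F, t x ∈ F)
    (γ₀ : K ≃ₐ[ℚ_[p]] K) (γ : L ≃+* L)
    (hγ : ∀ x : K, γ (algebraMap K L x) = algebraMap K L (γ₀ x))
    (htw : ∀ x y : F₀.fixingSubgroup, (y : (AlgebraicClosure ℚ) ≃ₐ[ℚ] (AlgebraicClosure ℚ)) = t⁻¹ * x * t →
      γ (r y).trace = (if (x : (AlgebraicClosure ℚ) ≃ₐ[ℚ] (AlgebraicClosure ℚ)) ∈ F.fixingSubgroup then 1 else -1) *
        (r x).trace)
    {P P' : Matrix (Fin 2) (Fin 2) L} (hP : P * P' = 1)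
    (hr : ∀ g : F.fixingSubgroup, P' * r (sub h g) * P = (ρ g).map (algebraMap K L))
    {B B' : Matrix (Fin 2) (Fin 2) K} (hB : B * B' = 1) (hB' : B' * B = 1)
    (hBi : ∀ g : F.fixingSubgroup, B * (ρ (cjT F t htF g)).map γ₀ = ρ g * B)
    (x : F₀.fixingSubgroup) :
    B.map (algebraMap K L) * (P' * r (cjT F₀ t ht0 x) * P).map γ =
      (if (x : (AlgebraicClosure ℚ) ≃ₐ[ℚ] (AlgebraicClosure ℚ)) ∈ F.fixingSubgroup then (1 : L) else -1) •
        (P' * r x * P * B.map (algebraMap K L)) := by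
  have hP' : P' * P = 1 := mul_eq_one_comm.1 hP
  -- the conjugated representation
  let r' : F₀.fixingSubgroup →* Matrix (Fin 2) (Fin 2) L :=
    { toFun := fun x => P' * r x * P
      map_one' := by rw [map_one, mul_one, hP']
      map_mul' := fun a b => by
        rw [map_mul]
        calc P' * (r a * r b) * P = P' * r a * (1 * (r b * P)) := by simp only [mul_assoc, one_mul]
          _ = P' * r a * ((P * P') * (r b * P)) := by rw [hP]
          _ = _ := by simp only [mul_assoc] }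
  have hr' : ∀ x, r' x = P' * r x * P := fun _ => rfl
  have trr' : ∀ x, (r' x).trace = (r x).trace := by
    intro x
    rw [hr', Matrix.trace_mul_comm, ← mul_assoc, hP, one_mul]
  let r1 : F₀.fixingSubgroup →* Matrix (Fin 2) (Fin 2) L :=
    ((γ : L →+* L).mapMatrix : Matrix (Fin 2) (Fin 2) L →+* Matrix (Fin 2) (Fin 2) L).toMonoidHom.comp
      (r'.comp (cjT F₀ t ht0))
  have hr1 : ∀ x, r1 x = (r' (cjT F₀ t ht0 x)).map γ := fun _ => rfl
  let r2 : F₀.fixingSubgroup →* Matrix (Fin 2) (Fin 2) L :=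
    { toFun := fun x => chiQ (L := L) h h2 x • r' x
      map_one' := by rw [map_one, map_one, one_smul]
      map_mul' := fun a b => by
        rw [map_mul, map_mul, Matrix.smul_mul, Matrix.mul_smul, smul_smul] }
  have hr2 : ∀ x, r2 x = chiQ (L := L) h h2 x • r' x := fun _ => rfl
  have hchi : ∀ g : F.fixingSubgroup, chiQ (L := L) h h2 (sub h g) = 1 := fun g => if_pos g.2
  have htr : ∀ x, (r1 x).trace = (r2 x).trace := by
    intro x
    have e1 : (r1 x).trace = γ (r' (cjT F₀ t ht0 x)).trace := by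
      rw [hr1, Matrix.trace_fin_two, Matrix.trace_fin_two, map_add]
      rfl
    rw [e1, trr', htw x (cjT F₀ t ht0 x) rfl, hr2, Matrix.trace_smul, trr', smul_eq_mul]
    rfl
  -- the representations span
  have hcj : ∀ g : F.fixingSubgroup, cjT F₀ t ht0 (sub h g) = sub h (cjT F t htF g) := fun _ => rfl
  have sp := span_extL (L := L) hirr
  have s2 : Submodule.span L (Set.range r2) = ⊤ := by
    rw [eq_top_iff, ← sp, Submodule.span_le]
    rintro _ ⟨g, rfl⟩
    apply Submodule.subset_span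
    refine ⟨sub h g, ?_⟩
    rw [hr2, hchi, one_smul, hr', hr, extL_apply]
  have s1 : Submodule.span L (Set.range r1) = ⊤ := by
    apply span_map_top γ (extL L ρ) r1 sp
    intro g
    refine ⟨sub h ⟨t * g * t⁻¹, (conj_stable htF g.2).2⟩, ?_⟩
    rw [hr1, hcj, hr', hr, extL_apply]
    congr 2
    apply congrArg ρ
    apply Subtype.ext
    show t⁻¹ * (t * (g : (AlgebraicClosure ℚ) ≃ₐ[ℚ] (AlgebraicClosure ℚ)) * t⁻¹) * t = g
    group
  obtain ⟨C, C', hC, hC', hCi⟩ := exists_inter r1 r2 s1 s2 htr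
  -- `C = μ B`
  have hBm : B.map (algebraMap K L) * B'.map (algebraMap K L) = 1 := by
    rw [← Matrix.map_mul, hB, Matrix.map_one _ (map_zero _) (map_one _)]
  have hBm' : B'.map (algebraMap K L) * B.map (algebraMap K L) = 1 := by
    rw [← Matrix.map_mul, hB', Matrix.map_one _ (map_zero _) (map_one _)]
  have hBig : ∀ g : F.fixingSubgroup, B.map (algebraMap K L) * r1 (sub h g) =
      (ρ g).map (algebraMap K L) * B.map (algebraMap K L) := by
    intro g
    rw [hr1, hcj, hr', hr, ← Matrix.map_mul, ← hBi g, Matrix.map_mul]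
    congr 1
    ext i j
    exact hγ _
  obtain ⟨μ, hμ⟩ := scalar_of_comm (S := Set.range (extL L ρ)) sp (C * B'.map (algebraMap K L)) (by
    rintro _ ⟨g, rfl⟩
    rw [extL_apply]
    have e1 : C * r1 (sub h g) = (ρ g).map (algebraMap K L) * C := by
      rw [hCi, hr2, hchi, one_smul, hr', hr]
    have e2 : r1 (sub h g) = B'.map (algebraMap K L) * ((ρ g).map (algebraMap K L) *
        B.map (algebraMap K L)) := by
      rw [← hBig, ← mul_assoc, hBm', one_mul]
    calc C * B'.map (algebraMap K L) * (ρ g).map (algebraMap K L)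
        = C * (B'.map (algebraMap K L) * ((ρ g).map (algebraMap K L) *
          B.map (algebraMap K L))) * B'.map (algebraMap K L) := by
          simp only [mul_assoc, hBm, mul_one]
      _ = (ρ g).map (algebraMap K L) * (C * B'.map (algebraMap K L)) := by
          rw [← e2, e1, mul_assoc])
  have hCB : C = μ • B.map (algebraMap K L) := by
    calc C = C * B'.map (algebraMap K L) * B.map (algebraMap K L) := by
          rw [mul_assoc, hBm', mul_one]
      _ = _ := by rw [hμ, Matrix.smul_mul, one_mul]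
  have hμ0 : μ ≠ 0 := by
    intro h0
    rw [h0, zero_smul] at hCB
    rw [hCB, zero_mul] at hC
    exact zero_ne_one hC
  have hfin := hCi x
  rw [hCB, Matrix.smul_mul, Matrix.mul_smul] at hfin
  have hfin2 : B.map (algebraMap K L) * r1 x = r2 x * B.map (algebraMap K L) := by
    have := congrArg (fun A => μ⁻¹ • A) hfin
    simpa only [smul_smul, inv_mul_cancel₀ hμ0, one_smul] using this
  rw [hr1, hr2, Matrix.smul_mul] at hfin2
  exact hfin2

open Classical in
/-- case (c) -/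
theorem even_c (h : F₀ ≤ F) (h2 : F₀.relfinrank F = 2) (hirr : Submodule.span K (Set.range ρ) = ⊤)
    (htr : ∀ g : F.fixingSubgroup, (r (sub h g)).trace = algebraMap K L (ρ g).trace)
    (t : (AlgebraicClosure ℚ) ≃ₐ[ℚ] (AlgebraicClosure ℚ)) (ht0 : ∀ x ∈ F₀, t x ∈ F₀) (htF : ∀ x ∈ F, t x ∈ F)
    (γ₀ : K ≃ₐ[ℚ_[p]] K) (hγ₀ : Continuous γ₀) (γ : L ≃+* L)
    (hγ : ∀ x : K, γ (algebraMap K L x) = algebraMap K L (γ₀ x))
    (htw : ∀ x y : F₀.fixingSubgroup, (y : (AlgebraicClosure ℚ) ≃ₐ[ℚ] (AlgebraicClosure ℚ)) = t⁻¹ * x * t →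
      γ (r y).trace = (if (x : (AlgebraicClosure ℚ) ≃ₐ[ℚ] (AlgebraicClosure ℚ)) ∈ F.fixingSubgroup then 1 else -1) *
        (r x).trace) :
    Even (selDim ρ (AlgebraicClosure ℚ) p) := by
  obtain ⟨P, P', hP, hP', hr, hs⟩ := exists_tw2 h h2 hirr htr
  obtain ⟨s, hsF⟩ := exists_s h2 h
  obtain ⟨T, c, α, htwT, hdet, hα, hrs, hαc⟩ := hs s
  by_cases hsq : ∃ d : K, d ^ 2 = c
  swap
  · exact Tw.even (j := 1) (by simpa using htwT) (by simpa using hsq)
  -- `α = 1 / a`
  have inj := (algebraMap K L).injective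
  obtain ⟨a, ha2, haα⟩ : ∃ a : K, a ^ 2 = c ∧ α * algebraMap K L a = 1 := by
    obtain ⟨d, hd⟩ := hsq
    have h3 : (α * algebraMap K L d) ^ 2 = 1 := by
      rw [mul_pow, ← map_pow, hd, hαc]
    rw [sq] at h3
    rcases mul_self_eq_one_iff.1 h3 with h4 | h4
    · exact ⟨d, hd, h4⟩
    · exact ⟨-d, by rw [neg_sq, hd], by rw [map_neg, mul_neg, h4, neg_neg]⟩
  have ha0 : a ≠ 0 := by
    rintro rfl
    rw [map_zero, mul_zero] at haα
    exact zero_ne_one haα
  -- the intertwining matrix over `K`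
  let r1 : F.fixingSubgroup →* Matrix (Fin 2) (Fin 2) K :=
    ((γ₀ : K →+* K).mapMatrix : Matrix (Fin 2) (Fin 2) K →+* Matrix (Fin 2) (Fin 2) K).toMonoidHom.comp
      (ρ.comp (cjT F t htF))
  have hr1 : ∀ g, r1 g = (ρ (cjT F t htF g)).map γ₀ := fun _ => rfl
  have s1 : Submodule.span K (Set.range r1) = ⊤ := by
    apply span_map_top (γ₀ : K ≃+* K) ρ r1 hirr
    intro g
    refine ⟨⟨t * g * t⁻¹, (conj_stable htF g.2).2⟩, ?_⟩
    rw [hr1]
    show (ρ _).map γ₀ = (ρ g).map γ₀
    congr 2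
    apply Subtype.ext
    show t⁻¹ * (t * (g : (AlgebraicClosure ℚ) ≃ₐ[ℚ] (AlgebraicClosure ℚ)) * t⁻¹) * t = g
    group
  have htrK : ∀ g, (r1 g).trace = (ρ g).trace := by
    intro g
    apply inj
    have e1 : (r1 g).trace = γ₀ (ρ (cjT F t htF g)).trace := by
      rw [hr1, Matrix.trace_fin_two, Matrix.trace_fin_two, map_add]
      rfl
    have e2 : ((sub h g : F₀.fixingSubgroup) : (AlgebraicClosure ℚ) ≃ₐ[ℚ] (AlgebraicClosure ℚ)) ∈
        F.fixingSubgroup := g.2
    rw [e1, ← hγ, ← htr, htw (sub h g) (sub h (cjT F t htF g)) rfl, if_pos e2, one_mul, htr]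
  obtain ⟨B, B', hB, hB', hBi⟩ := exists_inter r1 ρ s1 hirr htrK
  have hsw : Sw ρ t γ₀ B B' :=
    { nrm := fun g hg => (conj_stable htF hg).1
      nrm' := fun g hg => (conj_stable htF hg).2
      cont := hγ₀
      int := fun g => hBi g
      inv := hB
      inv' := hB' }
  have hBi' : ∀ g : F.fixingSubgroup, B * (ρ (cjT F t htF g)).map γ₀ = ρ g * B := fun g => hBi g
  -- the element `x = t s t⁻¹`
  let x : F₀.fixingSubgroup := ⟨t * s * t⁻¹, (conj_stable ht0 s.2).2⟩
  have hxF : (x : (AlgebraicClosure ℚ) ≃ₐ[ℚ] (AlgebraicClosure ℚ)) ∉ F.fixingSubgroup := by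
    intro hx
    apply hsF
    have h3 := (conj_stable htF hx).1
    have h4 : t⁻¹ * (x : (AlgebraicClosure ℚ) ≃ₐ[ℚ] (AlgebraicClosure ℚ)) * t = s := by
      show t⁻¹ * (t * (s : (AlgebraicClosure ℚ) ≃ₐ[ℚ] (AlgebraicClosure ℚ)) * t⁻¹) * t = s
      group
    rwa [h4] at h3
  have hcx : cjT F₀ t ht0 x = s := by
    apply Subtype.ext
    show t⁻¹ * (t * (s : (AlgebraicClosure ℚ) ≃ₐ[ℚ] (AlgebraicClosure ℚ)) * t⁻¹) * t = s
    group
  have key := inter_L h h2 hirr t ht0 htF γ₀ γ hγ htw hP hr hB hB' hBi' x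
  rw [hcx, if_neg hxF] at key
  -- `x = s w`, `w = s⁻¹ t s t⁻¹`
  have hw : (s : (AlgebraicClosure ℚ) ≃ₐ[ℚ] (AlgebraicClosure ℚ))⁻¹ * x ∈ F.fixingSubgroup :=
    index_two h h2 s x hsF hxF
  let w : F.fixingSubgroup := ⟨(s : (AlgebraicClosure ℚ) ≃ₐ[ℚ] (AlgebraicClosure ℚ))⁻¹ * x, hw⟩
  let u : F.fixingSubgroup := cjT F t htF w
  have hxs : x = s * sub h w := by
    apply Subtype.ext
    show (x : (AlgebraicClosure ℚ) ≃ₐ[ℚ] (AlgebraicClosure ℚ)) = s * ((s : (AlgebraicClosure ℚ) ≃ₐ[ℚ] (AlgebraicClosure ℚ))⁻¹ * x)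
    group
  have hu : t * (s : (AlgebraicClosure ℚ) ≃ₐ[ℚ] (AlgebraicClosure ℚ)) = s * t * u := by
    show t * (s : (AlgebraicClosure ℚ) ≃ₐ[ℚ] (AlgebraicClosure ℚ)) = s * t *
      (t⁻¹ * ((s : (AlgebraicClosure ℚ) ≃ₐ[ℚ] (AlgebraicClosure ℚ))⁻¹ * (t * s * t⁻¹)) * t)
    group
  have hrx : P' * r x * P = (α • T.map (algebraMap K L)) * (ρ w).map (algebraMap K L) := by
    rw [hxs, map_mul, ← hrs, ← hr]
    calc P' * (r s * r (sub h w)) * P = P' * r s * (1 * (r (sub h w) * P)) := by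
          simp only [mul_assoc, one_mul]
      _ = P' * r s * ((P * P') * (r (sub h w) * P)) := by rw [hP]
      _ = _ := by simp only [mul_assoc]
  have hγα : γ α * algebraMap K L (γ₀ a) = 1 := by
    rw [← hγ, ← map_mul, haα, map_one]
  rw [hrs, hrx] at key
  have hmapT : (α • T.map (algebraMap K L)).map γ = γ α • (T.map γ₀).map (algebraMap K L) := by
    ext i j
    simp only [Matrix.map_apply, Matrix.smul_apply, smul_eq_mul, map_mul, hγ]
  have hwB : (ρ w).map (algebraMap K L) * B.map (algebraMap K L) =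
      B.map (algebraMap K L) * ((ρ u).map γ₀).map (algebraMap K L) := by
    rw [← Matrix.map_mul, ← Matrix.map_mul, hBi' w]
  have key2 : γ α • (B * T.map γ₀).map (algebraMap K L) =
      (-α) • (T * (B * (ρ u).map γ₀)).map (algebraMap K L) := by
    rw [hmapT, Matrix.mul_smul] at key
    rw [Matrix.map_mul, key, Matrix.smul_mul, Matrix.smul_mul, smul_smul, mul_assoc, hwB,
      Matrix.map_mul, Matrix.map_mul]
    congr 1
    ring
  -- descend to `K`
  have hκ : B * T.map γ₀ = (-(γ₀ a) / a) • (T * B * (ρ u).map γ₀) := by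
    have e1 : (B * T.map γ₀).map (algebraMap K L) =
        algebraMap K L (-(γ₀ a) / a) • (T * (B * (ρ u).map γ₀)).map (algebraMap K L) := by
      have e2 := congrArg (fun A => algebraMap K L (γ₀ a) • A) key2
      simp only [smul_smul] at e2
      rw [mul_comm (algebraMap K L (γ₀ a)) (γ α), hγα, one_smul] at e2
      rw [e2]
      congr 1
      have ha1 : algebraMap K L a ≠ 0 := by
        rw [Ne, map_eq_zero]; exact ha0
      rw [map_div₀, map_neg, eq_div_iff ha1]
      calc algebraMap K L (γ₀ a) * -α * algebraMap K L a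
          = -(algebraMap K L (γ₀ a)) * (α * algebraMap K L a) := by ring
        _ = _ := by rw [haα, mul_one]
    have e3 : algebraMap K L (-(γ₀ a) / a) • (T * (B * (ρ u).map γ₀)).map (algebraMap K L) =
        ((-(γ₀ a) / a) • (T * (B * (ρ u).map γ₀))).map (algebraMap K L) := by
      ext i j
      simp only [Matrix.map_apply, Matrix.smul_apply, smul_eq_mul, map_mul]
    rw [e3] at e1
    rw [mul_assoc]
    exact Matrix.map_injective inj e1
  -- the conclusion
  have hchar : (2 : K) ≠ 0 := by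
    intro h0
    have h3 : algebraMap ℚ_[p] K 2 = 0 := by rw [map_ofNat, h0]
    rw [map_eq_zero] at h3
    norm_num at h3
  have hpow := htwT.opH_pow (p := p)
  apply even_of_swap hchar γ₀.toRingEquiv htwT.opH hsw.opH hsw.opH_injective (a := a)
    (κ := -(γ₀ a) / a) ha0
  · rw [div_mul_cancel₀ _ ha0]
    rfl
  · intro v
    have h3 := LinearMap.congr_fun hpow v
    rw [← sq, ha2]
    simpa [sq] using h3
  · intro v
    exact hsw.opH_comm htwT u hu _ hκ v

end Pool.Agent.H44.TW
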