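import Pool.Agent.H44.TW.GFrob

/-!
# The traces of the attached representations
-/

set_option autoImplicit false

open NumberField Matrix Polynomial
open Pool.Agent.H44.PC

namespace Pool.Agent.H44.TW

variable {K : Type} [NontriviallyNormedField K] {L : Type} [NontriviallyNormedField L] [NormedAlgebra K L]
  {E : Subfield ℂ}

section aux

variable {F₁ : IntermediateField ℚ (AlgebraicClosure ℚ)} [NumberField F₁]

omit [NumberField F₁] in
private theorem cast_notMem {v : Ideal (𝓞 F₁)} (hv : v.IsPrime) {q m : ℕ} (hq : q.Prime) (hm : 0 < m)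
    (hlt : m < q) (hqv : (q : 𝓞 F₁) ∈ v) : (m : 𝓞 F₁) ∉ v := by
  intro hmv
  have hc : Nat.Coprime m q := ((Nat.Prime.coprime_iff_not_dvd hq).2 fun h5 =>
    absurd (Nat.le_of_dvd hm h5) (not_le.2 hlt)).symm
  have hc' : IsCoprime (m : ℤ) (q : ℤ) := Nat.isCoprime_iff_coprime.2 hc
  obtain ⟨a, b, hab⟩ := hc'
  apply hv.ne_top
  rw [Ideal.eq_top_iff_one]
  have h1 : (1 : 𝓞 F₁) = (a : 𝓞 F₁) * (m : 𝓞 F₁) + (b : 𝓞 F₁) * (q : 𝓞 F₁) := by
    exact_mod_cast congrArg (Int.cast : ℤ → 𝓞 F₁) hab.symm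
  rw [h1]
  exact v.add_mem (v.mul_mem_left _ hmv) (v.mul_mem_left _ hqv)

/-- the data of a Frobenius element of degree one at a prime above a large `q` -/
private theorem frob_data {p : ℕ} (hp : p.Prime) {bad : Ideal (𝓞 F₁)} (hbad : bad ≠ ⊥) {q : ℕ} (hq : q.Prime)
    (hlt : p + Ideal.absNorm bad < q) {P : Ideal (𝓞 (AlgebraicClosure ℚ))} (hP : P.IsPrime)
    (hqP : (q : 𝓞 (AlgebraicClosure ℚ)) ∈ P) (σ : F₁.fixingSubgroup)
    (hσ : ∀ x : 𝓞 (AlgebraicClosure ℚ),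
      (σ : ((AlgebraicClosure ℚ) ≃ₐ[ℚ] (AlgebraicClosure ℚ))) • x - x ^ q ∈ P) :
    (P.comap (algebraMap (𝓞 F₁) (𝓞 (AlgebraicClosure ℚ)))).IsPrime ∧
    P.comap (algebraMap (𝓞 F₁) (𝓞 (AlgebraicClosure ℚ))) ≠ ⊥ ∧
    ¬ bad ≤ P.comap (algebraMap (𝓞 F₁) (𝓞 (AlgebraicClosure ℚ))) ∧
    (p : 𝓞 F₁) ∉ P.comap (algebraMap (𝓞 F₁) (𝓞 (AlgebraicClosure ℚ))) ∧
    Ideal.absNorm (P.comap (algebraMap (𝓞 F₁) (𝓞 (AlgebraicClosure ℚ)))) = q ∧
    IsFrob (P.comap (algebraMap (𝓞 F₁) (𝓞 (AlgebraicClosure ℚ)))) σ := by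
  have hv : (P.comap (algebraMap (𝓞 F₁) (𝓞 (AlgebraicClosure ℚ)))).IsPrime := Ideal.comap_isPrime _ _
  have hN := absNorm_eq hq P hqP σ hσ
  have hqv : (q : 𝓞 F₁) ∈ P.comap (algebraMap (𝓞 F₁) (𝓞 (AlgebraicClosure ℚ))) := by
    rw [Ideal.mem_comap, map_natCast]
    exact hqP
  refine ⟨hv, ?_, ?_, ?_, hN, ⟨P, hP, rfl, ?_⟩⟩
  · intro h0
    rw [h0, Ideal.mem_bot, Nat.cast_eq_zero] at hqv
    exact hq.ne_zero hqv
  · intro hle
    have h2 : 0 < Ideal.absNorm bad :=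
      Nat.pos_of_ne_zero fun h0 => hbad (Ideal.absNorm_eq_zero_iff.1 h0)
    exact cast_notMem hv hq h2 (by omega) hqv (hle (Ideal.absNorm_mem bad))
  · exact cast_notMem hv hq hp.pos (by omega) hqv
  · rw [hN]
    exact hσ

end aux

private theorem trace_map_pow {R S : Type} [CommRing R] [CommRing S] (f : R →+* S) (M : Matrix (Fin 2) (Fin 2) R)
    (j : ℕ) : ((M.map f) ^ j).trace = f (M ^ j).trace := by
  have h1 : (M.map f) ^ j = (M ^ j).map f := by
    have h2 := map_pow (RingHom.mapMatrix f : Matrix (Fin 2) (Fin 2) R →+* Matrix (Fin 2) (Fin 2) S) M j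
    simpa only [RingHom.mapMatrix_apply] using h2.symm
  rw [h1, Matrix.trace, Matrix.trace, map_sum]
  rfl

open Classical in
private theorem sgn_pow {F₀ F : IntermediateField ℚ (AlgebraicClosure ℚ)} [NumberField F₀] [NumberField F]
    (h : F₀ ≤ F) (h2 : F₀.relfinrank F = 2) (a : F₀.fixingSubgroup) (j : ℕ) :
    (if ((a ^ j : F₀.fixingSubgroup) : (AlgebraicClosure ℚ) ≃ₐ[ℚ] (AlgebraicClosure ℚ)) ∈ F.fixingSubgroup
      then 1 else -1 : L) =
    (if (a : (AlgebraicClosure ℚ) ≃ₐ[ℚ] (AlgebraicClosure ℚ)) ∈ F.fixingSubgroup then 1 else -1) ^ j := by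
  have hcoe : ((a ^ j : F₀.fixingSubgroup) : (AlgebraicClosure ℚ) ≃ₐ[ℚ] (AlgebraicClosure ℚ)) =
      (a : (AlgebraicClosure ℚ) ≃ₐ[ℚ] (AlgebraicClosure ℚ)) ^ j := rfl
  rw [hcoe]
  by_cases ha : (a : (AlgebraicClosure ℚ) ≃ₐ[ℚ] (AlgebraicClosure ℚ)) ∈ F.fixingSubgroup
  · rw [if_pos ha, if_pos (Subgroup.pow_mem _ ha j), one_pow]
  · rw [if_neg ha]
    have hsq := sq_mem h h2 a
    rcases Nat.even_or_odd j with hj | hj
    · obtain ⟨k, rfl⟩ := hj
      have hm : (a : (AlgebraicClosure ℚ) ≃ₐ[ℚ] (AlgebraicClosure ℚ)) ^ (k + k) ∈ F.fixingSubgroup := by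
        rw [← two_mul, pow_mul]
        exact Subgroup.pow_mem _ hsq k
      rw [if_pos hm, ← two_mul, pow_mul]
      simp
    · obtain ⟨k, rfl⟩ := hj
      have hm : ¬ (a : (AlgebraicClosure ℚ) ≃ₐ[ℚ] (AlgebraicClosure ℚ)) ^ (2 * k + 1) ∈ F.fixingSubgroup := by
        intro hm
        rw [pow_succ, pow_mul] at hm
        exact ha ((Subgroup.mul_mem_cancel_left _ (Subgroup.pow_mem _ hsq k)).1 hm)
      rw [if_neg hm, pow_succ, pow_mul]
      simp

private theorem charpoly_two (M : Matrix (Fin 2) (Fin 2) L) : M.charpoly = X ^ 2 - C M.trace * X + C M.det := by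
  rw [Matrix.charpoly_fin_two]

private theorem charpoly_smul {M : Matrix (Fin 2) (Fin 2) L} {t d ε : L} (hε : ε ^ 2 = 1)
    (hM : M.charpoly = X ^ 2 - C t * X + C d) : (ε • M).charpoly = X ^ 2 - C (ε * t) * X + C d := by
  rw [charpoly_two, Matrix.trace_smul, Matrix.det_smul, trace_of_charpoly hM, det_of_charpoly hM, Fintype.card_fin,
    hε, one_mul, smul_eq_mul]

section two

variable {F₀ F : IntermediateField ℚ (AlgebraicClosure ℚ)} [NumberField F₀] [NumberField F]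

/-- the traces of the two representations agree on `G_F` -/
theorem trace_eq (h : F₀ ≤ F) {ι : E →+* L} {p : ℕ} (hp : p.Prime) {C : Ideal (𝓞 F₀) → ℂ} {bad : Ideal (𝓞 F₀)}
    (hbad : bad ≠ ⊥) {ρ : F.fixingSubgroup →* Matrix (Fin 2) (Fin 2) K}
    {r : F₀.fixingSubgroup →* Matrix (Fin 2) (Fin 2) L}
    (hρ : Att ι p (fun w => ¬ bad ≤ w.comap (incl h)) (tBC (incl h) C) ρ)
    (hr : Att (K := L) ι p (fun v => ¬ bad ≤ v) C r) (g : F.fixingSubgroup) :
    (r (sub h g)).trace = algebraMap K L (ρ g).trace := by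
  have hc : Continuous fun A : Matrix (Fin 2) (Fin 2) L => A.trace := Continuous.matrix_trace continuous_id
  have hc' : Continuous fun A : Matrix (Fin 2) (Fin 2) K => A.trace := Continuous.matrix_trace continuous_id
  have hsub : Continuous (sub h) := by
    refine Continuous.subtype_mk ?_ _
    exact continuous_subtype_val
  have key := eq_of_frob (F := F) (fun g => (r (sub h g)).trace) (fun g => algebraMap K L (ρ g).trace)
    (hc.comp (hr.cont.comp hsub)) ((continuous_algebraMap K L).comp (hc'.comp hρ.cont))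
    (p + Ideal.absNorm bad) (by
      intro q P σ j hq hlt hP hqP hσ
      show (r (sub h (σ ^ j))).trace = algebraMap K L (ρ (σ ^ j)).trace
      rw [map_pow, map_pow, map_pow, ← trace_map_pow]
      obtain ⟨hv1, hv2, hv3, hv4, hv5, hv6⟩ := frob_data (F₁ := F₀) hp hbad hq hlt hP hqP (sub h σ) hσ
      have hw5 := absNorm_eq (F := F) hq P hqP σ hσ
      have hcomap : (P.comap (algebraMap (𝓞 F) (𝓞 (AlgebraicClosure ℚ)))).comap (incl h) =
          P.comap (algebraMap (𝓞 F₀) (𝓞 (AlgebraicClosure ℚ))) := by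
        rw [Ideal.comap_comap]
        rfl
      have hqw : (q : 𝓞 F) ∈ P.comap (algebraMap (𝓞 F) (𝓞 (AlgebraicClosure ℚ))) := by
        rw [Ideal.mem_comap, map_natCast]
        exact hqP
      have hw1 : (P.comap (algebraMap (𝓞 F) (𝓞 (AlgebraicClosure ℚ)))).IsPrime := Ideal.comap_isPrime _ _
      have hw2 : P.comap (algebraMap (𝓞 F) (𝓞 (AlgebraicClosure ℚ))) ≠ ⊥ := by
        intro h0
        rw [h0, Ideal.mem_bot, Nat.cast_eq_zero] at hqw
        exact hq.ne_zero hqw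
      have hw4 : (p : 𝓞 F) ∉ P.comap (algebraMap (𝓞 F) (𝓞 (AlgebraicClosure ℚ))) :=
        cast_notMem hw1 hq hp.pos (by omega) hqw
      obtain ⟨A, hA, hA'⟩ := hρ.frob _ hw1 hw2 (by rw [hcomap]; exact hv3) hw4 σ
        ⟨P, hP, rfl, by rw [hw5]; exact hσ⟩
      obtain ⟨B, hB, hB'⟩ := hr.frob _ hv1 hv2 hv3 hv4 (sub h σ) hv6
      have hAB : A = B := by
        apply Subtype.ext
        rw [hA, hB, tBC, hcomap, if_pos (by rw [hw5, hv5])]
      rw [Algebra.algebraMap_self, Polynomial.map_id] at hB'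
      rw [← Matrix.charpoly_map] at hA'
      rw [hw5, hAB] at hA'
      rw [hv5] at hB'
      exact trace_pow_eq hB' hA' j)
  exact congrFun key g

open Classical in
/-- the conjugate of `r` by `t` and `γ` is the twist of `r` -/
theorem trace_tw (h : F₀ ≤ F) (h2 : F₀.relfinrank F = 2) {ι : E →+* L} {p : ℕ} (hp : p.Prime)
    {C : Ideal (𝓞 F₀) → ℂ} {bad : Ideal (𝓞 F₀)} (hbad : bad ≠ ⊥)
    (hunr : ∀ v : Ideal (𝓞 F₀), v.IsPrime → v ≠ ⊥ → ¬ bad ≤ v → Unr h v)
    {r : F₀.fixingSubgroup →* Matrix (Fin 2) (Fin 2) L} (hr : Att (K := L) ι p (fun v => ¬ bad ≤ v) C r)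
    (τ : F₀ ≃ₐ[ℚ] F₀) (t : (AlgebraicClosure ℚ) ≃ₐ[ℚ] (AlgebraicClosure ℚ))
    (ht : ∀ x : F₀, t x = τ x) (htF : ∀ x ∈ F, t x ∈ F) (γ : L ≃+* L) (hγ : Continuous γ)
    (hC : ∀ v : Ideal (𝓞 F₀), v.IsPrime → v ≠ ⊥ → ¬ bad ≤ v → (p : 𝓞 F₀) ∉ v → ∀ A A' : E, (A : ℂ) = C v →
      (A' : ℂ) = C (v.map (RingOfIntegers.mapRingHom τ.toRingEquiv.toRingHom)) →
        γ (ι A) = (chi (incl h) v : L) * ι A') (x y : F₀.fixingSubgroup)
    (hxy : (y : (AlgebraicClosure ℚ) ≃ₐ[ℚ] (AlgebraicClosure ℚ)) = t⁻¹ * x * t) :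
    γ (r y).trace = (if (x : (AlgebraicClosure ℚ) ≃ₐ[ℚ] (AlgebraicClosure ℚ)) ∈ F.fixingSubgroup then 1 else -1) *
      (r x).trace := by
  have hc : Continuous fun A : Matrix (Fin 2) (Fin 2) L => A.trace := Continuous.matrix_trace continuous_id
  -- conjugation by `t` preserves the group of `F₀`
  have hcj : ∀ x : F₀.fixingSubgroup, t⁻¹ * (x : (AlgebraicClosure ℚ) ≃ₐ[ℚ] (AlgebraicClosure ℚ)) * t ∈
      F₀.fixingSubgroup := by
    intro x
    rw [IntermediateField.mem_fixingSubgroup_iff]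
    intro z hz
    show t⁻¹ ((x : (AlgebraicClosure ℚ) ≃ₐ[ℚ] (AlgebraicClosure ℚ)) (t z)) = z
    have h1 : t z = ((τ ⟨z, hz⟩ : F₀) : AlgebraicClosure ℚ) := ht ⟨z, hz⟩
    have h2 : (x : (AlgebraicClosure ℚ) ≃ₐ[ℚ] (AlgebraicClosure ℚ)) (t z) = t z := by
      rw [h1]
      exact (IntermediateField.mem_fixingSubgroup_iff _ _).1 x.2 _ (SetLike.coe_mem _)
    rw [h2]
    show (t⁻¹ * t) z = z
    rw [inv_mul_cancel]
    rfl
  let cj : F₀.fixingSubgroup →* F₀.fixingSubgroup :=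
    { toFun := fun x => ⟨t⁻¹ * x * t, hcj x⟩
      map_one' := by
        apply Subtype.ext
        simp
      map_mul' := fun a b => by
        apply Subtype.ext
        simp only [Subgroup.coe_mul]
        group }
  have hcjc : Continuous cj := by
    refine Continuous.subtype_mk ?_ _
    exact (continuous_const.mul continuous_subtype_val).mul continuous_const
  have hyx : y = cj x := Subtype.ext hxy
  -- the sign is continuous
  have hopen : IsOpen (F.fixingSubgroup : Set ((AlgebraicClosure ℚ) ≃ₐ[ℚ] (AlgebraicClosure ℚ))) :=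
    IntermediateField.fixingSubgroup_isOpen F
  have hclosed : IsClosed (F.fixingSubgroup : Set ((AlgebraicClosure ℚ) ≃ₐ[ℚ] (AlgebraicClosure ℚ))) :=
    Subgroup.isClosed_of_isOpen _ hopen
  have hsgn : Continuous fun x : F₀.fixingSubgroup =>
      (if (x : (AlgebraicClosure ℚ) ≃ₐ[ℚ] (AlgebraicClosure ℚ)) ∈ F.fixingSubgroup then 1 else -1 : L) := by
    have hclopen : IsClopen {x : F₀.fixingSubgroup |
        (x : (AlgebraicClosure ℚ) ≃ₐ[ℚ] (AlgebraicClosure ℚ)) ∈ F.fixingSubgroup} :=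
      ⟨hclosed.preimage continuous_subtype_val, hopen.preimage continuous_subtype_val⟩
    refine Continuous.if (fun a ha => ?_) continuous_const continuous_const
    rw [hclopen.frontier_eq] at ha
    exact absurd ha (Set.notMem_empty a)
  have key := eq_of_frob (F := F₀) (fun x => γ (r (cj x)).trace)
    (fun x => (if (x : (AlgebraicClosure ℚ) ≃ₐ[ℚ] (AlgebraicClosure ℚ)) ∈ F.fixingSubgroup then 1 else -1) *
      (r x).trace)
    (hγ.comp (hc.comp (hr.cont.comp hcjc))) (hsgn.mul (hc.comp hr.cont))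
    (p + Ideal.absNorm bad) (by
      intro q P σ j hq hlt hP hqP hσ
      show γ (r (cj (σ ^ j))).trace =
        (if ((σ ^ j : F₀.fixingSubgroup) : (AlgebraicClosure ℚ) ≃ₐ[ℚ] (AlgebraicClosure ℚ)) ∈ F.fixingSubgroup
          then 1 else -1) * (r (σ ^ j)).trace
      rw [map_pow cj, map_pow r, map_pow r, sgn_pow h h2]
      obtain ⟨hv1, hv2, hv3, hv4, hv5, hv6⟩ := frob_data (F₁ := F₀) hp hbad hq hlt hP hqP σ hσ
      have hσ' : ∀ x : 𝓞 (AlgebraicClosure ℚ),
          ((cj σ : F₀.fixingSubgroup) : ((AlgebraicClosure ℚ) ≃ₐ[ℚ] (AlgebraicClosure ℚ))) • x - x ^ q ∈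
            P.comap (Tw.ooMap t) := by
        intro x
        rw [Ideal.mem_comap, map_sub, map_pow, Tw.ooMap_apply, Tw.ooMap_apply]
        have h3 : t • ((cj σ : F₀.fixingSubgroup) : ((AlgebraicClosure ℚ) ≃ₐ[ℚ] (AlgebraicClosure ℚ))) • x =
            (σ : ((AlgebraicClosure ℚ) ≃ₐ[ℚ] (AlgebraicClosure ℚ))) • t • x := by
          rw [smul_smul, smul_smul]
          congr 1
          show t * (t⁻¹ * (σ : ((AlgebraicClosure ℚ) ≃ₐ[ℚ] (AlgebraicClosure ℚ))) * t) = _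
          group
        rw [h3]
        exact hσ (t • x)
      have hP' : (P.comap (Tw.ooMap t)).IsPrime := Ideal.comap_isPrime _ _
      have hqP' : (q : 𝓞 (AlgebraicClosure ℚ)) ∈ P.comap (Tw.ooMap t) := by
        rw [Ideal.mem_comap, map_natCast]
        exact hqP
      obtain ⟨hu1, hu2, hu3, hu4, hu5, hu6⟩ := frob_data (F₁ := F₀) hp hbad hq hlt hP' hqP' (cj σ) hσ'
      have hmap : ((P.comap (Tw.ooMap t)).comap (algebraMap (𝓞 F₀) (𝓞 (AlgebraicClosure ℚ)))).map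
          (RingOfIntegers.mapRingHom τ.toRingEquiv.toRingHom) =
          P.comap (algebraMap (𝓞 F₀) (𝓞 (AlgebraicClosure ℚ))) := by
        have hco : (P.comap (Tw.ooMap t)).comap (algebraMap (𝓞 F₀) (𝓞 (AlgebraicClosure ℚ))) =
            (P.comap (algebraMap (𝓞 F₀) (𝓞 (AlgebraicClosure ℚ)))).comap
              (RingOfIntegers.mapRingHom τ.toRingEquiv.toRingHom) := by
          rw [Ideal.comap_comap, Ideal.comap_comap]
          congr 1
          refine RingHom.ext fun z => ?_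
          apply RingOfIntegers.coe_injective
          exact ht z
        rw [hco]
        refine Ideal.map_comap_of_surjective _ ?_ _
        intro z
        refine ⟨RingOfIntegers.mapRingHom τ.symm.toRingEquiv.toRingHom z, ?_⟩
        apply RingOfIntegers.coe_injective
        exact τ.apply_symm_apply z
      obtain ⟨A, hA, hA'⟩ := hr.frob _ hu1 hu2 hu3 hu4 (cj σ) hu6
      obtain ⟨B, hB, hB'⟩ := hr.frob _ hv1 hv2 hv3 hv4 σ hv6
      rw [Algebra.algebraMap_self, Polynomial.map_id, hu5] at hA'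
      rw [Algebra.algebraMap_self, Polynomial.map_id, hv5] at hB'
      have hAB := hC _ hu1 hu2 hu3 hu4 A B hA (by rw [hmap]; exact hB)
      have hchi : (chi (incl h) ((P.comap (Tw.ooMap t)).comap (algebraMap (𝓞 F₀) (𝓞 (AlgebraicClosure ℚ)))) : L) =
          (if (σ : (AlgebraicClosure ℚ) ≃ₐ[ℚ] (AlgebraicClosure ℚ)) ∈ F.fixingSubgroup then 1 else -1) := by
        have h5 := frob_mem_iff h h2 hu1 hu2 (hunr _ hu1 hu2 hu3) hu6
        have h6 : ((cj σ : F₀.fixingSubgroup) : (AlgebraicClosure ℚ) ≃ₐ[ℚ] (AlgebraicClosure ℚ)) ∈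
            F.fixingSubgroup ↔ (σ : (AlgebraicClosure ℚ) ≃ₐ[ℚ] (AlgebraicClosure ℚ)) ∈ F.fixingSubgroup := by
          constructor
          · intro h7
            have h8 := (conj_stable (M := F) htF h7).2
            have h9 : t * ((cj σ : F₀.fixingSubgroup) : (AlgebraicClosure ℚ) ≃ₐ[ℚ] (AlgebraicClosure ℚ)) * t⁻¹ =
                σ := by
              show t * (t⁻¹ * (σ : ((AlgebraicClosure ℚ) ≃ₐ[ℚ] (AlgebraicClosure ℚ))) * t) * t⁻¹ = _
              group
            rw [h9] at h8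
            exact h8
          · intro h7
            exact (conj_stable (M := F) htF h7).1
        rw [chi]
        by_cases h7 : (σ : (AlgebraicClosure ℚ) ≃ₐ[ℚ] (AlgebraicClosure ℚ)) ∈ F.fixingSubgroup
        · rw [if_pos h7, if_pos (h5.1 (h6.2 h7)), Int.cast_one]
        · rw [if_neg h7, if_neg (fun h8 => h7 (h6.1 (h5.2 h8))), Int.cast_neg, Int.cast_one]
      rw [hchi] at hAB
      have hε : (if (σ : (AlgebraicClosure ℚ) ≃ₐ[ℚ] (AlgebraicClosure ℚ)) ∈ F.fixingSubgroup then 1 else -1 : L) ^ 2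
          = 1 := by
        split_ifs <;> simp
      generalize (if (σ : (AlgebraicClosure ℚ) ≃ₐ[ℚ] (AlgebraicClosure ℚ)) ∈ F.fixingSubgroup then 1 else -1 : L) = ε
        at hAB hε ⊢
      have hA2 : ((r (cj σ)).map γ.toRingHom).charpoly = X ^ 2 - Polynomial.C (ε * ι B) * X + Polynomial.C (q : L) := by
        rw [Matrix.charpoly_map, hA']
        simp only [Polynomial.map_add, Polynomial.map_sub, Polynomial.map_pow, Polynomial.map_mul, Polynomial.map_X,
          Polynomial.map_C]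
        rw [← hAB]
        simp
      have h10 := trace_pow_eq hA2 (charpoly_smul hε hB') j
      rw [trace_map_pow, _root_.smul_pow, Matrix.trace_smul, smul_eq_mul] at h10
      exact h10)
  rw [hyx]
  exact congrFun key x

end two

end Pool.Agent.H44.TW
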