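import Pool.Agent.H44.TW.LMain
import Pool.Agent.H44.TW.GTr
import Pool.Agent.H44.TW.GMc
import Pool.Agent.H44.TW.GEx

/-!
# The parity theorem for base changes of twisted-conjugate Hilbert newforms
-/

set_option autoImplicit false

open NumberField Matrix Polynomial
open Pool.Agent.H44.PC

namespace Pool.Agent.H44.TW

variable {F₀ F : IntermediateField ℚ (AlgebraicClosure ℚ)} [NumberField F₀] [NumberField F]

theorem l_side [IsTotallyReal F₀] (h : F₀ ≤ F) (h2 : F₀.relfinrank F = 2)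
    {k : (F₀ →+* ℝ) → ℕ} (hk : ∀ σ, Even (k σ) ∧ 0 < k σ) {n n' bad : Ideal (𝓞 F₀)} (hn : n ≠ ⊥) (hn' : n' ≠ ⊥)
    (hbad : bad ≠ ⊥) (hunr : ∀ v : Ideal (𝓞 F₀), v.IsPrime → v ≠ ⊥ → ¬ bad ≤ v → Unr h v) {w : ℂ}
    {C C' : Ideal (𝓞 F₀) → ℂ} (hC : HNew k n w bad C) (hC' : HNew k n' w bad C')
    (htw : ∀ v : Good bad, C' v.1 = (chi (incl h) v.1 : ℂ) * C v.1) :
    ∃ Λ : ℂ → ℂ, Differentiable ℂ Λ ∧
      (∀ s : ℂ, 1 < s.re → HasProd (fun w : GoodM (incl h) bad =>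
        (1 - tBC (incl h) C w.1 * (Ideal.absNorm w.1 : ℂ) ^ (-1 - s) +
          (Ideal.absNorm w.1 : ℂ) ^ (-1 - 2 * s))⁻¹) (Λ s)) ∧
      ∃ m : ℕ, analyticOrderAt Λ 0 = ((2 * m : ℕ) : ℕ∞) := by
  letI : Algebra F₀ F := (IntermediateField.inclusion h).toRingHom.toAlgebra
  have e : algebraMap (𝓞 F₀) (𝓞 F) = incl h := rfl
  have hfr : Module.finrank F₀ F = 2 := by
    rw [← h2, IntermediateField.relfinrank_eq_finrank_of_le h]
    rfl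
  have h3 := l_main (F := F₀) (M := F) hfr hk hn hn' hbad (w := w) (C := C) (C' := C') ?_ hC hC' ?_
  · rw [e] at h3
    exact h3
  · intro u hu hu0 hb
    rw [e] at hb ⊢
    refine hunr _ (hu.comap _) ?_ hb u hu rfl
    intro hbot
    obtain ⟨x, hx, hx0⟩ := Submodule.exists_mem_ne_zero_of_ne_bot hu0
    haveI : Algebra.IsIntegral (𝓞 F₀) (𝓞 F) := inferInstance
    exact hu0 (Ideal.eq_bot_of_comap_eq_bot hbot)
  · intro v
    rw [e]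
    exact htw v

/-- the Selmer side -/
theorem sel_side (h : F₀ ≤ F) (h2 : F₀.relfinrank F = 2) {bad : Ideal (𝓞 F₀)} (hbad : bad ≠ ⊥)
    (hunr : ∀ v : Ideal (𝓞 F₀), v.IsPrime → v ≠ ⊥ → ¬ bad ≤ v → Unr h v) {C : Ideal (𝓞 F₀) → ℂ}
    {p : ℕ} [Fact p.Prime] {K L : Type} [NontriviallyNormedField K] [NormedAlgebra ℚ_[p] K]
    [NontriviallyNormedField L] [NormedAlgebra K L] {E : Subfield ℂ} {ι : E →+* L}
    {ρ : F.fixingSubgroup →* Matrix (Fin 2) (Fin 2) K} {r : F₀.fixingSubgroup →* Matrix (Fin 2) (Fin 2) L}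
    (hirr : Submodule.span K (Set.range ρ) = ⊤)
    (hρ : Att ι p (fun w => ¬ bad ≤ w.comap (incl h)) (tBC (incl h) C) ρ)
    (hr : Att (K := L) ι p (fun v => ¬ bad ≤ v) C r)
    (hcase : (∃ v : Ideal (𝓞 F₀), v.IsPrime ∧ v ≠ ⊥ ∧ ¬ bad ≤ v ∧ (p : 𝓞 F₀) ∉ v ∧
        ∃ A : E, (A : ℂ) = C v ∧ ι A ∉ Set.range (algebraMap K L)) ∨
      ∃ (τ : F₀ ≃ₐ[ℚ] F₀) (t : (AlgebraicClosure ℚ) ≃ₐ[ℚ] (AlgebraicClosure ℚ)) (γ₀ : K ≃ₐ[ℚ_[p]] K) (γ : L ≃+* L),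
        (∀ x : F₀, t x = τ x) ∧ (∀ x ∈ F, t x ∈ F) ∧ Continuous γ₀ ∧ Continuous γ ∧
        (∀ x : K, γ (algebraMap K L x) = algebraMap K L (γ₀ x)) ∧
        ∀ v : Ideal (𝓞 F₀), v.IsPrime → v ≠ ⊥ → ¬ bad ≤ v → (p : 𝓞 F₀) ∉ v → ∀ A A' : E, (A : ℂ) = C v →
          (A' : ℂ) = C (v.map (RingOfIntegers.mapRingHom τ.toRingEquiv.toRingHom)) →
            γ (ι A) = (chi (incl h) v : L) * ι A') :
    Even (selDim ρ (AlgebraicClosure ℚ) p) := by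
  have hp : p.Prime := Fact.out
  have htr := trace_eq h hp hbad hρ hr
  rcases hcase with ⟨v, hv, h0, hb, hpv, A, hA, hAK⟩ | ⟨τ, t, γ₀, γ, ht, htF, hγ₀, hγ, hc, hC⟩
  · obtain ⟨s, hs⟩ := exists_isFrob hv h0
    refine even_a h h2 hirr htr s ?_
    obtain ⟨x, hx, hx2⟩ := hr.frob v hv h0 hb hpv s hs
    rw [Algebra.algebraMap_self, Polynomial.map_id] at hx2
    rw [trace_of_charpoly hx2]
    rwa [Subtype.ext (hx.trans hA.symm)]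
  · refine even_c h h2 hirr htr t (fun x hx => ?_) htF γ₀ hγ₀ γ hc fun x y hxy => ?_
    · rw [ht ⟨x, hx⟩]
      exact SetLike.coe_mem _
    · exact trace_tw h h2 hp hbad hunr hr τ t ht htF γ hγ hC x y hxy

end Pool.Agent.H44.TW
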