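import Pool.Agent.H44.TW.Units

/-!
# The form on the imaginary axis, in logarithmic coordinates
-/

set_option autoImplicit false

open NumberField MeasureTheory

namespace Pool.Agent.H44.TW

variable {F : Type} [Field F] [NumberField F]

/-- the form at `(i exp(x_σ))`, times `∏ exp(k_σ x_σ / 2)` -/
noncomputable def GG (k : (F →+* ℝ) → ℕ) (C : Ideal (𝓞 F) → ℂ) (b : Ideal (𝓞 F)) (x : (F →+* ℝ) → ℝ) : ℂ :=
  form k C b (fun σ => Complex.I * ((Real.exp (x σ) : ℝ) : ℂ)) *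
    ∏ σ : F →+* ℝ, ((Real.exp ((k σ : ℝ) * x σ / 2) : ℝ) : ℂ)

variable [IsTotallyReal F] {k : (F →+* ℝ) → ℕ} {C : Ideal (𝓞 F) → ℂ} {b : Ideal (𝓞 F)}

private theorem exp_arg (y : (F →+* ℝ) → ℝ) (ν : F) :
    2 * Real.pi * Complex.I * ∑ σ : F →+* ℝ, ((σ ν : ℝ) : ℂ) * (Complex.I * ((y σ : ℝ) : ℂ)) =
      ((-(2 * Real.pi * ∑ σ : F →+* ℝ, σ ν * y σ) : ℝ) : ℂ) := by
  push_cast
  rw [Finset.mul_sum, Finset.mul_sum, ← Finset.sum_neg_distrib]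
  refine Finset.sum_congr rfl fun σ _ => ?_
  have h := Complex.I_mul_I
  linear_combination (2 * (Real.pi : ℂ) * ((σ ν : ℝ) : ℂ) * ((y σ : ℝ) : ℂ)) * h

private theorem term_im (y : (F →+* ℝ) → ℝ) (ν : Pos b) :
    term k C b (fun σ => Complex.I * ((y σ : ℝ) : ℂ)) ν =
      C (quo b ν) * (∏ σ : F →+* ℝ, ((σ (ν.1 : F) : ℝ) : ℂ) ^ (k σ / 2 - 1)) *
        ((Real.exp (-(2 * Real.pi * ∑ σ : F →+* ℝ, σ (ν.1 : F) * y σ)) : ℝ) : ℂ) := by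
  unfold term
  rw [exp_arg, Complex.ofReal_exp]

private theorem norm_term (y : (F →+* ℝ) → ℝ) (ν : Pos b) :
    ‖term k C b (fun σ => Complex.I * ((y σ : ℝ) : ℂ)) ν‖ =
      ‖C (quo b ν) * (∏ σ : F →+* ℝ, ((σ (ν.1 : F) : ℝ) : ℂ) ^ (k σ / 2 - 1))‖ *
        Real.exp (-(2 * Real.pi * ∑ σ : F →+* ℝ, σ (ν.1 : F) * y σ)) := by
  rw [term_im, norm_mul, Complex.norm_real, Real.norm_eq_abs, abs_of_pos (Real.exp_pos _)]

private theorem norm_term_le {y y' : (F →+* ℝ) → ℝ} (h : ∀ σ, y' σ ≤ y σ) (ν : Pos b) :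
    ‖term k C b (fun σ => Complex.I * ((y σ : ℝ) : ℂ)) ν‖ ≤
      ‖term k C b (fun σ => Complex.I * ((y' σ : ℝ) : ℂ)) ν‖ := by
  rw [norm_term, norm_term]
  refine mul_le_mul_of_nonneg_left (Real.exp_le_exp.2 ?_) (norm_nonneg _)
  have h1 : ∑ σ : F →+* ℝ, σ (ν.1 : F) * y' σ ≤ ∑ σ : F →+* ℝ, σ (ν.1 : F) * y σ :=
    Finset.sum_le_sum fun σ _ => mul_le_mul_of_nonneg_left (h σ) (ν.2.2 σ).le
  have h2 := mul_le_mul_of_nonneg_left h1 (by positivity : 0 ≤ 2 * Real.pi)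
  linarith

private theorem up_im {y : (F →+* ℝ) → ℝ} (h : ∀ σ, 0 < y σ) :
    Up fun σ => Complex.I * ((y σ : ℝ) : ℂ) := by
  intro σ
  simpa using h σ

private theorem quo_unit (u : (𝓞 F)ˣ) (ν : 𝓞 F) : quo b ((u : 𝓞 F) * ν) = quo b ν := by
  unfold quo
  have h : Ideal.span {(u : 𝓞 F) * ν} = Ideal.span {ν} :=
    Ideal.span_singleton_mul_left_unit u.isUnit ν
  rw [h]

/-- the multiplication by a totally positive unit -/
private noncomputable def mulU (u : TPU F) : Pos b ≃ Pos b where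
  toFun ν := ⟨((u : (𝓞 F)ˣ) : 𝓞 F) * ν.1, b.mul_mem_left _ ν.2.1, by
    have h := TPos.mul (x := (((u : (𝓞 F)ˣ) : 𝓞 F) : F)) u.2 ν.2.2
    rw [← map_mul] at h
    exact h⟩
  invFun ν := ⟨((u⁻¹ : TPU F) : (𝓞 F)ˣ) * ν.1, b.mul_mem_left _ ν.2.1, by
    have h := TPos.mul (x := ((((u⁻¹ : TPU F) : (𝓞 F)ˣ) : 𝓞 F) : F)) (u⁻¹).2 ν.2.2
    rw [← map_mul] at h
    exact h⟩
  left_inv ν := by
    apply Subtype.ext
    show (((u⁻¹ : TPU F) : (𝓞 F)ˣ) : 𝓞 F) * (((u : (𝓞 F)ˣ) : 𝓞 F) * ν.1) = ν.1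
    rw [← mul_assoc, ← Units.val_mul, ← Subgroup.coe_mul, inv_mul_cancel]
    simp
  right_inv ν := by
    apply Subtype.ext
    show (((u : (𝓞 F)ˣ) : 𝓞 F)) * ((((u⁻¹ : TPU F) : (𝓞 F)ˣ) : 𝓞 F) * ν.1) = ν.1
    rw [← mul_assoc, ← Units.val_mul, ← Subgroup.coe_mul, mul_inv_cancel]
    simp

private theorem prod_unit (u : TPU F) :
    ∏ σ : F →+* ℝ, σ (((u : (𝓞 F)ˣ) : 𝓞 F) : F) = 1 := by
  rw [prod_eq_absNorm u.2]
  have h : Ideal.span {((u : (𝓞 F)ˣ) : 𝓞 F)} = ⊤ :=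
    Ideal.span_singleton_eq_top.2 (u : (𝓞 F)ˣ).isUnit
  rw [h, Ideal.absNorm_top]
  norm_num

private theorem exp_half {m : ℕ} (hm : Even m) {t : ℝ} (ht : 0 < t) :
    Real.exp ((m : ℝ) * Real.log t / 2) = t ^ (m / 2) := by
  obtain ⟨r, rfl⟩ := hm
  have h1 : (r + r) / 2 = r := by omega
  rw [h1]
  have h2 : ((r + r : ℕ) : ℝ) * Real.log t / 2 = (r : ℝ) * Real.log t := by
    push_cast
    ring
  rw [h2, ← Real.log_pow, Real.exp_log (pow_pos ht r)]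

private theorem form_unit (hk : ∀ σ, Even (k σ) ∧ 0 < k σ) (u : TPU F) (y : (F →+* ℝ) → ℝ) :
    (∏ σ : F →+* ℝ, ((σ (((u : (𝓞 F)ˣ) : 𝓞 F) : F) : ℝ) : ℂ) ^ (k σ / 2)) *
      form k C b (fun σ => Complex.I *
        ((y σ * σ (((u : (𝓞 F)ˣ) : 𝓞 F) : F) : ℝ) : ℂ)) =
      form k C b (fun σ => Complex.I * ((y σ : ℝ) : ℂ)) := by
  unfold form
  rw [← tsum_mul_left]
  conv_rhs => rw [← (mulU (b := b) u).tsum_eq]
  refine tsum_congr fun ν => ?_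
  rw [term_im, term_im]
  have h1 : ((mulU u ν : Pos b).1 : 𝓞 F) = ((u : (𝓞 F)ˣ) : 𝓞 F) * ν.1 := rfl
  have h2 : ∀ σ : F →+* ℝ, σ (((mulU u ν : Pos b).1 : 𝓞 F) : F) =
      σ (((u : (𝓞 F)ˣ) : 𝓞 F) : F) * σ (ν.1 : F) := by
    intro σ
    rw [h1, ← map_mul, ← map_mul]
  have h3 : quo b ((mulU u ν : Pos b) : 𝓞 F) = quo b ν := by
    rw [h1]
    exact quo_unit _ _
  have h4 : ∑ σ : F →+* ℝ, σ (((mulU u ν : Pos b).1 : 𝓞 F) : F) * y σ =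
      ∑ σ : F →+* ℝ, σ (ν.1 : F) * (y σ * σ (((u : (𝓞 F)ˣ) : 𝓞 F) : F)) := by
    refine Finset.sum_congr rfl fun σ _ => ?_
    rw [h2]
    ring
  have h5 : ∏ σ : F →+* ℝ, ((σ (((mulU u ν : Pos b).1 : 𝓞 F) : F) : ℝ) : ℂ) ^ (k σ / 2 - 1) =
      (∏ σ : F →+* ℝ, ((σ (((u : (𝓞 F)ˣ) : 𝓞 F) : F) : ℝ) : ℂ) ^ (k σ / 2)) *
        ∏ σ : F →+* ℝ, ((σ (ν.1 : F) : ℝ) : ℂ) ^ (k σ / 2 - 1) := by
    have h6 : (∏ σ : F →+* ℝ, ((σ (((u : (𝓞 F)ˣ) : 𝓞 F) : F) : ℝ) : ℂ)) = 1 := by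
      rw [← Complex.ofReal_prod, prod_unit, Complex.ofReal_one]
    have h7 : ∏ σ : F →+* ℝ, ((σ (((u : (𝓞 F)ˣ) : 𝓞 F) : F) : ℝ) : ℂ) ^ (k σ / 2) =
        ∏ σ : F →+* ℝ, ((σ (((u : (𝓞 F)ˣ) : 𝓞 F) : F) : ℝ) : ℂ) ^ (k σ / 2 - 1) := by
      rw [← mul_one (∏ σ : F →+* ℝ, ((σ (((u : (𝓞 F)ˣ) : 𝓞 F) : F) : ℝ) : ℂ) ^ (k σ / 2 - 1)),
        ← h6, ← Finset.prod_mul_distrib]
      refine Finset.prod_congr rfl fun σ _ => ?_
      have h8 : k σ / 2 = (k σ / 2 - 1) + 1 := by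
        obtain ⟨⟨r, hr⟩, h9⟩ := hk σ
        omega
      rw [← pow_succ, ← h8]
    rw [h7, ← Finset.prod_mul_distrib]
    refine Finset.prod_congr rfl fun σ _ => ?_
    rw [h2, Complex.ofReal_mul, mul_pow]
  rw [h3, h4, h5]
  ring

/-- invariance under the totally positive units -/
theorem GG_add (hk : ∀ σ, Even (k σ) ∧ 0 < k σ) (u : TPU F) (x : (F →+* ℝ) → ℝ) :
    GG k C b (x + lg (((u : (𝓞 F)ˣ) : 𝓞 F) : F)) = GG k C b x := by
  unfold GG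
  have h1 : (fun σ : F →+* ℝ => Complex.I *
      ((Real.exp ((x + lg (((u : (𝓞 F)ˣ) : 𝓞 F) : F)) σ) : ℝ) : ℂ)) = fun σ => Complex.I *
        ((Real.exp (x σ) * σ (((u : (𝓞 F)ˣ) : 𝓞 F) : F) : ℝ) : ℂ) := by
    funext σ
    have h2 : (x + lg (((u : (𝓞 F)ˣ) : 𝓞 F) : F)) σ =
      x σ + Real.log (σ (((u : (𝓞 F)ˣ) : 𝓞 F) : F)) := rfl
    rw [h2, Real.exp_add, Real.exp_log (u.2 σ)]
  have h3 : ∏ σ : F →+* ℝ, ((Real.exp ((k σ : ℝ) *
      (x + lg (((u : (𝓞 F)ˣ) : 𝓞 F) : F)) σ / 2) : ℝ) : ℂ) =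
      (∏ σ : F →+* ℝ, ((σ (((u : (𝓞 F)ˣ) : 𝓞 F) : F) : ℝ) : ℂ) ^ (k σ / 2)) *
        ∏ σ : F →+* ℝ, ((Real.exp ((k σ : ℝ) * x σ / 2) : ℝ) : ℂ) := by
    rw [← Finset.prod_mul_distrib]
    refine Finset.prod_congr rfl fun σ _ => ?_
    have h2 : (k σ : ℝ) * (x + lg (((u : (𝓞 F)ˣ) : 𝓞 F) : F)) σ / 2 =
        (k σ : ℝ) * Real.log (σ (((u : (𝓞 F)ˣ) : 𝓞 F) : F)) / 2 + (k σ : ℝ) * x σ / 2 := by
      have h4 : (x + lg (((u : (𝓞 F)ˣ) : 𝓞 F) : F)) σ =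
        x σ + Real.log (σ (((u : (𝓞 F)ˣ) : 𝓞 F) : F)) := rfl
      rw [h4]
      ring
    rw [h2, Real.exp_add, exp_half (hk σ).1 (u.2 σ)]
    push_cast
    ring
  rw [h1, h3, ← form_unit hk u fun σ => Real.exp (x σ)]
  ring

theorem GG_add_mem (hk : ∀ σ, Even (k σ) ∧ 0 < k σ) (v : (F →+* ℝ) → ℝ) (hv : v ∈ LU F)
    (x : (F →+* ℝ) → ℝ) : GG k C b (x + v) = GG k C b x := by
  obtain ⟨u, rfl⟩ := hv
  exact GG_add hk u x

theorem continuous_GG (hc : ∀ z : (F →+* ℝ) → ℂ, Up z → Summable (term k C b z)) : Continuous (GG k C b) := by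
  unfold GG
  refine Continuous.mul ?_ (continuous_finsetProd _ fun σ _ =>
    Complex.continuous_ofReal.comp (by fun_prop))
  rw [continuous_iff_continuousAt]
  intro x₀
  have hs : Summable fun ν : Pos b => ‖term k C b
      (fun σ => Complex.I * ((Real.exp (x₀ σ - 1) : ℝ) : ℂ)) ν‖ :=
    (hc _ (up_im fun σ => Real.exp_pos _)).norm
  have hopen : IsOpen {x : (F →+* ℝ) → ℝ | ∀ σ, x₀ σ - 1 < x σ} := by
    have : {x : (F →+* ℝ) → ℝ | ∀ σ, x₀ σ - 1 < x σ} = ⋂ σ, {x | x₀ σ - 1 < x σ} := by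
      ext x
      simp
    rw [this]
    exact isOpen_iInter_of_finite fun σ => isOpen_lt continuous_const (continuous_apply σ)
  have hcont := continuousOn_tsum (s := {x : (F →+* ℝ) → ℝ | ∀ σ, x₀ σ - 1 < x σ})
    (f := fun (ν : Pos b) (x : (F →+* ℝ) → ℝ) => term k C b
      (fun σ => Complex.I * ((Real.exp (x σ) : ℝ) : ℂ)) ν) (fun ν => by
      apply Continuous.continuousOn
      unfold term
      refine continuous_const.mul (Complex.continuous_exp.comp (continuous_const.mul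
        (continuous_finsetSum _ fun σ _ => continuous_const.mul (continuous_const.mul
          (Complex.continuous_ofReal.comp (Real.continuous_exp.comp (continuous_apply σ)))))))
      ) hs (fun ν x hx => norm_term_le (fun σ => Real.exp_le_exp.2 (hx σ).le) ν)
  exact hcont.continuousAt (hopen.mem_nhds fun σ => by linarith)

/-- decay in the direction of the diagonal -/
theorem GG_decay (hc : ∀ z : (F →+* ℝ) → ℂ, Up z → Summable (term k C b z)) (R : ℝ) :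
    ∃ A c : ℝ, 0 < A ∧ 0 < c ∧ ∀ (x : (F →+* ℝ) → ℝ) (t : ℝ), 0 ≤ t → (∀ σ, |x σ - t| ≤ R) →
      ‖GG k C b x‖ ≤ A * Real.exp (-c * Real.exp t) := by
  have hpi := Real.pi_pos
  obtain ⟨q, hq⟩ : ∃ q : ℝ, q = Real.exp (-R) := ⟨_, rfl⟩
  have hq0 : 0 < q := by rw [hq]; exact Real.exp_pos _
  have hs : Summable fun ν : Pos b => ‖term k C b
      (fun σ => Complex.I * ((q / 2 : ℝ) : ℂ)) ν‖ :=
    (hc _ (up_im (y := fun _ => q / 2) fun σ => by positivity)).norm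
  obtain ⟨A₀, hA₀⟩ : ∃ A₀ : ℝ, A₀ = ∑' ν : Pos b, ‖term k C b
      (fun σ => Complex.I * ((q / 2 : ℝ) : ℂ)) ν‖ := ⟨_, rfl⟩
  have hA0 : 0 ≤ A₀ := by rw [hA₀]; exact tsum_nonneg fun ν => norm_nonneg _
  obtain ⟨K, hK⟩ : ∃ K : ℝ, K = (∑ σ : F →+* ℝ, (k σ : ℝ)) / 2 := ⟨_, rfl⟩
  have hK0 : 0 ≤ K := by
    rw [hK]
    exact div_nonneg (Finset.sum_nonneg fun σ _ => Nat.cast_nonneg _) (by norm_num)
  obtain ⟨c, hcd⟩ : ∃ c : ℝ, c = Real.pi * q / 2 := ⟨_, rfl⟩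
  have hc0 : 0 < c := by rw [hcd]; positivity
  obtain ⟨a, ha⟩ : ∃ a : ℝ, a = Real.log ((K + 1) / c) := ⟨_, rfl⟩
  refine ⟨(A₀ + 1) * Real.exp (K * R + (K + 1) * (a - 1)), c, by positivity, hc0, ?_⟩
  intro x t ht hx
  -- the form
  have hx1 : ∀ σ, t - R ≤ x σ := fun σ => by have := (abs_le.1 (hx σ)).1; linarith
  have hx2 : ∀ σ, x σ ≤ t + R := fun σ => by have := (abs_le.1 (hx σ)).2; linarith
  have het : 1 ≤ Real.exp t := Real.one_le_exp ht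
  have hterm : ∀ ν : Pos b, ‖term k C b (fun σ => Complex.I * ((Real.exp (x σ) : ℝ) : ℂ)) ν‖ ≤
      ‖term k C b (fun σ => Complex.I * ((q / 2 : ℝ) : ℂ)) ν‖ *
        Real.exp (-(Real.pi * q * Real.exp t)) := by
    intro ν
    rw [norm_term, norm_term (fun _ => q / 2)]
    refine (mul_le_mul_of_nonneg_left ?_ (norm_nonneg _)).trans (mul_assoc _ _ _).symm.le
    rw [← Real.exp_add]
    apply Real.exp_le_exp.2
    have hS := one_le_sum ν.2.2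
    obtain ⟨S, hSe⟩ : ∃ S : ℝ, S = ∑ σ : F →+* ℝ, σ (ν.1 : F) := ⟨_, rfl⟩
    rw [← hSe] at hS
    have e1 : ∑ σ : F →+* ℝ, σ (ν.1 : F) * (q / 2) = S * (q / 2) := by
      rw [← Finset.sum_mul, hSe]
    have e2 : S * (q * Real.exp t) ≤ ∑ σ : F →+* ℝ, σ (ν.1 : F) * Real.exp (x σ) := by
      rw [hSe, Finset.sum_mul]
      refine Finset.sum_le_sum fun σ _ => mul_le_mul_of_nonneg_left ?_ (ν.2.2 σ).le
      rw [hq, ← Real.exp_add]
      exact Real.exp_le_exp.2 (by have := hx1 σ; linarith)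
    rw [e1]
    have e3 : Real.pi * (S * q) + Real.pi * (q * Real.exp t) ≤
        2 * Real.pi * (S * (q * Real.exp t)) := by
      have f1 : S * q * 1 ≤ S * q * Real.exp t :=
        mul_le_mul_of_nonneg_left het (by positivity)
      have f2 : 1 * (q * Real.exp t) ≤ S * (q * Real.exp t) :=
        mul_le_mul_of_nonneg_right hS (by positivity)
      have f3 := mul_le_mul_of_nonneg_left f1 hpi.le
      have f4 := mul_le_mul_of_nonneg_left f2 hpi.le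
      nlinarith
    have e4 := mul_le_mul_of_nonneg_left e2 (by positivity : 0 ≤ 2 * Real.pi)
    nlinarith
  have hform : ‖form k C b (fun σ => Complex.I * ((Real.exp (x σ) : ℝ) : ℂ))‖ ≤
      A₀ * Real.exp (-(Real.pi * q * Real.exp t)) := by
    unfold form
    rw [hA₀, ← tsum_mul_right]
    exact tsum_of_norm_bounded (hs.mul_right _).hasSum hterm
  -- the factor
  have hfac : ‖∏ σ : F →+* ℝ, ((Real.exp ((k σ : ℝ) * x σ / 2) : ℝ) : ℂ)‖ ≤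
      Real.exp (K * (t + R)) := by
    rw [← Complex.ofReal_prod, Complex.norm_real, Real.norm_eq_abs,
      abs_of_pos (Finset.prod_pos fun σ _ => Real.exp_pos _), ← Real.exp_sum]
    apply Real.exp_le_exp.2
    rw [hK, div_mul_eq_mul_div, Finset.sum_mul, Finset.sum_div]
    refine Finset.sum_le_sum fun σ _ => ?_
    have := mul_le_mul_of_nonneg_left (hx2 σ) (Nat.cast_nonneg (k σ) : (0 : ℝ) ≤ (k σ : ℝ))
    linarith
  have hmain : K * (t + R) - Real.pi * q * Real.exp t ≤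
      (K * R + (K + 1) * (a - 1)) + -c * Real.exp t := by
    have e1 := Real.add_one_le_exp (t - a)
    have e2 : c * Real.exp t = (K + 1) * Real.exp (t - a) := by
      have e3 : Real.exp a = (K + 1) / c := by rw [ha, Real.exp_log (by positivity)]
      rw [Real.exp_sub, e3]
      field_simp
    have e4 := mul_le_mul_of_nonneg_left e1 (by positivity : 0 ≤ K + 1)
    rw [← e2] at e4
    have e5 : Real.pi * q * Real.exp t = c * Real.exp t + c * Real.exp t := by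
      rw [hcd]
      ring
    nlinarith
  unfold GG
  rw [norm_mul]
  calc _ ≤ A₀ * Real.exp (-(Real.pi * q * Real.exp t)) * Real.exp (K * (t + R)) :=
        mul_le_mul hform hfac (norm_nonneg _) (by positivity)
    _ = A₀ * Real.exp (K * (t + R) - Real.pi * q * Real.exp t) := by
        rw [mul_assoc, ← Real.exp_add]
        congr 2
        ring
    _ ≤ (A₀ + 1) * Real.exp ((K * R + (K + 1) * (a - 1)) + -c * Real.exp t) :=
        mul_le_mul (by linarith) (Real.exp_le_exp.2 hmain) (Real.exp_pos _).le (by linarith)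
    _ = _ := by rw [Real.exp_add, mul_assoc]

/-- the Fricke involution -/
theorem GG_fricke (hk : ∀ σ, Even (k σ) ∧ 0 < k σ) {n : Ideal (𝓞 F)} {w : ℂ} {bad : Ideal (𝓞 F)}
    (h : HNew k n w bad C) {b b' : Ideal (𝓞 F)} (hb : b ≠ ⊥) (hb' : b' ≠ ⊥) {y : 𝓞 F} (hy : TPos (y : F))
    (he : b * b' * (differentIdeal ℤ (𝓞 F)) ^ 2 * n = Ideal.span {y}) (x : (F →+* ℝ) → ℝ) :
    (Ideal.absNorm b : ℂ) * GG k C b (-x - lg (y : F)) =
      w * Complex.I ^ (∑ σ : F →+* ℝ, k σ) * ((Ideal.absNorm b' : ℂ) * GG k C b' x) := by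
  have h1 := h.fricke b b' hb hb' y hy he
    (fun σ => Complex.I * ((Real.exp (x σ) : ℝ) : ℂ)) (up_im fun σ => Real.exp_pos _)
  have h2 : (fun σ : F →+* ℝ => -1 / (((σ (y : F) : ℝ) : ℂ) *
      (Complex.I * ((Real.exp (x σ) : ℝ) : ℂ)))) = fun σ => Complex.I *
        ((Real.exp ((-x - lg (y : F)) σ) : ℝ) : ℂ) := by
    funext σ
    have h3 : (-x - lg (y : F)) σ = -(x σ) - Real.log (σ (y : F)) := rfl
    rw [h3, Real.exp_sub, Real.exp_neg, Real.exp_log (hy σ)]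
    have h4 : ((σ (y : F) : ℝ) : ℂ) ≠ 0 := Complex.ofReal_ne_zero.2 (hy σ).ne'
    have h5 : ((Real.exp (x σ) : ℝ) : ℂ) ≠ 0 := Complex.ofReal_ne_zero.2 (Real.exp_pos _).ne'
    push_cast
    rw [Complex.ofReal_exp] at h5
    field_simp
    rw [Complex.I_sq]
  rw [h2] at h1
  unfold GG
  rw [← mul_assoc, h1]
  have h6 : ∏ σ : F →+* ℝ, ((Real.exp ((k σ : ℝ) * (-x - lg (y : F)) σ / 2) : ℝ) : ℂ) =
      ∏ σ : F →+* ℝ, (((σ (y : F) : ℝ) : ℂ) ^ (k σ / 2))⁻¹ *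
        ((Real.exp ((k σ : ℝ) * x σ / 2) : ℝ) : ℂ)⁻¹ := by
    refine Finset.prod_congr rfl fun σ _ => ?_
    have h3 : (k σ : ℝ) * (-x - lg (y : F)) σ / 2 =
        -((k σ : ℝ) * Real.log (σ (y : F)) / 2) + -((k σ : ℝ) * x σ / 2) := by
      have h3 : (-x - lg (y : F)) σ = -(x σ) - Real.log (σ (y : F)) := rfl
      rw [h3]
      ring
    rw [h3, Real.exp_add, Real.exp_neg, Real.exp_neg, exp_half (hk σ).1 (hy σ)]
    push_cast
    rfl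
  have h7 : (∏ σ : F →+* ℝ, ((σ (y : F) : ℝ) : ℂ) ^ (k σ / 2) *
      (Complex.I * ((Real.exp (x σ) : ℝ) : ℂ)) ^ k σ) *
      ∏ σ : F →+* ℝ, ((Real.exp ((k σ : ℝ) * (-x - lg (y : F)) σ / 2) : ℝ) : ℂ) =
      Complex.I ^ (∑ σ : F →+* ℝ, k σ) *
        ∏ σ : F →+* ℝ, ((Real.exp ((k σ : ℝ) * x σ / 2) : ℝ) : ℂ) := by
    rw [h6, ← Finset.prod_mul_distrib, ← Finset.prod_pow_eq_pow_sum, ← Finset.prod_mul_distrib]
    refine Finset.prod_congr rfl fun σ _ => ?_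
    have h4 : ((σ (y : F) : ℝ) : ℂ) ^ (k σ / 2) ≠ 0 :=
      pow_ne_zero _ (Complex.ofReal_ne_zero.2 (hy σ).ne')
    have h5 : ((Real.exp ((k σ : ℝ) * x σ / 2) : ℝ) : ℂ) ≠ 0 :=
      Complex.ofReal_ne_zero.2 (Real.exp_pos _).ne'
    have h8 : (((Real.exp (x σ) : ℝ) : ℂ)) ^ k σ =
        ((Real.exp ((k σ : ℝ) * x σ / 2) : ℝ) : ℂ) * ((Real.exp ((k σ : ℝ) * x σ / 2) : ℝ) : ℂ) := by
      rw [← Complex.ofReal_pow, ← Real.exp_nat_mul, ← Complex.ofReal_mul, ← Real.exp_add]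
      congr 2
      ring
    rw [mul_pow, h8]
    generalize ((Real.exp ((k σ : ℝ) * x σ / 2) : ℝ) : ℂ) = E at h5 ⊢
    field_simp
  calc _ = w * ((∏ σ : F →+* ℝ, ((σ (y : F) : ℝ) : ℂ) ^ (k σ / 2) *
      (Complex.I * ((Real.exp (x σ) : ℝ) : ℂ)) ^ k σ) *
      ∏ σ : F →+* ℝ, ((Real.exp ((k σ : ℝ) * (-x - lg (y : F)) σ / 2) : ℝ) : ℂ)) *
        ((Ideal.absNorm b' : ℂ) * form k C b'
          (fun σ => Complex.I * ((Real.exp (x σ) : ℝ) : ℂ))) := by ring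
    _ = _ := by
      rw [h7]
      ring

end Pool.Agent.H44.TW
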