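import Pool.Agent.H44.TW.Split
import Pool.Agent.H44.TW.ADefs
import Pool.Agent.H44.PC.Conj
import Pool.Agent.H44.PC.Tr

/-!
# Frobenius elements in a quadratic extension
-/

set_option autoImplicit false

open NumberField Matrix Polynomial
open Pool.Agent.H44.PC

namespace Pool.Agent.H44.TW

section two

variable {F₀ F : IntermediateField ℚ (AlgebraicClosure ℚ)} [NumberField F₀] [NumberField F]

private theorem gf_rad (h : F₀ ≤ F) (h2 : F₀.relfinrank F = 2) :
    ∃ α : AlgebraicClosure ℚ, α ∈ F ∧ α ^ 2 ∈ F₀ ∧ α ≠ 0 ∧ ∀ y ∈ F, ∃ a ∈ F₀, ∃ b ∈ F₀, y = a + b * α := by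
  have h3 : Module.finrank F₀ (IntermediateField.extendScalars h) = 2 := by
    rw [← IntermediateField.relfinrank_eq_finrank_of_le h]
    exact h2
  have h4 : ∃ x ∈ F, x ∉ F₀ := by
    by_contra hcon
    push Not at hcon
    have h5 : F₀.relfinrank F = 1 := IntermediateField.relfinrank_eq_one_iff.2 hcon
    omega
  obtain ⟨x, hxF, hx0⟩ := h4
  let X : IntermediateField.extendScalars h := ⟨x, hxF⟩
  have hli : LinearIndependent F₀ ![(1 : IntermediateField.extendScalars h), X] := by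
    rw [LinearIndependent.pair_iff]
    intro s t hst
    have h5 : (s : AlgebraicClosure ℚ) + (t : AlgebraicClosure ℚ) * x = 0 := by
      have h6 := congrArg (fun z : IntermediateField.extendScalars h => (z : AlgebraicClosure ℚ)) hst
      have h7 : ((s • (1 : IntermediateField.extendScalars h) + t • X : IntermediateField.extendScalars h) : AlgebraicClosure ℚ)
          = (s : AlgebraicClosure ℚ) * 1 + (t : AlgebraicClosure ℚ) * x := rfl
      rw [mul_one] at h7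
      rw [← h7]
      exact h6
    by_cases ht : t = 0
    · rw [ht] at h5 ⊢
      refine ⟨?_, rfl⟩
      apply Subtype.ext
      have h6 : ((0 : F₀) : AlgebraicClosure ℚ) = 0 := rfl
      rw [h6, zero_mul, add_zero] at h5
      rw [h5, h6]
    · exfalso
      apply hx0
      have ht' : (t : AlgebraicClosure ℚ) ≠ 0 := fun h => ht (Subtype.ext h)
      have h6 : x = -(s : AlgebraicClosure ℚ) / (t : AlgebraicClosure ℚ) := by
        rw [eq_div_iff ht']
        linear_combination h5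
      rw [h6]
      exact F₀.div_mem (F₀.neg_mem s.2) t.2
  let B := basisOfLinearIndependentOfCardEqFinrank hli (by rw [h3]; rfl)
  have hB : ∀ y ∈ F, ∃ a ∈ F₀, ∃ b ∈ F₀, y = a + b * x := by
    intro y hy
    have h5 := B.sum_repr (⟨y, hy⟩ : IntermediateField.extendScalars h)
    rw [Fin.sum_univ_two] at h5
    have h6 : B 0 = 1 := by
      show (basisOfLinearIndependentOfCardEqFinrank hli (by rw [h3]; rfl)) 0 = 1
      rw [coe_basisOfLinearIndependentOfCardEqFinrank]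
      rfl
    have h7 : B 1 = X := by
      show (basisOfLinearIndependentOfCardEqFinrank hli (by rw [h3]; rfl)) 1 = X
      rw [coe_basisOfLinearIndependentOfCardEqFinrank]
      rfl
    rw [h6, h7] at h5
    refine ⟨_, (B.repr ⟨y, hy⟩ 0).2, _, (B.repr ⟨y, hy⟩ 1).2, ?_⟩
    have h8 := congrArg (fun z : IntermediateField.extendScalars h => (z : AlgebraicClosure ℚ)) h5
    have h9 : ((B.repr ⟨y, hy⟩ 0 • (1 : IntermediateField.extendScalars h) + B.repr ⟨y, hy⟩ 1 • X :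
          IntermediateField.extendScalars h) : AlgebraicClosure ℚ)
          = ((B.repr ⟨y, hy⟩ 0 : F₀) : AlgebraicClosure ℚ) * 1 + ((B.repr ⟨y, hy⟩ 1 : F₀) : AlgebraicClosure ℚ) * x := rfl
    rw [mul_one] at h9
    rw [← h9]
    exact h8.symm
  obtain ⟨c, hc, d, hd, hcd⟩ := hB (x ^ 2) (pow_mem hxF 2)
  have hd2 : d / 2 ∈ F₀ := F₀.div_mem hd (F₀.natCast_mem 2)
  refine ⟨x - d / 2, F.sub_mem hxF (h hd2), ?_, ?_, ?_⟩
  · have h5 : (x - d / 2) ^ 2 = c + (d / 2) ^ 2 := by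
      linear_combination hcd
    rw [h5]
    exact F₀.add_mem hc (pow_mem hd2 2)
  · intro h5
    apply hx0
    rw [sub_eq_zero] at h5
    rw [h5]
    exact hd2
  · intro y hy
    obtain ⟨a, ha, b, hb, hab⟩ := hB y hy
    refine ⟨a + b * (d / 2), F₀.add_mem ha (F₀.mul_mem hb hd2), b, hb, ?_⟩
    rw [hab]
    ring

private theorem gf_pm {α : AlgebraicClosure ℚ} (hα : α ^ 2 ∈ F₀) (g : F₀.fixingSubgroup) :
    (g : (AlgebraicClosure ℚ) ≃ₐ[ℚ] (AlgebraicClosure ℚ)) α = α ∨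
    (g : (AlgebraicClosure ℚ) ≃ₐ[ℚ] (AlgebraicClosure ℚ)) α = -α := by
  have h1 := (IntermediateField.mem_fixingSubgroup_iff _ _).1 g.2 _ hα
  rw [map_pow] at h1
  exact sq_eq_sq_iff_eq_or_eq_neg.1 h1

private theorem gf_mem {α : AlgebraicClosure ℚ} (hF : α ∈ F)
    (hy : ∀ y ∈ F, ∃ a ∈ F₀, ∃ b ∈ F₀, y = a + b * α) {g : (AlgebraicClosure ℚ) ≃ₐ[ℚ] (AlgebraicClosure ℚ)}
    (hg : g ∈ F₀.fixingSubgroup) : g ∈ F.fixingSubgroup ↔ g α = α := by
  have hg0 := (IntermediateField.mem_fixingSubgroup_iff _ _).1 hg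
  constructor
  · intro h1
    exact (IntermediateField.mem_fixingSubgroup_iff _ _).1 h1 _ hF
  · intro h1
    rw [IntermediateField.mem_fixingSubgroup_iff]
    intro y hyF
    obtain ⟨a, ha, b, hb, hab⟩ := hy y hyF
    rw [hab, map_add, map_mul, h1, hg0 a ha, hg0 b hb]

private theorem gf_inv {α : AlgebraicClosure ℚ} (hα : α ^ 2 ∈ F₀) (g : F₀.fixingSubgroup) :
    (g : (AlgebraicClosure ℚ) ≃ₐ[ℚ] (AlgebraicClosure ℚ))⁻¹ α = (g : (AlgebraicClosure ℚ) ≃ₐ[ℚ] (AlgebraicClosure ℚ)) α := by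
  have h1 : ∀ y : AlgebraicClosure ℚ, (g : (AlgebraicClosure ℚ) ≃ₐ[ℚ] (AlgebraicClosure ℚ))⁻¹
      ((g : (AlgebraicClosure ℚ) ≃ₐ[ℚ] (AlgebraicClosure ℚ)) y) = y := fun y =>
    (g : (AlgebraicClosure ℚ) ≃ₐ[ℚ] (AlgebraicClosure ℚ)).symm_apply_apply y
  rcases gf_pm hα g with h2 | h2
  · have h3 := h1 α
    rw [h2] at h3
    rw [h3, h2]
  · have h3 := h1 (-α)
    rw [map_neg, h2, neg_neg] at h3
    rw [h3, h2]

private theorem gf_card (k : Type) [CommRing k] [IsDomain k] [Finite k] {q : ℕ} (hq : 2 ≤ q)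
    (h : ∀ x : k, x ^ q = x) : Nat.card k ≤ q := by
  classical
  haveI : Fintype k := Fintype.ofFinite k
  rw [Nat.card_eq_fintype_card, ← Finset.card_univ]
  have h4 : (Finset.univ : Finset k) ⊆ (Polynomial.X ^ q - Polynomial.X : Polynomial k).roots.toFinset := by
    intro x _
    rw [Multiset.mem_toFinset, Polynomial.mem_roots']
    refine ⟨fun h5 => ?_, ?_⟩
    · have h6 := congrArg (fun q : Polynomial k => q.coeff 1) h5
      simp [Polynomial.coeff_X_pow, show (1 : ℕ) ≠ q by omega] at h6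
    · simp [Polynomial.IsRoot, h x]
  refine (Finset.card_le_card h4).trans ((Multiset.toFinset_card_le _).trans
    ((Polynomial.card_roots' _).trans ?_))
  refine (Polynomial.natDegree_sub_le _ _).trans (max_le ?_ ?_)
  · exact (Polynomial.natDegree_X_pow_le _)
  · exact Polynomial.natDegree_X_le.trans (by omega)

private theorem gf_two_le {v : Ideal (𝓞 F₀)} (hv : v.IsPrime) (h0 : v ≠ ⊥) : 2 ≤ Ideal.absNorm v := by
  have h1 : Ideal.absNorm v ≠ 0 := fun h => h0 (Ideal.absNorm_eq_zero_iff.1 h)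
  have h2 : Ideal.absNorm v ≠ 1 := fun h => hv.ne_top (Ideal.absNorm_eq_one_iff.1 h)
  omega

private theorem gf_finrank (h : F₀ ≤ F) (h2 : F₀.relfinrank F = 2) :
    @Module.finrank F₀ F _ _ (IntermediateField.inclusion h).toRingHom.toAlgebra.toModule = 2 := by
  letI : Algebra F₀ F := (IntermediateField.inclusion h).toRingHom.toAlgebra
  have h3 : Module.finrank F₀ (IntermediateField.extendScalars h) = 2 := by
    rw [← IntermediateField.relfinrank_eq_finrank_of_le h]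
    exact h2
  let e : (IntermediateField.extendScalars h) ≃ₗ[F₀] F :=
    { toFun := fun x => ⟨x.1, x.2⟩
      map_add' := fun _ _ => rfl
      map_smul' := fun _ _ => rfl
      invFun := fun x => ⟨x.1, x.2⟩
      left_inv := fun _ => rfl
      right_inv := fun _ => rfl }
  rw [← e.finrank_eq]
  exact h3

/-- `v` is below `w`: the norm of `v` is at most the norm of `w` -/
private theorem gf_le (h : F₀ ≤ F) {v : Ideal (𝓞 F₀)} {w : Ideal (𝓞 F)} (hw : w.comap (incl h) = v) (hw0 : w ≠ ⊥) :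
    Ideal.absNorm v ≤ Ideal.absNorm w := by
  haveI : Finite (𝓞 F ⧸ w) := Ideal.finiteQuotientOfFreeOfNeBot w hw0
  rw [Ideal.absNorm_apply, Ideal.absNorm_apply, Submodule.cardQuot_apply, Submodule.cardQuot_apply, ← hw]
  exact Nat.card_le_card_of_injective _ (Ideal.quotientMap_injective (I := w) (f := incl h))

/-- the restriction of `g` to `F` -/
private noncomputable def gf_res {α : AlgebraicClosure ℚ} (h : F₀ ≤ F) (hF : α ∈ F) (hα : α ^ 2 ∈ F₀)
    (hy : ∀ y ∈ F, ∃ a ∈ F₀, ∃ b ∈ F₀, y = a + b * α) (g : F₀.fixingSubgroup) : F →+* F :=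
  RingHom.codRestrict (((g : (AlgebraicClosure ℚ) ≃ₐ[ℚ] (AlgebraicClosure ℚ)) : (AlgebraicClosure ℚ) →+* (AlgebraicClosure ℚ)).comp
    (F.val : F →+* (AlgebraicClosure ℚ))) F (by
      intro y
      obtain ⟨a, ha, b, hb, hab⟩ := hy y.1 y.2
      have hg0 := (IntermediateField.mem_fixingSubgroup_iff _ _).1 g.2
      show (g : (AlgebraicClosure ℚ) ≃ₐ[ℚ] (AlgebraicClosure ℚ)) (y.1) ∈ F
      rw [hab, map_add, map_mul, hg0 a ha, hg0 b hb]
      refine F.add_mem (h ha) (F.mul_mem (h hb) ?_)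
      rcases gf_pm hα g with h3 | h3
      · rw [h3]
        exact hF
      · rw [h3]
        exact F.neg_mem hF)

/-- a Frobenius element at a prime which is unramified in a quadratic extension is in `G_F` iff the prime splits -/
theorem frob_mem_iff (h : F₀ ≤ F) (h2 : F₀.relfinrank F = 2) {v : Ideal (𝓞 F₀)} (hv : v.IsPrime) (h0 : v ≠ ⊥)
    (hunr : Unr h v) {g : F₀.fixingSubgroup} (hg : IsFrob v g) :
    (g : (AlgebraicClosure ℚ) ≃ₐ[ℚ] (AlgebraicClosure ℚ)) ∈ F.fixingSubgroup ↔ Splits (incl h) v := by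
  obtain ⟨P, hP, hPv, hgP⟩ := hg
  have hq := gf_two_le hv h0
  set w : Ideal (𝓞 F) := P.comap (algebraMap (𝓞 F) (𝓞 (AlgebraicClosure ℚ))) with hwdef
  haveI hwp : w.IsPrime := Ideal.comap_isPrime _ _
  have hcomp : (algebraMap (𝓞 F) (𝓞 (AlgebraicClosure ℚ))).comp (incl h) = algebraMap (𝓞 F₀) (𝓞 (AlgebraicClosure ℚ)) := by
    ext x
    rfl
  have hwv : w.comap (incl h) = v := by
    rw [hwdef, Ideal.comap_comap, hcomp, hPv]
  have hne : ∀ u : Ideal (𝓞 F), u.comap (incl h) = v → u ≠ ⊥ := by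
    intro u hu h3
    apply h0
    rw [← hu, h3]
    refine eq_bot_iff.2 ?_
    intro x hx
    have h4 : incl h x = 0 := hx
    have h5 := congrArg (fun z : 𝓞 F => ((z : F) : AlgebraicClosure ℚ)) h4
    apply RingOfIntegers.coe_injective
    apply Subtype.ext
    exact h5
  have hw0 := hne w hwv
  constructor
  · intro hgF
    refine ⟨w, hwp, hwv, le_antisymm ?_ (gf_le h hwv hw0)⟩
    haveI : Finite (𝓞 F ⧸ w) := Ideal.finiteQuotientOfFreeOfNeBot w hw0
    rw [Ideal.absNorm_apply w, Submodule.cardQuot_apply]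
    refine gf_card (𝓞 F ⧸ w) hq ?_
    intro x
    obtain ⟨y, rfl⟩ := Ideal.Quotient.mk_surjective x
    have h3 := hgP (algebraMap (𝓞 F) (𝓞 (AlgebraicClosure ℚ)) y)
    have h4 : (g : (AlgebraicClosure ℚ) ≃ₐ[ℚ] (AlgebraicClosure ℚ)) • algebraMap (𝓞 F) (𝓞 (AlgebraicClosure ℚ)) y
        = algebraMap (𝓞 F) (𝓞 (AlgebraicClosure ℚ)) y := by
      apply RingOfIntegers.coe_injective
      exact (IntermediateField.mem_fixingSubgroup_iff _ _).1 hgF _ (y : F).2
    rw [h4, ← map_pow, ← map_sub] at h3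
    rw [← map_pow, eq_comm, Ideal.Quotient.eq]
    exact h3
  · rintro ⟨w', hw'p, hw'v, hw'n⟩
    obtain ⟨α, hF, hα, hα0, hy⟩ := gf_rad h h2
    by_contra hgF
    have hgα := (gf_pm hα g).resolve_left fun h3 => hgF ((gf_mem hF hy g.2).2 h3)
    let σ : 𝓞 F →+* 𝓞 F := RingOfIntegers.mapRingHom (gf_res h hF hα hy g)
    have hσ : ∀ x : 𝓞 F, ((σ x : F) : AlgebraicClosure ℚ)
        = (g : (AlgebraicClosure ℚ) ≃ₐ[ℚ] (AlgebraicClosure ℚ)) ((x : F) : AlgebraicClosure ℚ) := fun _ => rfl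
    -- `w` is stable
    have hst : w ≤ w.comap σ := by
      intro x hx
      have h3 := hgP (algebraMap (𝓞 F) (𝓞 (AlgebraicClosure ℚ)) x)
      have h4 : (algebraMap (𝓞 F) (𝓞 (AlgebraicClosure ℚ)) x) ^ (Ideal.absNorm v) ∈ P :=
        Ideal.pow_mem_of_mem P hx _ (by omega)
      have h5 := P.add_mem h3 h4
      rw [sub_add_cancel] at h5
      have h6 : algebraMap (𝓞 F) (𝓞 (AlgebraicClosure ℚ)) (σ x)
          = (g : (AlgebraicClosure ℚ) ≃ₐ[ℚ] (AlgebraicClosure ℚ)) • algebraMap (𝓞 F) (𝓞 (AlgebraicClosure ℚ)) x := by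
        apply RingOfIntegers.coe_injective
        exact hσ x
      show algebraMap (𝓞 F) (𝓞 (AlgebraicClosure ℚ)) (σ x) ∈ P
      rw [h6]
      exact h5
    -- norms
    have hnorm : ∀ x : 𝓞 F, ∃ m : 𝓞 F₀, incl h m = x * σ x := by
      intro x
      obtain ⟨a, ha, b, hb, hab⟩ := hy ((x : F) : AlgebraicClosure ℚ) (x : F).2
      have hg0 := (IntermediateField.mem_fixingSubgroup_iff _ _).1 g.2
      have h3 : (((x * σ x : 𝓞 F) : F) : AlgebraicClosure ℚ) = a ^ 2 - b ^ 2 * α ^ 2 := by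
        have h4 : (((x * σ x : 𝓞 F) : F) : AlgebraicClosure ℚ)
            = ((x : F) : AlgebraicClosure ℚ) * ((σ x : F) : AlgebraicClosure ℚ) := rfl
        rw [h4, hσ, hab, map_add, map_mul, hg0 a ha, hg0 b hb, hgα]
        ring
      have h4 : a ^ 2 - b ^ 2 * α ^ 2 ∈ F₀ :=
        F₀.sub_mem (pow_mem ha 2) (F₀.mul_mem (pow_mem hb 2) hα)
      have h5 : IsIntegral ℤ (⟨a ^ 2 - b ^ 2 * α ^ 2, h4⟩ : F₀) := by
        have h6 : IsIntegral ℤ ((x * σ x : 𝓞 F) : F) := (x * σ x).2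
        have h7 : IsIntegral ℤ (a ^ 2 - b ^ 2 * α ^ 2) := by
          rw [← h3]
          exact h6.map (F.val.restrictScalars ℤ)
        exact (isIntegral_algHom_iff (F₀.val.restrictScalars ℤ) Subtype.val_injective).1 h7
      refine ⟨⟨⟨a ^ 2 - b ^ 2 * α ^ 2, h4⟩, h5⟩, ?_⟩
      apply RingOfIntegers.coe_injective
      apply Subtype.ext
      exact h3.symm
    -- transitivity
    have htr : ∀ u u' : Ideal (𝓞 F), u'.IsPrime → u.comap (incl h) = v → u'.comap (incl h) = v →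
        u ≤ u' ∨ u ≤ u'.comap σ := by
      intro u u' hu' hu1 hu'1
      apply Ideal.subset_union.1
      intro x hx
      obtain ⟨m, hm⟩ := hnorm x
      have h3 : m ∈ v := by
        rw [← hu1, Ideal.mem_comap, hm]
        exact u.mul_mem_right _ hx
      rw [← hu'1, Ideal.mem_comap, hm] at h3
      rcases hu'.mem_or_mem h3 with h4 | h4
      · exact Or.inl h4
      · exact Or.inr h4
    have hmax : ∀ u : Ideal (𝓞 F), u.IsPrime → u.comap (incl h) = v → u.IsMaximal := fun u hu hu1 =>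
      hu.isMaximal (hne u hu1)
    have hσw : w.comap σ = w :=
      ((hmax w hwp hwv).eq_of_le (Ideal.comap_isPrime σ w).ne_top hst).symm
    -- every prime above `v` is `w`
    have huniq : ∀ u : Ideal (𝓞 F), u.IsPrime → u.comap (incl h) = v → u = w := by
      intro u hu hu1
      refine (hmax u hu hu1).eq_of_le hwp.ne_top ?_
      rcases htr u w hwp hu1 hwv with h3 | h3
      · exact h3
      · rwa [hσw] at h3
    letI : Algebra F₀ F := (IntermediateField.inclusion h).toRingHom.toAlgebra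
    have hinc : algebraMap (𝓞 F₀) (𝓞 F) = incl h := rfl
    have hunr' : ∀ u : Ideal (𝓞 F), u.IsPrime → u.comap (algebraMap (𝓞 F₀) (𝓞 F)) = v →
        ¬ v.map (algebraMap (𝓞 F₀) (𝓞 F)) ≤ u ^ 2 := hunr
    rcases split_law (F := F₀) (M := F) (gf_finrank h h2) hv h0 hunr' with ⟨u, u', huu, _, _, hall⟩ | ⟨u, hun, hall⟩
    · have h3 := (hall u).2 (Or.inl rfl)
      have h4 := (hall u').2 (Or.inr rfl)
      exact huu ((huniq u h3.1 h3.2).trans (huniq u' h4.1 h4.2).symm)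
    · have h3 := (hall w').1 ⟨hw'p, hw'v⟩
      rw [← h3, hw'n] at hun
      nlinarith

/-- the group `G_F` has index two in `G_{F₀}` -/
theorem index_two (h : F₀ ≤ F) (h2 : F₀.relfinrank F = 2) (a b : F₀.fixingSubgroup)
    (ha : (a : (AlgebraicClosure ℚ) ≃ₐ[ℚ] (AlgebraicClosure ℚ)) ∉ F.fixingSubgroup)
    (hb : (b : (AlgebraicClosure ℚ) ≃ₐ[ℚ] (AlgebraicClosure ℚ)) ∉ F.fixingSubgroup) :
    (a : (AlgebraicClosure ℚ) ≃ₐ[ℚ] (AlgebraicClosure ℚ))⁻¹ * b ∈ F.fixingSubgroup := by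
  obtain ⟨α, hF, hα, _, hy⟩ := gf_rad h h2
  have ha1 := (gf_pm hα a).resolve_left fun h3 => ha ((gf_mem hF hy a.2).2 h3)
  have hb1 := (gf_pm hα b).resolve_left fun h3 => hb ((gf_mem hF hy b.2).2 h3)
  rw [gf_mem hF hy (F₀.fixingSubgroup.mul_mem (F₀.fixingSubgroup.inv_mem a.2) b.2)]
  show (a : (AlgebraicClosure ℚ) ≃ₐ[ℚ] (AlgebraicClosure ℚ))⁻¹ ((b : (AlgebraicClosure ℚ) ≃ₐ[ℚ] (AlgebraicClosure ℚ)) α) = α
  rw [hb1, map_neg, gf_inv hα a, ha1, neg_neg]

theorem sq_mem (h : F₀ ≤ F) (h2 : F₀.relfinrank F = 2) (a : F₀.fixingSubgroup) :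
    (a : (AlgebraicClosure ℚ) ≃ₐ[ℚ] (AlgebraicClosure ℚ)) ^ 2 ∈ F.fixingSubgroup := by
  obtain ⟨α, hF, hα, _, hy⟩ := gf_rad h h2
  rw [gf_mem hF hy (F₀.fixingSubgroup.pow_mem a.2 2), pow_two]
  show (a : (AlgebraicClosure ℚ) ≃ₐ[ℚ] (AlgebraicClosure ℚ)) ((a : (AlgebraicClosure ℚ) ≃ₐ[ℚ] (AlgebraicClosure ℚ)) α) = α
  rcases gf_pm hα a with h3 | h3
  · rw [h3, h3]
  · rw [h3, map_neg, h3, neg_neg]

theorem conj_mem_two (h : F₀ ≤ F) (h2 : F₀.relfinrank F = 2) (a : F₀.fixingSubgroup)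
    {g : (AlgebraicClosure ℚ) ≃ₐ[ℚ] (AlgebraicClosure ℚ)} (hg : g ∈ F.fixingSubgroup) :
    (a : (AlgebraicClosure ℚ) ≃ₐ[ℚ] (AlgebraicClosure ℚ))⁻¹ * g * a ∈ F.fixingSubgroup := by
  obtain ⟨α, hF, hα, _, hy⟩ := gf_rad h h2
  have hg0 : g ∈ F₀.fixingSubgroup := IntermediateField.fixingSubgroup_le h hg
  have hg1 : g α = α := (gf_mem hF hy hg0).1 hg
  rw [gf_mem hF hy (F₀.fixingSubgroup.mul_mem (F₀.fixingSubgroup.mul_mem (F₀.fixingSubgroup.inv_mem a.2) hg0) a.2)]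
  show (a : (AlgebraicClosure ℚ) ≃ₐ[ℚ] (AlgebraicClosure ℚ))⁻¹ (g ((a : (AlgebraicClosure ℚ) ≃ₐ[ℚ] (AlgebraicClosure ℚ)) α)) = α
  rcases gf_pm hα a with h3 | h3
  · rw [h3, hg1, gf_inv hα a, h3]
  · rw [h3, map_neg, hg1, map_neg, gf_inv hα a, h3, neg_neg]

/-- if `t F ⊂ F` then `t` normalises `G_F` -/
theorem conj_stable {M : IntermediateField ℚ (AlgebraicClosure ℚ)} [NumberField M]
    {t : (AlgebraicClosure ℚ) ≃ₐ[ℚ] (AlgebraicClosure ℚ)} (ht : ∀ x ∈ M, t x ∈ M)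
    {g : (AlgebraicClosure ℚ) ≃ₐ[ℚ] (AlgebraicClosure ℚ)} (hg : g ∈ M.fixingSubgroup) :
    t⁻¹ * g * t ∈ M.fixingSubgroup ∧ t * g * t⁻¹ ∈ M.fixingSubgroup := by
  have hg0 := (IntermediateField.mem_fixingSubgroup_iff _ _).1 hg
  have hinv : ∀ x ∈ M, t⁻¹ x ∈ M := by
    let f : M →ₗ[ℚ] M := (t.toLinearMap.restrict (p := M.toSubalgebra.toSubmodule) (q := M.toSubalgebra.toSubmodule) ht)
    have hf : Function.Injective f := by
      intro x y hxy
      apply Subtype.ext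
      apply t.injective
      exact congrArg Subtype.val hxy
    have hs : Function.Surjective f := LinearMap.injective_iff_surjective.1 hf
    intro x hx
    obtain ⟨y, hy⟩ := hs ⟨x, hx⟩
    have h1 : t y.1 = x := congrArg Subtype.val hy
    rw [← h1]
    have h2 : t⁻¹ (t y.1) = y.1 := t.symm_apply_apply y.1
    rw [h2]
    exact y.2
  have h1 : ∀ x, t⁻¹ (t x) = x := fun x => t.symm_apply_apply x
  have h2 : ∀ x, t (t⁻¹ x) = x := fun x => t.apply_symm_apply x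
  constructor
  · rw [IntermediateField.mem_fixingSubgroup_iff]
    intro x hx
    show t⁻¹ (g (t x)) = x
    rw [hg0 _ (ht x hx), h1]
  · rw [IntermediateField.mem_fixingSubgroup_iff]
    intro x hx
    show t (g (t⁻¹ x)) = x
    rw [hg0 _ (hinv x hx), h2]

end two

end Pool.Agent.H44.TW
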