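import Pool.Agent.H44.TW.GFrob
import Pool.Agent.H44.PC.Ext

/-!
# The Selmer group of a representation of `G_F` which extends to `G_{F₀}` over a larger field
-/

set_option autoImplicit false

open NumberField Matrix
open Pool.Agent.H44.PC

namespace Pool.Agent.H44.TW

variable {p : ℕ} [Fact p.Prime] {K : Type} [NontriviallyNormedField K] [NormedAlgebra ℚ_[p] K]
  {L : Type} [NontriviallyNormedField L] [NormedAlgebra K L]
  {F₀ F : IntermediateField ℚ (AlgebraicClosure ℚ)} [NumberField F₀] [NumberField F]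
  {ρ : F.fixingSubgroup →* Matrix (Fin 2) (Fin 2) K} {r : F₀.fixingSubgroup →* Matrix (Fin 2) (Fin 2) L}

/-- conjugation by an element of `G_{F₀}` -/
private noncomputable def cj2 (h : F₀ ≤ F) (h2 : F₀.relfinrank F = 2) (s : F₀.fixingSubgroup) (g : F.fixingSubgroup) :
    F.fixingSubgroup :=
  ⟨(s : (AlgebraicClosure ℚ) ≃ₐ[ℚ] (AlgebraicClosure ℚ))⁻¹ * g * s, conj_mem_two h h2 s g.2⟩

private theorem sub_cj2 (h : F₀ ≤ F) (h2 : F₀.relfinrank F = 2) (s : F₀.fixingSubgroup) (g : F.fixingSubgroup) :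
    s * sub h (cj2 h h2 s g) = sub h g * s := by
  apply Subtype.ext
  show (s : (AlgebraicClosure ℚ) ≃ₐ[ℚ] (AlgebraicClosure ℚ)) *
    ((s : (AlgebraicClosure ℚ) ≃ₐ[ℚ] (AlgebraicClosure ℚ))⁻¹ * g * s) = g * s
  group

/-- the intertwining matrix `T` of an element `s` of `G_{F₀}`, not in `G_F`, and its relation to the extension `r`:
after conjugation by a matrix `P` over `L` one has `r = ρ` on `G_F` and `r(s) = α T`, `c = α⁻²` -/
theorem exists_tw2 (h : F₀ ≤ F) (h2 : F₀.relfinrank F = 2) (hirr : Submodule.span K (Set.range ρ) = ⊤)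
    (htr : ∀ g : F.fixingSubgroup, (r (sub h g)).trace = algebraMap K L (ρ g).trace) :
    ∃ P P' : Matrix (Fin 2) (Fin 2) L, P * P' = 1 ∧ P' * P = 1 ∧
      (∀ g : F.fixingSubgroup, P' * r (sub h g) * P = (ρ g).map (algebraMap K L)) ∧
      ∀ s : F₀.fixingSubgroup, ∃ (T : Matrix (Fin 2) (Fin 2) K) (c : K) (α : L),
        Tw ρ (s : (AlgebraicClosure ℚ) ≃ₐ[ℚ] (AlgebraicClosure ℚ)) T c 2 ∧ T.det ≠ 0 ∧ α ≠ 0 ∧
        P' * r s * P = α • T.map (algebraMap K L) ∧ α ^ 2 * algebraMap K L c = 1 := by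
  let r1 : F.fixingSubgroup →* Matrix (Fin 2) (Fin 2) L :=
    ((algebraMap K L).mapMatrix : Matrix (Fin 2) (Fin 2) K →+* Matrix (Fin 2) (Fin 2) L).toMonoidHom.comp ρ
  let r2 : F.fixingSubgroup →* Matrix (Fin 2) (Fin 2) L := r.comp (sub h)
  have htr' : ∀ g, trace (r1 g) = trace (r2 g) := by
    intro g
    show ((ρ g).map (algebraMap K L)).trace = (r (sub h g)).trace
    rw [htr]
    exact (AddMonoidHom.map_trace (algebraMap K L) (ρ g)).symm
  have hs1 : Submodule.span L (Set.range r1) = ⊤ := span_extL (L := L) hirr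
  have hs2 := span_of_trace r1 r2 hs1 htr'
  obtain ⟨B, B', hB1, hB2, hB3⟩ := exists_inter r1 r2 hs1 hs2 htr'
  have hB4 : ∀ g, B' * r2 g = r1 g * B' := by
    intro g
    calc B' * r2 g = B' * r2 g * (B * B') := by rw [hB1, mul_one]
      _ = B' * (r2 g * B) * B' := by simp only [mul_assoc]
      _ = B' * (B * r1 g) * B' := by rw [hB3]
      _ = (B' * B) * r1 g * B' := by simp only [mul_assoc]
      _ = r1 g * B' := by rw [hB2, one_mul]
  refine ⟨B, B', hB1, hB2, ?_, ?_⟩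
  · intro g
    show B' * r2 g * B = r1 g
    rw [hB4, mul_assoc, hB2, mul_one]
  intro s
  have hmapmul : ∀ X Y : Matrix (Fin 2) (Fin 2) K, (X * Y).map (algebraMap K L) =
      X.map (algebraMap K L) * Y.map (algebraMap K L) := fun X Y => Matrix.map_mul
  have hmapone : (1 : Matrix (Fin 2) (Fin 2) K).map (algebraMap K L) = 1 :=
    Matrix.map_one _ (map_zero _) (map_one _)
  have hinj : Function.Injective (algebraMap K L) := (algebraMap K L).injective
  -- the conjugate representation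
  let ρ1 : F.fixingSubgroup →* Matrix (Fin 2) (Fin 2) K :=
    { toFun := fun g => ρ (cj2 h h2 s g)
      map_one' := by
        have : cj2 h h2 s 1 = 1 := by
          apply Subtype.ext
          simp [cj2]
        rw [this, map_one]
      map_mul' := fun a b => by
        have : cj2 h h2 s (a * b) = cj2 h h2 s a * cj2 h h2 s b := by
          apply Subtype.ext
          simp only [cj2, Subgroup.coe_mul]
          group
        rw [this, map_mul] }
  have hr1 : Submodule.span K (Set.range ρ1) = ⊤ := by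
    rw [← hirr]
    congr 1
    ext A
    constructor
    · rintro ⟨g, rfl⟩
      exact ⟨cj2 h h2 s g, rfl⟩
    · rintro ⟨g, rfl⟩
      refine ⟨cj2 h h2 s⁻¹ g, ?_⟩
      show ρ (cj2 h h2 s (cj2 h h2 s⁻¹ g)) = ρ g
      congr 1
      apply Subtype.ext
      simp only [cj2, InvMemClass.coe_inv]
      group
  have htrρ : ∀ g, trace (ρ1 g) = trace (ρ g) := by
    intro g
    apply hinj
    show algebraMap K L (ρ (cj2 h h2 s g)).trace = _
    rw [← htr, ← htr]
    have h5 := sub_cj2 h h2 s g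
    have h6 : sub h (cj2 h h2 s g) = s⁻¹ * (sub h g * s) := by rw [← h5]; group
    rw [h6, map_mul, Matrix.trace_mul_comm, ← map_mul, mul_assoc, mul_inv_cancel, mul_one]
  obtain ⟨T, T', h1, h1', h3⟩ := exists_inter ρ1 ρ hr1 hirr htrρ
  have hint : ∀ g : F.fixingSubgroup, T * ρ (cj2 h h2 s g) = ρ g * T := h3
  set u : F.fixingSubgroup := ⟨(s : (AlgebraicClosure ℚ) ≃ₐ[ℚ] (AlgebraicClosure ℚ)) ^ 2, sq_mem h h2 s⟩ with hu
  have hss : ρ u * ρ u⁻¹ = 1 := by rw [← map_mul, mul_inv_cancel, map_one]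
  have hss' : ρ u⁻¹ * ρ u = 1 := by rw [← map_mul, inv_mul_cancel, map_one]
  have hcommT : ∀ A ∈ Set.range ρ, (T ^ 2 * ρ u⁻¹) * A = A * (T ^ 2 * ρ u⁻¹) := by
    rintro _ ⟨g, rfl⟩
    have h5 : T ^ 2 * ρ (cj2 h h2 s (cj2 h h2 s g)) = ρ g * T ^ 2 := by
      rw [pow_two, mul_assoc, hint, ← mul_assoc, hint, mul_assoc]
    have h6 : cj2 h h2 s (cj2 h h2 s g) = u⁻¹ * g * u := by
      apply Subtype.ext
      show (s : (AlgebraicClosure ℚ) ≃ₐ[ℚ] (AlgebraicClosure ℚ))⁻¹ *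
        ((s : (AlgebraicClosure ℚ) ≃ₐ[ℚ] (AlgebraicClosure ℚ))⁻¹ * g * s) * s =
        ((s : (AlgebraicClosure ℚ) ≃ₐ[ℚ] (AlgebraicClosure ℚ)) ^ 2)⁻¹ * g *
          (s : (AlgebraicClosure ℚ) ≃ₐ[ℚ] (AlgebraicClosure ℚ)) ^ 2
      rw [pow_two, _root_.mul_inv_rev]
      simp only [mul_assoc]
    rw [h6, map_mul, map_mul] at h5
    have h7 : ρ u⁻¹ * ρ g = ρ u⁻¹ * ρ g * ρ u * ρ u⁻¹ := by rw [mul_assoc (ρ u⁻¹ * ρ g), hss, mul_one]
    calc T ^ 2 * ρ u⁻¹ * ρ g = T ^ 2 * (ρ u⁻¹ * ρ g) := mul_assoc _ _ _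
      _ = T ^ 2 * (ρ u⁻¹ * ρ g * ρ u * ρ u⁻¹) := by rw [← h7]
      _ = T ^ 2 * (ρ u⁻¹ * ρ g * ρ u) * ρ u⁻¹ := (mul_assoc _ _ _).symm
      _ = ρ g * (T ^ 2 * ρ u⁻¹) := by rw [h5, mul_assoc]
  obtain ⟨c, hc⟩ := scalar_of_comm hirr _ hcommT
  have hTT : T ^ 2 = c • ρ u := by
    have h7 : T ^ 2 = T ^ 2 * ρ u⁻¹ * ρ u := by rw [mul_assoc (T ^ 2), hss', mul_one]
    rw [h7, hc, smul_mul_assoc, one_mul]
  have hTw : Tw ρ (s : (AlgebraicClosure ℚ) ≃ₐ[ℚ] (AlgebraicClosure ℚ)) T c 2 :=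
    ⟨fun g hg => conj_mem_two h h2 s hg, sq_mem h h2 s, hint, hTT⟩
  -- over `L`
  set TL : Matrix (Fin 2) (Fin 2) L := T.map (algebraMap K L) with hTL
  set TL' : Matrix (Fin 2) (Fin 2) L := T'.map (algebraMap K L) with hTL'
  have e1 : TL * TL' = 1 := by rw [hTL, hTL', ← hmapmul, h1, hmapone]
  have e2 : TL' * TL = 1 := by rw [hTL, hTL', ← hmapmul, h1', hmapone]
  set U : Matrix (Fin 2) (Fin 2) L := B' * r s * B with hU
  have hUint : ∀ g : F.fixingSubgroup, U * r1 (cj2 h h2 s g) = r1 g * U := by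
    intro g
    have a1 : B * r1 (cj2 h h2 s g) = r2 (cj2 h h2 s g) * B := hB3 _
    have a2 : r s * r2 (cj2 h h2 s g) = r2 g * r s := by
      show r s * r (sub h (cj2 h h2 s g)) = r (sub h g) * r s
      rw [← map_mul, ← map_mul, sub_cj2]
    calc U * r1 (cj2 h h2 s g) = B' * r s * (B * r1 (cj2 h h2 s g)) := by rw [hU]; simp only [mul_assoc]
      _ = B' * (r s * r2 (cj2 h h2 s g)) * B := by rw [a1]; simp only [mul_assoc]
      _ = (B' * r2 g) * r s * B := by rw [a2]; simp only [mul_assoc]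
      _ = r1 g * U := by rw [hB4, hU]; simp only [mul_assoc]
  have hTint : ∀ g : F.fixingSubgroup, TL * r1 (cj2 h h2 s g) = r1 g * TL := by
    intro g
    show T.map (algebraMap K L) * (ρ (cj2 h h2 s g)).map (algebraMap K L) = (ρ g).map (algebraMap K L) * _
    rw [← hmapmul, hint, hmapmul]
  have hcomm : ∀ A ∈ Set.range r1, (U * TL') * A = A * (U * TL') := by
    rintro _ ⟨g, rfl⟩
    have b1 : TL' * r1 g = r1 (cj2 h h2 s g) * TL' := by
      calc TL' * r1 g = TL' * r1 g * (TL * TL') := by rw [e1, mul_one]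
        _ = TL' * (r1 g * TL) * TL' := by simp only [mul_assoc]
        _ = TL' * (TL * r1 (cj2 h h2 s g)) * TL' := by rw [hTint]
        _ = (TL' * TL) * r1 (cj2 h h2 s g) * TL' := by simp only [mul_assoc]
        _ = r1 (cj2 h h2 s g) * TL' := by rw [e2, one_mul]
    calc U * TL' * r1 g = U * (TL' * r1 g) := mul_assoc _ _ _
      _ = (U * r1 (cj2 h h2 s g)) * TL' := by rw [b1]; simp only [mul_assoc]
      _ = r1 g * (U * TL') := by rw [hUint]; simp only [mul_assoc]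
  obtain ⟨μ, hμ⟩ := scalar_of_comm hs1 _ hcomm
  have hUT : U = μ • TL := by
    calc U = U * (TL' * TL) := by rw [e2, mul_one]
      _ = (U * TL') * TL := (mul_assoc _ _ _).symm
      _ = μ • TL := by rw [hμ, smul_mul_assoc, one_mul]
  have hUU : U ^ 2 = r1 u := by
    have a4 : r s * r s = r2 u := by
      rw [← map_mul]
      show r (s * s) = r (sub h u)
      have hsu : s * s = sub h u :=
        Subtype.ext (pow_two (s : (AlgebraicClosure ℚ) ≃ₐ[ℚ] (AlgebraicClosure ℚ))).symm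
      rw [hsu]
    calc U ^ 2 = B' * r s * (B * B') * r s * B := by rw [pow_two, hU]; simp only [mul_assoc]
      _ = B' * (r s * r s) * B := by rw [hB1, mul_one]; simp only [mul_assoc]
      _ = r1 u := by rw [a4, hB4, mul_assoc, hB2, mul_one]
  have hTTL : TL ^ 2 = (algebraMap K L c) • r1 u := by
    rw [pow_two, hTL, ← hmapmul, ← pow_two, hTT]
    ext i j
    show algebraMap K L (c * ρ u i j) = algebraMap K L c * algebraMap K L (ρ u i j)
    rw [map_mul]
  have hunit : r1 u ≠ 0 := by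
    intro h0
    have : r1 u * r1 u⁻¹ = 1 := by rw [← map_mul, mul_inv_cancel, map_one]
    rw [h0, zero_mul] at this
    exact zero_ne_one this
  have hμ2 : μ ^ 2 * algebraMap K L c = 1 := by
    have h5 : (μ ^ 2 * algebraMap K L c) • r1 u = (1 : L) • r1 u := by
      rw [mul_smul, ← hTTL, one_smul, ← hUU, hUT, _root_.smul_pow]
    exact smul_left_injective L hunit h5
  refine ⟨T, c, μ, hTw, ?_, ?_, hUT, hμ2⟩
  · intro h0
    have h8 := congrArg Matrix.det h1
    rw [Matrix.det_mul, h0, zero_mul, Matrix.det_one] at h8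
    exact zero_ne_one h8
  · rintro rfl
    rw [zero_pow two_ne_zero, zero_mul] at hμ2
    exact zero_ne_one hμ2

/-- case (a) -/
theorem even_a (h : F₀ ≤ F) (h2 : F₀.relfinrank F = 2) (hirr : Submodule.span K (Set.range ρ) = ⊤)
    (htr : ∀ g : F.fixingSubgroup, (r (sub h g)).trace = algebraMap K L (ρ g).trace) (s : F₀.fixingSubgroup)
    (hK : (r s).trace ∉ Set.range (algebraMap K L)) : Even (selDim ρ (AlgebraicClosure ℚ) p) := by
  obtain ⟨P, P', hP1, hP2, -, hP⟩ := exists_tw2 h h2 hirr htr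
  obtain ⟨T, c, α, hT, hdet, hα, hs, hc⟩ := hP s
  have hT' : Tw ρ (s : (AlgebraicClosure ℚ) ≃ₐ[ℚ] (AlgebraicClosure ℚ)) T c (2 ^ 1) := hT
  refine hT'.even ?_
  rintro ⟨d, hd⟩
  rw [pow_one] at hd
  apply hK
  have htr1 : (r s).trace = α * algebraMap K L T.trace := by
    have h5 : (P' * r s * P).trace = (r s).trace := by
      rw [mul_assoc, Matrix.trace_mul_comm, mul_assoc, hP1, mul_one]
    rw [← h5, hs, Matrix.trace_smul, smul_eq_mul]
    congr 1
    exact (AddMonoidHom.map_trace (algebraMap K L) T).symm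
  have h6 : (α * algebraMap K L d) ^ 2 = 1 := by
    rw [mul_pow, ← map_pow, hd, hc]
  have hd0 : algebraMap K L d ≠ 0 := by
    intro h0
    rw [h0, mul_zero, zero_pow two_ne_zero] at h6
    exact zero_ne_one h6
  rcases sq_eq_sq_iff_eq_or_eq_neg.1 (h6.trans (one_pow 2).symm) with h7 | h7
  · refine ⟨d⁻¹ * T.trace, ?_⟩
    rw [htr1, map_mul, map_inv₀]
    have : α = (algebraMap K L d)⁻¹ := eq_inv_of_mul_eq_one_left h7
    rw [this]
  · refine ⟨-d⁻¹ * T.trace, ?_⟩
    rw [htr1, map_mul, map_neg, map_inv₀]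
    have : α = -(algebraMap K L d)⁻¹ := by
      field_simp
      exact h7
    rw [this]

end Pool.Agent.H44.TW
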