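import Pool.Agent.H44.TW.Split

/-!
# The Euler product of the base change
-/

set_option autoImplicit false

open NumberField Filter Topology

namespace Pool.Agent.H44.TW

section prep

variable {V W : Type}

private lemma spl_summable_inv {x : W → ℂ} (hx : Summable x) :
    Summable fun w => (1 + x w)⁻¹ - 1 := by
  have h0 : ∀ᶠ w in cofinite, ‖x w‖ < 1 / 2 := by
    have h1 := hx.norm.tendsto_cofinite_zero
    exact h1.eventually (gt_mem_nhds (by norm_num))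
  refine Summable.of_norm_bounded_eventually (hx.norm.mul_left 2) (h0.mono fun w hw => ?_)
  have h1 : 1 / 2 ≤ ‖1 + x w‖ := by
    have h2 : ‖(1 : ℂ)‖ ≤ ‖1 + x w‖ + ‖x w‖ := by
      have h3 := norm_sub_le (1 + x w) (x w)
      rwa [add_sub_cancel_right] at h3
    rw [norm_one] at h2
    linarith
  have h2 : 1 + x w ≠ 0 := by
    intro h3
    rw [h3, norm_zero] at h1
    norm_num at h1
  have h3 : (1 + x w)⁻¹ - 1 = -(x w) * (1 + x w)⁻¹ := by
    field_simp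
    ring
  rw [h3, norm_mul, norm_neg, norm_inv]
  have h4 : ‖1 + x w‖⁻¹ ≤ 2 := by
    have h5 := inv_anti₀ (by norm_num : (0 : ℝ) < 1 / 2) h1
    norm_num at h5
    exact h5
  calc ‖x w‖ * ‖1 + x w‖⁻¹ ≤ ‖x w‖ * 2 := mul_le_mul_of_nonneg_left h4 (norm_nonneg _)
    _ = 2 * ‖x w‖ := mul_comm _ _

private theorem spl_regroup (π : W → V) (hf : ∀ v, Finite {w // π w = v}) (x : W → ℂ)
    (hx : Summable x) (G : V → ℂ) {Λ : ℂ} (hG : HasProd G Λ)
    (h1 : ∀ v, ∀ _ : Fintype {w // π w = v}, ∏ w : {w // π w = v}, (1 + x w)⁻¹ = G v) :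
    HasProd (fun w => (1 + x w)⁻¹) Λ := by
  have hP := (Complex.multipliable_one_add_of_summable (spl_summable_inv hx)).hasProd
  have he : (fun w => 1 + ((1 + x w)⁻¹ - 1)) = fun w => (1 + x w)⁻¹ := by
    funext w
    ring
  rw [he] at hP
  set P := ∏' w, (1 + x w)⁻¹ with hPdef
  have hF : ∀ v, Fintype {w // π w = v} := fun v => @Fintype.ofFinite _ (hf v)
  have h2 : HasProd (fun z : Σ v : V, {w // π w = v} => (1 + x z.2)⁻¹) P :=
    (Equiv.hasProd_iff (Equiv.sigmaFiberEquiv π) (f := fun w => (1 + x w)⁻¹) (a := P)).2 hP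
  have h4 := h2.sigma (g := fun v => ∏ w : {w // π w = v}, (1 + x w)⁻¹)
    fun v => hasProd_fintype _
  have h5 : (fun v => ∏ w : {w // π w = v}, (1 + x w)⁻¹) = G := funext fun v => h1 v (hF v)
  rw [h5] at h4
  rw [← h4.unique hG]
  exact hP

private theorem spl_summable_fib (π : W → V) (n : ℕ) (hf : ∀ v, Finite {w // π w = v})
    (hn : ∀ v, Nat.card {w // π w = v} ≤ n) (x : W → ℂ) (c : V → ℝ) (hc : Summable c)
    (hx : ∀ w, ‖x w‖ ≤ c (π w)) : Summable x := by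
  rw [← summable_norm_iff]
  have hF : ∀ v, Fintype {w // π w = v} := fun v => @Fintype.ofFinite _ (hf v)
  have h1 : Summable (fun z : Σ v : V, {w // π w = v} => ‖x z.2‖) := by
    rw [summable_sigma_of_nonneg fun _ => norm_nonneg _]
    refine ⟨fun v => (hasSum_fintype _).summable, ?_⟩
    refine Summable.of_nonneg_of_le (fun v => tsum_nonneg fun _ => norm_nonneg _) (fun v => ?_)
      ((hc.abs).mul_left (n : ℝ))
    rw [tsum_fintype]
    have h2 : ∀ w : {w // π w = v}, ‖x w‖ ≤ |c v| := by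
      rintro ⟨w, rfl⟩
      exact (hx w).trans (le_abs_self _)
    refine (Finset.sum_le_card_nsmul _ _ _ fun w _ => h2 w).trans ?_
    rw [nsmul_eq_mul]
    refine mul_le_mul_of_nonneg_right ?_ (abs_nonneg _)
    rw [Finset.card_univ, ← Nat.card_eq_fintype_card]
    exact_mod_cast hn v
  exact (Equiv.summable_iff (Equiv.sigmaFiberEquiv π) (f := fun w => ‖x w‖)).1 h1

private lemma spl_summable_sq {A : V → ℝ} (hA : Summable A) (h0 : ∀ v, 0 ≤ A v) :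
    Summable fun v => A v ^ 2 := by
  have h1 : ∀ᶠ v in cofinite, A v < 1 :=
    hA.tendsto_cofinite_zero.eventually (gt_mem_nhds (by norm_num))
  refine Summable.of_norm_bounded_eventually hA (h1.mono fun v hv => ?_)
  rw [Real.norm_of_nonneg (sq_nonneg _)]
  have := h0 v
  nlinarith

end prep

variable {F M : Type} [Field F] [NumberField F] [Field M] [NumberField M] [Algebra F M]

/-- the prime below -/
private def spl_pi (bad : Ideal (𝓞 F)) (w : GoodM (algebraMap (𝓞 F) (𝓞 M)) bad) : Good bad :=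
  ⟨w.1.comap (algebraMap (𝓞 F) (𝓞 M)), by
    have := w.2.1
    infer_instance, fun h => w.2.2.1 (Ideal.eq_bot_of_comap_eq_bot h), w.2.2.2⟩

private theorem spl_fibre (h2 : Module.finrank F M = 2) {bad : Ideal (𝓞 F)}
    (hunr : ∀ w : Ideal (𝓞 M), w.IsPrime → w ≠ ⊥ → ¬ bad ≤ w.comap (algebraMap (𝓞 F) (𝓞 M)) →
      ¬ (w.comap (algebraMap (𝓞 F) (𝓞 M))).map (algebraMap (𝓞 F) (𝓞 M)) ≤ w ^ 2)
    (v : Good bad) :
    (Splits (algebraMap (𝓞 F) (𝓞 M)) v.1 ∧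
      ∃ a b : {w : GoodM (algebraMap (𝓞 F) (𝓞 M)) bad // spl_pi bad w = v}, a ≠ b ∧
        (∀ z, z = a ∨ z = b) ∧ Ideal.absNorm a.1.1 = Ideal.absNorm v.1 ∧
          Ideal.absNorm b.1.1 = Ideal.absNorm v.1) ∨
    (¬ Splits (algebraMap (𝓞 F) (𝓞 M)) v.1 ∧
      ∃ a : {w : GoodM (algebraMap (𝓞 F) (𝓞 M)) bad // spl_pi bad w = v}, (∀ z, z = a) ∧
        Ideal.absNorm a.1.1 = Ideal.absNorm v.1 ^ 2) := by
  obtain ⟨v, hv, h0, hb⟩ := v
  have hne : ∀ w : Ideal (𝓞 M), w.comap (algebraMap (𝓞 F) (𝓞 M)) = v → w ≠ ⊥ := by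
    rintro w hw rfl
    apply h0
    rw [← hw]
    exact Ideal.comap_bot_of_injective _ (FaithfulSMul.algebraMap_injective (𝓞 F) (𝓞 M))
  have hmk : ∀ w : Ideal (𝓞 M), w.IsPrime ∧ w.comap (algebraMap (𝓞 F) (𝓞 M)) = v →
      ∃ a : {w : GoodM (algebraMap (𝓞 F) (𝓞 M)) bad // spl_pi bad w = ⟨v, hv, h0, hb⟩},
        a.1.1 = w := by
    rintro w ⟨h3, h4⟩
    exact ⟨⟨⟨w, h3, hne w h4, by rw [h4]; exact hb⟩, Subtype.ext h4⟩, rfl⟩
  have hq : Ideal.absNorm v ≠ Ideal.absNorm v ^ 2 := by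
    have h3 : Ideal.absNorm v ≠ 1 := fun h => hv.ne_top (Ideal.absNorm_eq_one_iff.1 h)
    have h4 : Ideal.absNorm v ≠ 0 := fun h => h0 (Ideal.absNorm_eq_zero_iff.1 h)
    intro h5
    rw [sq] at h5
    have h6 : Ideal.absNorm v * 1 = Ideal.absNorm v * Ideal.absNorm v := by rw [mul_one]; exact h5
    exact h3 (Nat.eq_of_mul_eq_mul_left (Nat.pos_of_ne_zero h4) h6).symm
  rcases split_law h2 hv h0 (fun w hw hwv => by
    have h3 := hunr w hw (hne w hwv) (by rw [hwv]; exact hb)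
    rwa [hwv] at h3) with ⟨w, w', hww, hw1, hw2, hw⟩ | ⟨w, hw1, hw⟩
  · left
    obtain ⟨a, ha⟩ := hmk w ((hw w).2 (Or.inl rfl))
    obtain ⟨b, hb'⟩ := hmk w' ((hw w').2 (Or.inr rfl))
    refine ⟨⟨w, ((hw w).2 (Or.inl rfl)).1, ((hw w).2 (Or.inl rfl)).2, hw1⟩, a, b, ?_, ?_, ?_, ?_⟩
    · rintro rfl
      exact hww (ha.symm.trans hb')
    · intro z
      have h3 : z.1.1.comap (algebraMap (𝓞 F) (𝓞 M)) = v := congrArg Subtype.val z.2
      rcases (hw z.1.1).1 ⟨z.1.2.1, h3⟩ with h4 | h4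
      · left
        exact Subtype.ext (Subtype.ext (h4.trans ha.symm))
      · right
        exact Subtype.ext (Subtype.ext (h4.trans hb'.symm))
    · rw [ha]
      exact hw1
    · rw [hb']
      exact hw2
  · right
    obtain ⟨a, ha⟩ := hmk w ((hw w).2 rfl)
    refine ⟨?_, a, ?_, ?_⟩
    · rintro ⟨u, hu1, hu2, hu3⟩
      have h3 := (hw u).1 ⟨hu1, hu2⟩
      rw [h3, hw1] at hu3
      exact hq hu3.symm
    · intro z
      have h3 : z.1.1.comap (algebraMap (𝓞 F) (𝓞 M)) = v := congrArg Subtype.val z.2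
      exact Subtype.ext (Subtype.ext (((hw z.1.1).1 ⟨z.1.2.1, h3⟩).trans ha.symm))
    · rw [ha]
      exact hw1

/-- the local factors -/
private theorem spl_local (h2 : Module.finrank F M = 2) {bad : Ideal (𝓞 F)}
    (hunr : ∀ w : Ideal (𝓞 M), w.IsPrime → w ≠ ⊥ → ¬ bad ≤ w.comap (algebraMap (𝓞 F) (𝓞 M)) →
      ¬ (w.comap (algebraMap (𝓞 F) (𝓞 M))).map (algebraMap (𝓞 F) (𝓞 M)) ≤ w ^ 2)
    {C C' : Ideal (𝓞 F) → ℂ}
    (htw : ∀ v : Good bad, C' v.1 = (chi (algebraMap (𝓞 F) (𝓞 M)) v.1 : ℂ) * C v.1) (s : ℂ)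
    (x : GoodM (algebraMap (𝓞 F) (𝓞 M)) bad → ℂ)
    (hx : ∀ w, x w = -(tBC (algebraMap (𝓞 F) (𝓞 M)) C w.1 * (Ideal.absNorm w.1 : ℂ) ^ (-1 - s)) +
        (Ideal.absNorm w.1 : ℂ) ^ (-1 - 2 * s))
    (v : Good bad) :
    (∀ _ : Fintype {w : GoodM (algebraMap (𝓞 F) (𝓞 M)) bad // spl_pi bad w = v},
      ∏ w : {w : GoodM (algebraMap (𝓞 F) (𝓞 M)) bad // spl_pi bad w = v}, (1 + x w)⁻¹ =
        (1 - C v.1 * (Ideal.absNorm v.1 : ℂ) ^ (-1 - s) +
          (Ideal.absNorm v.1 : ℂ) ^ (-1 - 2 * s))⁻¹ *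
        (1 - C' v.1 * (Ideal.absNorm v.1 : ℂ) ^ (-1 - s) +
          (Ideal.absNorm v.1 : ℂ) ^ (-1 - 2 * s))⁻¹) ∧
    (∀ w : GoodM (algebraMap (𝓞 F) (𝓞 M)) bad, spl_pi bad w = v →
      ‖x w‖ ≤ ‖C v.1 * (Ideal.absNorm v.1 : ℂ) ^ (-1 - s)‖ +
        ‖C v.1 * (Ideal.absNorm v.1 : ℂ) ^ (-1 - s)‖ ^ 2 +
        2 * ‖(Ideal.absNorm v.1 : ℂ) ^ (-1 - 2 * s)‖ +
        ‖(Ideal.absNorm v.1 : ℂ) ^ (-1 - 2 * s)‖ ^ 2) ∧
    Finite {w : GoodM (algebraMap (𝓞 F) (𝓞 M)) bad // spl_pi bad w = v} ∧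
    Nat.card {w : GoodM (algebraMap (𝓞 F) (𝓞 M)) bad // spl_pi bad w = v} ≤ 2 := by
  classical
  have hv0 : Ideal.absNorm v.1 ≠ 0 := fun h => v.2.2.1 (Ideal.absNorm_eq_zero_iff.1 h)
  have hv1 : Ideal.absNorm v.1 ≠ 1 := fun h => v.2.1.ne_top (Ideal.absNorm_eq_one_iff.1 h)
  obtain ⟨q, hq⟩ : ∃ q, q = Ideal.absNorm v.1 := ⟨_, rfl⟩
  obtain ⟨u, hu⟩ : ∃ u : ℂ, u = (q : ℂ) ^ (-1 - s) := ⟨_, rfl⟩
  obtain ⟨u2, hu2⟩ : ∃ u2 : ℂ, u2 = (q : ℂ) ^ (-1 - 2 * s) := ⟨_, rfl⟩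
  have hq0 : (q : ℂ) ≠ 0 := by
    rw [hq]
    exact_mod_cast hv0
  have hpow : ∀ z : ℂ, ((q ^ 2 : ℕ) : ℂ) ^ z = ((q : ℂ) ^ z) ^ 2 := by
    intro z
    rw [sq, sq, Nat.cast_mul, Complex.natCast_mul_natCast_cpow]
  have hrel : (q : ℂ) * u ^ 2 = u2 := by
    have h3 : (-1 - 2 * s : ℂ) = 1 + (-1 - s) + (-1 - s) := by ring
    rw [hu2, h3, Complex.cpow_add _ _ hq0, Complex.cpow_add _ _ hq0, Complex.cpow_one, hu]
    ring
  have hcomap : ∀ w : GoodM (algebraMap (𝓞 F) (𝓞 M)) bad, spl_pi bad w = v →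
      w.1.comap (algebraMap (𝓞 F) (𝓞 M)) = v.1 := fun w hw => congrArg Subtype.val hw
  -- the values of `x`
  have hx1 : ∀ w : GoodM (algebraMap (𝓞 F) (𝓞 M)) bad, spl_pi bad w = v →
      Ideal.absNorm w.1 = q → x w = -(C v.1 * u) + u2 := by
    intro w hw hN
    rw [hx, tBC, hcomap w hw, if_pos (by rw [hN, hq]), hN, ← hu, ← hu2]
  have hx2 : ∀ w : GoodM (algebraMap (𝓞 F) (𝓞 M)) bad, spl_pi bad w = v →
      Ideal.absNorm w.1 = q ^ 2 → x w = -(C v.1 * u) ^ 2 + 2 * u2 + u2 ^ 2 := by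
    intro w hw hN
    have hne : ¬ Ideal.absNorm w.1 = Ideal.absNorm v.1 := by
      rw [hN, ← hq]
      intro h5
      rw [← hq] at hv0 hv1
      have h6 : q * q = q * 1 := by rw [mul_one, ← sq]; exact h5
      exact hv1 (Nat.eq_of_mul_eq_mul_left (Nat.pos_of_ne_zero hv0) h6)
    rw [hx, tBC, hcomap w hw, if_neg hne, hN, hpow, hpow, ← hu, ← hu2, ← hq, ← hrel]
    ring
  obtain ⟨A, hA⟩ : ∃ A : ℝ, A = ‖C v.1 * u‖ := ⟨_, rfl⟩
  obtain ⟨B, hB⟩ : ∃ B : ℝ, B = ‖u2‖ := ⟨_, rfl⟩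
  have hA0 : 0 ≤ A := hA ▸ norm_nonneg _
  have hB0 : 0 ≤ B := hB ▸ norm_nonneg _
  rw [← hq, ← hu, ← hu2, htw v, ← hA, ← hB]
  rcases spl_fibre h2 hunr v with ⟨hs, a, b, hab, hall, ha, hb⟩ | ⟨hs, a, hall, ha⟩
  · rw [← hq] at ha hb
    have hchi : (chi (algebraMap (𝓞 F) (𝓞 M)) v.1 : ℂ) = 1 := by
      rw [chi, if_pos hs, Int.cast_one]
    rw [hchi, one_mul]
    refine ⟨?_, ?_, ?_, ?_⟩
    · intro inst
      have huniv : (Finset.univ :
          Finset {w : GoodM (algebraMap (𝓞 F) (𝓞 M)) bad // spl_pi bad w = v}) = {a, b} := by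
        ext z
        simp only [Finset.mem_univ, Finset.mem_insert, Finset.mem_singleton, true_iff]
        exact hall z
      rw [huniv, Finset.prod_pair hab, hx1 _ a.2 ha, hx1 _ b.2 hb]
      congr 2 <;> ring
    · intro w hw
      have h3 : x w = -(C v.1 * u) + u2 := by
        rcases hall ⟨w, hw⟩ with h4 | h4
        · exact hx1 w hw (by rw [← ha, ← h4])
        · exact hx1 w hw (by rw [← hb, ← h4])
      rw [h3]
      refine (norm_add_le _ _).trans ?_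
      rw [norm_neg, ← hA, ← hB]
      nlinarith [sq_nonneg A, sq_nonneg B]
    · exact Finite.of_surjective (fun i : Bool => if i then a else b) fun z => by
        rcases hall z with h4 | h4
        · exact ⟨true, by rw [h4]; rfl⟩
        · exact ⟨false, by rw [h4]; rfl⟩
    · have h3 : Function.Surjective (fun i : Bool => if i then a else b) := fun z => by
        rcases hall z with h4 | h4
        · exact ⟨true, by rw [h4]; rfl⟩
        · exact ⟨false, by rw [h4]; rfl⟩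
      have h5 := Nat.card_le_card_of_surjective _ h3
      simpa using h5
  · rw [← hq] at ha
    have hchi : (chi (algebraMap (𝓞 F) (𝓞 M)) v.1 : ℂ) = -1 := by
      rw [chi, if_neg hs]
      norm_num
    rw [hchi]
    refine ⟨?_, ?_, ?_, ?_⟩
    · intro inst
      have huniv : (Finset.univ :
          Finset {w : GoodM (algebraMap (𝓞 F) (𝓞 M)) bad // spl_pi bad w = v}) = {a} := by
        ext z
        simp only [Finset.mem_univ, Finset.mem_singleton, true_iff]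
        exact hall z
      rw [huniv, Finset.prod_singleton, hx2 _ a.2 ha, ← mul_inv]
      congr 1
      ring
    · intro w hw
      have h3 : x w = -(C v.1 * u) ^ 2 + 2 * u2 + u2 ^ 2 :=
        hx2 w hw (by rw [← ha, ← hall ⟨w, hw⟩])
      rw [h3]
      refine (norm_add_le _ _).trans ((add_le_add_left (norm_add_le _ _) _).trans ?_)
      have h5 : ‖(2 : ℂ) * u2‖ = 2 * B := by
        rw [norm_mul, hB]
        norm_num
      rw [norm_neg, norm_pow, norm_pow, h5, ← hA, ← hB]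
      linarith
    · exact Finite.of_surjective (fun _ : Unit => a) fun z => ⟨(), (hall z).symm⟩
    · have h3 : Function.Surjective (fun _ : Unit => a) := fun z => ⟨(), (hall z).symm⟩
      have h5 := Nat.card_le_card_of_surjective _ h3
      have h6 : Nat.card Unit = 1 := Nat.card_unique
      omega

/-- the Euler product of the base change -/
theorem hasProd_bc (h2 : Module.finrank F M = 2) {bad : Ideal (𝓞 F)}
    (hunr : ∀ w : Ideal (𝓞 M), w.IsPrime → w ≠ ⊥ → ¬ bad ≤ w.comap (algebraMap (𝓞 F) (𝓞 M)) →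
      ¬ (w.comap (algebraMap (𝓞 F) (𝓞 M))).map (algebraMap (𝓞 F) (𝓞 M)) ≤ w ^ 2)
    {C C' : Ideal (𝓞 F) → ℂ}
    (htw : ∀ v : Good bad, C' v.1 = (chi (algebraMap (𝓞 F) (𝓞 M)) v.1 : ℂ) * C v.1) {s : ℂ} (hs : 1 < s.re)
    (hsum : Summable fun v : Good bad => ‖C v.1 * (Ideal.absNorm v.1 : ℂ) ^ (-1 - s)‖) {E E' : ℂ}
    (hE : HasProd (fun v : Good bad => (1 - C v.1 * (Ideal.absNorm v.1 : ℂ) ^ (-1 - s) +
        (Ideal.absNorm v.1 : ℂ) ^ (-1 - 2 * s))⁻¹) E)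
    (hE' : HasProd (fun v : Good bad => (1 - C' v.1 * (Ideal.absNorm v.1 : ℂ) ^ (-1 - s) +
        (Ideal.absNorm v.1 : ℂ) ^ (-1 - 2 * s))⁻¹) E') :
    HasProd (fun w : GoodM (algebraMap (𝓞 F) (𝓞 M)) bad =>
      (1 - tBC (algebraMap (𝓞 F) (𝓞 M)) C w.1 * (Ideal.absNorm w.1 : ℂ) ^ (-1 - s) +
        (Ideal.absNorm w.1 : ℂ) ^ (-1 - 2 * s))⁻¹) (E * E') := by
  obtain ⟨x, hx⟩ : ∃ x : GoodM (algebraMap (𝓞 F) (𝓞 M)) bad → ℂ, ∀ w, x w =
      -(tBC (algebraMap (𝓞 F) (𝓞 M)) C w.1 * (Ideal.absNorm w.1 : ℂ) ^ (-1 - s)) +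
        (Ideal.absNorm w.1 : ℂ) ^ (-1 - 2 * s) := ⟨_, fun _ => rfl⟩
  have hloc := spl_local h2 hunr htw s x hx
  -- summability
  have hB : Summable fun v : Good bad => ‖(Ideal.absNorm v.1 : ℂ) ^ (-1 - 2 * s)‖ := by
    have h3 := (Pool.Agent.H24.FD.summable_nrm F (s := 1 + 2 * s.re) (by linarith)).comp_injective
      (i := fun v : Good bad => v.1) Subtype.val_injective
    refine h3.congr fun v => ?_
    have hv0 : Ideal.absNorm v.1 ≠ 0 := fun h => v.2.2.1 (Ideal.absNorm_eq_zero_iff.1 h)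
    rw [Complex.norm_natCast_cpow_of_pos (Nat.pos_of_ne_zero hv0)]
    change ((Ideal.absNorm v.1 : ℕ) : ℝ) ^ (-(1 + 2 * s.re)) = _
    congr 1
    simp
    ring
  have hc := ((hsum.add (spl_summable_sq hsum fun _ => norm_nonneg _)).add (hB.mul_left 2)).add
    (spl_summable_sq hB fun _ => norm_nonneg _)
  have hsx : Summable x := spl_summable_fib (spl_pi bad) 2 (fun v => (hloc v).2.2.1)
    (fun v => (hloc v).2.2.2) x _ hc fun w => (hloc (spl_pi bad w)).2.1 w rfl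
  have hfin := spl_regroup (spl_pi bad) (fun v => (hloc v).2.2.1) x hsx _ (hE.mul hE')
    fun v => (hloc v).1
  refine hfin.congr_fun ?_ |> id
  intro w
  rw [hx]
  congr 1
  ring

end Pool.Agent.H44.TW
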