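import Pool.Agent.H44.TW.Par
import Pool.Agent.H44.TW.SplitP

/-!
# The L-function of the base change
-/

set_option autoImplicit false

open NumberField

namespace Pool.Agent.H44.TW

variable {F M : Type} [Field F] [NumberField F] [IsTotallyReal F] [Field M] [NumberField M] [Algebra F M]

theorem l_main (h2 : Module.finrank F M = 2) {k : (F →+* ℝ) → ℕ} (hk : ∀ σ, Even (k σ) ∧ 0 < k σ)
    {n n' : Ideal (𝓞 F)} (hn : n ≠ ⊥) (hn' : n' ≠ ⊥) {w : ℂ} {bad : Ideal (𝓞 F)} (hbad : bad ≠ ⊥)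
    (hunr : ∀ w : Ideal (𝓞 M), w.IsPrime → w ≠ ⊥ → ¬ bad ≤ w.comap (algebraMap (𝓞 F) (𝓞 M)) →
      ¬ (w.comap (algebraMap (𝓞 F) (𝓞 M))).map (algebraMap (𝓞 F) (𝓞 M)) ≤ w ^ 2)
    {C C' : Ideal (𝓞 F) → ℂ} (h : HNew k n w bad C) (h' : HNew k n' w bad C')
    (htw : ∀ v : Good bad, C' v.1 = (chi (algebraMap (𝓞 F) (𝓞 M)) v.1 : ℂ) * C v.1) :
    ∃ Λ : ℂ → ℂ, Differentiable ℂ Λ ∧
      (∀ s : ℂ, 1 < s.re → HasProd (fun w : GoodM (algebraMap (𝓞 F) (𝓞 M)) bad =>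
        (1 - tBC (algebraMap (𝓞 F) (𝓞 M)) C w.1 * (Ideal.absNorm w.1 : ℂ) ^ (-1 - s) +
          (Ideal.absNorm w.1 : ℂ) ^ (-1 - 2 * s))⁻¹) (Λ s)) ∧
      ∃ m : ℕ, analyticOrderAt Λ 0 = ((2 * m : ℕ) : ℕ∞) := by
  obtain ⟨E, hE, hP, m, hm, hs⟩ := exists_good hk hn hbad h
  obtain ⟨E', hE', hP', m', hm', hs'⟩ := exists_good hk hn' hbad h'
  refine ⟨fun s => E s * E' s, hE.mul hE', fun s hs1 => ?_, ?_⟩
  · exact hasProd_bc h2 hunr htw hs1 (summable_good hk h hs1) (hP s hs1) (hP' s hs1)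
  · have h1 : analyticOrderAt (fun s => E s * E' s) 0 = ((m + m' : ℕ) : ℕ∞) := by
      have h2 := analyticOrderAt_mul (hE.analyticAt 0) (hE'.analyticAt 0)
      rw [hm, hm'] at h2
      rw [Nat.cast_add]
      exact h2
    have h3 : Even (m + m') := by
      have h4 : (-1 : ℂ) ^ (m + m') = (-1) ^ (m + m) := by rw [pow_add, pow_add, hs', ← hs]
      have h5 : (-1 : ℂ) ^ (m + m) = 1 := by rw [← two_mul, pow_mul]; norm_num
      rw [h5] at h4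
      by_contra hodd
      rw [Nat.not_even_iff_odd] at hodd
      rw [hodd.neg_one_pow] at h4
      norm_num at h4
    obtain ⟨r, hr⟩ := h3
    exact ⟨r, by rw [h1, hr, two_mul]⟩

end Pool.Agent.H44.TW
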