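import Pool.Agent.H44.TW.Units

/-!
# The Mellin transform over a domain near the diagonal
-/

set_option autoImplicit false

open NumberField MeasureTheory

namespace Pool.Agent.H44.TW

section general

variable {ι : Type} [Fintype ι] [Nonempty ι]

/-- `∫_D G(x) exp(s ∑ x_i) dx` -/
noncomputable def Mel (D : Set (ι → ℝ)) (G : (ι → ℝ) → ℂ) (s : ℂ) : ℂ :=
  ∫ x in D, G x * Complex.exp (s * ((∑ i, x i : ℝ) : ℂ))

/-- `G` decays rapidly along a set `D` at bounded distance from the diagonal -/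
structure Rapid (D : Set (ι → ℝ)) (G : (ι → ℝ) → ℂ) : Prop where
  meas : MeasurableSet D
  cont : Continuous G
  near : ∃ R : ℝ, ∀ x ∈ D, ∀ i, |x i - (∑ j, x j) / Fintype.card ι| ≤ R
  bound : ∃ A c : ℝ, 0 < A ∧ 0 < c ∧ ∀ x ∈ D, ‖G x‖ ≤ A * Real.exp (-c * Real.exp (|∑ j, x j| / Fintype.card ι))

private theorem melgen_exponent {c d σ R u : ℝ} (hc : 0 < c) (hu : 0 ≤ u) :
    -c * Real.exp u + d * u + σ * (d * u) + (|R| + u) * (d + 1) ≤
      (d + σ * d + (d + 1)) ^ 2 / (2 * c) + (d + 1) * |R| := by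
  have h1 := Real.quadratic_le_exp_of_nonneg hu
  have h2 : c * (u ^ 2 / 2) ≤ c * Real.exp u := by
    apply mul_le_mul_of_nonneg_left _ hc.le
    linarith
  have h3 : (d + σ * d + (d + 1)) ^ 2 / (2 * c) + c * (u ^ 2 / 2) - (d + σ * d + (d + 1)) * u =
      ((d + σ * d + (d + 1)) - c * u) ^ 2 / (2 * c) := by
    field_simp
    ring
  have h4 : 0 ≤ ((d + σ * d + (d + 1)) - c * u) ^ 2 / (2 * c) := by positivity
  nlinarith [h2, h3, h4]

private theorem Rapid.key {D : Set (ι → ℝ)} {G : (ι → ℝ) → ℂ} (h : Rapid D G) (σ : ℝ) :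
    ∃ B : ℝ, ∀ x ∈ D, ‖G x‖ * ((1 + |∑ j, x j|) * Real.exp (σ * |∑ j, x j|)) ≤
      B * (1 + ‖x‖) ^ (-((Fintype.card ι : ℝ) + 1)) := by
  obtain ⟨R, hR⟩ := h.near
  obtain ⟨A, c, hA, hc, hB⟩ := h.bound
  have hd : (0 : ℝ) < Fintype.card ι := by exact_mod_cast Fintype.card_pos
  set d : ℝ := (Fintype.card ι : ℝ) with hdd
  refine ⟨A * Real.exp ((d + σ * d + (d + 1)) ^ 2 / (2 * c) + (d + 1) * |R|), fun x hx => ?_⟩
  set S : ℝ := ∑ j, x j with hS
  set u : ℝ := |S| / d with hu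
  have hu0 : 0 ≤ u := by positivity
  have hSu : |S| = d * u := by
    rw [hu]
    field_simp
  have hx1 : ‖x‖ ≤ |R| + u := by
    rw [pi_norm_le_iff_of_nonneg (by positivity)]
    intro i
    have h1 := hR x hx i
    have h2 : x i = (x i - S / d) + S / d := by ring
    rw [Real.norm_eq_abs, h2]
    refine (abs_add_le _ _).trans ?_
    have h3 : |S / d| = u := by rw [abs_div, abs_of_pos hd]
    rw [h3]
    have h4 : |x i - S / d| ≤ |R| := h1.trans (le_abs_self R)
    linarith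
  have hpos : 0 < 1 + ‖x‖ := by positivity
  rw [Real.rpow_neg hpos.le, ← div_eq_mul_inv, le_div_iff₀ (Real.rpow_pos_of_pos hpos _)]
  have h1 : (1 + ‖x‖) ^ (d + 1) ≤ Real.exp ((|R| + u) * (d + 1)) := by
    rw [Real.exp_mul]
    apply Real.rpow_le_rpow hpos.le _ (by positivity)
    have := Real.add_one_le_exp ‖x‖
    have h2 : Real.exp ‖x‖ ≤ Real.exp (|R| + u) := Real.exp_le_exp.2 hx1
    linarith
  have h2 : 1 + |S| ≤ Real.exp (d * u) := by
    have := Real.add_one_le_exp |S|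
    rw [hSu] at this ⊢
    linarith
  have h3 := hB x hx
  calc ‖G x‖ * ((1 + |S|) * Real.exp (σ * |S|)) * (1 + ‖x‖) ^ (d + 1)
      ≤ A * Real.exp (-c * Real.exp u) * (Real.exp (d * u) * Real.exp (σ * (d * u))) *
          Real.exp ((|R| + u) * (d + 1)) := by
        rw [hSu] at h2 ⊢
        gcongr
    _ = A * Real.exp (-c * Real.exp u + d * u + σ * (d * u) + (|R| + u) * (d + 1)) := by
        rw [Real.exp_add, Real.exp_add, Real.exp_add]
        ring
    _ ≤ A * Real.exp ((d + σ * d + (d + 1)) ^ 2 / (2 * c) + (d + 1) * |R|) := by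
        apply mul_le_mul_of_nonneg_left _ hA.le
        exact Real.exp_le_exp.2 (melgen_exponent hc hu0)

omit [Nonempty ι] in
private theorem integrable_bound (D : Set (ι → ℝ)) (B : ℝ) :
    Integrable (fun x : ι → ℝ => B * (1 + ‖x‖) ^ (-((Fintype.card ι : ℝ) + 1))) (volume.restrict D) := by
  apply Integrable.const_mul
  apply Integrable.restrict
  apply integrable_one_add_norm
  rw [Module.finrank_pi]
  linarith

private theorem norm_exp_le (s : ℂ) (S : ℝ) {σ : ℝ} (h : |s.re| ≤ σ) :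
    ‖Complex.exp (s * (S : ℂ))‖ ≤ Real.exp (σ * |S|) := by
  rw [Complex.norm_exp]
  apply Real.exp_le_exp.2
  rw [Complex.re_mul_ofReal]
  calc s.re * S ≤ |s.re * S| := le_abs_self _
    _ = |s.re| * |S| := abs_mul _ _
    _ ≤ σ * |S| := mul_le_mul_of_nonneg_right h (abs_nonneg _)

omit [Nonempty ι] in
private theorem continuous_integrand {G : (ι → ℝ) → ℂ} (hG : Continuous G) (s : ℂ) :
    Continuous fun x : ι → ℝ => G x * Complex.exp (s * ((∑ i, x i : ℝ) : ℂ)) := by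
  fun_prop

theorem Rapid.integrable {D : Set (ι → ℝ)} {G : (ι → ℝ) → ℂ} (h : Rapid D G) (s : ℂ) :
    IntegrableOn (fun x => G x * Complex.exp (s * ((∑ i, x i : ℝ) : ℂ))) D := by
  obtain ⟨B, hB⟩ := h.key |s.re|
  refine Integrable.mono' (integrable_bound D B)
    (continuous_integrand h.cont s).aestronglyMeasurable ?_
  refine (ae_restrict_iff' h.meas).2 (Filter.Eventually.of_forall fun x hx => ?_)
  refine le_trans ?_ (hB x hx)
  rw [norm_mul]
  apply mul_le_mul_of_nonneg_left _ (norm_nonneg _)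
  have h1 := norm_exp_le s (∑ i, x i) (le_refl |s.re|)
  have h2 : 0 ≤ |∑ i, x i| * Real.exp (|s.re| * |∑ i, x i|) := by positivity
  linarith

theorem Rapid.differentiable {D : Set (ι → ℝ)} {G : (ι → ℝ) → ℂ} (h : Rapid D G) : Differentiable ℂ (Mel D G) := by
  intro s₀
  obtain ⟨B, hB⟩ := h.key (|s₀.re| + 1)
  have key := hasDerivAt_integral_of_dominated_loc_of_deriv_le (μ := volume.restrict D) (x₀ := s₀)
    (s := Metric.ball s₀ 1)
    (F := fun s x => G x * Complex.exp (s * ((∑ i, x i : ℝ) : ℂ)))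
    (F' := fun s x => G x * (Complex.exp (s * ((∑ i, x i : ℝ) : ℂ)) * ((∑ i, x i : ℝ) : ℂ)))
    (bound := fun x => B * (1 + ‖x‖) ^ (-((Fintype.card ι : ℝ) + 1)))
    (Metric.ball_mem_nhds s₀ one_pos)
    (Filter.Eventually.of_forall fun s => (continuous_integrand h.cont s).aestronglyMeasurable)
    (h.integrable s₀) ?_ ?_ (integrable_bound D B) ?_
  · exact key.2.differentiableAt
  · apply Continuous.aestronglyMeasurable
    have := h.cont
    fun_prop
  · refine (ae_restrict_iff' h.meas).2 (Filter.Eventually.of_forall fun x hx s hs => ?_)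
    refine le_trans ?_ (hB x hx)
    rw [norm_mul, norm_mul]
    apply mul_le_mul_of_nonneg_left _ (norm_nonneg _)
    have hs1 : |s.re| ≤ |s₀.re| + 1 := by
      have h1 : |(s - s₀).re| ≤ ‖s - s₀‖ := Complex.abs_re_le_norm _
      have h2 : ‖s - s₀‖ < 1 := by
        rw [← dist_eq_norm]
        exact hs
      rw [Complex.sub_re] at h1
      have h3 : |s.re| ≤ |s.re - s₀.re| + |s₀.re| := by
        have := abs_add_le (s.re - s₀.re) s₀.re
        rwa [sub_add_cancel] at this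
      linarith
    have h1 := norm_exp_le s (∑ i, x i) hs1
    rw [Complex.norm_real, Real.norm_eq_abs, mul_comm]
    have h2 : 0 ≤ |∑ i, x i| := abs_nonneg _
    have h3 : 0 < Real.exp ((|s₀.re| + 1) * |∑ i, x i|) := Real.exp_pos _
    calc |∑ i, x i| * ‖Complex.exp (s * ((∑ i, x i : ℝ) : ℂ))‖
        ≤ |∑ i, x i| * Real.exp ((|s₀.re| + 1) * |∑ i, x i|) := mul_le_mul_of_nonneg_left h1 h2
      _ ≤ (1 + |∑ i, x i|) * Real.exp ((|s₀.re| + 1) * |∑ i, x i|) := by
        apply mul_le_mul_of_nonneg_right _ h3.le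
        linarith
  · refine Filter.Eventually.of_forall fun x s _ => ?_
    apply HasDerivAt.const_mul
    apply HasDerivAt.cexp
    exact hasDerivAt_mul_const _

end general

variable {F : Type} [Field F] [NumberField F] [IsTotallyReal F]

/-- change of the fundamental domain by `x ↦ -x - a` -/
theorem Mel_neg {D : Set ((F →+* ℝ) → ℝ)} (hD : IsAddFundamentalDomain (LU F) D volume)
    {G : ((F →+* ℝ) → ℝ) → ℂ} (hG : ∀ v ∈ LU F, ∀ x, G (x + v) = G x) (a : (F →+* ℝ) → ℝ) (s : ℂ) :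
    Mel D G s = Complex.exp (-s * ((∑ σ, a σ : ℝ) : ℂ)) * Mel D (fun x => G (-x - a)) (-s) := by
  classical
  have hmp : MeasurePreserving (fun x : (F →+* ℝ) → ℝ => -a - x) volume volume :=
    Measure.measurePreserving_sub_left volume (-a)
  have hD' : IsAddFundamentalDomain (LU F) ((fun x : (F →+* ℝ) → ℝ => -a - x) ⁻¹' D) volume := by
    refine hD.preimage_of_equiv hmp.quasiMeasurePreserving (e := fun g => -g)
      neg_involutive.bijective (fun g x => ?_)
    show -a - ((-g : LU F) +ᵥ x) = g +ᵥ (-a - x)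
    rw [AddSubgroup.vadd_def, AddSubgroup.vadd_def, vadd_eq_add, vadd_eq_add,
      NegMemClass.coe_neg]
    abel
  have hcomp : Mel D G s = ∫ x in (fun x : (F →+* ℝ) → ℝ => -a - x) ⁻¹' D,
      G (-a - x) * Complex.exp (s * ((∑ i, (-a - x) i : ℝ) : ℂ)) := by
    rw [Mel]
    exact (hmp.setIntegral_preimage_emb
      (MeasurableEquiv.subLeft (-a)).measurableEmbedding _ D).symm
  have hsum : ∀ x : (F →+* ℝ) → ℝ, ((∑ i, (-a - x) i : ℝ) : ℂ) =
      -((∑ σ, a σ : ℝ) : ℂ) - ((∑ σ, x σ : ℝ) : ℂ) := by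
    intro x
    simp [Finset.sum_sub_distrib]
  rw [hcomp]
  have hrw : ∀ x : (F →+* ℝ) → ℝ, G (-a - x) * Complex.exp (s * ((∑ i, (-a - x) i : ℝ) : ℂ)) =
      Complex.exp (-s * ((∑ σ, a σ : ℝ) : ℂ)) *
        (G (-x - a) * Complex.exp (-s * ((∑ σ, x σ : ℝ) : ℂ))) := by
    intro x
    rw [hsum, show s * (-((∑ σ, a σ : ℝ) : ℂ) - ((∑ σ, x σ : ℝ) : ℂ)) =
      -s * ((∑ σ, a σ : ℝ) : ℂ) + -s * ((∑ σ, x σ : ℝ) : ℂ) by ring, Complex.exp_add,
      show -a - x = -x - a by abel]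
    ring
  simp only [hrw]
  rw [integral_const_mul]
  congr 1
  rw [Mel]
  refine hD'.setIntegral_eq hD ?_
  rintro ⟨v, u, rfl⟩ x
  show G (-(lg (((u : (𝓞 F)ˣ) : 𝓞 F) : F) + x) - a) * Complex.exp (-s *
    ((∑ σ, (lg (((u : (𝓞 F)ˣ) : 𝓞 F) : F) + x) σ : ℝ) : ℂ)) = _
  have h1 : -(lg (((u : (𝓞 F)ˣ) : 𝓞 F) : F) + x) - a =
      (-x - a) + -lg (((u : (𝓞 F)ˣ) : 𝓞 F) : F) := by abel
  have h2 : G (-(lg (((u : (𝓞 F)ˣ) : 𝓞 F) : F) + x) - a) = G (-x - a) := by
    rw [h1]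
    exact hG _ ((LU F).neg_mem ⟨u, rfl⟩) _
  have h3 : ∑ σ, (lg (((u : (𝓞 F)ˣ) : 𝓞 F) : F) + x) σ = ∑ σ, x σ := by
    have := sum_lg F u
    simp only [Pi.add_apply, Finset.sum_add_distrib]
    rw [this, zero_add]
  rw [h2, h3]

end Pool.Agent.H44.TW
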