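import Pool.Agent.H44.TW.Four
import Pool.Agent.H44.TW.MelGen

/-!
# The completed function of an ideal class, and its functional equation
-/

set_option autoImplicit false

open NumberField MeasureTheory

namespace Pool.Agent.H44.TW

variable {F : Type} [Field F] [NumberField F] [IsTotallyReal F]

/-- the completed function of the class of `b` -/
theorem rapid_GG {k : (F →+* ℝ) → ℕ} (hk : ∀ σ, Even (k σ) ∧ 0 < k σ) {n : Ideal (𝓞 F)} (hn : n ≠ ⊥) {w : ℂ}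
    {bad : Ideal (𝓞 F)} {C : Ideal (𝓞 F) → ℂ} (h : HNew k n w bad C) {b b' : Ideal (𝓞 F)} (hb : b ≠ ⊥)
    (hb' : b' ≠ ⊥) {y : 𝓞 F} (hy : TPos (y : F))
    (he : b * b' * (differentIdeal ℤ (𝓞 F)) ^ 2 * n = Ideal.span {y}) {D : Set ((F →+* ℝ) → ℝ)}
    (hD : MeasurableSet D) {R : ℝ} (hR : ∀ x ∈ D, ∀ σ, |x σ - (∑ τ, x τ) / Fintype.card (F →+* ℝ)| ≤ R) :
    Rapid D (GG k C b) := by
  refine ⟨hD, continuous_GG (h.conv b hb), ⟨R, hR⟩, ?_⟩
  obtain ⟨A₁, c₁, hA₁, hc₁, h₁⟩ := GG_decay (h.conv b hb) R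
  obtain ⟨L, hL⟩ : ∃ L : ℝ, L = ∑ σ : F →+* ℝ, |lg (y : F) σ| := ⟨_, rfl⟩
  obtain ⟨A₂, c₂, hA₂, hc₂, h₂⟩ := GG_decay (h.conv b' hb') (R + L)
  have hNb : (0 : ℝ) < (Ideal.absNorm b : ℝ) := by
    have h3 : Ideal.absNorm b ≠ 0 := fun h0 => hb (Ideal.absNorm_eq_zero_iff.1 h0)
    exact_mod_cast Nat.pos_of_ne_zero h3
  obtain ⟨K, hK⟩ : ∃ K : ℝ, K = ‖w‖ * (Ideal.absNorm b' : ℝ) / (Ideal.absNorm b : ℝ) := ⟨_, rfl⟩
  have hK0 : 0 ≤ K := by
    rw [hK]
    positivity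
  have hLσ : ∀ σ : F →+* ℝ, |lg (y : F) σ| ≤ L := by
    intro σ
    rw [hL]
    exact Finset.single_le_sum (f := fun σ : F →+* ℝ => |lg (y : F) σ|) (fun τ _ => abs_nonneg _)
      (Finset.mem_univ σ)
  have hcard : (0 : ℝ) < (Fintype.card (F →+* ℝ) : ℝ) := by
    exact_mod_cast Fintype.card_pos
  refine ⟨A₁ + K * A₂, min c₁ c₂, by positivity, lt_min hc₁ hc₂, fun x hx => ?_⟩
  obtain ⟨t, ht⟩ : ∃ t : ℝ, t = (∑ τ, x τ) / Fintype.card (F →+* ℝ) := ⟨_, rfl⟩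
  have habs : |∑ τ, x τ| / Fintype.card (F →+* ℝ) = |t| := by
    rw [ht, abs_div, abs_of_pos hcard]
  rw [habs]
  have hRx := hR x hx
  rw [← ht] at hRx
  have hE : 0 < Real.exp |t| := Real.exp_pos _
  rcases le_or_gt 0 t with h0 | h0
  · have h3 := h₁ x t h0 hRx
    rw [abs_of_nonneg h0]
    refine h3.trans ?_
    have h4 : Real.exp (-c₁ * Real.exp t) ≤ Real.exp (-(min c₁ c₂) * Real.exp t) := by
      rw [Real.exp_le_exp]
      have h5 : min c₁ c₂ * Real.exp t ≤ c₁ * Real.exp t :=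
        mul_le_mul_of_nonneg_right (min_le_left _ _) (Real.exp_pos t).le
      linarith
    have h6 : 0 ≤ K * A₂ := by positivity
    exact mul_le_mul (by linarith) h4 (Real.exp_pos _).le (by positivity)
  · obtain ⟨x', hx'⟩ : ∃ x' : (F →+* ℝ) → ℝ, x' = -x - lg (y : F) := ⟨_, rfl⟩
    have h3 := GG_fricke hk h hb hb' hy he x'
    have h4 : -x' - lg (y : F) = x := by
      rw [hx']
      abel
    rw [h4] at h3
    have h5 : (Ideal.absNorm b : ℝ) * ‖GG k C b x‖ =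
        ‖w‖ * ((Ideal.absNorm b' : ℝ) * ‖GG k C b' x'‖) := by
      have h6 := congrArg norm h3
      rw [norm_mul, norm_mul, norm_mul, norm_mul, norm_pow, Complex.norm_I, one_pow, mul_one,
        Complex.norm_natCast, Complex.norm_natCast] at h6
      exact h6
    have h6 : ‖GG k C b x‖ = K * ‖GG k C b' x'‖ := by
      rw [hK]
      field_simp
      linarith
    have h7 := h₂ x' (-t) (by linarith) (by
      intro σ
      have h8 : x' σ - -t = -(x σ - t) - lg (y : F) σ := by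
        rw [hx']
        show -x σ - lg (y : F) σ - -t = -(x σ - t) - lg (y : F) σ
        ring
      rw [h8]
      refine (abs_sub _ _).trans ?_
      rw [abs_neg]
      exact add_le_add (hRx σ) (hLσ σ))
    rw [abs_of_neg h0, h6]
    have h9 : Real.exp (-c₂ * Real.exp (-t)) ≤ Real.exp (-(min c₁ c₂) * Real.exp (-t)) := by
      rw [Real.exp_le_exp]
      have h5 : min c₁ c₂ * Real.exp (-t) ≤ c₂ * Real.exp (-t) :=
        mul_le_mul_of_nonneg_right (min_le_right _ _) (Real.exp_pos _).le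
      linarith
    calc K * ‖GG k C b' x'‖ ≤ K * (A₂ * Real.exp (-c₂ * Real.exp (-t))) :=
          mul_le_mul_of_nonneg_left h7 hK0
      _ = K * A₂ * Real.exp (-c₂ * Real.exp (-t)) := by ring
      _ ≤ (A₁ + K * A₂) * Real.exp (-(min c₁ c₂) * Real.exp (-t)) :=
          mul_le_mul (by linarith) h9 (Real.exp_pos _).le (by positivity)

theorem Mel_fe {k : (F →+* ℝ) → ℕ} (hk : ∀ σ, Even (k σ) ∧ 0 < k σ) {n : Ideal (𝓞 F)} {w : ℂ}
    {bad : Ideal (𝓞 F)} {C : Ideal (𝓞 F) → ℂ} (h : HNew k n w bad C) {b b' : Ideal (𝓞 F)} (hb : b ≠ ⊥)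
    (hb' : b' ≠ ⊥) {y : 𝓞 F} (hy : TPos (y : F))
    (he : b * b' * (differentIdeal ℤ (𝓞 F)) ^ 2 * n = Ideal.span {y}) {D : Set ((F →+* ℝ) → ℝ)}
    (hD : IsAddFundamentalDomain (LU F) D volume) (s : ℂ) :
    (Ideal.absNorm b : ℂ) * Mel D (GG k C b) s =
      w * Complex.I ^ (∑ σ : F →+* ℝ, k σ) * (Ideal.absNorm (Ideal.span {y}) : ℂ) ^ (-s) *
        ((Ideal.absNorm b' : ℂ) * Mel D (GG k C b') (-s)) := by
  have h1 := Mel_neg hD (G := GG k C b) (fun v hv x => GG_add_mem hk v hv x) (lg (y : F)) s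
  have h2 : (Ideal.absNorm b : ℂ) * Mel D (fun x => GG k C b (-x - lg (y : F))) (-s) =
      w * Complex.I ^ (∑ σ : F →+* ℝ, k σ) * ((Ideal.absNorm b' : ℂ) * Mel D (GG k C b') (-s)) := by
    unfold Mel
    rw [← integral_const_mul, ← integral_const_mul, ← integral_const_mul]
    refine integral_congr_ae (Filter.Eventually.of_forall fun x => ?_)
    have h3 := GG_fricke hk h hb hb' hy he x
    show (Ideal.absNorm b : ℂ) * (GG k C b (-x - lg (y : F)) * _) = _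
    rw [← mul_assoc, h3]
    ring
  have h4 : ∑ σ : F →+* ℝ, lg (y : F) σ = Real.log (Ideal.absNorm (Ideal.span {y}) : ℝ) := by
    rw [← prod_eq_absNorm hy, Real.log_prod fun σ _ => (hy σ).ne']
    rfl
  have h5 : (Ideal.absNorm (Ideal.span {y}) : ℝ) ≠ 0 := by
    rw [← prod_eq_absNorm hy]
    exact (Finset.prod_pos fun σ _ => hy σ).ne'
  have h6 : (Ideal.absNorm (Ideal.span {y}) : ℂ) ≠ 0 := by exact_mod_cast h5
  have h7 : Complex.exp (-s * ((∑ σ : F →+* ℝ, lg (y : F) σ : ℝ) : ℂ)) =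
      (Ideal.absNorm (Ideal.span {y}) : ℂ) ^ (-s) := by
    rw [h4, Complex.cpow_def_of_ne_zero h6, Complex.natCast_log, mul_comm]
  rw [h1, h7]
  calc (Ideal.absNorm b : ℂ) * ((Ideal.absNorm (Ideal.span {y}) : ℂ) ^ (-s) *
        Mel D (fun x => GG k C b (-x - lg (y : F))) (-s)) =
      (Ideal.absNorm (Ideal.span {y}) : ℂ) ^ (-s) *
        ((Ideal.absNorm b : ℂ) * Mel D (fun x => GG k C b (-x - lg (y : F))) (-s)) := by ring
    _ = _ := by
      rw [h2]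
      ring

end Pool.Agent.H44.TW
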