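import Pool.Agent.H44.TW.Arith

/-!
# Representatives of the narrow ideal classes
-/

set_option autoImplicit false

open NumberField

namespace Pool.Agent.H44.TW

variable (F : Type) [Field F] [NumberField F] [IsTotallyReal F]

/-- the nonzero ideals `m` such that `m b` is generated by a totally positive element -/
def Cls {F : Type} [Field F] [NumberField F] (b : Ideal (𝓞 F)) : Set (Ideal (𝓞 F)) :=
  {m | m ≠ ⊥ ∧ ∃ ν : 𝓞 F, TPos (ν : F) ∧ m * b = Ideal.span {ν}}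

section aux

variable {F}

omit [IsTotallyReal F] in
private theorem nw_one : TPos (1 : F) := fun σ => by rw [map_one]; exact one_pos

omit [IsTotallyReal F] in
private theorem nw_nat {n : ℕ} (hn : n ≠ 0) : TPos (((n : 𝓞 F)) : F) := fun σ => by
  have h1 : (((n : 𝓞 F)) : F) = (n : F) := map_natCast (algebraMap (𝓞 F) F) n
  rw [h1, map_natCast]
  exact_mod_cast Nat.pos_of_ne_zero hn

private theorem nw_int_ne {x : 𝓞 F} (hx : TPos (x : F)) : x ≠ 0 := by
  rintro rfl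
  exact hx.ne_zero (map_zero (algebraMap (𝓞 F) F))

private theorem nw_span_ne {x : 𝓞 F} (hx : TPos (x : F)) : Ideal.span {x} ≠ ⊥ := by
  rw [Ne, Ideal.span_singleton_eq_bot]
  exact nw_int_ne hx

/-- cancellation -/
private theorem nw_cancel {x y : 𝓞 F} (hx : TPos (x : F)) (hy : TPos (y : F)) {J : Ideal (𝓞 F)}
    (h : Ideal.span {x} * J = Ideal.span {y}) : ∃ ν : 𝓞 F, TPos (ν : F) ∧ J = Ideal.span {ν} := by
  have h1 : y ∈ Ideal.span {x} := by
    have h2 : y ∈ Ideal.span {x} * J := by rw [h]; exact Ideal.mem_span_singleton_self y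
    exact (Ideal.mul_le_left : Ideal.span {x} * J ≤ Ideal.span {x}) h2
  obtain ⟨ν, hν⟩ := Ideal.mem_span_singleton'.1 h1
  refine ⟨ν, ?_, ?_⟩
  · have h3 : (ν : F) = (y : F) * (x : F)⁻¹ := by
      have h4 : (ν : F) * (x : F) = (y : F) := by
        have := congrArg (fun z : 𝓞 F => (z : F)) hν
        simpa using this
      rw [← h4, mul_assoc, mul_inv_cancel₀ hx.ne_zero, mul_one]
    rw [h3]
    exact hy.mul hx.inv
  · have h5 : Ideal.span {x} * J = Ideal.span {x} * Ideal.span {ν} := by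
      rw [h, Ideal.span_singleton_mul_span_singleton, mul_comm x ν, hν]
    exact mul_left_cancel₀ (nw_span_ne hx) h5

/-- narrow equivalence -/
private def nwRel (m m' : {m : Ideal (𝓞 F) // m ≠ ⊥}) : Prop :=
  ∃ x y : 𝓞 F, TPos (x : F) ∧ TPos (y : F) ∧ Ideal.span {x} * m.1 = Ideal.span {y} * m'.1

omit [IsTotallyReal F] in
private theorem nw_mul {x y : 𝓞 F} (hx : TPos (x : F)) (hy : TPos (y : F)) : TPos ((x * y : 𝓞 F) : F) := by
  have h1 : ((x * y : 𝓞 F) : F) = (x : F) * (y : F) := map_mul (algebraMap (𝓞 F) F) x y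
  rw [h1]
  exact hx.mul hy

private def nwSetoid (F : Type) [Field F] [NumberField F] : Setoid {m : Ideal (𝓞 F) // m ≠ ⊥} where
  r := nwRel
  iseqv :=
    { refl := fun m => ⟨1, 1, by simpa using nw_one, by simpa using nw_one, rfl⟩
      symm := fun {m m'} ⟨x, y, hx, hy, h⟩ => ⟨y, x, hy, hx, h.symm⟩
      trans := fun {m m' m''} ⟨x, y, hx, hy, h⟩ ⟨x', y', hx', hy', h'⟩ => by
        refine ⟨x' * x, y * y', nw_mul hx' hx, nw_mul hy hy', ?_⟩
        rw [← Ideal.span_singleton_mul_span_singleton, ← Ideal.span_singleton_mul_span_singleton, mul_assoc, h,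
          mul_assoc, ← h', ← mul_assoc, ← mul_assoc, mul_comm (Ideal.span {x'}) (Ideal.span {y})] }

/-- the signs of an element -/
private noncomputable def nwSgn (x : F) : (F →+* ℝ) → Bool := fun σ => decide (0 < σ x)

open Classical in
/-- an integer with given signs -/
private noncomputable def nwRep (s : (F →+* ℝ) → Bool) : 𝓞 F :=
  if h : ∃ z : 𝓞 F, z ≠ 0 ∧ nwSgn (z : F) = s then h.choose else 1

private theorem nwRep_ne (s : (F →+* ℝ) → Bool) : nwRep (F := F) s ≠ 0 := by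
  unfold nwRep
  split_ifs with h
  · exact h.choose_spec.1
  · exact one_ne_zero

private theorem nwRep_mul {z : 𝓞 F} (hz : z ≠ 0) : TPos ((z * nwRep (nwSgn (z : F)) : 𝓞 F) : F) := by
  have hex : ∃ z' : 𝓞 F, z' ≠ 0 ∧ nwSgn (z' : F) = nwSgn (z : F) := ⟨z, hz, rfl⟩
  have h1 : nwRep (nwSgn (z : F)) = hex.choose := by
    unfold nwRep
    rw [dif_pos hex]
  have h2 := hex.choose_spec
  rw [← h1] at h2
  intro σ
  have h3 : ((z * nwRep (nwSgn (z : F)) : 𝓞 F) : F) = (z : F) * (nwRep (nwSgn (z : F)) : 𝓞 F) :=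
    map_mul (algebraMap (𝓞 F) F) _ _
  rw [h3, map_mul]
  have h4 : ∀ y : 𝓞 F, y ≠ 0 → σ (y : F) ≠ 0 := by
    intro y hy h0
    rw [map_eq_zero] at h0
    exact hy (RingOfIntegers.coe_eq_zero_iff.1 h0)
  have h5 := congrFun h2.2 σ
  simp only [nwSgn, decide_eq_decide] at h5
  rcases lt_or_gt_of_ne (h4 z hz) with h6 | h6
  · rcases lt_or_gt_of_ne (h4 _ h2.1) with h7 | h7
    · exact mul_pos_of_neg_of_neg h6 h7
    · exact absurd (h5.1 h7) (not_lt.2 h6.le)
  · exact mul_pos h6 (h5.2 h6)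

private theorem nw_sq {x : 𝓞 F} (hx : x ≠ 0) : TPos ((x * x : 𝓞 F) : F) := by
  intro σ
  have h3 : ((x * x : 𝓞 F) : F) = (x : F) * (x : F) := map_mul (algebraMap (𝓞 F) F) _ _
  rw [h3, map_mul]
  refine mul_self_pos.2 ?_
  intro h0
  rw [map_eq_zero] at h0
  exact hx (RingOfIntegers.coe_eq_zero_iff.1 h0)

private theorem nw_finite : Finite (Quotient (nwSetoid F)) := by
  classical
  have hrep : ∀ c : ClassGroup (𝓞 F), ∃ m : {m : Ideal (𝓞 F) // m ≠ ⊥},
      ClassGroup.mk0 ⟨m.1, mem_nonZeroDivisors_of_ne_zero m.2⟩ = c := by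
    intro c
    obtain ⟨m, hm⟩ := ClassGroup.mk0_surjective c
    exact ⟨⟨m.1, nonZeroDivisors.ne_zero m.2⟩, hm⟩
  choose R hR using hrep
  let f : ClassGroup (𝓞 F) × ((F →+* ℝ) → Bool) → Quotient (nwSetoid F) := fun q =>
    Quotient.mk _ ⟨Ideal.span {nwRep q.2} * (R q.1).1, mul_ne_zero
      (by rw [Ne, Ideal.zero_eq_bot, Ideal.span_singleton_eq_bot]; exact nwRep_ne _) (R q.1).2⟩
  refine Finite.of_surjective f ?_
  intro q
  induction q using Quotient.inductionOn with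
  | h m =>
    have h1 := hR (ClassGroup.mk0 ⟨m.1, mem_nonZeroDivisors_of_ne_zero m.2⟩)
    obtain ⟨x, y, hx, hy, hxy⟩ := (ClassGroup.mk0_eq_mk0_iff).1 h1
    -- (x) R = (y) m
    refine ⟨(ClassGroup.mk0 ⟨m.1, mem_nonZeroDivisors_of_ne_zero m.2⟩, nwSgn ((x * y : 𝓞 F) : F)), ?_⟩
    refine Quotient.sound ?_
    set r := nwRep (nwSgn ((x * y : 𝓞 F) : F)) with hr
    set M := (R (ClassGroup.mk0 ⟨m.1, mem_nonZeroDivisors_of_ne_zero m.2⟩)).1 with hM
    refine ⟨x * y * r, y * y * (r * r), nwRep_mul (mul_ne_zero hx hy), nw_mul (nw_sq hy) (nw_sq (nwRep_ne _)), ?_⟩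
    show Ideal.span {x * y * r} * (Ideal.span {r} * M) = Ideal.span {y * y * (r * r)} * m.1
    have h2 : Ideal.span {x} * M = Ideal.span {y} * m.1 := hxy
    simp only [← Ideal.span_singleton_mul_span_singleton]
    calc Ideal.span {x} * Ideal.span {y} * Ideal.span {r} * (Ideal.span {r} * M)
        = (Ideal.span {x} * M) * (Ideal.span {y} * (Ideal.span {r} * Ideal.span {r})) := by ring
      _ = Ideal.span {y} * Ideal.span {y} * (Ideal.span {r} * Ideal.span {r}) * m.1 := by rw [h2]; ring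

/-- the complementary ideal -/
private theorem nw_compl {m : Ideal (𝓞 F)} (hm : m ≠ ⊥) :
    ∃ (b : Ideal (𝓞 F)) (N : 𝓞 F), b ≠ ⊥ ∧ TPos (N : F) ∧ m * b = Ideal.span {N} := by
  have hN : Ideal.absNorm m ≠ 0 := fun h => hm (Ideal.absNorm_eq_zero_iff.1 h)
  have h1 : TPos (((Ideal.absNorm m : ℕ) : 𝓞 F) : F) := nw_nat hN
  have h2 := quo_mul (b := m) (ν := ((Ideal.absNorm m : ℕ) : 𝓞 F)) (Ideal.absNorm_mem m) (nw_int_ne h1)
  refine ⟨quo m ((Ideal.absNorm m : ℕ) : 𝓞 F), ((Ideal.absNorm m : ℕ) : 𝓞 F), ?_, h1, by rw [mul_comm]; exact h2⟩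
  intro h0
  rw [h0, Ideal.bot_mul] at h2
  exact nw_span_ne h1 h2.symm

private theorem nw_cls {m b : Ideal (𝓞 F)} {N : 𝓞 F} (hm : m ≠ ⊥) (hb : b ≠ ⊥) (hN : TPos (N : F))
    (h : m * b = Ideal.span {N}) (m' : {m : Ideal (𝓞 F) // m ≠ ⊥}) : m'.1 ∈ Cls b ↔ nwRel m' ⟨m, hm⟩ := by
  constructor
  · rintro ⟨_, ν, hν, hmb⟩
    refine ⟨N, ν, hN, hν, ?_⟩
    show Ideal.span {N} * m'.1 = Ideal.span {ν} * m
    rw [← h, ← hmb]
    ring
  · rintro ⟨x, y, hx, hy, hxy⟩
    refine ⟨m'.2, ?_⟩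
    have h1 : Ideal.span {x} * (m'.1 * b) = Ideal.span {y * N} := by
      have h2 : Ideal.span {x} * m'.1 = Ideal.span {y} * m := hxy
      rw [← mul_assoc, h2, mul_assoc, h, Ideal.span_singleton_mul_span_singleton]
    obtain ⟨ν, hν, hJ⟩ := nw_cancel hx (nw_mul hy hN) h1
    exact ⟨ν, hν, hJ⟩

end aux

/-- representatives of the (inverses of the) narrow ideal classes -/
theorem exists_reps : ∃ (h : ℕ) (b : Fin h → Ideal (𝓞 F)), (∀ i, b i ≠ ⊥) ∧
    ∀ m : Ideal (𝓞 F), m ≠ ⊥ → ∃! i, m ∈ Cls (b i) := by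
  classical
  haveI : Finite (Quotient (nwSetoid F)) := nw_finite
  obtain ⟨h, ⟨e⟩⟩ := Finite.exists_equiv_fin (Quotient (nwSetoid F))
  have hc : ∀ q : Quotient (nwSetoid F), ∃ (b : Ideal (𝓞 F)) (N : 𝓞 F), b ≠ ⊥ ∧ TPos (N : F) ∧
      q.out.1 * b = Ideal.span {N} := fun q => nw_compl q.out.2
  choose b N hb hN hbN using hc
  refine ⟨h, fun i => b (e.symm i), fun i => hb _, fun m hm => ?_⟩
  have key : ∀ i, m ∈ Cls (b (e.symm i)) ↔ Quotient.mk (nwSetoid F) ⟨m, hm⟩ = e.symm i := by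
    intro i
    have h1 := nw_cls (e.symm i).out.2 (hb _) (hN _) (hbN (e.symm i)) ⟨m, hm⟩
    have h1' : m ∈ Cls (b (e.symm i)) ↔ nwRel ⟨m, hm⟩ (e.symm i).out := h1
    rw [h1']
    constructor
    · intro h2
      have h3 : Quotient.mk (nwSetoid F) ⟨m, hm⟩ = Quotient.mk (nwSetoid F) (e.symm i).out := Quotient.sound h2
      rw [h3, Quotient.out_eq]
    · intro h2
      have h3 : Quotient.mk (nwSetoid F) ⟨m, hm⟩ = Quotient.mk (nwSetoid F) (e.symm i).out := by
        rw [Quotient.out_eq]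
        exact h2
      exact Quotient.exact h3
  refine ⟨e (Quotient.mk (nwSetoid F) ⟨m, hm⟩), ?_, ?_⟩
  · show m ∈ Cls (b (e.symm (e (Quotient.mk (nwSetoid F) ⟨m, hm⟩))))
    rw [key, Equiv.symm_apply_apply]
  · intro i hi
    have h2 := (key i).1 hi
    rw [h2, Equiv.apply_symm_apply]

/-- the permutation of the narrow classes belonging to a nonzero ideal `c` -/
theorem exists_perm {h : ℕ} {b : Fin h → Ideal (𝓞 F)} (hb : ∀ i, b i ≠ ⊥)
    (hcls : ∀ m : Ideal (𝓞 F), m ≠ ⊥ → ∃! i, m ∈ Cls (b i)) (c : Ideal (𝓞 F)) (hc : c ≠ ⊥) :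
    ∃ (e : Equiv.Perm (Fin h)) (x : Fin h → 𝓞 F), ∀ i, TPos (x i : F) ∧ b i * b (e i) * c = Ideal.span {x i} := by
  classical
  have h1 : ∀ i, ∃ j, ∃ x : 𝓞 F, TPos (x : F) ∧ b i * b j * c = Ideal.span {x} := by
    intro i
    obtain ⟨j, hj, _⟩ := hcls (b i * c) (mul_ne_zero (hb i) hc)
    obtain ⟨_, ν, hν, hh⟩ := hj
    refine ⟨j, ν, hν, ?_⟩
    rw [← hh]
    ring
  choose f x hx hfx using h1
  have hinj : Function.Injective f := by
    intro i j hij
    -- an ideal in the class of `b i`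
    obtain ⟨m, N, hm, hN, hbm⟩ := nw_compl (hb i)
    have hmi : m ∈ Cls (b i) := ⟨hm, N, hN, by rw [mul_comm]; exact hbm⟩
    have hmj : m ∈ Cls (b j) := by
      refine ⟨hm, ?_⟩
      have h2 : Ideal.span {x i} * (m * b j) = Ideal.span {N * x j} := by
        have h3 := hfx i
        have h4 := hfx j
        rw [hij] at h3
        rw [← h3]
        calc b i * b (f j) * c * (m * b j) = (b i * m) * (b j * b (f j) * c) := by ring
          _ = Ideal.span {N * x j} := by rw [hbm, h4, Ideal.span_singleton_mul_span_singleton]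
      obtain ⟨ν, hν, hJ⟩ := nw_cancel (hx i) (nw_mul hN (hx j)) h2
      exact ⟨ν, hν, hJ⟩
    exact (hcls m hm).unique hmi hmj
  refine ⟨Equiv.ofBijective f (Finite.injective_iff_bijective.1 hinj), x, fun i => ⟨hx i, hfx i⟩⟩

end Pool.Agent.H44.TW
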