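import Pool.Agent.H44.TW.Dir
import Pool.Agent.H44.TW.Eul
import Pool.Agent.H44.PC.FE

/-!
# The Euler product over the good primes, and the parity of its order at the centre
-/

set_option autoImplicit false

open NumberField

namespace Pool.Agent.H44.TW

variable {F : Type} [Field F] [NumberField F] [IsTotallyReal F]

private theorem par_norm_pos {m : Ideal (𝓞 F)} (hm : m ≠ ⊥) : 0 < Ideal.absNorm m :=
  Nat.pos_of_ne_zero fun h => hm (Ideal.absNorm_eq_zero_iff.1 h)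

private theorem par_norm_cpow {m : Ideal (𝓞 F)} (hm : m ≠ ⊥) (c s : ℂ) :
    ‖c * (Ideal.absNorm m : ℂ) ^ (-1 - s)‖ = ‖c‖ * (Ideal.absNorm m : ℝ) ^ (-1 - s.re) := by
  rw [norm_mul, Complex.norm_natCast_cpow_of_pos (par_norm_pos hm)]
  simp

private theorem par_summable {k : (F →+* ℝ) → ℕ} (hk : ∀ σ, Even (k σ) ∧ 0 < k σ) {n : Ideal (𝓞 F)} {w : ℂ}
    {bad : Ideal (𝓞 F)} {C : Ideal (𝓞 F) → ℂ} (h : HNew k n w bad C) {s : ℂ} (hs : 1 < s.re) :
    Summable fun m : NZ F => ‖C m.1 * (Ideal.absNorm m.1 : ℂ) ^ (-1 - s)‖ := by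
  refine (summable_C hk h hs).congr fun m => ?_
  exact (par_norm_cpow m.2 _ _).symm

private theorem par_two_le {m : Ideal (𝓞 F)} (hm : m ≠ ⊥) (hm1 : m ≠ ⊤) : 2 ≤ Ideal.absNorm m := by
  have h1 := par_norm_pos hm
  have h2 : Ideal.absNorm m ≠ 1 := fun h => hm1 (Ideal.absNorm_eq_one_iff.1 h)
  omega

private theorem par_top_ne : (⊤ : Ideal (𝓞 F)) ≠ ⊥ := top_ne_bot

/-- the Dirichlet series is not identically zero -/
private theorem par_ne_zero {k : (F →+* ℝ) → ℕ} (hk : ∀ σ, Even (k σ) ∧ 0 < k σ) {n : Ideal (𝓞 F)} {w : ℂ}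
    {bad : Ideal (𝓞 F)} {C : Ideal (𝓞 F) → ℂ} (h : HNew k n w bad C) {L : ℂ → ℂ}
    (hL : ∀ s : ℂ, 1 < s.re → HasSum (fun m : NZ F => C m.1 * (Ideal.absNorm m.1 : ℂ) ^ (-1 - s)) (L s)) :
    ∃ s : ℂ, L s ≠ 0 := by
  classical
  by_contra hcon
  push Not at hcon
  have h2 : (1 : ℝ) < 2 := one_lt_two
  have hb := summable_C hk h h2
  let g : NZ F → ℂ := fun m => if m = ⟨⊤, par_top_ne⟩ then 1 else 0
  have hlim : Filter.Tendsto (fun x : ℝ => ∑' m : NZ F, C m.1 * (Ideal.absNorm m.1 : ℂ) ^ (-1 - (x : ℂ)))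
      Filter.atTop (nhds (∑' m : NZ F, g m)) := by
    refine tendsto_tsum_of_dominated_convergence hb (fun m => ?_) ?_
    · by_cases hm : m = ⟨⊤, par_top_ne⟩
      · have h3 : (fun x : ℝ => C m.1 * (Ideal.absNorm m.1 : ℂ) ^ (-1 - (x : ℂ))) = fun _ => g m := by
          funext x
          have h4 : g m = 1 := if_pos hm
          have h5 : m.1 = ⊤ := congrArg Subtype.val hm
          rw [h4, h5, h.one, Ideal.absNorm_top, Nat.cast_one, Complex.one_cpow, mul_one]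
        rw [h3]
        exact tendsto_const_nhds
      · have h4 : g m = 0 := if_neg hm
        rw [h4]
        have hm1 : m.1 ≠ ⊤ := fun h => hm (Subtype.ext h)
        have h5 := par_two_le m.2 hm1
        rw [tendsto_zero_iff_norm_tendsto_zero]
        have h6 : (fun x : ℝ => ‖C m.1 * (Ideal.absNorm m.1 : ℂ) ^ (-1 - (x : ℂ))‖) =
            fun x : ℝ => ‖C m.1‖ * ((Ideal.absNorm m.1 : ℝ) ^ (-1 : ℝ) *
              (Ideal.absNorm m.1 : ℝ) ^ (-x)) := by
          funext x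
          rw [par_norm_cpow m.2, Complex.ofReal_re, sub_eq_add_neg,
            Real.rpow_add (by exact_mod_cast par_norm_pos m.2)]
        rw [h6]
        have h7 : Filter.Tendsto (fun x : ℝ => (Ideal.absNorm m.1 : ℝ) ^ (-x)) Filter.atTop (nhds 0) := by
          have h8 : (1 : ℝ) < (Ideal.absNorm m.1 : ℝ) := by
            have : (2 : ℝ) ≤ (Ideal.absNorm m.1 : ℝ) := by exact_mod_cast h5
            linarith
          have h9 := tendsto_rpow_atBot_of_base_gt_one _ h8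
          exact h9.comp Filter.tendsto_neg_atTop_atBot
        have h10 := (h7.const_mul ((Ideal.absNorm m.1 : ℝ) ^ (-1 : ℝ))).const_mul ‖C m.1‖
        rw [mul_zero, mul_zero] at h10
        exact h10
    · filter_upwards [Filter.eventually_ge_atTop (2 : ℝ)] with x hx m
      rw [par_norm_cpow m.2, Complex.ofReal_re]
      refine mul_le_mul_of_nonneg_left ?_ (norm_nonneg _)
      refine Real.rpow_le_rpow_of_exponent_le ?_ (by linarith)
      exact_mod_cast par_norm_pos m.2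
  have h3 : (∑' m : NZ F, g m) = 1 := by
    show (∑' m : NZ F, if m = ⟨⊤, par_top_ne⟩ then (1 : ℂ) else 0) = 1
    rw [tsum_ite_eq]
  rw [h3] at hlim
  have h4 : Filter.Tendsto (fun x : ℝ => ∑' m : NZ F, C m.1 * (Ideal.absNorm m.1 : ℂ) ^ (-1 - (x : ℂ)))
      Filter.atTop (nhds (0 : ℂ)) := by
    refine Filter.Tendsto.congr' ?_ tendsto_const_nhds
    filter_upwards [Filter.eventually_gt_atTop (1 : ℝ)] with x hx
    have h5 := hL (x : ℂ) (by rw [Complex.ofReal_re]; exact hx)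
    rw [h5.tsum_eq, hcon]
  exact one_ne_zero (tendsto_nhds_unique hlim h4)

private theorem par_diff {N : ℕ} (hN : 0 < N) (a b : ℂ) :
    Differentiable ℂ fun s : ℂ => (N : ℂ) ^ (a - b * s) := by
  have hN' : (N : ℂ) ≠ 0 := by exact_mod_cast hN.ne'
  simp_rw [Complex.cpow_def_of_ne_zero hN']
  fun_prop

theorem exists_good {k : (F →+* ℝ) → ℕ} (hk : ∀ σ, Even (k σ) ∧ 0 < k σ) {n : Ideal (𝓞 F)} (hn : n ≠ ⊥) {w : ℂ}
    {bad : Ideal (𝓞 F)} (hbad : bad ≠ ⊥) {C : Ideal (𝓞 F) → ℂ} (h : HNew k n w bad C) :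
    ∃ E : ℂ → ℂ, Differentiable ℂ E ∧
      (∀ s : ℂ, 1 < s.re → HasProd (fun v : Good bad => (1 - C v.1 * (Ideal.absNorm v.1 : ℂ) ^ (-1 - s) +
        (Ideal.absNorm v.1 : ℂ) ^ (-1 - 2 * s))⁻¹) (E s)) ∧
      ∃ m : ℕ, analyticOrderAt E 0 = (m : ℕ∞) ∧ (-1 : ℂ) ^ m = w * Complex.I ^ (∑ σ : F →+* ℝ, k σ) := by
  classical
  choose! e he using h.hecke
  have hM : Mult C e := ⟨h.one, fun v hv hv0 => (he v hv hv0).2.2.1, fun v hv hv0 => (he v hv hv0).2.2.2⟩
  obtain ⟨L, Λ, hΛ, hL, hsum, N, hN, hfe⟩ := exists_L hk hn h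
  have hfin : Finite (Bad bad) := finite_Bad hbad
  have hft : Fintype (Bad bad) := Fintype.ofFinite _
  let Pv : Bad bad → ℂ → ℂ := fun v s => 1 - C v.1 * (Ideal.absNorm v.1 : ℂ) ^ (-1 - s) +
    e v.1 * (Ideal.absNorm v.1 : ℂ) ^ (-2 - 2 * s)
  have hPd : ∀ v, Differentiable ℂ (Pv v) := by
    intro v
    have h1 := par_diff (par_norm_pos v.2.2.1) (-1) 1
    have h2 := par_diff (par_norm_pos v.2.2.1) (-2) 2
    simp only [one_mul] at h1
    exact ((differentiable_const 1).sub ((differentiable_const _).mul h1)).add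
      ((differentiable_const _).mul h2)
  have hGd := differentiable_Gam_inv (F := F) k
  let R : ℂ → ℂ := fun s => (Gam k s)⁻¹ * ∏ v : Bad bad, Pv v s
  have hRd : Differentiable ℂ R := hGd.mul (Differentiable.fun_finsetProd fun v _ => hPd v)
  have hER : ∀ s, L s * ∏ᶠ v : Bad bad, Pv v s = Λ s * R s := by
    intro s
    rw [finprod_eq_prod_of_fintype, hL, mul_assoc]
  have hR0 : R 0 ≠ 0 := by
    refine mul_ne_zero (inv_ne_zero (Gam_ne_zero hk ?_)) (Finset.prod_ne_zero_iff.2 fun v _ => ?_)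
    · rw [Complex.zero_re]
      norm_num
    · have h1 := (he v.1 v.2.1 v.2.2.1).2.1 v.2.2.2
      show 1 - C v.1 * (Ideal.absNorm v.1 : ℂ) ^ (-1 - (0 : ℂ)) +
        e v.1 * (Ideal.absNorm v.1 : ℂ) ^ (-2 - 2 * (0 : ℂ)) ≠ 0
      have h2 : (Ideal.absNorm v.1 : ℂ) ^ (-1 - (0 : ℂ)) = (Ideal.absNorm v.1 : ℂ)⁻¹ := by
        rw [sub_zero, Complex.cpow_neg_one]
      have h3 : (Ideal.absNorm v.1 : ℂ) ^ (-2 - 2 * (0 : ℂ)) = ((Ideal.absNorm v.1 : ℂ) ^ 2)⁻¹ := by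
        rw [mul_zero, sub_zero, Complex.cpow_neg, Complex.cpow_ofNat]
      rw [h2, h3, ← div_eq_mul_inv, ← div_eq_mul_inv]
      exact h1
  refine ⟨fun s => Λ s * R s, hΛ.mul hRd, fun s hs => ?_, ?_⟩
  · have h1 := (hM.hasProd hbad (par_summable hk h hs) (hsum s hs)).1
    show HasProd _ (Λ s * R s)
    rw [← hER]
    refine h1.congr_fun fun v => ?_
    have h2 : (Ideal.absNorm v.1 : ℂ) ≠ 0 := by exact_mod_cast (par_norm_pos v.2.2.1).ne'
    have h3 : e v.1 * (Ideal.absNorm v.1 : ℂ) ^ (-2 - 2 * s) = (Ideal.absNorm v.1 : ℂ) ^ (-1 - 2 * s) := by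
      rw [(he v.1 v.2.1 v.2.2.1).1 v.2.2.2]
      have h4 : (-1 - 2 * s : ℂ) = 1 + (-2 - 2 * s) := by ring
      rw [h4, Complex.cpow_add _ _ h2, Complex.cpow_one]
    rw [h3]
  · have hΛa : AnalyticAt ℂ Λ 0 := hΛ.analyticAt 0
    have hRa : AnalyticAt ℂ R 0 := hRd.analyticAt 0
    have hord : analyticOrderAt (fun s => Λ s * R s) 0 = analyticOrderAt Λ 0 := by
      have h1 := analyticOrderAt_mul hΛa hRa
      rw [hRa.analyticOrderAt_eq_zero.2 hR0, add_zero] at h1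
      exact h1
    have htop : analyticOrderAt Λ 0 ≠ ⊤ := by
      intro ht
      rw [analyticOrderAt_eq_top] at ht
      obtain ⟨s, hs⟩ := par_ne_zero hk h hsum
      apply hs
      have hA1 : AnalyticOnNhd ℂ Λ Set.univ := fun z _ => hΛ.analyticAt z
      have hA2 : AnalyticOnNhd ℂ (0 : ℂ → ℂ) Set.univ := fun z _ => analyticAt_const
      have h1 : Λ = 0 := AnalyticOnNhd.eq_of_eventuallyEq hA1 hA2 (z₀ := 0) ht
      rw [hL, h1, Pi.zero_apply, zero_mul]
    obtain ⟨m, hm⟩ := ENat.ne_top_iff_exists.1 htop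
    refine ⟨m, by rw [hord, ← hm], ?_⟩
    have hNC : (N : ℂ) ≠ 0 := by exact_mod_cast hN.ne'
    refine Pool.Agent.H44.PC.parity_of_fe hΛa (u := fun t => (N : ℂ) ^ (-t)) ?_ (by simp)
      (fun t => ?_) hm.symm
    · have : Continuous fun t : ℂ => (N : ℂ) ^ (-t) := by
        simp_rw [Complex.cpow_def_of_ne_zero hNC]
        fun_prop
      exact this.continuousAt
    · rw [zero_add, zero_sub]
      exact hfe t

/-- absolute convergence -/
theorem summable_good {k : (F →+* ℝ) → ℕ} (hk : ∀ σ, Even (k σ) ∧ 0 < k σ) {n : Ideal (𝓞 F)} {w : ℂ}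
    {bad : Ideal (𝓞 F)} {C : Ideal (𝓞 F) → ℂ} (h : HNew k n w bad C) {s : ℂ} (hs : 1 < s.re) :
    Summable fun v : Good bad => ‖C v.1 * (Ideal.absNorm v.1 : ℂ) ^ (-1 - s)‖ := by
  obtain ⟨j, hj⟩ : ∃ j : Good bad → NZ F, ∀ v, (j v).1 = v.1 := ⟨fun v => ⟨v.1, v.2.2.1⟩, fun _ => rfl⟩
  have hinj : Function.Injective j := by
    intro v v' hv
    apply Subtype.ext
    rw [← hj v, ← hj v', hv]
  have h1 := (par_summable hk h hs).comp_injective hinj
  refine h1.congr fun v => ?_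
  show ‖C (j v).1 * (Ideal.absNorm (j v).1 : ℂ) ^ (-1 - s)‖ = _
  rw [hj v]

end Pool.Agent.H44.TW
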