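import Mathlib

/-!
# Semilinear operators a power of which is a scalar
-/

set_option autoImplicit false

namespace Pool.Agent.H44.TW

/-- the product `x γ(x) ⋯ γ^(m-1)(x)` -/
def cnj {K : Type} [Field K] (γ : K → K) (m : ℕ) (x : K) : K := ∏ i ∈ Finset.range m, γ^[i] x

private theorem cnj_succ {K : Type} [Field K] (σ : K →+* K) (k : ℕ) (x : K) :
    cnj σ (k + 1) x = x * σ (cnj σ k x) := by
  unfold cnj
  rw [Finset.prod_range_succ', Function.iterate_zero_apply, map_prod, mul_comm]
  congr 1
  refine Finset.prod_congr rfl fun i _ => ?_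
  rw [Function.iterate_succ_apply']

/-- the matrix of `T^k` -/
private noncomputable def itM {K V : Type} [Field K] [AddCommGroup V] [Module K V] {σ : K →+* K}
    (T : V →ₛₗ[σ] V) {d : ℕ} (b : Module.Basis (Fin d) K V) (k : ℕ) : Matrix (Fin d) (Fin d) K :=
  Matrix.of fun i j => b.repr (T^[k] (b j)) i

private theorem itM_succ {K V : Type} [Field K] [AddCommGroup V] [Module K V] {σ : K →+* K}
    (T : V →ₛₗ[σ] V) {d : ℕ} (b : Module.Basis (Fin d) K V) (k : ℕ) :
    itM T b (k + 1) = itM T b 1 * (itM T b k).map σ := by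
  refine Matrix.ext fun i j => ?_
  rw [Matrix.mul_apply]
  change b.repr (T^[k + 1] (b j)) i = ∑ l, b.repr (T^[1] (b l)) i * σ (b.repr (T^[k] (b j)) l)
  rw [Function.iterate_succ_apply']
  conv_lhs => rw [← b.sum_repr (T^[k] (b j))]
  rw [map_sum, map_sum, Finsupp.finset_sum_apply]
  refine Finset.sum_congr rfl fun l _ => ?_
  rw [LinearMap.map_smulₛₗ, map_smul, Finsupp.smul_apply, smul_eq_mul, mul_comm,
    Function.iterate_one]

private theorem itM_zero {K V : Type} [Field K] [AddCommGroup V] [Module K V] {σ : K →+* K}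
    (T : V →ₛₗ[σ] V) {d : ℕ} (b : Module.Basis (Fin d) K V) : itM T b 0 = 1 := by
  refine Matrix.ext fun i j => ?_
  change b.repr (b j) i = _
  rw [b.repr_self, Matrix.one_apply, Finsupp.single_apply]
  simp only [eq_comm]

private theorem det_itM {K V : Type} [Field K] [AddCommGroup V] [Module K V] {σ : K →+* K}
    (T : V →ₛₗ[σ] V) {d : ℕ} (b : Module.Basis (Fin d) K V) (k : ℕ) :
    (itM T b k).det = cnj σ k (itM T b 1).det := by
  induction k with
  | zero => rw [itM_zero, Matrix.det_one]; rfl
  | succ k ih =>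
    rw [itM_succ, Matrix.det_mul, cnj_succ, ← ih]
    congr 1
    exact (RingHom.map_det σ (itM T b k)).symm

/-- `T` semilinear for `σ`, `T^m = c`: the power of `c` of exponent the dimension is a product of conjugates -/
theorem exists_cnj_pow {K V : Type} [Field K] [AddCommGroup V] [Module K V] (σ : K →+* K) (m : ℕ) (T : V →ₛₗ[σ] V)
    (c : K) (hT : ∀ v, T^[m] v = c • v) : ∃ x : K, cnj σ m x = c ^ Module.finrank K V := by
  rcases Nat.eq_zero_or_pos (Module.finrank K V) with h0 | hpos
  · refine ⟨1, ?_⟩
    rw [h0, pow_zero, cnj]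
    refine Finset.prod_eq_one fun i _ => ?_
    exact Function.iterate_fixed (map_one σ) i
  · have : Module.Finite K V := Module.finite_of_finrank_pos hpos
    let b := Module.finBasis K V
    refine ⟨(itM T b 1).det, ?_⟩
    rw [← det_itM]
    have h1 : itM T b m = c • (1 : Matrix (Fin (Module.finrank K V)) (Fin (Module.finrank K V)) K) := by
      refine Matrix.ext fun i j => ?_
      change b.repr (T^[m] (b j)) i = _
      rw [hT, map_smul, b.repr_self, Finsupp.smul_apply, Matrix.smul_apply, Matrix.one_apply,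
        Finsupp.single_apply]
      simp only [eq_comm]
    rw [h1, Matrix.det_smul, Matrix.det_one, mul_one, Fintype.card_fin]

end Pool.Agent.H44.TW
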