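import Pool.Agent.H44.TW.QOp
import Pool.Agent.H44.TW.QAlg
import Pool.Agent.H44.PC.Conj

/-!
# The intertwining matrix of a conjugate of the representation
-/

set_option autoImplicit false

open NumberField Matrix Polynomial
open Pool.Agent.H44.PC

namespace Pool.Agent.H44.TW

variable {p : ℕ} [Fact p.Prime] {K : Type} [NontriviallyNormedField K] [NormedAlgebra ℚ_[p] K]
  {F : IntermediateField ℚ (AlgebraicClosure ℚ)} [NumberField F] {ρ : F.fixingSubgroup →* Matrix (Fin 2) (Fin 2) K}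
  {t : (AlgebraicClosure ℚ) ≃ₐ[ℚ] (AlgebraicClosure ℚ)} {γ : K ≃ₐ[ℚ_[p]] K} {B B' : Matrix (Fin 2) (Fin 2) K}

omit [NumberField F] in
private theorem qi_map_mul (γ : K ≃ₐ[ℚ_[p]] K) (M N : Matrix (Fin 2) (Fin 2) K) :
    (M * N).map γ = M.map γ * N.map γ := Matrix.map_mul

private theorem qi_stable (ht : ∀ x ∈ F, t x ∈ F) {g : (AlgebraicClosure ℚ) ≃ₐ[ℚ] (AlgebraicClosure ℚ)}
    (hg : g ∈ F.fixingSubgroup) : t⁻¹ * g * t ∈ F.fixingSubgroup ∧ t * g * t⁻¹ ∈ F.fixingSubgroup := by
  have hg0 := (IntermediateField.mem_fixingSubgroup_iff _ _).1 hg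
  have hinv : ∀ x ∈ F, t⁻¹ x ∈ F := by
    let f : F →ₗ[ℚ] F := (t.toLinearMap.restrict (p := F.toSubalgebra.toSubmodule) (q := F.toSubalgebra.toSubmodule) ht)
    have hf : Function.Injective f := by
      intro x y hxy
      apply Subtype.ext
      apply t.injective
      exact congrArg Subtype.val hxy
    have hs : Function.Surjective f := LinearMap.injective_iff_surjective.1 hf
    intro x hx
    obtain ⟨y, hy⟩ := hs ⟨x, hx⟩
    have h1 : t y.1 = x := congrArg Subtype.val hy
    rw [← h1]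
    have h2 : t⁻¹ (t y.1) = y.1 := t.symm_apply_apply y.1
    rw [h2]
    exact y.2
  have h1 : ∀ x, t⁻¹ (t x) = x := fun x => t.symm_apply_apply x
  have h2 : ∀ x, t (t⁻¹ x) = x := fun x => t.apply_symm_apply x
  constructor
  · rw [IntermediateField.mem_fixingSubgroup_iff]
    intro x hx
    show t⁻¹ (g (t x)) = x
    rw [hg0 _ (ht x hx), h1]
  · rw [IntermediateField.mem_fixingSubgroup_iff]
    intro x hx
    show t (g (t⁻¹ x)) = x
    rw [hg0 _ (hinv x hx), h2]

theorem exists_sw (hirr : Submodule.span K (Set.range ρ) = ⊤) (htF : ∀ x ∈ F, t x ∈ F) (hγ : Continuous γ)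
    (htr : ∀ x y : F.fixingSubgroup, (y : (AlgebraicClosure ℚ) ≃ₐ[ℚ] (AlgebraicClosure ℚ)) = t⁻¹ * x * t →
      γ (ρ y).trace = (ρ x).trace) : ∃ B B' : Matrix (Fin 2) (Fin 2) K, Sw ρ t γ B B' := by
  let cj : F.fixingSubgroup → F.fixingSubgroup := fun g => ⟨t⁻¹ * g * t, (qi_stable htF g.2).1⟩
  have cj_mul : ∀ a b, cj (a * b) = cj a * cj b := by
    intro a b
    apply Subtype.ext
    simp only [cj, Subgroup.coe_mul]
    group
  have cj_one : cj 1 = 1 := by
    apply Subtype.ext
    simp [cj]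
  let r1 : F.fixingSubgroup →* Matrix (Fin 2) (Fin 2) K :=
    { toFun := fun g => (ρ (cj g)).map γ
      map_one' := by
        rw [cj_one, map_one]
        exact Matrix.map_one γ (map_zero γ) (map_one γ)
      map_mul' := fun a b => by rw [cj_mul, map_mul, qi_map_mul] }
  have hr1 : Submodule.span K (Set.range r1) = ⊤ := by
    have key : ∀ N : Matrix (Fin 2) (Fin 2) K, N ∈ Submodule.span K (Set.range ρ) →
        N.map γ ∈ Submodule.span K (Set.range r1) := by
      intro N hN
      induction hN using Submodule.span_induction with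
      | mem x hx =>
        obtain ⟨g, rfl⟩ := hx
        apply Submodule.subset_span
        refine ⟨⟨t * g * t⁻¹, (qi_stable htF g.2).2⟩, ?_⟩
        show (ρ (cj _)).map γ = (ρ g).map γ
        congr 2
        apply Subtype.ext
        simp only [cj]
        group
      | zero =>
        have : (0 : Matrix (Fin 2) (Fin 2) K).map γ = 0 := by
          ext i j
          simp
        rw [this]
        exact Submodule.zero_mem _
      | add x y _ _ hx hy =>
        have : (x + y).map γ = x.map γ + y.map γ := by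
          ext i j
          simp
        rw [this]
        exact Submodule.add_mem _ hx hy
      | smul c x _ hx =>
        have : (c • x).map γ = γ c • x.map γ := by
          ext i j
          simp
        rw [this]
        exact Submodule.smul_mem _ _ hx
    rw [eq_top_iff]
    intro M _
    have h1 : M = (M.map γ.symm).map γ := by
      ext i j
      simp
    rw [h1]
    apply key
    rw [hirr]
    trivial
  obtain ⟨T, T', h1, h2, h3⟩ := exists_inter r1 ρ hr1 hirr (fun g => by
    have h4 := htr g (cj g) rfl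
    rw [← h4]
    show ((ρ (cj g)).map γ).trace = γ (ρ (cj g)).trace
    rw [Matrix.trace_fin_two, Matrix.trace_fin_two, map_add]
    rfl)
  exact ⟨T, T', ⟨fun g hg => (qi_stable htF hg).1, fun g hg => (qi_stable htF hg).2, hγ, fun g => h3 g, h1, h2⟩⟩

omit [NumberField F] in
private theorem qi_cj_iter (h : Sw ρ t γ B B') (m : ℕ) (g : F.fixingSubgroup) :
    ((h.cj^[m] g : F.fixingSubgroup) : ((AlgebraicClosure ℚ) ≃ₐ[ℚ] (AlgebraicClosure ℚ))) =
      (t ^ m)⁻¹ * g * t ^ m := by
  induction m with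
  | zero => simp
  | succ m ih =>
    rw [Function.iterate_succ_apply']
    show t⁻¹ * ((h.cj^[m] g : F.fixingSubgroup) : ((AlgebraicClosure ℚ) ≃ₐ[ℚ] (AlgebraicClosure ℚ))) * t = _
    rw [ih, pow_succ, _root_.mul_inv_rev]
    simp only [mul_assoc]

omit [NumberField F] in
private theorem qi_int (h : Sw ρ t γ B B') (k : ℕ) : ∀ g : F.fixingSubgroup,
    mprod γ B k * (ρ (h.cj^[k] g)).map (γ^[k]) = ρ g * mprod γ B k := by
  induction k with
  | zero =>
    intro g
    simp [mprod]
  | succ k ih =>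
    intro g
    have h1 : (ρ (h.cj^[k + 1] g)).map (γ^[k + 1]) = ((ρ (h.cj^[k] (h.cj g))).map (γ^[k])).map γ := by
      ext i j
      simp only [Matrix.map_apply]
      rw [Function.iterate_succ_apply' γ, Function.iterate_succ_apply h.cj]
    have h2 : B * (ρ (h.cj g)).map γ = ρ g * B := h.int g
    show B * (mprod γ B k).map γ * _ = ρ g * (B * (mprod γ B k).map γ)
    rw [h1, mul_assoc, ← qi_map_mul, ih, qi_map_mul, ← mul_assoc, h2, mul_assoc]

theorem exists_scalar (h : Sw ρ t γ B B') (hirr : Submodule.span K (Set.range ρ) = ⊤) (m : ℕ)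
    (hγ : ∀ x, γ^[m] x = x) (htm : t ^ m ∈ F.fixingSubgroup) : ∃ c : K, mprod γ B m = c • ρ ⟨t ^ m, htm⟩ := by
  set s : F.fixingSubgroup := ⟨t ^ m, htm⟩ with hs
  have hss : ρ s * ρ s⁻¹ = 1 := by rw [← map_mul, mul_inv_cancel, map_one]
  have hss' : ρ s⁻¹ * ρ s = 1 := by rw [← map_mul, inv_mul_cancel, map_one]
  have hmap : ∀ M : Matrix (Fin 2) (Fin 2) K, M.map (γ^[m]) = M := by
    intro M
    ext i j
    exact hγ _
  have hcomm : ∀ A ∈ Set.range ρ, (mprod γ B m * ρ s⁻¹) * A = A * (mprod γ B m * ρ s⁻¹) := by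
    rintro _ ⟨g, rfl⟩
    have h5 := qi_int h m g
    have h6 : h.cj^[m] g = s⁻¹ * g * s := by
      apply Subtype.ext
      rw [qi_cj_iter]
      rfl
    rw [hmap, h6, map_mul, map_mul] at h5
    have h7 : ρ s⁻¹ * ρ g = ρ s⁻¹ * ρ g * ρ s * ρ s⁻¹ := by rw [mul_assoc (ρ s⁻¹ * ρ g), hss, mul_one]
    calc mprod γ B m * ρ s⁻¹ * ρ g = mprod γ B m * (ρ s⁻¹ * ρ g) := mul_assoc _ _ _
      _ = mprod γ B m * (ρ s⁻¹ * ρ g * ρ s * ρ s⁻¹) := by rw [← h7]
      _ = mprod γ B m * (ρ s⁻¹ * ρ g * ρ s) * ρ s⁻¹ := (mul_assoc _ _ _).symm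
      _ = ρ g * (mprod γ B m * ρ s⁻¹) := by rw [h5, mul_assoc]
  obtain ⟨c, hc⟩ := scalar_of_comm hirr _ hcomm
  refine ⟨c, ?_⟩
  have h7 : mprod γ B m = mprod γ B m * ρ s⁻¹ * ρ s := by rw [mul_assoc (mprod γ B m), hss', mul_one]
  rw [h7, hc, smul_mul_assoc, one_mul]

omit [NumberField F] in
private theorem qi_gmul (γ : K ≃ₐ[ℚ_[p]] K) (M : Matrix (Fin 2) (Fin 2) K) (v : Fin 2 → K) :
    (fun i => γ (M.mulVec v i)) = (M.map γ).mulVec fun i => γ (v i) := by
  funext i
  simp only [Matrix.mulVec, dotProduct, Matrix.map_apply, map_sum, map_mul]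

/-- the scalar and a simple eigenvalue `y = γ(y)` of `ρ(t^m)` -/
theorem scalar_eig (h : Sw ρ t γ B B') (m : ℕ) (hγ : ∀ x, γ^[m] x = x) (htm : t ^ m ∈ F.fixingSubgroup) {c : K}
    (hc : mprod γ B m = c • ρ ⟨t ^ m, htm⟩) {A q y : K} (hA : (ρ ⟨t ^ m, htm⟩).charpoly = X ^ 2 - C A * X + C q)
    (hy : γ y = y) (hy1 : y * y - A * y + q = 0) (hy2 : y * y ≠ q) : ∃ z : K, cnj γ m z = c * y := by
  set s : F.fixingSubgroup := ⟨t ^ m, htm⟩ with hs
  have hdet : (ρ s).det = q := det_of_charpoly hA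
  -- an eigenvector
  obtain ⟨e, he0, he⟩ : ∃ e : Fin 2 → K, e ≠ 0 ∧ (ρ s).mulVec e = y • e := by
    have h1 : (Matrix.scalar (Fin 2) y - ρ s).det = 0 := by
      rw [← Matrix.eval_charpoly, hA]
      simp only [eval_add, eval_sub, eval_pow, eval_X, eval_mul, eval_C]
      rw [← hy1]
      ring
    obtain ⟨e, he0, he⟩ := (Matrix.exists_mulVec_eq_zero_iff (M := Matrix.scalar (Fin 2) y - ρ s)).2 h1
    refine ⟨e, he0, ?_⟩
    rw [Matrix.sub_mulVec, sub_eq_zero] at he
    rw [← he]
    funext i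
    simp [Matrix.scalar_apply, Matrix.mulVec_diagonal]
  -- the eigenspace is a line
  have hline : ∀ v : Fin 2 → K, (ρ s).mulVec v = y • v → ∃ z : K, v = z • e := by
    intro v hv
    have a0 := congrFun he 0
    have a1 := congrFun he 1
    have b0 := congrFun hv 0
    have b1 := congrFun hv 1
    simp only [Matrix.mulVec, dotProduct, Fin.sum_univ_two, Pi.smul_apply, smul_eq_mul] at a0 a1 b0 b1
    have hD : (q - y * y) * (e 0 * v 1 - e 1 * v 0) = 0 := by
      rw [← hdet, Matrix.det_fin_two]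
      have e1 : (ρ s 0 0 * e 0 + ρ s 0 1 * e 1) * (ρ s 1 0 * v 0 + ρ s 1 1 * v 1) -
          (ρ s 1 0 * e 0 + ρ s 1 1 * e 1) * (ρ s 0 0 * v 0 + ρ s 0 1 * v 1) =
          (ρ s 0 0 * ρ s 1 1 - ρ s 0 1 * ρ s 1 0) * (e 0 * v 1 - e 1 * v 0) := by ring
      rw [sub_mul, ← e1, a0, a1, b0, b1]
      ring
    have hD0 : e 0 * v 1 - e 1 * v 0 = 0 :=
      (mul_eq_zero.1 hD).resolve_left (fun h0 => hy2 (sub_eq_zero.1 h0).symm)
    by_cases h0 : e 0 = 0
    · have h1 : e 1 ≠ 0 := by
        intro h1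
        apply he0
        funext i
        fin_cases i
        · exact h0
        · exact h1
      refine ⟨v 1 / e 1, ?_⟩
      have h2 : v 0 = 0 := by
        rw [h0, zero_mul, zero_sub, neg_eq_zero] at hD0
        exact (mul_eq_zero.1 hD0).resolve_left h1
      funext i
      fin_cases i
      · simp [h0, h2]
      · simp [h1]
    · refine ⟨v 0 / e 0, ?_⟩
      funext i
      fin_cases i
      · simp [h0]
      · simp only [Pi.smul_apply, smul_eq_mul]
        show v 1 = v 0 / e 0 * e 1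
        field_simp
        rw [sub_eq_zero] at hD0
        rw [mul_comm (v 1), hD0, mul_comm]
  have hcjs : h.cj s = s := by
    apply Subtype.ext
    show t⁻¹ * t ^ m * t = t ^ m
    rw [mul_assoc, ← pow_succ, pow_succ', ← mul_assoc, inv_mul_cancel, one_mul]
  have hints : B * (ρ s).map γ = ρ s * B := by
    have h1 := h.int s
    have h2 : B * (ρ (h.cj s)).map γ = ρ s * B := h1
    rwa [hcjs] at h2
  obtain ⟨z, hz⟩ := hline (B.mulVec fun i => γ (e i)) (by
    rw [Matrix.mulVec_mulVec, ← hints, ← Matrix.mulVec_mulVec, ← qi_gmul, he]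
    have h1 : (fun i => γ ((y • e) i)) = y • fun i => γ (e i) := by
      funext i
      simp only [Pi.smul_apply, smul_eq_mul, map_mul, hy]
    rw [h1, Matrix.mulVec_smul])
  refine ⟨z, ?_⟩
  have key : ∀ k : ℕ, (mprod γ B k).mulVec (fun i => γ^[k] (e i)) = cnj γ k z • e := by
    intro k
    induction k with
    | zero => simp [mprod, cnj]
    | succ k ih =>
      have h1 : (fun i => γ^[k + 1] (e i)) = fun i => γ ((fun j => γ^[k] (e j)) i) := by
        funext i
        rw [Function.iterate_succ_apply']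
      have h2 : cnj γ (k + 1) z = γ (cnj γ k z) * z := by
        unfold cnj
        rw [Finset.prod_range_succ', map_prod]
        simp only [Function.iterate_zero, id_eq, Function.iterate_succ_apply']
      show (B * (mprod γ B k).map γ).mulVec _ = _
      rw [h1, ← Matrix.mulVec_mulVec, ← qi_gmul, ih]
      have h3 : (fun i => γ ((cnj γ k z • e) i)) = γ (cnj γ k z) • fun i => γ (e i) := by
        funext i
        simp only [Pi.smul_apply, smul_eq_mul, map_mul]
      rw [h3, Matrix.mulVec_smul, hz, smul_smul, h2]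
  have h1 := key m
  have h2 : (fun i => γ^[m] (e i)) = e := by
    funext i
    exact hγ _
  rw [h2, hc, Matrix.smul_mulVec, he, smul_smul] at h1
  have h3 : (cnj γ m z - c * y) • e = 0 := by rw [sub_smul, ← h1, sub_self]
  exact sub_eq_zero.1 ((smul_eq_zero.1 h3).resolve_right he0)

end Pool.Agent.H44.TW
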