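import Pool.Agent.H44.TW.GSemi

/-!
# The powers of the operator on the Selmer group
-/

set_option autoImplicit false

open NumberField Matrix
open Pool.Agent.H44.PC

namespace Pool.Agent.H44.TW

variable {p : ℕ} [Fact p.Prime] {K : Type} [NontriviallyNormedField K] [NormedAlgebra ℚ_[p] K]
  {F : IntermediateField ℚ (AlgebraicClosure ℚ)} {ρ : F.fixingSubgroup →* Matrix (Fin 2) (Fin 2) K}
  {t : (AlgebraicClosure ℚ) ≃ₐ[ℚ] (AlgebraicClosure ℚ)} {γ : K ≃ₐ[ℚ_[p]] K} {B B' : Matrix (Fin 2) (Fin 2) K}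

/-- the product `B γ(B) ⋯ γ^(m-1)(B)` -/
noncomputable def mprod (γ : K ≃ₐ[ℚ_[p]] K) (B : Matrix (Fin 2) (Fin 2) K) : ℕ → Matrix (Fin 2) (Fin 2) K
  | 0 => 1
  | m + 1 => B * (mprod γ B m).map γ

private theorem gmul (γ : K ≃ₐ[ℚ_[p]] K) (M : Matrix (Fin 2) (Fin 2) K) (v : Fin 2 → K) :
    (fun i => γ (M.mulVec v i)) = (M.map γ).mulVec fun i => γ (v i) := by
  funext i
  simp only [Matrix.mulVec, dotProduct, Matrix.map_apply, map_sum, map_mul]

private theorem op_iter (h : Sw ρ t γ B B') (m : ℕ) (z : F.fixingSubgroup → Fin 2 → K) (g : F.fixingSubgroup) :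
    h.op^[m] z g = (mprod γ B m).mulVec fun i => γ^[m] (z (h.cj^[m] g) i) := by
  induction m generalizing g with
  | zero =>
    show z g = (1 : Matrix (Fin 2) (Fin 2) K).mulVec (z g)
    rw [Matrix.one_mulVec]
  | succ m ih =>
    rw [Function.iterate_succ_apply']
    show B.mulVec (fun i => γ (h.op^[m] z (h.cj g) i)) =
      (B * (mprod γ B m).map γ).mulVec fun i => γ^[m + 1] (z (h.cj^[m + 1] g) i)
    rw [ih, gmul, Matrix.mulVec_mulVec, Function.iterate_succ_apply]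
    congr 1
    funext i
    rw [Function.iterate_succ_apply']

private theorem cj_iter (h : Sw ρ t γ B B') (m : ℕ) (g : F.fixingSubgroup) :
    ((h.cj^[m] g : F.fixingSubgroup) : (AlgebraicClosure ℚ) ≃ₐ[ℚ] (AlgebraicClosure ℚ)) =
      (t ^ m)⁻¹ * g * t ^ m := by
  induction m with
  | zero =>
    rw [Function.iterate_zero_apply, pow_zero, inv_one, one_mul, mul_one]
  | succ m ih =>
    rw [Function.iterate_succ_apply']
    show t⁻¹ * ((h.cj^[m] g : F.fixingSubgroup) : (AlgebraicClosure ℚ) ≃ₐ[ℚ] (AlgebraicClosure ℚ)) * t = _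
    rw [ih, pow_succ, _root_.mul_inv_rev]
    simp only [mul_assoc]

private theorem opH_iter_cls (h : Sw ρ t γ B B') (m : ℕ) (z : Z1f (AlgebraicClosure ℚ) p (vec ρ)) :
    h.opH^[m] (Tw.cls ρ z) = Tw.cls ρ (h.opZ^[m] z) := by
  induction m with
  | zero => rfl
  | succ m ih => rw [Function.iterate_succ_apply', ih, Sw.opH_cls, Function.iterate_succ_apply']

private theorem coe_opZ_iter (h : Sw ρ t γ B B') (m : ℕ) (z : Z1f (AlgebraicClosure ℚ) p (vec ρ)) :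
    ((h.opZ^[m] z : Z1f (AlgebraicClosure ℚ) p (vec ρ)) : F.fixingSubgroup → Fin 2 → K) =
      h.op^[m] (z : F.fixingSubgroup → Fin 2 → K) := by
  induction m with
  | zero => rfl
  | succ m ih =>
    rw [Function.iterate_succ_apply', Function.iterate_succ_apply', ← ih]
    rfl

private theorem cls_zero_iff (c : Z1f (AlgebraicClosure ℚ) p (vec ρ)) :
    Tw.cls (p := p) ρ c = 0 ↔ (c : F.fixingSubgroup → Fin 2 → K) ∈ B1 (vec ρ) :=
  Submodule.Quotient.mk_eq_zero ((B1 (vec ρ)).comap (Z1f (AlgebraicClosure ℚ) p (vec ρ)).subtype)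

/-- conjugation of the argument of a cocycle -/
private theorem coc_conj {z : F.fixingSubgroup → Fin 2 → K}
    (hz : ∀ g g', z (g * g') = z g + (ρ g).mulVec (z g')) (s g : F.fixingSubgroup) :
    (ρ s).mulVec (z (s⁻¹ * g * s)) = z g + ((ρ g).mulVec (z s) - z s) := by
  have h1 : z 1 = 0 := by
    have h3 := hz 1 1
    rw [mul_one, map_one, Matrix.one_mulVec] at h3
    exact left_eq_add.1 h3
  have h5 : (ρ s).mulVec (z s⁻¹) = -z s := by
    have h6 := hz s s⁻¹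
    rw [mul_inv_cancel, h1] at h6
    exact (neg_eq_of_add_eq_zero_right h6.symm).symm
  have h7 : ρ s * ρ s⁻¹ = 1 := by rw [← map_mul, mul_inv_cancel, map_one]
  rw [mul_assoc, hz, hz, Matrix.mulVec_add, h5, Matrix.mulVec_mulVec, h7, Matrix.one_mulVec]
  abel

/-- the `m`-th power of the operator on `H^1_f` -/
theorem opH_iter (h : Sw ρ t γ B B') (m : ℕ) (hγ : ∀ x, γ^[m] x = x) (htm : t ^ m ∈ F.fixingSubgroup)
    (c : K) (hc : mprod γ B m = c • ρ ⟨t ^ m, htm⟩)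
    (x : Quo (Z1f (AlgebraicClosure ℚ) p (vec ρ)) (B1 (vec ρ))) : h.opH^[m] x = c • x := by
  obtain ⟨z, rfl⟩ := Tw.cls_surj x
  rw [opH_iter_cls, ← map_smul, ← sub_eq_zero, ← map_sub, cls_zero_iff]
  refine ⟨c • (z : F.fixingSubgroup → Fin 2 → K) ⟨t ^ m, htm⟩, ?_⟩
  show cobd (vec ρ) _ = ((h.opZ^[m] z : Z1f (AlgebraicClosure ℚ) p (vec ρ)) :
    F.fixingSubgroup → Fin 2 → K) - c • (z : F.fixingSubgroup → Fin 2 → K)
  rw [coe_opZ_iter]
  funext g
  have hg : h.cj^[m] g = (⟨t ^ m, htm⟩ : F.fixingSubgroup)⁻¹ * g * ⟨t ^ m, htm⟩ :=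
    Subtype.ext (cj_iter h m g)
  have h1 : h.op^[m] (z : F.fixingSubgroup → Fin 2 → K) g =
      c • ((ρ ⟨t ^ m, htm⟩).mulVec
        ((z : F.fixingSubgroup → Fin 2 → K) ((⟨t ^ m, htm⟩ : F.fixingSubgroup)⁻¹ * g * ⟨t ^ m, htm⟩))) := by
    rw [op_iter, hc, hg, Matrix.smul_mulVec]
    congr 2
    funext i
    exact hγ _
  rw [Pi.sub_apply, h1, coc_conj (fun g g' => z.2.2 g g')]
  show (ρ g).mulVec (c • (z : F.fixingSubgroup → Fin 2 → K) ⟨t ^ m, htm⟩) -
    c • (z : F.fixingSubgroup → Fin 2 → K) ⟨t ^ m, htm⟩ = _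
  rw [Matrix.mulVec_smul, Pi.smul_apply, smul_add, smul_sub]
  abel

end Pool.Agent.H44.TW
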