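import Pool.Agent.H44.TW.GTr

/-!
# The traces of the representation and of its conjugate
-/

set_option autoImplicit false

open NumberField Matrix Polynomial
open Pool.Agent.H44.PC

namespace Pool.Agent.H44.TW

section aux

variable {F₁ : IntermediateField ℚ (AlgebraicClosure ℚ)} [NumberField F₁]

omit [NumberField F₁] in
private theorem qtr_notMem {v : Ideal (𝓞 F₁)} (hv : v.IsPrime) {q m : ℕ} (hq : q.Prime) (hm : 0 < m)
    (hlt : m < q) (hqv : (q : 𝓞 F₁) ∈ v) : (m : 𝓞 F₁) ∉ v := by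
  intro hmv
  have hc : Nat.Coprime m q := ((Nat.Prime.coprime_iff_not_dvd hq).2 fun h5 =>
    absurd (Nat.le_of_dvd hm h5) (not_le.2 hlt)).symm
  have hc' : IsCoprime (m : ℤ) (q : ℤ) := Nat.isCoprime_iff_coprime.2 hc
  obtain ⟨a, b, hab⟩ := hc'
  apply hv.ne_top
  rw [Ideal.eq_top_iff_one]
  have h1 : (1 : 𝓞 F₁) = (a : 𝓞 F₁) * (m : 𝓞 F₁) + (b : 𝓞 F₁) * (q : 𝓞 F₁) := by
    exact_mod_cast congrArg (Int.cast : ℤ → 𝓞 F₁) hab.symm
  rw [h1]
  exact v.add_mem (v.mul_mem_left _ hmv) (v.mul_mem_left _ hqv)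

/-- the data of a Frobenius element of degree one at a prime above a large `q` -/
private theorem qtr_data {p : ℕ} (hp : p.Prime) {bad : Ideal (𝓞 F₁)} (hbad : bad ≠ ⊥) {q : ℕ} (hq : q.Prime)
    (hlt : p + Ideal.absNorm bad < q) {P : Ideal (𝓞 (AlgebraicClosure ℚ))} (hP : P.IsPrime)
    (hqP : (q : 𝓞 (AlgebraicClosure ℚ)) ∈ P) (σ : F₁.fixingSubgroup)
    (hσ : ∀ x : 𝓞 (AlgebraicClosure ℚ),
      (σ : ((AlgebraicClosure ℚ) ≃ₐ[ℚ] (AlgebraicClosure ℚ))) • x - x ^ q ∈ P) :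
    (P.comap (algebraMap (𝓞 F₁) (𝓞 (AlgebraicClosure ℚ)))).IsPrime ∧
    P.comap (algebraMap (𝓞 F₁) (𝓞 (AlgebraicClosure ℚ))) ≠ ⊥ ∧
    ¬ bad ≤ P.comap (algebraMap (𝓞 F₁) (𝓞 (AlgebraicClosure ℚ))) ∧
    (p : 𝓞 F₁) ∉ P.comap (algebraMap (𝓞 F₁) (𝓞 (AlgebraicClosure ℚ))) ∧
    Ideal.absNorm (P.comap (algebraMap (𝓞 F₁) (𝓞 (AlgebraicClosure ℚ)))) = q ∧
    IsFrob (P.comap (algebraMap (𝓞 F₁) (𝓞 (AlgebraicClosure ℚ)))) σ := by
  have hv : (P.comap (algebraMap (𝓞 F₁) (𝓞 (AlgebraicClosure ℚ)))).IsPrime := Ideal.comap_isPrime _ _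
  have hN := absNorm_eq hq P hqP σ hσ
  have hqv : (q : 𝓞 F₁) ∈ P.comap (algebraMap (𝓞 F₁) (𝓞 (AlgebraicClosure ℚ))) := by
    rw [Ideal.mem_comap, map_natCast]
    exact hqP
  refine ⟨hv, ?_, ?_, ?_, hN, ⟨P, hP, rfl, ?_⟩⟩
  · intro h0
    rw [h0, Ideal.mem_bot, Nat.cast_eq_zero] at hqv
    exact hq.ne_zero hqv
  · intro hle
    have h2 : 0 < Ideal.absNorm bad :=
      Nat.pos_of_ne_zero fun h0 => hbad (Ideal.absNorm_eq_zero_iff.1 h0)
    exact qtr_notMem hv hq h2 (by omega) hqv (hle (Ideal.absNorm_mem bad))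
  · exact qtr_notMem hv hq hp.pos (by omega) hqv
  · rw [hN]
    exact hσ

end aux

private theorem qtr_map_pow {R S : Type} [CommRing R] [CommRing S] (f : R →+* S) (M : Matrix (Fin 2) (Fin 2) R)
    (j : ℕ) : ((M.map f) ^ j).trace = f (M ^ j).trace := by
  have h1 : (M.map f) ^ j = (M ^ j).map f := by
    have h2 := map_pow (RingHom.mapMatrix f : Matrix (Fin 2) (Fin 2) R →+* Matrix (Fin 2) (Fin 2) S) M j
    simpa only [RingHom.mapMatrix_apply] using h2.symm
  rw [h1, Matrix.trace, Matrix.trace, map_sum]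
  rfl

variable {p : ℕ} [Fact p.Prime] {K : Type} [NontriviallyNormedField K] [NormedAlgebra ℚ_[p] K]
  {F : IntermediateField ℚ (AlgebraicClosure ℚ)} [NumberField F] {E : Subfield ℂ}
  {ρ : F.fixingSubgroup →* Matrix (Fin 2) (Fin 2) K}

/-- the traces of `ρ` and of its conjugate by `t` and `γ` -/
theorem trace_conj (hp : p.Prime) {ι : E →+* K} {C : Ideal (𝓞 F) → ℂ} {bad : Ideal (𝓞 F)} (hbad : bad ≠ ⊥)
    (hρ : Att (K := K) ι p (fun v => ¬ bad ≤ v) C ρ)
    (τ : F ≃ₐ[ℚ] F) (t : (AlgebraicClosure ℚ) ≃ₐ[ℚ] (AlgebraicClosure ℚ)) (ht : ∀ x : F, t x = τ x)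
    (γ : K ≃ₐ[ℚ_[p]] K) (hγ : Continuous γ)
    (hC : ∀ v : Ideal (𝓞 F), v.IsPrime → v ≠ ⊥ → ¬ bad ≤ v → (p : 𝓞 F) ∉ v → ∀ A A' : E, (A : ℂ) = C v →
      (A' : ℂ) = C (v.map (RingOfIntegers.mapRingHom τ.toRingEquiv.toRingHom)) → γ (ι A) = ι A')
    (x y : F.fixingSubgroup)
    (hxy : (y : (AlgebraicClosure ℚ) ≃ₐ[ℚ] (AlgebraicClosure ℚ)) = t⁻¹ * x * t) :
    γ (ρ y).trace = (ρ x).trace := by
  have hc : Continuous fun A : Matrix (Fin 2) (Fin 2) K => A.trace := Continuous.matrix_trace continuous_id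
  -- conjugation by `t` preserves the group of `F`
  have hcj : ∀ x : F.fixingSubgroup, t⁻¹ * (x : (AlgebraicClosure ℚ) ≃ₐ[ℚ] (AlgebraicClosure ℚ)) * t ∈
      F.fixingSubgroup := by
    intro x
    rw [IntermediateField.mem_fixingSubgroup_iff]
    intro z hz
    show t⁻¹ ((x : (AlgebraicClosure ℚ) ≃ₐ[ℚ] (AlgebraicClosure ℚ)) (t z)) = z
    have h1 : t z = ((τ ⟨z, hz⟩ : F) : AlgebraicClosure ℚ) := ht ⟨z, hz⟩
    have h2 : (x : (AlgebraicClosure ℚ) ≃ₐ[ℚ] (AlgebraicClosure ℚ)) (t z) = t z := by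
      rw [h1]
      exact (IntermediateField.mem_fixingSubgroup_iff _ _).1 x.2 _ (SetLike.coe_mem _)
    rw [h2]
    show (t⁻¹ * t) z = z
    rw [inv_mul_cancel]
    rfl
  let cj : F.fixingSubgroup →* F.fixingSubgroup :=
    { toFun := fun x => ⟨t⁻¹ * x * t, hcj x⟩
      map_one' := by
        apply Subtype.ext
        simp
      map_mul' := fun a b => by
        apply Subtype.ext
        simp only [Subgroup.coe_mul]
        group }
  have hcjc : Continuous cj := by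
    refine Continuous.subtype_mk ?_ _
    exact (continuous_const.mul continuous_subtype_val).mul continuous_const
  have hyx : y = cj x := Subtype.ext hxy
  have key := eq_of_frob (F := F) (fun x => γ (ρ (cj x)).trace) (fun x => (ρ x).trace)
    (hγ.comp (hc.comp (hρ.cont.comp hcjc))) (hc.comp hρ.cont)
    (p + Ideal.absNorm bad) (by
      intro q P σ j hq hlt hP hqP hσ
      show γ (ρ (cj (σ ^ j))).trace = (ρ (σ ^ j)).trace
      rw [map_pow cj, map_pow ρ, map_pow ρ]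
      obtain ⟨hv1, hv2, hv3, hv4, hv5, hv6⟩ := qtr_data (F₁ := F) hp hbad hq hlt hP hqP σ hσ
      have hσ' : ∀ x : 𝓞 (AlgebraicClosure ℚ),
          ((cj σ : F.fixingSubgroup) : ((AlgebraicClosure ℚ) ≃ₐ[ℚ] (AlgebraicClosure ℚ))) • x - x ^ q ∈
            P.comap (Tw.ooMap t) := by
        intro x
        rw [Ideal.mem_comap, map_sub, map_pow, Tw.ooMap_apply, Tw.ooMap_apply]
        have h3 : t • ((cj σ : F.fixingSubgroup) : ((AlgebraicClosure ℚ) ≃ₐ[ℚ] (AlgebraicClosure ℚ))) • x =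
            (σ : ((AlgebraicClosure ℚ) ≃ₐ[ℚ] (AlgebraicClosure ℚ))) • t • x := by
          rw [smul_smul, smul_smul]
          congr 1
          show t * (t⁻¹ * (σ : ((AlgebraicClosure ℚ) ≃ₐ[ℚ] (AlgebraicClosure ℚ))) * t) = _
          group
        rw [h3]
        exact hσ (t • x)
      have hP' : (P.comap (Tw.ooMap t)).IsPrime := Ideal.comap_isPrime _ _
      have hqP' : (q : 𝓞 (AlgebraicClosure ℚ)) ∈ P.comap (Tw.ooMap t) := by
        rw [Ideal.mem_comap, map_natCast]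
        exact hqP
      obtain ⟨hu1, hu2, hu3, hu4, hu5, hu6⟩ := qtr_data (F₁ := F) hp hbad hq hlt hP' hqP' (cj σ) hσ'
      have hmap : ((P.comap (Tw.ooMap t)).comap (algebraMap (𝓞 F) (𝓞 (AlgebraicClosure ℚ)))).map
          (RingOfIntegers.mapRingHom τ.toRingEquiv.toRingHom) =
          P.comap (algebraMap (𝓞 F) (𝓞 (AlgebraicClosure ℚ))) := by
        have hco : (P.comap (Tw.ooMap t)).comap (algebraMap (𝓞 F) (𝓞 (AlgebraicClosure ℚ))) =
            (P.comap (algebraMap (𝓞 F) (𝓞 (AlgebraicClosure ℚ)))).comap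
              (RingOfIntegers.mapRingHom τ.toRingEquiv.toRingHom) := by
          rw [Ideal.comap_comap, Ideal.comap_comap]
          congr 1
          refine RingHom.ext fun z => ?_
          apply RingOfIntegers.coe_injective
          exact ht z
        rw [hco]
        refine Ideal.map_comap_of_surjective _ ?_ _
        intro z
        refine ⟨RingOfIntegers.mapRingHom τ.symm.toRingEquiv.toRingHom z, ?_⟩
        apply RingOfIntegers.coe_injective
        exact τ.apply_symm_apply z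
      obtain ⟨A, hA, hA'⟩ := hρ.frob _ hu1 hu2 hu3 hu4 (cj σ) hu6
      obtain ⟨B, hB, hB'⟩ := hρ.frob _ hv1 hv2 hv3 hv4 σ hv6
      rw [Algebra.algebraMap_self, Polynomial.map_id, hu5] at hA'
      rw [Algebra.algebraMap_self, Polynomial.map_id, hv5] at hB'
      have hAB := hC _ hu1 hu2 hu3 hu4 A B hA (by rw [hmap]; exact hB)
      have hA2 : ((ρ (cj σ)).map γ.toRingEquiv.toRingHom).charpoly =
          X ^ 2 - Polynomial.C (ι B) * X + Polynomial.C (q : K) := by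
        rw [Matrix.charpoly_map, hA']
        simp only [Polynomial.map_add, Polynomial.map_sub, Polynomial.map_pow, Polynomial.map_mul, Polynomial.map_X,
          Polynomial.map_C]
        rw [← hAB]
        simp
      have h10 := trace_pow_eq hA2 hB' j
      rw [qtr_map_pow] at h10
      exact h10)
  rw [hyx]
  exact congrFun key x

end Pool.Agent.H44.TW
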