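import Pool.Agent.H44.TW.Eul

/-!
# The primes of a quadratic extension
-/

set_option autoImplicit false

open NumberField

namespace Pool.Agent.H44.TW

variable {F M : Type} [Field F] [NumberField F] [Field M] [NumberField M]

section alg

variable [Algebra F M]

private theorem split_sum (h2 : Module.finrank F M = 2) {v : Ideal (𝓞 F)} [v.IsMaximal] (h0 : v ≠ ⊥) :
    ∑ u ∈ IsDedekindDomain.primesOverFinset v (𝓞 M), v.ramificationIdx' u * v.inertiaDeg' u = 2 := by
  rw [← h2]
  exact Ideal.sum_ramification_inertia (𝓞 M) F M h0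

/-- the decomposition of a prime which is unramified in a quadratic extension -/
theorem split_law (h2 : Module.finrank F M = 2) {v : Ideal (𝓞 F)} (hv : v.IsPrime) (h0 : v ≠ ⊥)
    (hunr : ∀ w : Ideal (𝓞 M), w.IsPrime → w.comap (algebraMap (𝓞 F) (𝓞 M)) = v →
      ¬ v.map (algebraMap (𝓞 F) (𝓞 M)) ≤ w ^ 2) :
    (∃ w w' : Ideal (𝓞 M), w ≠ w' ∧ Ideal.absNorm w = Ideal.absNorm v ∧ Ideal.absNorm w' = Ideal.absNorm v ∧
      ∀ u : Ideal (𝓞 M), u.IsPrime ∧ u.comap (algebraMap (𝓞 F) (𝓞 M)) = v ↔ u = w ∨ u = w') ∨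
    ∃ w : Ideal (𝓞 M), Ideal.absNorm w = Ideal.absNorm v ^ 2 ∧
      ∀ u : Ideal (𝓞 M), u.IsPrime ∧ u.comap (algebraMap (𝓞 F) (𝓞 M)) = v ↔ u = w := by
  classical
  have : v.IsMaximal := hv.isMaximal h0
  have hmem : ∀ u : Ideal (𝓞 M), u ∈ IsDedekindDomain.primesOverFinset v (𝓞 M) ↔
      (u.IsPrime ∧ u.comap (algebraMap (𝓞 F) (𝓞 M)) = v) := by
    intro u
    rw [IsDedekindDomain.mem_primesOverFinset_iff h0]
    constructor
    · rintro ⟨h1, h2⟩
      exact ⟨h1, h2.over.symm⟩
    · rintro ⟨h1, h2⟩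
      exact ⟨h1, ⟨h2.symm⟩⟩
  have hsum := split_sum (F := F) (M := M) h2 h0
  have he : ∀ u ∈ IsDedekindDomain.primesOverFinset v (𝓞 M), v.ramificationIdx' u = 1 := by
    intro u hu
    obtain ⟨h1, h3⟩ := (hmem u).1 hu
    have := h1
    have : u.LiesOver v := ⟨h3.symm⟩
    have h4 : v.ramificationIdx' u ≠ 0 :=
      Ideal.IsDedekindDomain.ramificationIdx'_ne_zero_of_liesOver _ h0
    have h5 : v.ramificationIdx' u < 2 := Ideal.ramificationIdx'_lt (hunr u h1 h3)
    omega
  have hf : ∀ u ∈ IsDedekindDomain.primesOverFinset v (𝓞 M), v.inertiaDeg' u ≠ 0 ∧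
      Ideal.absNorm u = Ideal.absNorm v ^ v.inertiaDeg' u := by
    intro u hu
    obtain ⟨h1, h3⟩ := (hmem u).1 hu
    have := h1
    have : u.LiesOver v := ⟨h3.symm⟩
    exact ⟨Ideal.inertiaDeg'_ne_zero v u, Ideal.absNorm_eq_pow_inertiaDeg'_of_liesOver u v hv h0⟩
  have hsum' : ∑ u ∈ IsDedekindDomain.primesOverFinset v (𝓞 M), v.inertiaDeg' u = 2 := by
    rw [← hsum]
    refine Finset.sum_congr rfl fun u hu => ?_
    rw [he u hu, one_mul]
  revert hmem hf hsum'
  generalize IsDedekindDomain.primesOverFinset v (𝓞 M) = S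
  intro hmem hf hsum'
  have hcard : S.card ≤ 2 := by
    rw [← hsum', Finset.card_eq_sum_ones]
    exact Finset.sum_le_sum fun u hu => Nat.one_le_iff_ne_zero.2 (hf u hu).1
  have hne : S.Nonempty := by
    rw [Finset.nonempty_iff_ne_empty]
    rintro rfl
    simp at hsum'
  have hpos : 0 < S.card := hne.card_pos
  rcases (show S.card = 1 ∨ S.card = 2 by omega) with h1 | h1
  · right
    obtain ⟨w, rfl⟩ := Finset.card_eq_one.1 h1
    have hw := (hf w (Finset.mem_singleton_self w)).2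
    rw [Finset.sum_singleton] at hsum'
    rw [hsum'] at hw
    refine ⟨w, hw, fun u => ?_⟩
    rw [← hmem u, Finset.mem_singleton]
  · left
    obtain ⟨w, w', hww, rfl⟩ := Finset.card_eq_two.1 h1
    have hw := hf w (Finset.mem_insert_self w _)
    have hw' := hf w' (Finset.mem_insert_of_mem (Finset.mem_singleton_self w'))
    rw [Finset.sum_pair hww] at hsum'
    have h3 : v.inertiaDeg' w = 1 := by
      have := hw.1
      have := hw'.1
      omega
    have h4 : v.inertiaDeg' w' = 1 := by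
      have := hw.1
      have := hw'.1
      omega
    refine ⟨w, w', hww, ?_, ?_, fun u => ?_⟩
    · rw [hw.2, h3, pow_one]
    · rw [hw'.2, h4, pow_one]
    · rw [← hmem u, Finset.mem_insert, Finset.mem_singleton]

end alg

end Pool.Agent.H44.TW
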