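import Pool.Agent.H44.TW.ADefs

/-!
# The statement of the parity theorem for base changes of twisted-conjugate newforms: definitions
-/

set_option autoImplicit false

open NumberField

namespace Pool.Agent.H44.TW

open Pool.Agent.H44.PC

/-- the Euler product over the good primes `w` of `M`, with the eigenvalues `t w`, is entire and has even order of
vanishing at the centre `s = 0` -/
def EulerEven {F M : Type} [Field F] [NumberField F] [Field M] [NumberField M] (i : 𝓞 F →+* 𝓞 M) (bad : Ideal (𝓞 F))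
    (t : Ideal (𝓞 M) → ℂ) : Prop :=
  ∃ Λ : ℂ → ℂ, Differentiable ℂ Λ ∧
    (∀ s : ℂ, 1 < s.re → HasProd (fun w : GoodM i bad =>
      (1 - t w.1 * (Ideal.absNorm w.1 : ℂ) ^ (-1 - s) + (Ideal.absNorm w.1 : ℂ) ^ (-1 - 2 * s))⁻¹) (Λ s)) ∧
    ∃ m : ℕ, analyticOrderAt Λ 0 = ((2 * m : ℕ) : ℕ∞)

/-- some eigenvalue `ι(C(v))`, `v` a good prime not above `p`, is not in `K` -/
def Larger (K : Type) [NontriviallyNormedField K] {L : Type} [NontriviallyNormedField L] [NormedAlgebra K L]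
    {E : Subfield ℂ} (ι : E →+* L) (p : ℕ) {F : Type} [Field F] [NumberField F] (bad : Ideal (𝓞 F))
    (C : Ideal (𝓞 F) → ℂ) : Prop :=
  ∃ v : Ideal (𝓞 F), v.IsPrime ∧ v ≠ ⊥ ∧ ¬ bad ≤ v ∧ (p : 𝓞 F) ∉ v ∧
    ∃ A : E, (A : ℂ) = C v ∧ ι A ∉ Set.range (algebraMap K L)

/-- there are an automorphism `τ` of `F₀` which extends to an automorphism `t` with `t F ⊂ F`, and a continuous automorphism
`γ` of `L` which restricts to a continuous automorphism of `K` over `ℚ_p`, such that `γ(ι(C(v))) = χ(v) ι(C(τ v))` for all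
good primes `v` not above `p` -/
def TwistSymm (K : Type) [NontriviallyNormedField K] {L : Type} [NontriviallyNormedField L] [NormedAlgebra K L]
    {E : Subfield ℂ} (ι : E →+* L) (p : ℕ) [Fact p.Prime] [NormedAlgebra ℚ_[p] K]
    {F₀ F : IntermediateField ℚ (AlgebraicClosure ℚ)} [NumberField F₀] [NumberField F] (h : F₀ ≤ F)
    (bad : Ideal (𝓞 F₀)) (C : Ideal (𝓞 F₀) → ℂ) : Prop :=
  ∃ (τ : F₀ ≃ₐ[ℚ] F₀) (t : (AlgebraicClosure ℚ) ≃ₐ[ℚ] (AlgebraicClosure ℚ)) (γ₀ : K ≃ₐ[ℚ_[p]] K) (γ : L ≃+* L),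
    (∀ x : F₀, t x = τ x) ∧ (∀ x ∈ F, t x ∈ F) ∧ Continuous γ₀ ∧ Continuous γ ∧
    (∀ x : K, γ (algebraMap K L x) = algebraMap K L (γ₀ x)) ∧
    ∀ v : Ideal (𝓞 F₀), v.IsPrime → v ≠ ⊥ → ¬ bad ≤ v → (p : 𝓞 F₀) ∉ v → ∀ A A' : E, (A : ℂ) = C v →
      (A' : ℂ) = C (v.map (RingOfIntegers.mapRingHom τ.toRingEquiv.toRingHom)) →
        γ (ι A) = (chi (incl h) v : L) * ι A'

end Pool.Agent.H44.TW
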