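import Pool.Agent.H44.TW.Mellin
import Pool.Agent.H44.TW.Narrow

/-!
# Unfolding
-/

set_option autoImplicit false

open NumberField MeasureTheory

namespace Pool.Agent.H44.TW

section one

/-- the Mellin transform of the exponential function, in logarithmic coordinates -/
private theorem unf_int {w : ℂ} {r : ℝ} (hw : 0 < w.re) (hr : 0 < r) :
    ∫ x : ℝ, Complex.exp (-((r * Real.exp x : ℝ) : ℂ)) * Complex.exp (w * x) =
      (r : ℂ) ^ (-w) * Complex.Gamma w := by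
  have h0 := Complex.integral_cpow_mul_exp_neg_mul_Ioi hw hr
  have h1 := integral_image_eq_integral_abs_deriv_smul (s := Set.univ) (f := Real.exp)
    (f' := Real.exp) MeasurableSet.univ (fun x _ => (Real.hasDerivAt_exp x).hasDerivWithinAt)
    Real.exp_injective.injOn fun t : ℝ => (t : ℂ) ^ (w - 1) * Complex.exp (-(r * t))
  rw [Set.image_univ, Real.range_exp, h0] at h1
  have h2 : (1 / r : ℂ) ^ w = (r : ℂ) ^ (-w) := by
    rw [one_div, Complex.inv_cpow, Complex.cpow_neg]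
    rw [Complex.arg_ofReal_of_nonneg hr.le]
    exact Real.pi_pos.ne
  rw [← h2, h1, setIntegral_univ]
  refine integral_congr_ae (Filter.Eventually.of_forall fun x => ?_)
  show Complex.exp (-((r * Real.exp x : ℝ) : ℂ)) * Complex.exp (w * x) =
    |Real.exp x| • (((Real.exp x : ℝ) : ℂ) ^ (w - 1) * Complex.exp (-(r * (Real.exp x : ℝ))))
  have h3 : ((Real.exp x : ℝ) : ℂ) ≠ 0 := by
    rw [Complex.ofReal_ne_zero]
    exact (Real.exp_pos x).ne'
  have h4 : ((Real.exp x : ℝ) : ℂ) ^ (w - 1) * ((Real.exp x : ℝ) : ℂ) = Complex.exp (w * x) := by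
    rw [Complex.cpow_sub _ _ h3, Complex.cpow_one, div_mul_cancel₀ _ h3, Complex.cpow_def_of_ne_zero h3,
      ← Complex.ofReal_log (Real.exp_pos x).le, Real.log_exp, mul_comm]
  rw [abs_of_pos (Real.exp_pos x), ← h4, Complex.real_smul]
  push_cast
  ring

/-- the factor of one variable -/
private noncomputable def unf_ph (n : ℕ) (a : ℝ) (s : ℂ) (x : ℝ) : ℂ :=
  (a : ℂ) ^ (n - 1) * (Complex.exp (-((2 * Real.pi * a * Real.exp x : ℝ) : ℂ)) *
    Complex.exp ((s + n) * x))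

private theorem unf_ph_int {n : ℕ} (hn : 0 < n) {a : ℝ} (ha : 0 < a) {s : ℂ} (hs : 0 < s.re) :
    ∫ x : ℝ, unf_ph n a s x = (2 * Real.pi : ℂ) ^ (-(s + n)) * Complex.Gamma (s + n) *
      (a : ℂ) ^ (-1 - s) := by
  have h1 : 0 < (s + n).re := by
    rw [Complex.add_re, Complex.natCast_re]
    positivity
  unfold unf_ph
  rw [integral_const_mul, unf_int h1 (by positivity : 0 < 2 * Real.pi * a)]
  have h2 : ((2 * Real.pi * a : ℝ) : ℂ) ^ (-(s + n)) =
      (2 * Real.pi : ℂ) ^ (-(s + n)) * (a : ℂ) ^ (-(s + n)) := by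
    rw [Complex.ofReal_mul, Complex.mul_cpow_ofReal_nonneg (by positivity) ha.le]
    push_cast
    rfl
  have ha' : (a : ℂ) ≠ 0 := by exact_mod_cast ha.ne'
  have h3 : (a : ℂ) ^ (n - 1) * (a : ℂ) ^ (-(s + n)) = (a : ℂ) ^ (-1 - s) := by
    rw [← Complex.cpow_natCast, ← Complex.cpow_add _ _ ha', Nat.cast_sub hn]
    congr 1
    push_cast
    ring
  rw [h2, ← h3]
  ring

private theorem unf_ph_integrable {n : ℕ} (hn : 0 < n) {a : ℝ} (ha : 0 < a) {s : ℂ}
    (hs : 0 < s.re) : Integrable (unf_ph n a s) := by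
  by_contra hcon
  have h1 := unf_ph_int hn ha hs
  rw [integral_undef hcon] at h1
  have h2 : 0 < (s + n).re := by
    rw [Complex.add_re, Complex.natCast_re]
    positivity
  have ha' : (a : ℂ) ≠ 0 := by exact_mod_cast ha.ne'
  have hp : (2 * Real.pi : ℂ) ≠ 0 := by
    exact_mod_cast (by positivity : (2 * Real.pi : ℝ) ≠ 0)
  refine mul_ne_zero (mul_ne_zero ?_ (Complex.Gamma_ne_zero_of_re_pos h2)) ?_ h1.symm
  · rw [Complex.cpow_def_of_ne_zero hp]
    exact Complex.exp_ne_zero _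
  · rw [Complex.cpow_def_of_ne_zero ha']
    exact Complex.exp_ne_zero _

private theorem unf_ph_norm (n : ℕ) {a : ℝ} (ha : 0 < a) (s : ℂ) (x : ℝ) :
    ((‖unf_ph n a s x‖ : ℝ) : ℂ) = unf_ph n a (s.re : ℂ) x := by
  unfold unf_ph
  rw [norm_mul, norm_mul, norm_pow, Complex.norm_real, Complex.norm_exp, Complex.norm_exp]
  rw [Real.norm_of_nonneg ha.le, Complex.neg_re, Complex.ofReal_re]
  have h1 : ((s + n) * x).re = (s.re + n) * x := by
    rw [Complex.mul_re, Complex.ofReal_re, Complex.ofReal_im, mul_zero, sub_zero, Complex.add_re,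
      Complex.natCast_re]
  rw [h1]
  push_cast
  rfl

end one

variable {F : Type} [Field F] [NumberField F] [IsTotallyReal F]

/-- the Gamma factors `∏ (2π)^{-s-k_σ/2} Γ(s + k_σ/2)` -/
noncomputable def Gam (k : (F →+* ℝ) → ℕ) (s : ℂ) : ℂ :=
  ∏ σ : F →+* ℝ, (2 * Real.pi : ℂ) ^ (-(s + (k σ / 2 : ℕ))) * Complex.Gamma (s + (k σ / 2 : ℕ))

/-- the product of the factors -/
private noncomputable def unf_h (k : (F →+* ℝ) → ℕ) (a : F) (s : ℂ) (x : (F →+* ℝ) → ℝ) : ℂ :=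
  ∏ σ : F →+* ℝ, unf_ph (k σ / 2) (σ a) s (x σ)

private theorem unf_half {k : (F →+* ℝ) → ℕ} (hk : ∀ σ, Even (k σ) ∧ 0 < k σ) (σ : F →+* ℝ) :
    0 < k σ / 2 := by
  obtain ⟨⟨m, hm⟩, h0⟩ := hk σ
  omega

private theorem unf_h_integrable {k : (F →+* ℝ) → ℕ} (hk : ∀ σ, Even (k σ) ∧ 0 < k σ) {a : F}
    (ha : TPos a) {s : ℂ} (hs : 0 < s.re) : Integrable (unf_h k a s) :=
  Integrable.fintype_prod fun σ => unf_ph_integrable (unf_half hk σ) (ha σ) hs

private theorem unf_cpow {ι : Type} (s : Finset ι) (f : ι → ℝ) (hf : ∀ i ∈ s, 0 ≤ f i) (c : ℂ) :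
    ∏ i ∈ s, (f i : ℂ) ^ c = ((∏ i ∈ s, f i : ℝ) : ℂ) ^ c := by
  classical
  induction s using Finset.induction_on with
  | empty => simp
  | insert a s ha ih =>
    rw [Finset.prod_insert ha, Finset.prod_insert ha, ih fun i hi => hf i (Finset.mem_insert_of_mem hi),
      Complex.ofReal_mul, Complex.mul_cpow_ofReal_nonneg (hf a (Finset.mem_insert_self _ _))
        (Finset.prod_nonneg fun i hi => hf i (Finset.mem_insert_of_mem hi))]

private theorem unf_h_int {k : (F →+* ℝ) → ℕ} (hk : ∀ σ, Even (k σ) ∧ 0 < k σ) {ν : 𝓞 F}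
    (ha : TPos (ν : F)) {s : ℂ} (hs : 0 < s.re) :
    ∫ x, unf_h k (ν : F) s x = Gam k s * (Ideal.absNorm (Ideal.span {ν}) : ℂ) ^ (-1 - s) := by
  unfold unf_h
  rw [integral_fintype_prod_volume_eq_prod fun (σ : F →+* ℝ) (x : ℝ) =>
    unf_ph (k σ / 2) (σ (ν : F)) s x]
  rw [Finset.prod_congr rfl fun σ _ => unf_ph_int (unf_half hk σ) (ha σ) hs, Finset.prod_mul_distrib,
    unf_cpow _ _ (fun σ _ => (ha σ).le), prod_eq_absNorm ha]
  rfl

private theorem unf_h_norm (k : (F →+* ℝ) → ℕ) {a : F} (ha : TPos a) (s : ℂ)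
    (x : (F →+* ℝ) → ℝ) : ((‖unf_h k a s x‖ : ℝ) : ℂ) = unf_h k a (s.re : ℂ) x := by
  unfold unf_h
  rw [norm_prod, Complex.ofReal_prod]
  exact Finset.prod_congr rfl fun σ _ => unf_ph_norm _ (ha σ) s (x σ)

private theorem unf_h_int_norm {k : (F →+* ℝ) → ℕ} (hk : ∀ σ, Even (k σ) ∧ 0 < k σ) {ν : 𝓞 F}
    (ha : TPos (ν : F)) {s : ℂ} (hs : 0 < s.re) :
    ∫ x, ‖unf_h k (ν : F) s x‖ =
      ‖Gam k (s.re : ℂ)‖ * (Ideal.absNorm (Ideal.span {ν}) : ℝ) ^ (-1 - s.re) := by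
  have hs' : 0 < ((s.re : ℝ) : ℂ).re := by rwa [Complex.ofReal_re]
  have h1 : ((∫ x, ‖unf_h k (ν : F) s x‖ : ℝ) : ℂ) =
      Gam k (s.re : ℂ) * (Ideal.absNorm (Ideal.span {ν}) : ℂ) ^ (-1 - (s.re : ℂ)) := by
    have h0 : ∫ x, ((‖unf_h k (ν : F) s x‖ : ℝ) : ℂ) = ((∫ x, ‖unf_h k (ν : F) s x‖ : ℝ) : ℂ) :=
      integral_ofReal
    rw [← unf_h_int hk ha hs', ← h0]
    exact integral_congr_ae (Filter.Eventually.of_forall fun x => unf_h_norm k ha s x)
  have h2 : (0 : ℝ) < (Ideal.absNorm (Ideal.span {ν}) : ℝ) := by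
    rw [← prod_eq_absNorm ha]
    exact Finset.prod_pos fun σ _ => ha σ
  have h3 := congrArg norm h1
  rw [Complex.norm_real, Real.norm_of_nonneg (integral_nonneg fun x => norm_nonneg _)] at h3
  rw [h3, norm_mul]
  congr 1
  have h4 : (Ideal.absNorm (Ideal.span {ν}) : ℂ) = (((Ideal.absNorm (Ideal.span {ν}) : ℝ)) : ℂ) := by
    push_cast
    rfl
  rw [h4, Complex.norm_cpow_eq_rpow_re_of_pos h2]
  congr 1

/-- translation by the logarithm of a totally positive unit -/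
private theorem unf_h_unit {k : (F →+* ℝ) → ℕ} (hk : ∀ σ, Even (k σ) ∧ 0 < k σ) {a : F}
    (ha : TPos a) (u : TPU F) (s : ℂ) (x : (F →+* ℝ) → ℝ) :
    unf_h k a s (lg (((u : (𝓞 F)ˣ) : 𝓞 F) : F) + x) =
      unf_h k ((((u : (𝓞 F)ˣ) : 𝓞 F) : F) * a) s x := by
  have hu : TPos ((((u : (𝓞 F)ˣ) : 𝓞 F) : F)) := u.2
  have h1 : ∀ σ : F →+* ℝ, unf_ph (k σ / 2) (σ a) s ((lg (((u : (𝓞 F)ˣ) : 𝓞 F) : F) + x) σ) =
      Complex.exp ((s + 1) * (lg (((u : (𝓞 F)ˣ) : 𝓞 F) : F) σ : ℝ)) *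
        unf_ph (k σ / 2) (σ ((((u : (𝓞 F)ˣ) : 𝓞 F) : F) * a)) s (x σ) := by
    intro σ
    obtain ⟨n, hn⟩ : ∃ n, k σ / 2 = n + 1 := ⟨k σ / 2 - 1, by have := unf_half hk σ; omega⟩
    obtain ⟨l, hl⟩ : ∃ l, l = lg (((u : (𝓞 F)ˣ) : 𝓞 F) : F) σ := ⟨_, rfl⟩
    have hlu : σ (((u : (𝓞 F)ˣ) : 𝓞 F) : F) = Real.exp l := by
      rw [hl]
      exact (Real.exp_log (hu σ)).symm
    rw [hn, map_mul, hlu, Pi.add_apply, ← hl]
    unfold unf_ph
    rw [Nat.add_sub_cancel]
    have h2 : 2 * Real.pi * σ a * Real.exp (l + x σ) =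
        2 * Real.pi * (Real.exp l * σ a) * Real.exp (x σ) := by
      rw [Real.exp_add]
      ring
    have h3 : Complex.exp ((s + ((n + 1 : ℕ) : ℂ)) * ((l + x σ : ℝ) : ℂ)) =
        Complex.exp ((s + 1) * (l : ℂ)) * ((Real.exp l : ℝ) : ℂ) ^ n *
          Complex.exp ((s + ((n + 1 : ℕ) : ℂ)) * (x σ : ℂ)) := by
      rw [Complex.ofReal_exp, ← Complex.exp_nat_mul, ← Complex.exp_add, ← Complex.exp_add]
      congr 1
      push_cast
      ring
    rw [h2, h3, Complex.ofReal_mul (Real.exp l) (σ a), mul_pow]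
    ring
  unfold unf_h
  rw [Finset.prod_congr rfl fun σ _ => h1 σ, Finset.prod_mul_distrib, ← Complex.exp_sum,
    ← Finset.mul_sum, ← Complex.ofReal_sum, sum_lg, Complex.ofReal_zero, mul_zero, Complex.exp_zero,
    one_mul]

/-- the terms -/
private theorem unf_term {k : (F →+* ℝ) → ℕ} (hk : ∀ σ, Even (k σ) ∧ 0 < k σ)
    (C : Ideal (𝓞 F) → ℂ) (b : Ideal (𝓞 F)) (s : ℂ) (x : (F →+* ℝ) → ℝ) (ν : Pos b) :
    term k C b (fun σ => Complex.I * ((Real.exp (x σ) : ℝ) : ℂ)) ν *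
      ((∏ σ : F →+* ℝ, ((Real.exp ((k σ : ℝ) * x σ / 2) : ℝ) : ℂ)) *
        Complex.exp (s * ((∑ σ, x σ : ℝ) : ℂ))) = C (quo b ν) * unf_h k (ν.1 : F) s x := by
  unfold term unf_h unf_ph
  rw [Finset.prod_mul_distrib, Finset.prod_mul_distrib, ← Complex.exp_sum, ← Complex.exp_sum]
  have h1 : 2 * Real.pi * Complex.I * ∑ σ : F →+* ℝ, ((σ (ν.1 : F) : ℝ) : ℂ) *
      (Complex.I * ((Real.exp (x σ) : ℝ) : ℂ)) =
      ∑ σ : F →+* ℝ, -((2 * Real.pi * σ (ν.1 : F) * Real.exp (x σ) : ℝ) : ℂ) := by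
    rw [Finset.mul_sum]
    refine Finset.sum_congr rfl fun σ _ => ?_
    push_cast
    linear_combination (2 * Real.pi * ((σ (ν.1 : F) : ℝ) : ℂ) * Complex.exp (x σ)) * Complex.I_mul_I
  have h2 : (∏ σ : F →+* ℝ, ((Real.exp ((k σ : ℝ) * x σ / 2) : ℝ) : ℂ)) *
      Complex.exp (s * ((∑ σ, x σ : ℝ) : ℂ)) =
      Complex.exp (∑ σ : F →+* ℝ, (s + ((k σ / 2 : ℕ) : ℂ)) * (x σ : ℂ)) := by
    have h3 : ∀ σ : F →+* ℝ, ((Real.exp ((k σ : ℝ) * x σ / 2) : ℝ) : ℂ) =
        Complex.exp (((k σ / 2 : ℕ) : ℂ) * (x σ : ℂ)) := by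
      intro σ
      obtain ⟨⟨m, hm⟩, -⟩ := hk σ
      have h4 : k σ / 2 = m := by omega
      rw [h4, Complex.ofReal_exp, hm]
      congr 1
      push_cast
      ring
    rw [Finset.prod_congr rfl fun σ _ => h3 σ, ← Complex.exp_sum, ← Complex.exp_add,
      Complex.ofReal_sum, Finset.mul_sum, ← Finset.sum_add_distrib]
    congr 1
    exact Finset.sum_congr rfl fun σ _ => by ring
  rw [h1, h2]
  ring

open scoped Pointwise in
/-- integration over the fundamental domain -/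
private theorem unf_dom {D : Set ((F →+* ℝ) → ℝ)} (hD : IsAddFundamentalDomain (LU F) D volume)
    {E : Type} [NormedAddCommGroup E] [NormedSpace ℝ E] {f : ((F →+* ℝ) → ℝ) → E}
    (hf : Integrable f) :
    HasSum (fun u : TPU F => ∫ x in D, f (lg (((u : (𝓞 F)ˣ) : 𝓞 F) : F) + x)) (∫ x, f x) := by
  have h1 : HasSum (fun v : LU F => ∫ x in v +ᵥ D, f x) (∫ x, f x) := by
    have h2 := hasSum_integral_measure (μ := fun v : LU F => volume.restrict (v +ᵥ D)) (f := f)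
      (by rw [hD.sum_restrict]; exact hf)
    rwa [hD.sum_restrict] at h2
  have h3 : ∀ v : LU F, ∫ x in v +ᵥ D, f x = ∫ x in D, f (v.1 + x) := by
    intro v
    exact (measurePreserving_vadd v volume).setIntegral_image_emb
      (measurableEmbedding_const_vadd _) _ _
  simp only [h3] at h1
  let e : TPU F ≃ LU F := Equiv.ofBijective
    (fun u => ⟨lg (((u : (𝓞 F)ˣ) : 𝓞 F) : F), ⟨u, rfl⟩⟩)
    ⟨fun u v h => lg_injective F (congrArg Subtype.val h), fun v => by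
      obtain ⟨u, hu⟩ := v.2
      exact ⟨u, Subtype.ext hu⟩⟩
  exact e.hasSum_iff.2 h1

private theorem unf_coe_mul (a b : 𝓞 F) : ((a * b : 𝓞 F) : F) = (a : F) * (b : F) := rfl

private theorem unf_coe_zero : ((0 : 𝓞 F) : F) = 0 := rfl

/-- the totally positive elements of `b` are the products of a unit and of a representative -/
private theorem unf_equiv {b : Ideal (𝓞 F)} (hb : b ≠ ⊥) :
    ∃ (nu : Cls b → 𝓞 F) (e : Cls b × TPU F ≃ Pos b), (∀ m, TPos (nu m : F)) ∧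
      (∀ m, m.1 * b = Ideal.span {nu m}) ∧ (∀ p, quo b (e p).1 = p.1.1) ∧
      ∀ p, (e p).1 = ((p.2 : (𝓞 F)ˣ) : 𝓞 F) * nu p.1 := by
  choose nu hnu using fun m : Cls b => m.2.2
  have hspan : ∀ p : Cls b × TPU F, p.1.1 * b = Ideal.span {((p.2 : (𝓞 F)ˣ) : 𝓞 F) * nu p.1} := by
    intro p
    rw [(hnu p.1).2, Ideal.span_singleton_eq_span_singleton]
    exact (associated_unit_mul_left _ _ (p.2 : (𝓞 F)ˣ).isUnit).symm
  let f : Cls b × TPU F → Pos b := fun p => ⟨((p.2 : (𝓞 F)ˣ) : 𝓞 F) * nu p.1, by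
    constructor
    · have h1 : ((p.2 : (𝓞 F)ˣ) : 𝓞 F) * nu p.1 ∈ p.1.1 * b := by
        rw [hspan]
        exact Ideal.mem_span_singleton_self _
      exact Ideal.mul_le_right h1
    · rw [unf_coe_mul]
      exact TPos.mul p.2.2 (hnu p.1).1⟩
  have hquo : ∀ p, quo b (f p).1 = p.1.1 := fun p => quo_eq hb (hspan p)
  have hbij : Function.Bijective f := by
    constructor
    · intro p q hpq
      have h1 : p.1 = q.1 := Subtype.ext (by rw [← hquo p, ← hquo q, hpq])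
      have h2 : ((p.2 : (𝓞 F)ˣ) : 𝓞 F) * nu p.1 = ((q.2 : (𝓞 F)ˣ) : 𝓞 F) * nu q.1 :=
        congrArg Subtype.val hpq
      rw [h1] at h2
      have h3 : nu q.1 ≠ 0 := by
        intro h
        have := TPos.ne_zero (hnu q.1).1
        rw [h, unf_coe_zero] at this
        exact this rfl
      have h4 : p.2 = q.2 := Subtype.ext (Units.ext (mul_right_cancel₀ h3 h2))
      exact Prod.ext h1 h4
    · rintro ⟨ν, hν, hp⟩
      have h0 : ν ≠ 0 := by
        intro h
        have := TPos.ne_zero hp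
        rw [h, unf_coe_zero] at this
        exact this rfl
      have h1 := quo_mul hν h0
      let m : Cls b := ⟨quo b ν, by
        constructor
        · intro h
          rw [h, Ideal.bot_mul] at h1
          exact h0 (Ideal.span_singleton_eq_bot.1 h1.symm)
        · exact ⟨ν, hp, h1⟩⟩
      have h2 : Ideal.span {nu m} = Ideal.span {ν} := by
        rw [← (hnu m).2]
        exact h1
      rw [Ideal.span_singleton_eq_span_singleton] at h2
      obtain ⟨u, hu⟩ := h2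
      have hu' : ((u : 𝓞 F) : F) * (nu m : F) = (ν : F) := by
        rw [← hu, unf_coe_mul, mul_comm]
      have hpu : TPos ((u : 𝓞 F) : F) := by
        intro σ
        have h3 := hp σ
        rw [← hu', map_mul] at h3
        exact (pos_iff_pos_of_mul_pos h3).2 ((hnu m).1 σ)
      refine ⟨(m, ⟨u, hpu⟩), Subtype.ext ?_⟩
      show (u : 𝓞 F) * nu m = ν
      rw [mul_comm]
      exact hu
  exact ⟨nu, Equiv.ofBijective f hbij, fun m => (hnu m).1, fun m => (hnu m).2, hquo, fun _ => rfl⟩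

private theorem unf_countable (b : Ideal (𝓞 F)) : Countable (Pos b) := by
  have h1 : Countable (𝓞 F) :=
    (Module.Free.chooseBasis ℤ (𝓞 F)).equivFun.toEquiv.injective.countable
  exact Subtype.countable

/-- unfolding, in the domain of absolute convergence -/
theorem unfold {k : (F →+* ℝ) → ℕ} (hk : ∀ σ, Even (k σ) ∧ 0 < k σ) {C : Ideal (𝓞 F) → ℂ} {b : Ideal (𝓞 F)}
    (hb : b ≠ ⊥) (hc : ∀ z : (F →+* ℝ) → ℂ, Up z → Summable (term k C b z)) {D : Set ((F →+* ℝ) → ℝ)}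
    (hD : IsAddFundamentalDomain (LU F) D volume) {s : ℂ} (hs : 0 < s.re)
    (hsum : Summable fun m : Cls b => ‖C m‖ * (Ideal.absNorm m.1 : ℝ) ^ (-1 - s.re)) :
    HasSum (fun m : Cls b => Gam k s * (C m * (Ideal.absNorm (m.1 * b) : ℂ) ^ (-1 - s))) (Mel D (GG k C b) s) := by
  obtain ⟨nu, e, hnu, hspan, hquo, he⟩ := unf_equiv hb
  have := unf_countable b
  have hcount : Countable (Cls b × TPU F) := e.injective.countable
  obtain ⟨f, hf⟩ : ∃ f : Cls b × TPU F → ((F →+* ℝ) → ℝ) → ℂ, f = fun p x =>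
    C p.1 * unf_h k (nu p.1 : F) s (lg (((p.2 : (𝓞 F)ˣ) : 𝓞 F) : F) + x) := ⟨_, rfl⟩
  -- the function is the sum
  have h1 : ∀ x, ∑' p, f p x = GG k C b x * Complex.exp (s * ((∑ i, x i : ℝ) : ℂ)) := by
    intro x
    unfold GG form
    rw [mul_assoc, ← tsum_mul_right, ← e.tsum_eq]
    refine tsum_congr fun p => ?_
    rw [unf_term hk, hquo, he, hf]
    show C p.1 * unf_h k (nu p.1 : F) s (lg (((p.2 : (𝓞 F)ˣ) : 𝓞 F) : F) + x) = _
    rw [unf_h_unit hk (hnu p.1), unf_coe_mul]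
  -- the integrals of the norms
  have hfib : ∀ m : Cls b, HasSum (fun u : TPU F => ∫ x in D, ‖f (m, u) x‖)
      (‖C m‖ * (‖Gam k (s.re : ℂ)‖ * (Ideal.absNorm (m.1 * b) : ℝ) ^ (-1 - s.re))) := by
    intro m
    have h2 := unf_dom hD (unf_h_integrable hk (hnu m) hs).norm
    rw [unf_h_int_norm hk (hnu m) hs, ← hspan] at h2
    have h3 := h2.mul_left ‖C m‖
    have h4 : (fun u : TPU F => ∫ x in D, ‖f (m, u) x‖) = fun u : TPU F =>
        ‖C m‖ * ∫ x in D, ‖unf_h k (nu m : F) s (lg (((u : (𝓞 F)ˣ) : 𝓞 F) : F) + x)‖ := by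
      funext u
      rw [← integral_const_mul]
      refine integral_congr_ae (Filter.Eventually.of_forall fun x => ?_)
      rw [hf]
      exact norm_mul _ _
    rw [h4]
    exact h3
  have hfib2 : ∀ m : Cls b, HasSum (fun u : TPU F => ∫ x in D, f (m, u) x)
      (Gam k s * (C m * (Ideal.absNorm (m.1 * b) : ℂ) ^ (-1 - s))) := by
    intro m
    have h2 := unf_dom hD (unf_h_integrable hk (hnu m) hs)
    rw [unf_h_int hk (hnu m) hs, ← hspan] at h2
    have h3 := h2.mul_left (C m)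
    have h4 : (fun u : TPU F => ∫ x in D, f (m, u) x) = fun u : TPU F =>
        C m * ∫ x in D, unf_h k (nu m : F) s (lg (((u : (𝓞 F)ˣ) : 𝓞 F) : F) + x) := by
      funext u
      rw [← integral_const_mul, hf]
    rw [h4, mul_left_comm]
    exact h3
  have hint : ∀ p, Integrable (f p) (volume.restrict D) := by
    intro p
    rw [hf]
    exact (((unf_h_integrable hk (hnu p.1) hs).comp_add_left _).const_mul _).restrict
  have hsummable : Summable fun p : Cls b × TPU F => ∫ x in D, ‖f p x‖ := by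
    refine (summable_prod_of_nonneg fun p => integral_nonneg fun x => norm_nonneg _).2
      ⟨fun m => (hfib m).summable, ?_⟩
    have h5 := hsum.mul_left (‖Gam k (s.re : ℂ)‖ * (Ideal.absNorm b : ℝ) ^ (-1 - s.re))
    refine h5.congr fun m => ?_
    rw [(hfib m).tsum_eq, map_mul, Nat.cast_mul,
      Real.mul_rpow (Nat.cast_nonneg _) (Nat.cast_nonneg _)]
    ring
  have H := hasSum_integral_of_summable_integral_norm hint hsummable
  have h6 : ∫ x in D, ∑' p, f p x = Mel D (GG k C b) s := by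
    unfold Mel
    exact integral_congr_ae (Filter.Eventually.of_forall h1)
  rw [h6] at H
  exact H.prod_fiberwise hfib2

end Pool.Agent.H44.TW
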