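import Pool.Agent.H44.TW.Arith

/-!
# The group of the totally positive units in logarithmic coordinates, and a fundamental domain
-/

set_option autoImplicit false

open NumberField MeasureTheory

namespace Pool.Agent.H44.TW

variable (F : Type) [Field F] [NumberField F]

/-- the totally positive units -/
def TPU : Subgroup (𝓞 F)ˣ where
  carrier := {u | TPos ((u : 𝓞 F) : F)}
  mul_mem' := by
    intro a b ha hb σ
    have h1 := ha σ
    have h2 := hb σ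
    have h3 : ((((a * b : (𝓞 F)ˣ)) : 𝓞 F) : F) = ((a : 𝓞 F) : F) * ((b : 𝓞 F) : F) := rfl
    rw [h3, map_mul]
    exact mul_pos h1 h2
  one_mem' := by
    intro σ
    have h3 : ((((1 : (𝓞 F)ˣ)) : 𝓞 F) : F) = 1 := rfl
    rw [h3, map_one]
    exact one_pos
  inv_mem' := by
    intro a ha σ
    have h1 := ha σ
    have h2 : σ (((a⁻¹ : (𝓞 F)ˣ) : 𝓞 F) : F) * σ ((a : 𝓞 F) : F) = 1 := by
      rw [← map_mul]
      have h3 : (((a⁻¹ : (𝓞 F)ˣ) : 𝓞 F) : F) * ((a : 𝓞 F) : F) = ((((a⁻¹ : (𝓞 F)ˣ) : 𝓞 F) * (a : 𝓞 F) : 𝓞 F) : F) := rfl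
      rw [h3, Units.inv_mul]
      exact map_one σ
    by_contra h3
    have h4 := mul_nonpos_of_nonpos_of_nonneg (not_lt.1 h3) h1.le
    linarith

variable {F}

/-- the logarithms of the conjugates of `x` -/
noncomputable def lg (x : F) : (F →+* ℝ) → ℝ := fun σ => Real.log (σ x)

theorem lg_mul {x y : F} (hx : TPos x) (hy : TPos y) : lg (x * y) = lg x + lg y := by
  funext σ
  show Real.log (σ (x * y)) = Real.log (σ x) + Real.log (σ y)
  rw [map_mul, Real.log_mul (hx σ).ne' (hy σ).ne']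

variable (F)

/-- the logarithms of the totally positive units -/
noncomputable def LU : AddSubgroup ((F →+* ℝ) → ℝ) where
  carrier := Set.range fun u : TPU F => lg (((u : (𝓞 F)ˣ) : 𝓞 F) : F)
  add_mem' := by
    rintro _ _ ⟨u, rfl⟩ ⟨v, rfl⟩
    refine ⟨u * v, ?_⟩
    exact lg_mul u.2 v.2
  zero_mem' := by
    refine ⟨1, ?_⟩
    funext σ
    have h1 : ((((1 : TPU F) : (𝓞 F)ˣ) : 𝓞 F) : F) = 1 := rfl
    show Real.log (σ ((((1 : TPU F) : (𝓞 F)ˣ) : 𝓞 F) : F)) = 0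
    rw [h1, map_one, Real.log_one]
  neg_mem' := by
    rintro _ ⟨u, rfl⟩
    refine ⟨u⁻¹, ?_⟩
    have h2 : lg ((((u⁻¹ : TPU F) : (𝓞 F)ˣ) : 𝓞 F) : F) + lg (((u : (𝓞 F)ˣ) : 𝓞 F) : F) = 0 := by
      rw [← lg_mul (u⁻¹).2 u.2, ← map_mul]
      have h3 : ((((u⁻¹ : TPU F) : (𝓞 F)ˣ) : 𝓞 F) * ((u : (𝓞 F)ˣ) : 𝓞 F)) = 1 := by
        rw [← Units.val_mul, ← Subgroup.coe_mul, inv_mul_cancel]
        rfl
      rw [h3, map_one]
      funext σ
      show Real.log (σ 1) = 0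
      rw [map_one, Real.log_one]
    exact eq_neg_of_add_eq_zero_left h2

variable [IsTotallyReal F]

theorem sum_lg (u : TPU F) : ∑ σ : F →+* ℝ, lg (((u : (𝓞 F)ˣ) : 𝓞 F) : F) σ = 0 := by
  have hpos : ∀ σ : F →+* ℝ, 0 < σ (((u : (𝓞 F)ˣ) : 𝓞 F) : F) := u.2
  have h1 : ∑ σ : F →+* ℝ, lg (((u : (𝓞 F)ˣ) : 𝓞 F) : F) σ =
      Real.log (∏ σ : F →+* ℝ, σ (((u : (𝓞 F)ˣ) : 𝓞 F) : F)) :=
    (Real.log_prod fun σ _ => (hpos σ).ne').symm
  have h2 : |Algebra.norm ℚ (((u : (𝓞 F)ˣ) : 𝓞 F) : F)| = 1 := by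
    simp
  have h3 : |((Algebra.norm ℚ (((u : (𝓞 F)ˣ) : 𝓞 F) : F) : ℚ) : ℝ)| = 1 := by
    rw [← Rat.cast_abs, h2, Rat.cast_one]
  rw [h1, prod_emb, ← Real.log_abs, h3, Real.log_one]

theorem lg_injective : Function.Injective fun u : TPU F => lg (((u : (𝓞 F)ˣ) : 𝓞 F) : F) := by
  intro u v h
  obtain ⟨σ⟩ := nonempty_emb (F := F)
  have h1 : Real.log (σ (((u : (𝓞 F)ˣ) : 𝓞 F) : F)) = Real.log (σ (((v : (𝓞 F)ˣ) : 𝓞 F) : F)) := congrFun h σ
  have h2 : σ (((u : (𝓞 F)ˣ) : 𝓞 F) : F) = σ (((v : (𝓞 F)ˣ) : 𝓞 F) : F) :=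
    Real.log_injOn_pos (u.2 σ) (v.2 σ) h1
  have h3 : (((u : (𝓞 F)ˣ) : 𝓞 F) : F) = (((v : (𝓞 F)ˣ) : 𝓞 F) : F) := σ.injective h2
  exact Subtype.ext (Units.ext (NumberField.RingOfIntegers.ext h3))

instance countable_LU : Countable (LU F) := by
  have h1 : Countable (𝓞 F) := (NumberField.RingOfIntegers.basis F).equivFun.injective.countable
  have h2 : Countable (𝓞 F)ˣ := Units.val_injective.countable
  have h3 : Countable (TPU F) := inferInstance
  exact (Set.countable_range fun u : TPU F => lg (((u : (𝓞 F)ˣ) : 𝓞 F) : F)).to_subtype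

/-- the elements of `LU` have sum zero -/
private theorem sum_LU {x : (F →+* ℝ) → ℝ} (hx : x ∈ LU F) : ∑ σ, x σ = 0 := by
  obtain ⟨u, rfl⟩ := hx
  exact sum_lg F u

/-- the lattice generated by `LU` and the diagonal -/
private noncomputable def L1 : Submodule ℤ ((F →+* ℝ) → ℝ) :=
  AddSubgroup.toIntSubmodule (LU F ⊔ AddSubgroup.zmultiples (1 : (F →+* ℝ) → ℝ))

private theorem mem_L1 {x : (F →+* ℝ) → ℝ} :
    x ∈ L1 F ↔ ∃ l ∈ LU F, ∃ n : ℤ, l + n • (1 : (F →+* ℝ) → ℝ) = x := by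
  show x ∈ LU F ⊔ AddSubgroup.zmultiples (1 : (F →+* ℝ) → ℝ) ↔ _
  rw [AddSubgroup.mem_sup]
  constructor
  · rintro ⟨l, hl, m, ⟨n, rfl⟩, h⟩
    exact ⟨l, hl, n, h⟩
  · rintro ⟨l, hl, n, h⟩
    exact ⟨l, hl, _, ⟨n, rfl⟩, h⟩

private theorem zsmul_one_apply (n : ℤ) (σ : F →+* ℝ) : (n • (1 : (F →+* ℝ) → ℝ)) σ = n := by
  simp

private theorem sum_add_zsmul {l : (F →+* ℝ) → ℝ} (hl : l ∈ LU F) (n : ℤ) :
    ∑ σ, (l + n • (1 : (F →+* ℝ) → ℝ)) σ = n * Fintype.card (F →+* ℝ) := by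
  have h1 : ∀ σ : F →+* ℝ, (l + n • (1 : (F →+* ℝ) → ℝ)) σ = l σ + n := fun σ => by
    rw [Pi.add_apply, zsmul_one_apply]
  rw [Finset.sum_congr rfl fun σ _ => h1 σ, Finset.sum_add_distrib, sum_LU F hl, zero_add, Finset.sum_const,
    Finset.card_univ, nsmul_eq_mul, mul_comm]

private theorem card_pos : (0 : ℝ) < Fintype.card (F →+* ℝ) := by
  have := nonempty_emb (F := F)
  exact_mod_cast Fintype.card_pos

/-- finiteness of the totally positive units with bounded conjugates -/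
private theorem finite_units (B : ℝ) : {x ∈ LU F | ∀ σ, x σ ≤ B}.Finite := by
  have h1 := NumberField.Embeddings.finite_of_norm_le F ℂ (Real.exp B)
  refine (h1.image lg).subset ?_
  rintro _ ⟨⟨u, rfl⟩, hu⟩
  refine ⟨(((u : (𝓞 F)ˣ) : 𝓞 F) : F), ⟨NumberField.RingOfIntegers.isIntegral_coe _, fun φ => ?_⟩, rfl⟩
  have h2 := IsTotallyReal.complexEmbedding_isReal φ
  rw [← NumberField.ComplexEmbedding.IsReal.coe_embedding_apply h2, Complex.norm_real, Real.norm_eq_abs,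
    abs_of_pos (u.2 _)]
  have h3 := hu h2.embedding
  exact (Real.log_le_iff_le_exp (u.2 _)).1 h3

private theorem finite_ball : ((L1 F : Set ((F →+* ℝ) → ℝ)) ∩ Metric.closedBall 0 1).Finite := by
  have hf := (finite_units F 2).prod (Set.finite_Icc (-1 : ℤ) 1)
  refine (hf.image fun q : ((F →+* ℝ) → ℝ) × ℤ => q.1 + q.2 • (1 : (F →+* ℝ) → ℝ)).subset ?_
  rintro x ⟨hx, hb⟩
  obtain ⟨l, hl, n, rfl⟩ := (mem_L1 F).1 hx
  have hb1 : ∀ σ, |(l + n • (1 : (F →+* ℝ) → ℝ)) σ| ≤ 1 := by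
    intro σ
    have h1 := (norm_le_pi_norm (l + n • (1 : (F →+* ℝ) → ℝ)) σ).trans (by simpa using hb)
    rwa [Real.norm_eq_abs] at h1
  have hc := card_pos F
  have h2 : |(n : ℝ) * Fintype.card (F →+* ℝ)| ≤ Fintype.card (F →+* ℝ) := by
    rw [← sum_add_zsmul F hl n]
    refine (Finset.abs_sum_le_sum_abs _ _).trans ?_
    refine (Finset.sum_le_sum fun σ _ => hb1 σ).trans ?_
    simp
  rw [abs_mul, abs_of_pos hc] at h2
  have h3 : |(n : ℝ)| ≤ 1 := le_of_mul_le_mul_right (by linarith) hc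
  have h4 := abs_le.1 h3
  have h5 : -1 ≤ n := by exact_mod_cast h4.1
  have h6 : n ≤ 1 := by exact_mod_cast h4.2
  refine ⟨(l, n), ⟨⟨hl, fun σ => ?_⟩, h5, h6⟩, rfl⟩
  have h7 := (abs_le.1 (hb1 σ)).2
  rw [Pi.add_apply, zsmul_one_apply] at h7
  linarith

private theorem discrete_L1 : DiscreteTopology (L1 F) := by
  refine discreteTopology_of_isOpen_singleton_zero ?_
  refine isOpen_singleton_of_finite_mem_nhds 0 (s := Metric.closedBall 0 1) ?_ ?_
  · exact Metric.closedBall_mem_nhds _ (by simp)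
  · refine Set.Finite.of_finite_image ?_ (Set.injOn_of_injective Subtype.val_injective)
    refine (finite_ball F).subset ?_
    rintro _ ⟨x, hx, rfl⟩
    exact ⟨x.2, by simpa using hx⟩

/-- the real embedding attached to an infinite place -/
private noncomputable def em (w : InfinitePlace F) : F →+* ℝ :=
  NumberField.InfinitePlace.embedding_of_isReal (IsTotallyReal.isReal w)

private theorem exists_em (σ : F →+* ℝ) : ∃ w : InfinitePlace F, em F w = σ := by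
  refine ⟨InfinitePlace.mk (Complex.ofRealHom.comp σ), ?_⟩
  ext x
  have h1 := NumberField.InfinitePlace.embedding_of_isReal_apply
    (IsTotallyReal.isReal (InfinitePlace.mk (Complex.ofRealHom.comp σ))) x
  have h2 : NumberField.ComplexEmbedding.IsReal (Complex.ofRealHom.comp σ) :=
    IsTotallyReal.complexEmbedding_isReal _
  rw [NumberField.InfinitePlace.embedding_mk_eq_of_isReal h2] at h1
  exact Complex.ofReal_injective h1

private theorem span_L1 : Submodule.span ℝ (L1 F : Set ((F →+* ℝ) → ℝ)) = ⊤ := by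
  classical
  set S := Submodule.span ℝ (L1 F : Set ((F →+* ℝ) → ℝ)) with hS
  let T : ((F →+* ℝ) → ℝ) →ₗ[ℝ] NumberField.Units.dirichletUnitTheorem.logSpace F :=
    { toFun := fun x w => x (em F w.1)
      map_add' := fun _ _ => rfl
      map_smul' := fun _ _ => rfl }
  let S0 := Submodule.span ℝ (LU F : Set ((F →+* ℝ) → ℝ))
  have hS0 : S0 ≤ S := Submodule.span_mono fun x hx => (mem_L1 F).2 ⟨x, hx, 0, by simp⟩
  have hsum : ∀ x ∈ S0, ∑ σ, x σ = 0 := by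
    intro x hx
    induction hx using Submodule.span_induction with
    | mem x hx => exact sum_LU F hx
    | zero => simp
    | add x y _ _ hx hy =>
      have : ∑ σ, (x + y) σ = ∑ σ, x σ + ∑ σ, y σ := Finset.sum_add_distrib
      rw [this, hx, hy, add_zero]
    | smul a x _ hx =>
      have : ∑ σ, (a • x) σ = a * ∑ σ, x σ := by
        rw [Finset.mul_sum]
        rfl
      rw [this, hx, mul_zero]
  have hT : S0.map T = ⊤ := by
    rw [eq_top_iff, ← NumberField.Units.dirichletUnitTheorem.unitLattice_span_eq_top F, Submodule.span_le]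
    rintro _ hy
    obtain ⟨u, -, rfl⟩ := hy
    have hu : (u.toMul ^ 2 : (𝓞 F)ˣ) ∈ TPU F := by
      intro σ
      have h3 : ((((u.toMul ^ 2 : (𝓞 F)ˣ)) : 𝓞 F) : F) = ((u.toMul : 𝓞 F) : F) ^ 2 := by
        simp
      rw [h3, map_pow]
      have h4 : σ ((u.toMul : 𝓞 F) : F) ≠ 0 := by
        rw [map_ne_zero]
        simp
      positivity
    refine ⟨(2⁻¹ : ℝ) • lg ((((u.toMul ^ 2 : (𝓞 F)ˣ)) : 𝓞 F) : F), S0.smul_mem _
      (Submodule.subset_span ⟨⟨_, hu⟩, rfl⟩), ?_⟩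
    funext w
    show (2⁻¹ : ℝ) * Real.log (em F w.1 ((((u.toMul ^ 2 : (𝓞 F)ˣ)) : 𝓞 F) : F)) =
      (InfinitePlace.mult w.1 : ℝ) * Real.log (w.1 ((u.toMul : 𝓞 F) : F))
    have h3 : ((((u.toMul ^ 2 : (𝓞 F)ˣ)) : 𝓞 F) : F) = ((u.toMul : 𝓞 F) : F) ^ 2 := by
      simp
    have h5 : ‖em F w.1 ((u.toMul : 𝓞 F) : F)‖ = w.1 ((u.toMul : 𝓞 F) : F) :=
      NumberField.InfinitePlace.norm_embedding_of_isReal _ _
    rw [h3, map_pow, Real.log_pow, IsTotallyReal.mult_eq, ← h5, Real.norm_eq_abs, Real.log_abs]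
    push_cast
    ring
  have hinj : ∀ x : (F →+* ℝ) → ℝ, ∑ σ, x σ = 0 → T x = 0 → x = 0 := by
    intro x hx hTx
    have h1 : ∀ w : InfinitePlace F, w ≠ NumberField.Units.dirichletUnitTheorem.w₀ → x (em F w) = 0 :=
      fun w hw => congrFun hTx ⟨w, hw⟩
    have h2 : ∀ σ : F →+* ℝ, σ ≠ em F NumberField.Units.dirichletUnitTheorem.w₀ → x σ = 0 := by
      intro σ hσ
      obtain ⟨w, rfl⟩ := exists_em F σ
      exact h1 w fun h => hσ (by rw [h])
    have h3 : x (em F NumberField.Units.dirichletUnitTheorem.w₀) = 0 := by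
      rw [← hx]
      exact (Finset.sum_eq_single _ (fun σ _ hσ => h2 σ hσ) (fun h => absurd (Finset.mem_univ _) h)).symm
    funext σ
    by_cases h : σ = em F NumberField.Units.dirichletUnitTheorem.w₀
    · rw [h]
      exact h3
    · exact h2 σ h
  rw [eq_top_iff]
  rintro x -
  have hc := card_pos F
  set a : ℝ := (∑ σ, x σ) / Fintype.card (F →+* ℝ) with ha
  set y : (F →+* ℝ) → ℝ := x - a • (1 : (F →+* ℝ) → ℝ) with hy
  have hy0 : ∑ σ, y σ = 0 := by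
    have h1 : ∀ σ, y σ = x σ - a := fun σ => by
      rw [hy]
      simp
    rw [Finset.sum_congr rfl fun σ _ => h1 σ, Finset.sum_sub_distrib, Finset.sum_const, Finset.card_univ,
      nsmul_eq_mul, ha]
    field_simp
    ring
  have hTy : T y ∈ S0.map T := by
    rw [hT]
    exact Submodule.mem_top
  obtain ⟨s, hs, hsT⟩ := hTy
  have h2 : s - y = 0 := by
    refine hinj _ ?_ ?_
    · have : ∑ σ, (s - y) σ = ∑ σ, s σ - ∑ σ, y σ := Finset.sum_sub_distrib _ _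
      rw [this, hsum s hs, hy0, sub_zero]
    · rw [map_sub, hsT, sub_self]
  have h3 : y ∈ S := by
    rw [← sub_eq_zero.1 h2]
    exact hS0 hs
  have h4 : (1 : (F →+* ℝ) → ℝ) ∈ S :=
    Submodule.subset_span ((mem_L1 F).2 ⟨0, (LU F).zero_mem, 1, by simp⟩)
  have h5 : x = y + a • (1 : (F →+* ℝ) → ℝ) := by
    rw [hy]
    abel
  rw [h5]
  exact S.add_mem h3 (S.smul_mem a h4)

/-- a fundamental domain for the logarithms of the totally positive units, at bounded distance from the diagonal -/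
theorem exists_dom : ∃ D : Set ((F →+* ℝ) → ℝ), MeasurableSet D ∧ IsAddFundamentalDomain (LU F) D volume ∧
    ∃ R : ℝ, 0 ≤ R ∧ ∀ x ∈ D, ∀ σ, |x σ - (∑ τ, x τ) / Fintype.card (F →+* ℝ)| ≤ R := by
  have hd : DiscreteTopology (L1 F) := discrete_L1 F
  have hz : IsZLattice ℝ (L1 F) := ⟨span_L1 F⟩
  have hfin : Module.Finite ℤ (L1 F) := ZLattice.module_finite ℝ (L1 F)
  have hfree : Module.Free ℤ (L1 F) := ZLattice.module_free ℝ (L1 F)
  let b := Module.Free.chooseBasis ℤ (L1 F)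
  let b' := b.ofZLatticeBasis ℝ (L1 F)
  have hspan : Submodule.span ℤ (Set.range b') = L1 F := b.ofZLatticeBasis_span ℝ
  let fd := ZSpan.fundamentalDomain b'
  have hc := card_pos F
  have hex : ∀ x : (F →+* ℝ) → ℝ, ∃ l ∈ LU F, ∃ n : ℤ, l + n • (1 : (F →+* ℝ) → ℝ) + x ∈ fd := by
    intro x
    obtain ⟨v, hv, -⟩ := ZSpan.exist_unique_vadd_mem_fundamentalDomain b' x
    have h1 : (v : (F →+* ℝ) → ℝ) ∈ L1 F := hspan.le v.2
    obtain ⟨l, hl, n, h2⟩ := (mem_L1 F).1 h1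
    refine ⟨l, hl, n, ?_⟩
    rw [h2]
    exact hv
  have huniq : ∀ x : (F →+* ℝ) → ℝ, ∀ l ∈ LU F, ∀ l' ∈ LU F, ∀ n n' : ℤ,
      l + n • (1 : (F →+* ℝ) → ℝ) + x ∈ fd → l' + n' • (1 : (F →+* ℝ) → ℝ) + x ∈ fd → l = l' := by
    intro x l hl l' hl' n n' h h'
    obtain ⟨v, -, hv⟩ := ZSpan.exist_unique_vadd_mem_fundamentalDomain b' x
    have e1 : l + n • (1 : (F →+* ℝ) → ℝ) ∈ Submodule.span ℤ (Set.range b') :=
      hspan.ge ((mem_L1 F).2 ⟨l, hl, n, rfl⟩)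
    have e2 : l' + n' • (1 : (F →+* ℝ) → ℝ) ∈ Submodule.span ℤ (Set.range b') :=
      hspan.ge ((mem_L1 F).2 ⟨l', hl', n', rfl⟩)
    have h1 := hv ⟨_, e1⟩ h
    have h2 := hv ⟨_, e2⟩ h'
    have h3 : l + n • (1 : (F →+* ℝ) → ℝ) = l' + n' • (1 : (F →+* ℝ) → ℝ) :=
      congrArg Subtype.val (h1.trans h2.symm)
    have h4 := sum_add_zsmul F hl n
    rw [h3, sum_add_zsmul F hl' n'] at h4
    have h5 : (n' : ℝ) = n := mul_right_cancel₀ hc.ne' h4
    have h6 : n' = n := by exact_mod_cast h5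
    rw [h6] at h3
    exact add_right_cancel h3
  let D : Set ((F →+* ℝ) → ℝ) := ⋃ n : ℤ, (fun x => n • (1 : (F →+* ℝ) → ℝ) + x) ⁻¹' fd
  have hmeas : MeasurableSet D := by
    refine MeasurableSet.iUnion fun n => ?_
    exact (measurable_const_add _) (ZSpan.fundamentalDomain_measurableSet b')
  refine ⟨D, hmeas, ?_, ?_⟩
  · refine IsAddFundamentalDomain.mk' hmeas.nullMeasurableSet fun x => ?_
    obtain ⟨l, hl, n, h⟩ := hex x
    refine ⟨⟨l, hl⟩, ?_, ?_⟩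
    · refine Set.mem_iUnion.2 ⟨n, ?_⟩
      show n • (1 : (F →+* ℝ) → ℝ) + (l + x) ∈ fd
      have : n • (1 : (F →+* ℝ) → ℝ) + (l + x) = l + n • (1 : (F →+* ℝ) → ℝ) + x := by abel
      rw [this]
      exact h
    · rintro ⟨l', hl'⟩ h'
      obtain ⟨n', h''⟩ := Set.mem_iUnion.1 h'
      have h3 : n' • (1 : (F →+* ℝ) → ℝ) + (l' + x) ∈ fd := h''
      have : n' • (1 : (F →+* ℝ) → ℝ) + (l' + x) = l' + n' • (1 : (F →+* ℝ) → ℝ) + x := by abel
      rw [this] at h3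
      exact Subtype.ext (huniq x l' hl' l hl n' n h3 h)
  · obtain ⟨R, hR⟩ := (ZSpan.fundamentalDomain_isBounded b').exists_norm_le
    refine ⟨2 * |R|, by positivity, ?_⟩
    rintro x hx σ
    obtain ⟨n, hn⟩ := Set.mem_iUnion.1 hx
    have h1 : ‖n • (1 : (F →+* ℝ) → ℝ) + x‖ ≤ R := hR _ hn
    have h2 : ∀ τ, |(n : ℝ) + x τ| ≤ |R| := by
      intro τ
      have h3 := (norm_le_pi_norm (n • (1 : (F →+* ℝ) → ℝ) + x) τ).trans h1
      rw [Pi.add_apply, zsmul_one_apply, Real.norm_eq_abs] at h3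
      exact h3.trans (le_abs_self R)
    have h3 : x σ - (∑ τ, x τ) / Fintype.card (F →+* ℝ) =
        ((n : ℝ) + x σ) - (∑ τ, ((n : ℝ) + x τ)) / Fintype.card (F →+* ℝ) := by
      rw [Finset.sum_add_distrib, Finset.sum_const, Finset.card_univ, nsmul_eq_mul]
      field_simp
      ring
    have h4 : |(∑ τ, ((n : ℝ) + x τ)) / Fintype.card (F →+* ℝ)| ≤ |R| := by
      rw [abs_div, abs_of_pos hc, div_le_iff₀ hc]
      refine (Finset.abs_sum_le_sum_abs _ _).trans ?_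
      refine (Finset.sum_le_sum fun τ _ => h2 τ).trans ?_
      rw [Finset.sum_const, Finset.card_univ, nsmul_eq_mul, mul_comm]
    rw [h3]
    refine (abs_sub _ _).trans ?_
    linarith [h2 σ]

end Pool.Agent.H44.TW
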