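import Pool.Agent.H44.TW.XMain

/-!
# A criterion for representations which do not extend
-/

set_option autoImplicit false

open NumberField Matrix Polynomial
open Pool.Agent.H44.PC

namespace Pool.Agent.H44.TW

variable {p : ℕ} [Fact p.Prime] {K : Type} [NontriviallyNormedField K] [NormedAlgebra ℚ_[p] K]
  {F : IntermediateField ℚ (AlgebraicClosure ℚ)} [NumberField F]
  {ρ : F.fixingSubgroup →* Matrix (Fin 2) (Fin 2) K}

/-- if `(t, γ)` is in `𝒢`, `t^m` is in `G_F`, `γ^m = 1`, and `ρ(t^m)` has a simple eigenvalue `y = γ(y)` which is not of the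
form `z γ(z) ⋯ γ^(m-1)(z)`, then `ρ` does not extend to `𝒢` -/
theorem not_extends (𝒢 : Subgroup (Pr p K))
    (hG : ∀ g : F.fixingSubgroup,
      (((g : (AlgebraicClosure ℚ) ≃ₐ[ℚ] (AlgebraicClosure ℚ)), (1 : K ≃ₐ[ℚ_[p]] K)) : Pr p K) ∈ 𝒢)
    (t : (AlgebraicClosure ℚ) ≃ₐ[ℚ] (AlgebraicClosure ℚ)) (γ : K ≃ₐ[ℚ_[p]] K) (hx : ((t, γ) : Pr p K) ∈ 𝒢) (hc : Continuous γ)
    (hn : ∀ g ∈ F.fixingSubgroup, t⁻¹ * g * t ∈ F.fixingSubgroup)
    (hn' : ∀ g ∈ F.fixingSubgroup, t * g * t⁻¹ ∈ F.fixingSubgroup) (m : ℕ) (htm : t ^ m ∈ F.fixingSubgroup)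
    (hγm : ∀ z, γ^[m] z = z) {A q y : K} (hA : (ρ ⟨t ^ m, htm⟩).charpoly = X ^ 2 - C A * X + C q) (hy : γ y = y)
    (hy1 : y * y - A * y + q = 0) (hy2 : y * y ≠ q) (hyn : ∀ z : K, cnj γ m z ≠ y) : ¬ Extends ρ 𝒢 := by
  rintro ⟨R, hR, hRρ⟩
  let o : F.fixingSubgroup → Pr p K := fun g =>
    (((g : (AlgebraicClosure ℚ) ≃ₐ[ℚ] (AlgebraicClosure ℚ)), (1 : K ≃ₐ[ℚ_[p]] K)) : Pr p K)
  have ho : ∀ g, R (o g) = ρ g := fun g => hRρ _ (hG g) g rfl rfl
  let x : Pr p K := ((t, γ) : Pr p K)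
  have h1 : R 1 = 1 := by
    have h2 := ho 1
    rw [map_one] at h2
    exact h2
  have hR' : ∀ b ∈ 𝒢, R (x * b) = R x * (R b).map γ := fun b hb => hR x hx b hb
  have hinv : R x * (R x⁻¹).map γ = 1 := by
    have h2 := hR' x⁻¹ (𝒢.inv_mem hx)
    rw [mul_inv_cancel, h1] at h2
    exact h2.symm
  have hsw : Sw ρ t γ (R x) ((R x⁻¹).map γ) :=
    { nrm := hn
      nrm' := hn'
      cont := hc
      int := by
        intro g
        have h2 := hR' (o ⟨t⁻¹ * g * t, hn g g.2⟩) (hG _)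
        have h3 := hR (o g) (hG g) x hx
        rw [ho] at h2 h3
        have h4 : x * o ⟨t⁻¹ * g * t, hn g g.2⟩ = o g * x := by
          refine Prod.ext ?_ ?_
          · show t * (t⁻¹ * g * t) = g * t
            group
          · show γ * 1 = 1 * γ
            rw [mul_one, one_mul]
        rw [h4, h3] at h2
        have h5 : (R x).map (o g).2 = R x := by
          ext i j
          rfl
        rw [h5] at h2
        exact h2.symm
      inv := hinv
      inv' := mul_eq_one_comm.1 hinv }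
  have hpow : ∀ j : ℕ, mprod γ (R x) j = R (x ^ j) := by
    intro j
    induction j with
    | zero => rw [pow_zero, h1]; rfl
    | succ j ih =>
      rw [pow_succ', hR' _ (𝒢.pow_mem hx j), ← ih]
      rfl
  have hγ1 : γ ^ m = 1 := by
    have h3 : ∀ (j : ℕ) (z : K), (γ ^ j) z = γ^[j] z := by
      intro j
      induction j with
      | zero => intro z; rfl
      | succ j ih =>
        intro z
        rw [pow_succ', Function.iterate_succ_apply', ← ih]
        rfl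
    refine AlgEquiv.ext fun z => ?_
    rw [h3 m z, hγm z]
    rfl
  have hxp : ∀ j : ℕ, x ^ j = ((t ^ j, γ ^ j) : Pr p K) := by
    intro j
    induction j with
    | zero => rfl
    | succ j ih =>
      rw [pow_succ, ih]
      refine Prod.ext ?_ ?_
      · show t ^ j * t = t ^ (j + 1)
        rw [pow_succ]
      · show γ ^ j * γ = γ ^ (j + 1)
        rw [pow_succ]
  have hxm : x ^ m = o ⟨t ^ m, htm⟩ := by
    rw [hxp, hγ1]
  have hc1 : mprod γ (R x) m = (1 : K) • ρ ⟨t ^ m, htm⟩ := by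
    rw [hpow, hxm, ho, one_smul]
  obtain ⟨z, hz⟩ := scalar_eig hsw m hγm htm hc1 hA hy hy1 hy2
  exact hyn z (by rw [hz, one_mul])

end Pool.Agent.H44.TW
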