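import Pool.Agent.H44.TW.GTr
import Pool.Agent.H44.PC.Cyclo

/-!
# The determinant of the representation is the cyclotomic character
-/

set_option autoImplicit false

open NumberField Matrix Polynomial
open Pool.Agent.H44.PC

namespace Pool.Agent.H44.TW

/-- the cyclotomic character, with values in `K` -/
noncomputable def cy (p : ℕ) [Fact p.Prime] (K : Type) [Field K] [Algebra ℚ_[p] K]
    (t : (AlgebraicClosure ℚ) ≃ₐ[ℚ] (AlgebraicClosure ℚ)) : K :=
  algebraMap ℚ_[p] K (((cyclotomicCharacter (AlgebraicClosure ℚ) p t.toRingEquiv : ℤ_[p]ˣ) : ℤ_[p]) : ℚ_[p])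

private theorem cy_eq (p : ℕ) [Fact p.Prime] (K : Type) [Field K] [Algebra ℚ_[p] K]
    (t : (AlgebraicClosure ℚ) ≃ₐ[ℚ] (AlgebraicClosure ℚ)) :
    cy p K t = algebraMap ℚ_[p] K (((cycChar p t : ℤ_[p]ˣ) : ℤ_[p]) : ℚ_[p]) := rfl

private theorem cast_notMem {F₁ : IntermediateField ℚ (AlgebraicClosure ℚ)} {v : Ideal (𝓞 F₁)} (hv : v.IsPrime)
    {q m : ℕ} (hq : q.Prime) (hm : 0 < m) (hlt : m < q) (hqv : (q : 𝓞 F₁) ∈ v) : (m : 𝓞 F₁) ∉ v := by
  intro hmv
  have hc : Nat.Coprime m q := ((Nat.Prime.coprime_iff_not_dvd hq).2 fun h5 =>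
    absurd (Nat.le_of_dvd hm h5) (not_le.2 hlt)).symm
  have hc' : IsCoprime (m : ℤ) (q : ℤ) := Nat.isCoprime_iff_coprime.2 hc
  obtain ⟨a, b, hab⟩ := hc'
  apply hv.ne_top
  rw [Ideal.eq_top_iff_one]
  have h1 : (1 : 𝓞 F₁) = (a : 𝓞 F₁) * (m : 𝓞 F₁) + (b : 𝓞 F₁) * (q : 𝓞 F₁) := by
    exact_mod_cast congrArg (Int.cast : ℤ → 𝓞 F₁) hab.symm
  rw [h1]
  exact v.add_mem (v.mul_mem_left _ hmv) (v.mul_mem_left _ hqv)

theorem cy_mul (p : ℕ) [Fact p.Prime] (K : Type) [Field K] [Algebra ℚ_[p] K]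
    (t t' : (AlgebraicClosure ℚ) ≃ₐ[ℚ] (AlgebraicClosure ℚ)) : cy p K (t * t') = cy p K t * cy p K t' := by
  rw [cy_eq, cy_eq, cy_eq, map_mul, Units.val_mul, PadicInt.coe_mul, map_mul]

theorem cy_ne_zero (p : ℕ) [Fact p.Prime] (K : Type) [Field K] [Algebra ℚ_[p] K]
    (t : (AlgebraicClosure ℚ) ≃ₐ[ℚ] (AlgebraicClosure ℚ)) : cy p K t ≠ 0 := by
  rw [cy_eq, Ne, map_eq_zero, PadicInt.coe_eq_zero]
  exact (cycChar p t).ne_zero

/-- the determinant of `ρ` is the cyclotomic character -/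
theorem det_eq_cy {p : ℕ} [Fact p.Prime] {K : Type} [NontriviallyNormedField K] [NormedAlgebra ℚ_[p] K]
    {F : IntermediateField ℚ (AlgebraicClosure ℚ)} [NumberField F] {E : Subfield ℂ}
    {ρ : F.fixingSubgroup →* Matrix (Fin 2) (Fin 2) K} {ι : E →+* K} {C : Ideal (𝓞 F) → ℂ} {bad : Ideal (𝓞 F)}
    (hbad : bad ≠ ⊥) (hρ : Att (K := K) ι p (fun v => ¬ bad ≤ v) C ρ) (g : F.fixingSubgroup) :
    (ρ g).det = cy p K (g : (AlgebraicClosure ℚ) ≃ₐ[ℚ] (AlgebraicClosure ℚ)) := by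
  have hp : p.Prime := Fact.out
  have hdet : Continuous fun A : Matrix (Fin 2) (Fin 2) K => A.det := Continuous.matrix_det continuous_id
  have hch : Continuous fun g : F.fixingSubgroup => cy p K (g : (AlgebraicClosure ℚ) ≃ₐ[ℚ] (AlgebraicClosure ℚ)) := by
    have h0 : Continuous fun g : F.fixingSubgroup =>
        ((cycChar p (g : ((AlgebraicClosure ℚ) ≃ₐ[ℚ] (AlgebraicClosure ℚ))) : ℤ_[p]ˣ) : ℤ_[p]) :=
      Units.continuous_val.comp ((continuous_cycChar p).comp continuous_subtype_val)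
    exact (continuous_algebraMap ℚ_[p] K).comp (continuous_subtype_val.comp h0)
  have key := eq_of_frob (F := F) (fun g => (ρ g).det)
    (fun g => cy p K (g : (AlgebraicClosure ℚ) ≃ₐ[ℚ] (AlgebraicClosure ℚ)))
    (hdet.comp hρ.cont) hch (p + Ideal.absNorm bad) (by
      intro q P σ j hq hlt hP hqP hσ
      have hv : (P.comap (algebraMap (𝓞 F) (𝓞 (AlgebraicClosure ℚ)))).IsPrime := Ideal.comap_isPrime _ _
      have hN := absNorm_eq hq P hqP σ hσ
      have hqv : (q : 𝓞 F) ∈ P.comap (algebraMap (𝓞 F) (𝓞 (AlgebraicClosure ℚ))) := by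
        rw [Ideal.mem_comap, map_natCast]
        exact hqP
      obtain ⟨A, -, hA'⟩ := hρ.frob _ hv (by
          intro h0
          rw [h0, Ideal.mem_bot, Nat.cast_eq_zero] at hqv
          exact hq.ne_zero hqv) (by
          intro hle
          have h2 : 0 < Ideal.absNorm bad :=
            Nat.pos_of_ne_zero fun h0 => hbad (Ideal.absNorm_eq_zero_iff.1 h0)
          exact cast_notMem hv hq h2 (by omega) hqv (hle (Ideal.absNorm_mem bad)))
        (cast_notMem hv hq hp.pos (by omega) hqv) σ ⟨P, hP, rfl, by rw [hN]; exact hσ⟩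
      rw [Algebra.algebraMap_self, Polynomial.map_id, hN] at hA'
      have h2 := cycChar_frob p hq (by omega) P hP hqP (σ : ((AlgebraicClosure ℚ) ≃ₐ[ℚ] (AlgebraicClosure ℚ))) hσ
      show (ρ (σ ^ j)).det = cy p K ((σ ^ j : F.fixingSubgroup) : ((AlgebraicClosure ℚ) ≃ₐ[ℚ] (AlgebraicClosure ℚ)))
      rw [cy_eq, map_pow, Matrix.det_pow, det_of_charpoly hA', Subgroup.coe_pow, map_pow, Units.val_pow_eq_pow_val,
        h2]
      push_cast
      rfl)
  exact congrFun key g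

end Pool.Agent.H44.TW
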