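import Pool.Agent.H44.TW.Defs

/-!
# Semilinear extensions and the sign of the functional equation: definitions
-/

set_option autoImplicit false

open NumberField

namespace Pool.Agent.H44.TW

/-- the Euler product over the good primes `v`, with the eigenvalues `C v`, is entire and its order of vanishing `m` at the
centre `s = 0` satisfies `(-1)^m = w i^(∑ k_σ)` -/
def EulerSign {F : Type} [Field F] [NumberField F] (k : (F →+* ℝ) → ℕ) (w : ℂ) (bad : Ideal (𝓞 F))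
    (C : Ideal (𝓞 F) → ℂ) : Prop :=
  ∃ Λ : ℂ → ℂ, Differentiable ℂ Λ ∧
    (∀ s : ℂ, 1 < s.re → HasProd (fun v : Good bad =>
      (1 - C v.1 * (Ideal.absNorm v.1 : ℂ) ^ (-1 - s) + (Ideal.absNorm v.1 : ℂ) ^ (-1 - 2 * s))⁻¹) (Λ s)) ∧
    ∃ m : ℕ, analyticOrderAt Λ 0 = (m : ℕ∞) ∧ (-1 : ℂ) ^ m = w * Complex.I ^ (∑ σ : F →+* ℝ, k σ)

/-- the group of the pairs `(t, γ)`, `t` an automorphism of the algebraic closure of `ℚ`, `γ` an automorphism of `K` over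
`ℚ_p` -/
def Pr (p : ℕ) [Fact p.Prime] (K : Type) [NontriviallyNormedField K] [NormedAlgebra ℚ_[p] K] : Type :=
  ((AlgebraicClosure ℚ) ≃ₐ[ℚ] (AlgebraicClosure ℚ)) × (K ≃ₐ[ℚ_[p]] K)

noncomputable instance Pr.group (p : ℕ) [Fact p.Prime] (K : Type) [NontriviallyNormedField K] [NormedAlgebra ℚ_[p] K] :
    Group (Pr p K) :=
  (inferInstance : Group (((AlgebraicClosure ℚ) ≃ₐ[ℚ] (AlgebraicClosure ℚ)) × (K ≃ₐ[ℚ_[p]] K)))

/-- the pair `x = (t, γ)` fixes the newform with eigenvalues `C`: `γ` is continuous, `t` induces an automorphism `τ` of `F`,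
and `γ(ι(C(v))) = ι(C(τ v))` for the good primes `v` not above `p` -/
def Fixes {p : ℕ} [Fact p.Prime] {K : Type} [NontriviallyNormedField K] [NormedAlgebra ℚ_[p] K]
    {F : IntermediateField ℚ (AlgebraicClosure ℚ)} [NumberField F] {E : Subfield ℂ} (ι : E →+* K)
    (bad : Ideal (𝓞 F)) (C : Ideal (𝓞 F) → ℂ) (x : Pr p K) : Prop :=
  Continuous x.2 ∧ ∃ τ : F ≃ₐ[ℚ] F, (∀ y : F, x.1 y = τ y) ∧
    ∀ v : Ideal (𝓞 F), v.IsPrime → v ≠ ⊥ → ¬ bad ≤ v → (p : 𝓞 F) ∉ v → ∀ A A' : E, (A : ℂ) = C v →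
      (A' : ℂ) = C (v.map (RingOfIntegers.mapRingHom τ.toRingEquiv.toRingHom)) → x.2 (ι A) = ι A'

/-- `ρ` extends to a semilinear representation `R` of the group `𝒢` of pairs `x = (t, γ)` -/
def Extends {p : ℕ} [Fact p.Prime] {K : Type} [NontriviallyNormedField K] [NormedAlgebra ℚ_[p] K]
    {F : IntermediateField ℚ (AlgebraicClosure ℚ)} (ρ : F.fixingSubgroup →* Matrix (Fin 2) (Fin 2) K)
    (𝒢 : Subgroup (Pr p K)) : Prop :=
  ∃ R : Pr p K → Matrix (Fin 2) (Fin 2) K, (∀ x ∈ 𝒢, ∀ y ∈ 𝒢, R (x * y) = R x * (R y).map x.2) ∧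
    ∀ x ∈ 𝒢, ∀ g : F.fixingSubgroup, x.1 = g → x.2 = 1 → R x = ρ g

end Pool.Agent.H44.TW
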