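import Mathlib

/-!
# Determinants of projective semilinear actions
-/

set_option autoImplicit false

namespace Pool.Agent.H44.TW

/-- the matrix of a semilinear map -/
private noncomputable def smat {K V : Type} [Field K] [AddCommGroup V] [Module K V] {σ : K →+* K}
    (T : V →ₛₗ[σ] V) {d : ℕ} (b : Module.Basis (Fin d) K V) : Matrix (Fin d) (Fin d) K :=
  Matrix.of fun i j => b.repr (T (b j)) i

private theorem smat_comp {K V : Type} [Field K] [AddCommGroup V] [Module K V] {σ τ υ : K →+* K}
    (T : V →ₛₗ[σ] V) (S : V →ₛₗ[τ] V) (U : V →ₛₗ[υ] V) (a : K) (h : ∀ v, T (S v) = a • U v) {d : ℕ}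
    (b : Module.Basis (Fin d) K V) : smat T b * (smat S b).map σ = a • smat U b := by
  refine Matrix.ext fun i j => ?_
  rw [Matrix.mul_apply, Matrix.smul_apply]
  change ∑ l, b.repr (T (b l)) i * σ (b.repr (S (b j)) l) = a • b.repr (U (b j)) i
  have h1 := congrArg (fun v => b.repr v i) (h (b j))
  conv_lhs at h1 => rw [← b.sum_repr (S (b j))]
  rw [map_sum, map_sum, Finsupp.finsetSum_apply, map_smul, Finsupp.smul_apply] at h1
  rw [← h1]
  refine Finset.sum_congr rfl fun l _ => ?_
  rw [LinearMap.map_smulₛₗ, map_smul, Finsupp.smul_apply, smul_eq_mul, mul_comm]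

/-- the determinants of the operators of a projective semilinear action -/
theorem exists_det {G K V : Type} [Field K] [AddCommGroup V] [Module K V] [Mul G] (σ : G → K →+* K)
    (T : ∀ x : G, V →ₛₗ[σ x] V) (a : G → G → K) (hT : ∀ x y v, T x (T y v) = a x y • T (x * y) v) :
    ∃ δ : G → K, (∀ x y, δ x * σ x (δ y) = a x y ^ Module.finrank K V * δ (x * y)) ∧
      ∀ x (b : K), (∀ v, T x v = b • v) → δ x = b ^ Module.finrank K V := by
  rcases Nat.eq_zero_or_pos (Module.finrank K V) with h0 | hpos
  · refine ⟨fun _ => 1, fun x y => ?_, fun x b _ => ?_⟩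
    · rw [h0, pow_zero, map_one]
    · rw [h0, pow_zero]
  · have hfin : Module.Finite K V := Module.finite_of_finrank_pos hpos
    let b := Module.finBasis K V
    refine ⟨fun x => (smat (T x) b).det, fun x y => ?_, fun x c hx => ?_⟩
    · have h1 := congrArg Matrix.det (smat_comp (T x) (T y) (T (x * y)) (a x y) (hT x y) b)
      rw [Matrix.det_mul, Matrix.det_smul, Fintype.card_fin] at h1
      rw [← h1]
      congr 1
      exact RingHom.map_det (σ x) (smat (T y) b)
    · have h1 : smat (T x) b = c • (1 : Matrix (Fin (Module.finrank K V)) (Fin (Module.finrank K V)) K) := by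
        refine Matrix.ext fun i j => ?_
        change b.repr (T x (b j)) i = _
        rw [hx, map_smul, Finsupp.smul_apply, b.repr_self, Matrix.smul_apply, Matrix.one_apply,
          Finsupp.single_apply]
        simp only [eq_comm]
      show (smat (T x) b).det = _
      rw [h1, Matrix.det_smul, Matrix.det_one, mul_one, Fintype.card_fin]

end Pool.Agent.H44.TW
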