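import Pool.Agent.H44.TW.XMul
import Pool.Agent.H44.TW.XDefs
import Pool.Agent.H44.TW.XCyc
import Pool.Agent.H44.TW.XDet
import Pool.Agent.H44.TW.QTr

/-!
# Selmer groups of odd dimension and semilinear extensions of the representation
-/

set_option autoImplicit false

open NumberField Matrix Polynomial
open Pool.Agent.H44.PC

namespace Pool.Agent.H44.TW

variable {p : ℕ} [Fact p.Prime] {K : Type} [NontriviallyNormedField K] [NormedAlgebra ℚ_[p] K]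
  {F : IntermediateField ℚ (AlgebraicClosure ℚ)} [NumberField F] {E : Subfield ℂ}

private theorem ext_of_odd {bad : Ideal (𝓞 F)} (hbad : bad ≠ ⊥) {C : Ideal (𝓞 F) → ℂ} {ι : E →+* K}
    {ρ : F.fixingSubgroup →* Matrix (Fin 2) (Fin 2) K} (hirr : Submodule.span K (Set.range ρ) = ⊤)
    (hρ : Att (K := K) ι p (fun v => ¬ bad ≤ v) C ρ)
    (𝒢 : Subgroup (((AlgebraicClosure ℚ) ≃ₐ[ℚ] (AlgebraicClosure ℚ)) × (K ≃ₐ[ℚ_[p]] K)))
    (h𝒢 : ∀ x ∈ 𝒢, Continuous x.2 ∧ ∃ τ : F ≃ₐ[ℚ] F, (∀ y : F, x.1 y = τ y) ∧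
      ∀ v : Ideal (𝓞 F), v.IsPrime → v ≠ ⊥ → ¬ bad ≤ v → (p : 𝓞 F) ∉ v → ∀ A A' : E, (A : ℂ) = C v →
        (A' : ℂ) = C (v.map (RingOfIntegers.mapRingHom τ.toRingEquiv.toRingHom)) → x.2 (ι A) = ι A')
    (hodd : Odd (selDim ρ (AlgebraicClosure ℚ) p)) :
    ∃ R : 𝒢 → Matrix (Fin 2) (Fin 2) K, (∀ x y : 𝒢, R (x * y) = R x * (R y).map x.1.2) ∧
      ∀ (g : F.fixingSubgroup)
        (hg : ((g : (AlgebraicClosure ℚ) ≃ₐ[ℚ] (AlgebraicClosure ℚ)), (1 : K ≃ₐ[ℚ_[p]] K)) ∈ 𝒢), R ⟨_, hg⟩ = ρ g := by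
  have hp : p.Prime := Fact.out
  have hex : ∀ x : 𝒢, ∃ B B' : Matrix (Fin 2) (Fin 2) K, Sw ρ x.1.1 x.1.2 B B' := by
    intro x
    obtain ⟨hc, τ, hτ, hC⟩ := h𝒢 x.1 x.2
    refine exists_sw hirr (fun y hy => ?_) hc (trace_conj hp hbad hρ τ x.1.1 hτ x.1.2 hc hC)
    rw [hτ ⟨y, hy⟩]
    exact SetLike.coe_mem _
  choose B B' hB using hex
  have hmul : ∀ x y : 𝒢, ∃ a : K, B x * (B y).map x.1.2 = a • B (x * y) := fun x y =>
    exists_mul (hB x) (hB y) (hB (x * y)) hirr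
  choose a ha using hmul
  obtain ⟨δ, hδ, hδ2⟩ := exists_det (fun x : 𝒢 => hm x.1.2) (fun x => (hB x).opH) a
    (fun x y v => opH_mul (hB x) (hB y) (hB (x * y)) (a x y) (ha x y) v)
  change (∀ x y, δ x * x.1.2 (δ y) = a x y ^ selDim ρ (AlgebraicClosure ℚ) p * δ (x * y)) at hδ
  change (∀ x (b : K), (∀ v, (hB x).opH v = b • v) → δ x = b ^ selDim ρ (AlgebraicClosure ℚ) p) at hδ2
  obtain ⟨k, hk⟩ := hodd
  rw [hk] at hδ hδ2
  have hBu : ∀ x : 𝒢, (B x).det ≠ 0 := by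
    intro x h0
    have h1 := congrArg Matrix.det (hB x).inv
    rw [Matrix.det_mul, h0, zero_mul, Matrix.det_one] at h1
    exact zero_ne_one h1
  have hdet : ∀ x y : 𝒢, (B x).det * x.1.2 (B y).det = a x y ^ 2 * (B (x * y)).det := by
    intro x y
    have h1 := congrArg Matrix.det (ha x y)
    rw [Matrix.det_mul, Matrix.det_smul, Fintype.card_fin] at h1
    rw [← h1]
    congr 1
    exact RingHom.map_det (hm x.1.2) (B y)
  have ha0 : ∀ x y : 𝒢, a x y ≠ 0 := by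
    intro x y h0
    have h1 := hdet x y
    rw [h0, zero_pow two_ne_zero, zero_mul] at h1
    rcases mul_eq_zero.1 h1 with h2 | h2
    · exact hBu x h2
    · exact hBu y ((map_eq_zero_iff _ x.1.2.injective).1 h2)
  -- the elements of `G_F`
  have hG : ∀ (g : F.fixingSubgroup)
      (hg : ((g : (AlgebraicClosure ℚ) ≃ₐ[ℚ] (AlgebraicClosure ℚ)), (1 : K ≃ₐ[ℚ_[p]] K)) ∈ 𝒢), ∃ b : K,
      B ⟨_, hg⟩ = b • ρ g ∧ δ ⟨_, hg⟩ = b ^ (2 * k + 1) := by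
    intro g hg
    have h1 : ∀ x : K, (((⟨_, hg⟩ : 𝒢) : ((AlgebraicClosure ℚ) ≃ₐ[ℚ] (AlgebraicClosure ℚ)) × (K ≃ₐ[ℚ_[p]] K)).2)^[1] x = x :=
      fun x => rfl
    have h2 : ((⟨_, hg⟩ : 𝒢) : ((AlgebraicClosure ℚ) ≃ₐ[ℚ] (AlgebraicClosure ℚ)) × (K ≃ₐ[ℚ_[p]] K)).1 ^ 1 ∈
        F.fixingSubgroup := by
      rw [pow_one]
      exact g.2
    obtain ⟨c, hc⟩ := exists_scalar (hB ⟨_, hg⟩) hirr 1 h1 h2
    have h3 := opH_iter (hB ⟨_, hg⟩) 1 h1 h2 c hc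
    refine ⟨c, ?_, hδ2 _ c fun v => ?_⟩
    · have h4 : mprod (((⟨_, hg⟩ : 𝒢) : ((AlgebraicClosure ℚ) ≃ₐ[ℚ] (AlgebraicClosure ℚ)) × (K ≃ₐ[ℚ_[p]] K)).2)
          (B ⟨_, hg⟩) 1 = B ⟨_, hg⟩ := by
        show B ⟨_, hg⟩ * (1 : Matrix (Fin 2) (Fin 2) K).map _ = B ⟨_, hg⟩
        rw [Matrix.map_one _ (map_zero _) (map_one _), Matrix.mul_one]
      rw [h4] at hc
      rw [hc]
      congr 2
    · have h5 := h3 v
      rwa [Function.iterate_one] at h5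
  have hδ1 : δ 1 ≠ 0 := by
    obtain ⟨b, hb, hb2⟩ := hG 1 𝒢.one_mem
    have h1 : δ 1 = b ^ (2 * k + 1) := hb2
    rw [h1]
    refine pow_ne_zero _ ?_
    rintro rfl
    rw [zero_smul] at hb
    refine hBu 1 ?_
    have h2 : B 1 = 0 := hb
    rw [h2, Matrix.det_zero]
  have hδ0 : ∀ x : 𝒢, δ x ≠ 0 := by
    intro x h0
    have h1 := hδ x x⁻¹
    rw [h0, zero_mul, mul_inv_cancel] at h1
    exact (mul_ne_zero (pow_ne_zero _ (ha0 _ _)) hδ1) h1.symm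
  let e : 𝒢 → K := fun x => (B x).det ^ k * (δ x)⁻¹ * (cy p K x.1.1 ^ k)⁻¹
  refine ⟨fun x => e x • B x, fun x y => ?_, fun g hg => ?_⟩
  · have h1 : (e y • B y).map x.1.2 = x.1.2 (e y) • (B y).map x.1.2 := by
      ext i j
      simp only [Matrix.map_apply, Matrix.smul_apply, smul_eq_mul, map_mul]
    have h2 : x.1.2 (cy p K y.1.1) = cy p K y.1.1 := x.1.2.commutes _
    have h3 : x.1.2 (e y) = x.1.2 (B y).det ^ k * (x.1.2 (δ y))⁻¹ * (cy p K y.1.1 ^ k)⁻¹ := by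
      simp only [e, map_mul, map_pow, map_inv₀, h2]
    have h4 : e x * x.1.2 (e y) * a x y = e (x * y) := by
      rw [h3]
      simp only [e]
      have h5 : ((B x).det * x.1.2 (B y).det) ^ k = (a x y ^ 2 * (B (x * y)).det) ^ k := by rw [hdet]
      have h6 : cy p K (x * y).1.1 = cy p K x.1.1 * cy p K y.1.1 := cy_mul p K x.1.1 y.1.1
      rw [h6]
      have h7 : (δ x)⁻¹ * (x.1.2 (δ y))⁻¹ = (a x y ^ (2 * k + 1) * δ (x * y))⁻¹ := by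
        rw [← mul_inv, hδ]
      calc (B x).det ^ k * (δ x)⁻¹ * (cy p K x.1.1 ^ k)⁻¹ *
            (x.1.2 (B y).det ^ k * (x.1.2 (δ y))⁻¹ * (cy p K y.1.1 ^ k)⁻¹) * a x y
          = ((B x).det * x.1.2 (B y).det) ^ k * ((δ x)⁻¹ * (x.1.2 (δ y))⁻¹) *
            ((cy p K x.1.1 * cy p K y.1.1) ^ k)⁻¹ * a x y := by
            rw [mul_pow, mul_pow, mul_inv]; ring
        _ = (B (x * y)).det ^ k * (δ (x * y))⁻¹ * ((cy p K x.1.1 * cy p K y.1.1) ^ k)⁻¹ := by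
            rw [h5, h7]
            have h8 := ha0 x y
            have h9 := hδ0 (x * y)
            have h10 := cy_ne_zero p K x.1.1
            have h11 := cy_ne_zero p K y.1.1
            field_simp
            ring
    show e (x * y) • B (x * y) = e x • B x * (e y • B y).map x.1.2
    rw [h1, Matrix.smul_mul, Matrix.mul_smul, ha x y, smul_smul, smul_smul, h4]
  · obtain ⟨b, hb, hb2⟩ := hG g hg
    show e ⟨_, hg⟩ • B ⟨_, hg⟩ = ρ g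
    have hb0 : b ≠ 0 := by
      rintro rfl
      rw [zero_smul] at hb
      refine hBu ⟨_, hg⟩ ?_
      rw [hb, Matrix.det_zero]
    have h1 : (ρ g).det = cy p K g := det_eq_cy hbad hρ g
    have h2 : (B ⟨_, hg⟩).det = b ^ 2 * cy p K g := by
      rw [hb, Matrix.det_smul, Fintype.card_fin, h1]
    have h3 := cy_ne_zero p K (g : (AlgebraicClosure ℚ) ≃ₐ[ℚ] (AlgebraicClosure ℚ))
    have h4 : e ⟨_, hg⟩ = b⁻¹ := by
      show (B ⟨_, hg⟩).det ^ k * (δ ⟨_, hg⟩)⁻¹ * (cy p K g ^ k)⁻¹ = b⁻¹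
      rw [h2, hb2]
      field_simp
      ring
    rw [h4, hb, smul_smul, inv_mul_cancel₀ hb0, one_smul]

theorem extends_of_odd {bad : Ideal (𝓞 F)} (hbad : bad ≠ ⊥) {C : Ideal (𝓞 F) → ℂ} {ι : E →+* K}
    {ρ : F.fixingSubgroup →* Matrix (Fin 2) (Fin 2) K} (hirr : Submodule.span K (Set.range ρ) = ⊤)
    (hρ : Att (K := K) ι p (fun v => ¬ bad ≤ v) C ρ) (𝒢 : Subgroup (Pr p K)) (h𝒢 : ∀ x ∈ 𝒢, Fixes ι bad C x)
    (hodd : Odd (selDim ρ (AlgebraicClosure ℚ) p)) : Extends ρ 𝒢 := by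
  classical
  obtain ⟨R, hR, hRρ⟩ := ext_of_odd hbad hirr hρ 𝒢 h𝒢 hodd
  let R' : Pr p K → Matrix (Fin 2) (Fin 2) K := fun x => if h : x ∈ 𝒢 then R ⟨x, h⟩ else 0
  have hR' : ∀ (x : Pr p K) (hx : x ∈ 𝒢), R' x = R ⟨x, hx⟩ := fun x hx => dif_pos hx
  refine ⟨R', fun x hx y hy => ?_, fun x hx g hg h1 => ?_⟩
  · rw [hR' x hx, hR' y hy, hR' _ (𝒢.mul_mem hx hy)]
    exact hR ⟨x, hx⟩ ⟨y, hy⟩
  · rw [hR' x hx]
    have h2 : x = (((g : (AlgebraicClosure ℚ) ≃ₐ[ℚ] (AlgebraicClosure ℚ)), (1 : K ≃ₐ[ℚ_[p]] K)) : Pr p K) :=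
      Prod.ext hg h1
    subst h2
    exact hRρ g hx

end Pool.Agent.H44.TW
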