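import Pool.Agent.H44.TW.QInt
import Pool.Agent.H44.PC.Conj

/-!
# Products of the operators on the Selmer group
-/

set_option autoImplicit false

open NumberField Matrix
open Pool.Agent.H44.PC

namespace Pool.Agent.H44.TW

variable {p : ℕ} [Fact p.Prime] {K : Type} [NontriviallyNormedField K] [NormedAlgebra ℚ_[p] K]
  {F : IntermediateField ℚ (AlgebraicClosure ℚ)} {ρ : F.fixingSubgroup →* Matrix (Fin 2) (Fin 2) K}
  {t t' : (AlgebraicClosure ℚ) ≃ₐ[ℚ] (AlgebraicClosure ℚ)} {γ γ' : K ≃ₐ[ℚ_[p]] K}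
  {B B' C C' D D' : Matrix (Fin 2) (Fin 2) K}

private theorem xm_map_mul (γ : K ≃ₐ[ℚ_[p]] K) (M N : Matrix (Fin 2) (Fin 2) K) :
    (M * N).map γ = M.map γ * N.map γ := Matrix.map_mul

private theorem xm_gmul (γ : K ≃ₐ[ℚ_[p]] K) (M : Matrix (Fin 2) (Fin 2) K) (v : Fin 2 → K) :
    (fun i => γ (M.mulVec v i)) = (M.map γ).mulVec fun i => γ (v i) := by
  funext i
  simp only [Matrix.mulVec, dotProduct, Matrix.map_apply, map_sum, map_mul]

private theorem xm_cj (h : Sw ρ t γ B B') (h' : Sw ρ t' γ' C C') (h'' : Sw ρ (t * t') (γ * γ') D D')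
    (g : F.fixingSubgroup) : h'.cj (h.cj g) = h''.cj g := by
  apply Subtype.ext
  show t'⁻¹ * (t⁻¹ * (g : (AlgebraicClosure ℚ) ≃ₐ[ℚ] (AlgebraicClosure ℚ)) * t) * t' =
    (t * t')⁻¹ * (g : (AlgebraicClosure ℚ) ≃ₐ[ℚ] (AlgebraicClosure ℚ)) * (t * t')
  group

/-- the product of two intertwining matrices is a multiple of the third -/
theorem exists_mul (h : Sw ρ t γ B B') (h' : Sw ρ t' γ' C C') (h'' : Sw ρ (t * t') (γ * γ') D D')
    (hirr : Submodule.span K (Set.range ρ) = ⊤) : ∃ a : K, B * C.map γ = a • D := by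
  have hM : ∀ g : F.fixingSubgroup,
      B * C.map γ * (ρ (h''.cj g)).map (γ * γ') = ρ g * (B * C.map γ) := by
    intro g
    have h1 : (ρ (h''.cj g)).map (γ * γ') = ((ρ (h'.cj (h.cj g))).map γ').map γ := by
      rw [xm_cj h h' h'' g]
      ext i j
      rfl
    have h2 : B * (ρ (h.cj g)).map γ = ρ g * B := h.int g
    have h3 : C * (ρ (h'.cj (h.cj g))).map γ' = ρ (h.cj g) * C := h'.int (h.cj g)
    rw [h1, mul_assoc, ← xm_map_mul, h3, xm_map_mul, ← mul_assoc, h2, mul_assoc]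
  have hcomm : ∀ A ∈ Set.range ρ, (B * C.map γ * D') * A = A * (B * C.map γ * D') := by
    rintro _ ⟨g, rfl⟩
    have h4 : D * (ρ (h''.cj g)).map (γ * γ') = ρ g * D := h''.int g
    have h5 : D' * ρ g = (ρ (h''.cj g)).map (γ * γ') * D' := by
      calc D' * ρ g = D' * (ρ g * (D * D')) := by rw [h''.inv, mul_one]
        _ = D' * (ρ g * D * D') := by rw [mul_assoc (ρ g)]
        _ = D' * (D * (ρ (h''.cj g)).map (γ * γ') * D') := by rw [h4]
        _ = D' * D * (ρ (h''.cj g)).map (γ * γ') * D' := by simp only [mul_assoc]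
        _ = (ρ (h''.cj g)).map (γ * γ') * D' := by rw [h''.inv', one_mul]
    rw [mul_assoc, h5, ← mul_assoc, hM g, mul_assoc]
  obtain ⟨a, ha⟩ := scalar_of_comm hirr _ hcomm
  refine ⟨a, ?_⟩
  have h6 : B * C.map γ = B * C.map γ * D' * D := by rw [mul_assoc (B * C.map γ), h''.inv', mul_one]
  rw [h6, ha, smul_mul_assoc, one_mul]

/-- the product of two of the operators on `H^1_f` -/
theorem opH_mul (h : Sw ρ t γ B B') (h' : Sw ρ t' γ' C C') (h'' : Sw ρ (t * t') (γ * γ') D D') (a : K)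
    (ha : B * C.map γ = a • D) (x : Quo (Z1f (AlgebraicClosure ℚ) p (vec ρ)) (B1 (vec ρ))) :
    h.opH (h'.opH x) = a • h''.opH x := by
  obtain ⟨z, rfl⟩ := Tw.cls_surj x
  rw [Sw.opH_cls, Sw.opH_cls, Sw.opH_cls, ← map_smul]
  congr 1
  apply Subtype.ext
  show h.op (h'.op (z : F.fixingSubgroup → Fin 2 → K)) = a • h''.op (z : F.fixingSubgroup → Fin 2 → K)
  funext g
  show B.mulVec (fun i => γ (C.mulVec (fun k => γ' ((z : F.fixingSubgroup → Fin 2 → K) (h'.cj (h.cj g)) k)) i)) =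
    a • D.mulVec fun i => γ (γ' ((z : F.fixingSubgroup → Fin 2 → K) (h''.cj g) i))
  rw [xm_gmul, Matrix.mulVec_mulVec, ha, Matrix.smul_mulVec, xm_cj h h' h'' g]

end Pool.Agent.H44.TW
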